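import Pool.Agent.H424.RB.Base
-- target proved, compiled with default heartbeats in 5 s, axioms propext/choice/Quot.sound

/-!
# Job RB-CNT1: counting integers close to a primorial

Plain-words proof of the target.  `n` is determined by the triple `(a, m, S)` with
`a = n / ∏_{p | n} p`, `m = ∏_{p | n, p > 2q} p`, `S = dif q n`: a prime `p ≤ 2q` divides `n` iff
(`p ≤ q` and `p ∉ S`) or (`p > q` and `p ∈ S`), so `S` gives the primes `≤ 2q` dividing `n`, and
`n = a · m · ∏_{p | n, p ≤ 2q} p`.  (`∏_{p ∈ n.primeFactors} p ∣ n`: `Nat.prod_primeFactors_dvd`.)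
 * `log a = log n - ∑_{p|n} log p ≤ B1`, so `a ∈ [1, e^{B1}]`: at most `e^{B1}` values.
 * `log m ≤ B2`: at most `e^{B2}` values.
 * `S ⊆ {1, …, 2q}` with `∑_{p ∈ S} |p - q| ≤ B3`.  If `#S = k`: at most two integers are at each distance `≥ 1` from `q`
   and one is at distance `0`, so for every `r ≥ 1` at most `2r - 1` elements of `S` are at distance `< r`; hence
   `B3 ≥ ∑_{p∈S} |p - q| ≥ r (k - (2r - 1))`... choose `r` suitably; or: sort the distances, the `i`-th smallest
   (`i = 0, 1, …`) is `≥ ⌈i/2⌉ ≥ i/2`, so the sum is `≥ ∑_{i<k} i/2 = k(k-1)/4 ≥ (k-1)²/4`.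
   So `k ≤ 2√B3 + 1`.  The number of subsets of `{1, …, 2q}` with at most `K` elements (`K = ⌊2√B3 + 1⌋`) is at most
   `(2q+1)^K ≤ (2q+1)^(2√B3+2)` (each nonempty one is the image of a map `Fin K → {0,…,2q}` minus `0`, etc.).
-/

set_option autoImplicit false

namespace Pool.Agent.H424.RB

open Filter Topology Set

/-- the sum of the distances to `q` of `k` distinct integers is at least `k (k - 1) / 4` -/
theorem sum_dist (q : ℕ) : ∀ (k : ℕ) (S : Finset ℕ), S.card = k →
    (k : ℝ) * (k - 1) / 4 ≤ ∑ p ∈ S, |(p : ℝ) - q| := by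
  intro k
  induction k with
  | zero =>
    intro S hS
    rw [Finset.card_eq_zero.1 hS]
    simp
  | succ k ih =>
    intro S hS
    have hne : S.Nonempty := by
      rw [← Finset.card_pos]
      omega
    obtain ⟨x, hx, hmax⟩ := S.exists_max_image (fun p => |(p : ℝ) - q|) hne
    have hd : (k : ℝ) / 2 ≤ |(x : ℝ) - q| := by
      have hcast : ∀ p : ℕ, |(p : ℝ) - q| = (((p : ℤ) - q).natAbs : ℝ) := by
        intro p
        rw [Nat.cast_natAbs]
        push_cast
        rfl
      set d : ℕ := ((x : ℤ) - q).natAbs with hdd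
      have hsub : S ⊆ Finset.Icc (q - d) (q + d) := by
        intro p hp
        have h1 := hmax p hp
        rw [hcast p, hcast x] at h1
        have h2 : ((p : ℤ) - q).natAbs ≤ d := Nat.cast_le.1 h1
        rw [Finset.mem_Icc]
        constructor <;> omega
      have h3 := Finset.card_le_card hsub
      rw [hS, Nat.card_Icc] at h3
      have h4 : k ≤ 2 * d := by omega
      have h5 : (k : ℝ) ≤ 2 * d := by exact_mod_cast h4
      rw [hcast x]
      linarith
    rw [← Finset.add_sum_erase S _ hx]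
    have h1 := ih (S.erase x) (by rw [Finset.card_erase_of_mem hx, hS]; rfl)
    push_cast
    linarith

theorem card_small (N K : ℕ) :
    ((Finset.Icc 1 N).powerset.filter fun S => S.card ≤ K).card ≤ (N + 1) ^ K := by
  classical
  have hsub : ((Finset.Icc 1 N).powerset.filter fun S => S.card ≤ K) ⊆
      (Finset.univ : Finset (Fin K → Fin (N + 1))).image
        (fun f => (Finset.univ.image (fun i => (f i : ℕ))).erase 0) := by
    intro S hS
    rw [Finset.mem_filter, Finset.mem_powerset] at hS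
    obtain ⟨hS1, hS2⟩ := hS
    rw [Finset.mem_image]
    have hlt : ∀ x ∈ S, 1 ≤ x ∧ x < N + 1 := by
      intro x hx
      have := Finset.mem_Icc.1 (hS1 hx)
      omega
    refine ⟨fun i => if h : (i : ℕ) < S.card then
      ⟨S.orderEmbOfFin rfl ⟨i, h⟩, (hlt _ (Finset.orderEmbOfFin_mem S rfl _)).2⟩ else 0,
      Finset.mem_univ _, ?_⟩
    ext x
    rw [Finset.mem_erase, Finset.mem_image]
    constructor
    · rintro ⟨hx0, i, -, hi⟩
      by_cases h : (i : ℕ) < S.card
      · simp only [dif_pos h] at hi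
        rw [← hi]
        exact Finset.orderEmbOfFin_mem S rfl _
      · simp only [dif_neg h] at hi
        exact absurd hi.symm hx0
    · intro hx
      refine ⟨by have := (hlt x hx).1; omega, ?_⟩
      have h1 : x ∈ Set.range (S.orderEmbOfFin rfl) := by
        rw [Finset.range_orderEmbOfFin]
        exact hx
      obtain ⟨j, hj⟩ := h1
      refine ⟨⟨j, j.2.trans_le hS2⟩, Finset.mem_univ _, ?_⟩
      simp only [dif_pos (show ((⟨j, j.2.trans_le hS2⟩ : Fin K) : ℕ) < S.card from j.2)]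
      exact hj
  refine (Finset.card_le_card hsub).trans ?_
  refine Finset.card_image_le.trans ?_
  rw [Finset.card_univ, Fintype.card_fun, Fintype.card_fin, Fintype.card_fin]

/-- the primes `≤ 2 q` dividing `n` are given by `dif q n` -/
theorem small_primes (q : ℕ) {n : ℕ} (hn : 1 ≤ n) :
    n.primeFactors.filter (fun p => ¬ 2 * q < p) =
      (Finset.Icc 1 (2 * q)).filter fun p => p.Prime ∧
        ((p ≤ q ∧ p ∉ dif q n) ∨ (q < p ∧ p ∈ dif q n)) := by
  ext p
  unfold dif
  simp only [Finset.mem_filter, Finset.mem_Icc, Nat.mem_primeFactors, not_lt]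
  constructor
  · rintro ⟨⟨hp, hd, -⟩, hq⟩
    refine ⟨⟨hp.one_le, hq⟩, hp, ?_⟩
    rcases le_or_gt p q with h | h
    · left
      refine ⟨h, ?_⟩
      rintro ⟨-, -, h2 | h2⟩
      · exact h2.2 hd
      · omega
    · right
      exact ⟨h, ⟨hp.one_le, hq⟩, hp, Or.inr ⟨h, hd⟩⟩
  · rintro ⟨⟨h1, hq⟩, hp, h | h⟩
    · refine ⟨⟨hp, ?_, by omega⟩, hq⟩
      by_contra hnd
      exact h.2 ⟨⟨h1, hq⟩, hp, Or.inl ⟨h.1, hnd⟩⟩
    · refine ⟨⟨hp, ?_, by omega⟩, hq⟩
      obtain ⟨h3, -, -, h4 | h4⟩ := h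
      · omega
      · exact h4.2

/-- TARGET -/
theorem count_near (q : ℕ) {B1 B2 B3 : ℝ} (hB1 : 0 ≤ B1) (hB2 : 0 ≤ B2) (hB3 : 0 ≤ B3) (T : Finset ℕ)
    (hT : ∀ n ∈ T, 1 ≤ n ∧ Real.log n - ∑ p ∈ n.primeFactors, Real.log p ≤ B1 ∧
      ∑ p ∈ n.primeFactors.filter (fun p => 2 * q < p), Real.log p ≤ B2 ∧
      ∑ p ∈ dif q n, |(p : ℝ) - q| ≤ B3) :
    (T.card : ℝ) ≤ Real.exp (B1 + B2) * (2 * (q : ℝ) + 1) ^ (2 * √B3 + 2) := by
  classical
  set K : ℕ := ⌊2 * √B3 + 1⌋₊ with hK
  let F : ℕ → ℕ × ℕ × Finset ℕ := fun n =>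
    (n / ∏ p ∈ n.primeFactors, p, ∏ p ∈ n.primeFactors.filter (fun p => 2 * q < p), p, dif q n)
  have hpos : ∀ (s : Finset ℕ) (n : ℕ), s ⊆ n.primeFactors → 0 < ∏ p ∈ s, p := by
    intro s n hs
    exact Finset.prod_pos fun p hp => (Nat.prime_of_mem_primeFactors (hs hp)).pos
  have hlog : ∀ (s : Finset ℕ) (n : ℕ), s ⊆ n.primeFactors →
      Real.log ((∏ p ∈ s, p : ℕ) : ℝ) = ∑ p ∈ s, Real.log p := by
    intro s n hs
    rw [Nat.cast_prod, Real.log_prod]
    intro p hp
    have := (Nat.prime_of_mem_primeFactors (hs hp)).ne_zero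
    exact_mod_cast this
  have hmaps : ∀ n ∈ T, F n ∈ (Finset.Icc 1 ⌊Real.exp B1⌋₊) ×ˢ ((Finset.Icc 1 ⌊Real.exp B2⌋₊) ×ˢ
      ((Finset.Icc 1 (2 * q)).powerset.filter fun S => S.card ≤ K)) := by
    intro n hn
    obtain ⟨h1, h2, h3, h4⟩ := hT n hn
    have hrad := hpos n.primeFactors n (Finset.Subset.refl _)
    have hdvd := Nat.prod_primeFactors_dvd n
    rw [Finset.mem_product, Finset.mem_product]
    refine ⟨?_, ?_, ?_⟩
    · have ha : 0 < n / ∏ p ∈ n.primeFactors, p :=
        Nat.div_pos (Nat.le_of_dvd (by omega) hdvd) hrad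
      rw [Finset.mem_Icc]
      refine ⟨ha, ?_⟩
      apply Nat.le_floor
      have ha' : (0 : ℝ) < ((n / ∏ p ∈ n.primeFactors, p : ℕ) : ℝ) := by exact_mod_cast ha
      rw [← Real.log_le_iff_le_exp ha', Nat.cast_div hdvd (by exact_mod_cast hrad.ne'),
        Real.log_div (by exact_mod_cast (show n ≠ 0 by omega)) (by exact_mod_cast hrad.ne'),
        hlog _ n (Finset.Subset.refl _)]
      exact h2
    · have hm := hpos (n.primeFactors.filter (fun p => 2 * q < p)) n (Finset.filter_subset _ _)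
      rw [Finset.mem_Icc]
      refine ⟨hm, ?_⟩
      apply Nat.le_floor
      rw [← Real.log_le_iff_le_exp (by exact_mod_cast hm), hlog _ n (Finset.filter_subset _ _)]
      exact h3
    · rw [Finset.mem_filter, Finset.mem_powerset]
      refine ⟨Finset.filter_subset _ _, ?_⟩
      apply Nat.le_floor
      have h5 := (sum_dist q _ (dif q n) rfl).trans h4
      change ((dif q n).card : ℝ) ≤ 2 * √B3 + 1
      rcases Nat.eq_zero_or_pos (dif q n).card with h0 | h0
      · rw [h0]
        have := Real.sqrt_nonneg B3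
        push_cast
        linarith
      · have h6 : (1 : ℝ) ≤ (dif q n).card := by exact_mod_cast h0
        have h7 : (((dif q n).card : ℝ) - 1) / 2 ≤ √B3 := by
          apply Real.le_sqrt_of_sq_le
          nlinarith
        linarith
  have hinj : Set.InjOn F T := by
    intro n hn n' hn' h
    obtain ⟨h1, -⟩ := hT n hn
    obtain ⟨h1', -⟩ := hT n' hn'
    have key : ∀ {n : ℕ}, 1 ≤ n → n = (F n).1 * ((F n).2.1 *
        ∏ p ∈ (Finset.Icc 1 (2 * q)).filter (fun p => p.Prime ∧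
        ((p ≤ q ∧ p ∉ (F n).2.2) ∨ (q < p ∧ p ∈ (F n).2.2))), p) := by
      intro n hn
      have e1 : (F n).2.1 * ∏ p ∈ (Finset.Icc 1 (2 * q)).filter (fun p => p.Prime ∧
        ((p ≤ q ∧ p ∉ (F n).2.2) ∨ (q < p ∧ p ∈ (F n).2.2))), p = ∏ p ∈ n.primeFactors, p := by
        change (∏ p ∈ n.primeFactors.filter (fun p => 2 * q < p), p) * _ = _
        rw [← small_primes q hn]
        exact Finset.prod_filter_mul_prod_filter_not _ _ _
      rw [e1]
      exact (Nat.div_mul_cancel (Nat.prod_primeFactors_dvd n)).symm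
    rw [key h1, key h1', h]
  have hcard := Finset.card_le_card_of_injOn F hmaps hinj
  rw [Finset.card_product, Finset.card_product, Nat.card_Icc, Nat.card_Icc, Nat.add_sub_cancel,
    Nat.add_sub_cancel] at hcard
  have h1 : ((T.card : ℕ) : ℝ) ≤ (⌊Real.exp B1⌋₊ : ℝ) * ((⌊Real.exp B2⌋₊ : ℝ) *
      ((((Finset.Icc 1 (2 * q)).powerset.filter fun S => S.card ≤ K).card : ℕ) : ℝ)) := by
    exact_mod_cast hcard
  refine h1.trans ?_
  rw [Real.exp_add, mul_assoc]
  have h2 : (⌊Real.exp B1⌋₊ : ℝ) ≤ Real.exp B1 := Nat.floor_le (Real.exp_pos _).le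
  have h3 : (⌊Real.exp B2⌋₊ : ℝ) ≤ Real.exp B2 := Nat.floor_le (Real.exp_pos _).le
  have h4 : ((((Finset.Icc 1 (2 * q)).powerset.filter fun S => S.card ≤ K).card : ℕ) : ℝ) ≤
      (2 * (q : ℝ) + 1) ^ (2 * √B3 + 2) := by
    have h5 : ((((Finset.Icc 1 (2 * q)).powerset.filter fun S => S.card ≤ K).card : ℕ) : ℝ) ≤
        (2 * (q : ℝ) + 1) ^ K := by
      exact_mod_cast card_small (2 * q) K
    refine h5.trans ?_
    rw [← Real.rpow_natCast]
    apply Real.rpow_le_rpow_of_exponent_le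
    · have : (0 : ℝ) ≤ q := Nat.cast_nonneg q
      linarith
    · have h6 : (K : ℝ) ≤ 2 * √B3 + 1 := Nat.floor_le (by positivity)
      linarith
  exact mul_le_mul h2 (mul_le_mul h3 h4 (Nat.cast_nonneg _) (Real.exp_pos _).le)
    (by positivity) (Real.exp_pos _).le

end Pool.Agent.H424.RB
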