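import Pool.Agent.H424.RB.Key
import Pool.Agent.H424.RB.Cnt1


/-!
# Job RB-CNT2: the number of exceptions, from an upper bound for `mar`

`Pr y = ∑_{p ≤ y} -log(1 - 1/p)`, `mar y = Pr y - γ - log log θ(y)`, `θ = Chebyshev.theta`,
`eulerExceptions N = #{1 ≤ n ≤ N : e^γ log log n · φ(n) ≤ n}`.

Plain-words proof of the target.
Enlarge `y0` so that `y0 ≥ 3` and `θ(y) ≥ y/2` for `y ≥ y0` (`theta_pnt`, `A = 1`).
Let `N` be large and let `n ≤ N` be exceptional, `n ≥ 6`.  Let `q` be the largest prime with `θ(q) ≤ log n`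
(`θ(3) = log 6`, so `q ≥ 3`; there are finitely many such primes as `θ` is unbounded).  By Bertrand's postulate
(`Nat.exists_prime_lt_and_le_two_mul`) the next prime `q'` is `≤ 2q`, and `θ(q') = θ(q) + log q' > log n` by maximality, so
`θ(q) ≤ log n ≤ θ(q) + log(2q)`.
Case `q < y0`: then `log n ≤ θ(y0) + log(2 y0)`, so there are at most `K0 := exp(θ(y0) + log(2 y0))` such `n`.
Case `q ≥ y0`: then `q/2 ≤ θ(q) ≤ log n ≤ log N`, so `q ≤ 2 log N`.  By `key_ineq` (with `δ` given by `h` at `y = q`) and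
`count_near` the number of such `n` for a given `q` is at most `exp(3 B) (2q+1)^(2√B3 + 2)`, where
`B = q log q (δ + 4/q)`, `B3 = 2q²(δ + 4/q) = 2(q²δ + 4q) ≤ 8 Φ(q)²`, so `√B3 ≤ 3Φ(q)`; and
`B = (log q/q)(q²δ + 4q) ≤ 4 (log q/q)(q²δ + q)`, where `q²δ + q ≤ Φ(q)²` and `q²δ + q ≤ 2q²` (as `δ ≤ 1`), so
`q²δ + q ≤ Φ(q) · √2 q ≤ 2 q Φ(q)`, thus `B ≤ 8 log q Φ(q)`.  Also `Φ(q) ≥ √q ≥ 1`, `log(2q+1) ≤ 2 log q`·(say, `q ≥ 3`:
`2q + 1 ≤ q²` holds for `q ≥ 3`).  So the number is at most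
`exp(24 log q Φ(q) + (6Φ(q) + 2)·2 log q) ≤ exp(40 log q Φ(q)) ≤ exp(40 log(2 log N) Φ(2 log N))` by monotonicity.
Summing over the at most `2 log N` values of `q`:
`eulerExceptions N ≤ K0 + 5 + 2 log N · exp(40 log(2 log N) Φ(2 log N)) ≤ exp(C log log N Φ(2 log N))` for large `N`, since
`Φ(2 log N) ≥ √(2 log N) → ∞` and `log(2 log N) ≤ 2 log log N`.
-/

set_option autoImplicit false

namespace Pool.Agent.H424.RB

open MeasureTheory Filter Topology Set

theorem cnt2_theta_three : Chebyshev.theta 3 = Real.log 6 := by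
  rw [Chebyshev.theta_eq_log_primorial]
  have h : ⌊(3 : ℝ)⌋₊ = 3 := by exact_mod_cast Nat.floor_natCast (R := ℝ) 3
  rw [h]
  have h2 : primorial 3 = 6 := by decide
  rw [h2]
  norm_num

theorem cnt2_theta_next {q q' : ℕ} (hq' : q'.Prime) (hlt : q < q')
    (hmin : ∀ p, q < p → p < q' → ¬ p.Prime) :
    Chebyshev.theta q' = Chebyshev.theta q + Real.log q' := by
  unfold Chebyshev.theta
  rw [Nat.floor_natCast, Nat.floor_natCast]
  have h : (Finset.Ioc 0 q').filter Nat.Prime = insert q' ((Finset.Ioc 0 q).filter Nat.Prime) := by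
    ext p
    simp only [Finset.mem_filter, Finset.mem_Ioc, Finset.mem_insert]
    constructor
    · rintro ⟨⟨h0, h1⟩, hp⟩
      rcases h1.lt_or_eq with h2 | h2
      · right
        refine ⟨⟨h0, ?_⟩, hp⟩
        by_contra h3
        exact hmin p (by omega) h2 hp
      · left; exact h2
    · rintro (rfl | ⟨⟨h0, h1⟩, hp⟩)
      · exact ⟨⟨hq'.pos, le_rfl⟩, hq'⟩
      · exact ⟨⟨h0, by omega⟩, hp⟩
  rw [h, Finset.sum_insert (by simp only [Finset.mem_filter, Finset.mem_Ioc]; omega), add_comm]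

theorem cnt2_exists_q (x : ℝ) (hx : Real.log 6 ≤ x)
    (hub : ∃ Q : ℕ, ∀ p : ℕ, Q ≤ p → x < Chebyshev.theta p) :
    ∃ q : ℕ, q.Prime ∧ 3 ≤ q ∧ Chebyshev.theta q ≤ x ∧
      x ≤ Chebyshev.theta q + Real.log (2 * q) := by
  classical
  obtain ⟨Q, hQ⟩ := hub
  set S := (Finset.range Q).filter fun q : ℕ => q.Prime ∧ Chebyshev.theta (q : ℝ) ≤ x with hS
  have hmem : ∀ q : ℕ, q.Prime → Chebyshev.theta (q : ℝ) ≤ x → q ∈ S := by
    intro q hq hqx
    rw [hS, Finset.mem_filter, Finset.mem_range]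
    refine ⟨?_, hq, hqx⟩
    by_contra h
    exact absurd hqx (not_le.2 (hQ q (not_lt.1 h)))
  have h3 : 3 ∈ S := hmem 3 Nat.prime_three (by
    have := cnt2_theta_three
    push_cast
    rw [this]; exact hx)
  set q := S.max' ⟨3, h3⟩ with hq
  have hqS : q ∈ S := S.max'_mem _
  have hqS' := hqS
  rw [hS, Finset.mem_filter] at hqS'
  obtain ⟨_, hqp, hqx⟩ := hqS'
  have hex : ∃ p : ℕ, q < p ∧ p.Prime := by
    obtain ⟨p, hp, h1, _⟩ := Nat.exists_prime_lt_and_le_two_mul q hqp.ne_zero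
    exact ⟨p, h1, hp⟩
  set q' := Nat.find hex with hq'
  obtain ⟨hlt, hq'p⟩ := Nat.find_spec hex
  have hle : q' ≤ 2 * q := by
    obtain ⟨p, hp, h1, h2⟩ := Nat.exists_prime_lt_and_le_two_mul q hqp.ne_zero
    exact le_trans (Nat.find_min' hex ⟨h1, hp⟩) h2
  have hmin : ∀ p, q < p → p < q' → ¬ p.Prime := by
    intro p h1 h2 h4
    exact Nat.find_min hex h2 ⟨h1, h4⟩
  have hth := cnt2_theta_next hq'p hlt hmin
  have hgt : x < Chebyshev.theta (q' : ℝ) := by
    by_contra h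
    have := S.le_max' q' (hmem q' hq'p (not_lt.1 h))
    have h5 : q < q' := hlt
    omega
  refine ⟨q, hqp, S.le_max' 3 h3, hqx, ?_⟩
  have hlog : Real.log (q' : ℝ) ≤ Real.log (2 * q) := by
    apply Real.log_le_log
    · exact_mod_cast hq'p.pos
    · exact_mod_cast hle
  linarith

/-- the bound for one value of `q` -/
theorem cnt2_one {q : ℕ} (hq : q.Prime) (hq3 : 3 ≤ q) {φ δ : ℝ} (hφ : 0 ≤ φ) (hδ : 0 ≤ δ)
    (hδ1 : δ ≤ 1) (hm : mar q ≤ δ) (hX : (q : ℝ) ^ 2 * δ + q ≤ φ ^ 2) (T : Finset ℕ)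
    (hT : ∀ n ∈ T, 1 ≤ n ∧ Chebyshev.theta q ≤ Real.log n ∧
      Real.log n ≤ Chebyshev.theta q + Real.log (2 * q) ∧
      Real.exp Real.eulerMascheroniConstant * Real.log (Real.log n) * (Nat.totient n : ℝ) ≤ n) :
    (T.card : ℝ) ≤ Real.exp (40 * Real.log q * φ) := by
  have hq3' : (3 : ℝ) ≤ q := by exact_mod_cast hq3
  have hq0 : (0 : ℝ) < q := by linarith
  have hlog1 : 1 ≤ Real.log q := by
    rw [Real.le_log_iff_exp_le hq0]
    have := Real.exp_one_lt_d9
    linarith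
  set B := (q : ℝ) * Real.log q * (δ + 4 / q) with hB
  set B3 := 2 * (q : ℝ) ^ 2 * (δ + 4 / q) with hB3
  have hB0 : 0 ≤ B := by positivity
  have hB30 : 0 ≤ B3 := by positivity
  have hcard := count_near q hB0 (by positivity : (0 : ℝ) ≤ 2 * B) hB30 T (by
    intro n hn
    obtain ⟨h1, h2, h3, h4⟩ := hT n hn
    exact ⟨h1, key_ineq hq hq3 hδ hm h1 h2 h3 h4⟩)
  refine le_trans hcard ?_
  set X := (q : ℝ) ^ 2 * δ + q with hXdef
  have hX0 : 0 ≤ X := by positivity
  have hX1 : X ≤ 2 * (q : ℝ) ^ 2 := by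
    have : (q : ℝ) ^ 2 * δ ≤ (q : ℝ) ^ 2 * 1 := mul_le_mul_of_nonneg_left hδ1 (by positivity)
    nlinarith
  have hX2 : X ≤ 2 * q * φ := by
    have h1 : X ^ 2 ≤ (2 * q * φ) ^ 2 := by
      calc X ^ 2 = X * X := by ring
        _ ≤ (2 * (q : ℝ) ^ 2) * φ ^ 2 := mul_le_mul hX1 hX hX0 (by positivity)
        _ ≤ (2 * q * φ) ^ 2 := by nlinarith [mul_nonneg (sq_nonneg (q : ℝ)) (sq_nonneg φ)]
    exact (pow_le_pow_iff_left₀ hX0 (by positivity) two_ne_zero).1 h1
  have hBle : B ≤ 8 * Real.log q * φ := by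
    have h1 : B = Real.log q / q * ((q : ℝ) ^ 2 * δ + 4 * q) := by
      rw [hB]; field_simp
    have h2 : (q : ℝ) ^ 2 * δ + 4 * q ≤ 4 * X := by
      rw [hXdef]
      nlinarith [mul_nonneg (sq_nonneg (q : ℝ)) hδ]
    rw [h1]
    calc Real.log q / q * ((q : ℝ) ^ 2 * δ + 4 * q) ≤ Real.log q / q * (4 * (2 * q * φ)) := by
          apply mul_le_mul_of_nonneg_left _ (by positivity)
          linarith
      _ = 8 * Real.log q * φ := by field_simp; ring
  have hB3le : √B3 ≤ 3 * φ := by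
    rw [Real.sqrt_le_left (by positivity)]
    have h1 : B3 = 2 * ((q : ℝ) ^ 2 * δ + 4 * q) := by
      rw [hB3]; field_simp
    rw [h1]
    nlinarith [mul_nonneg (sq_nonneg (q : ℝ)) hδ]
  have hφ1 : 1 ≤ φ := by
    by_contra h
    push Not at h
    have : φ ^ 2 < 1 := by nlinarith
    have : (q : ℝ) ≤ X := by rw [hXdef]; nlinarith [mul_nonneg (sq_nonneg (q : ℝ)) hδ]
    linarith
  have hbase : (0 : ℝ) < 2 * (q : ℝ) + 1 := by positivity
  rw [Real.rpow_def_of_pos hbase, ← Real.exp_add]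
  apply Real.exp_le_exp.2
  have hlog2 : Real.log (2 * (q : ℝ) + 1) ≤ 2 * Real.log q := by
    rw [← Real.log_rpow hq0]
    apply Real.log_le_log hbase
    have : (q : ℝ) ^ (2 : ℝ) = (q : ℝ) ^ 2 := by norm_cast
    rw [this]
    nlinarith
  have hlog20 : 0 ≤ Real.log (2 * (q : ℝ) + 1) := Real.log_nonneg (by linarith)
  have h1 : Real.log (2 * (q : ℝ) + 1) * (2 * √B3 + 2) ≤ 2 * Real.log q * (6 * φ + 2) :=
    mul_le_mul hlog2 (by linarith) (by positivity) (by positivity)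
  have h2 : Real.log q ≤ Real.log q * φ := by nlinarith
  nlinarith

/-- TARGET -/
theorem count_up {Φ : ℝ → ℝ} {y0 : ℝ} (hΦ : MonotoneOn Φ (Ici y0)) (hΦ0 : ∀ y, y0 ≤ y → 0 ≤ Φ y)
    (h : ∀ y, y0 ≤ y → ∃ δ : ℝ, 0 ≤ δ ∧ δ ≤ 1 ∧ mar y ≤ δ ∧ y ^ 2 * δ + y ≤ Φ y ^ 2) :
    ∃ (C : ℝ) (N1 : ℕ), ∀ N : ℕ, N1 ≤ N →
      (eulerExceptions N : ℝ) ≤ Real.exp (C * Real.log (Real.log N) * Φ (2 * Real.log N)) := by
  classical
  -- lower bound for theta
  obtain ⟨C0, hC0, hpnt⟩ := theta_pnt 1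
  have hhalf : ∀ y : ℝ, 2 ≤ y → Real.exp (2 * C0) ≤ y → y / 2 ≤ Chebyshev.theta y := by
    intro y hy2 hy
    have h1 := hpnt y hy2
    have hy0 : 0 < y := by linarith
    have hl : 2 * C0 ≤ Real.log y := (Real.le_log_iff_exp_le hy0).2 hy
    have h2 : C0 * y / Real.log y ^ 1 ≤ y / 2 := by
      rw [pow_one, div_le_iff₀ (by linarith)]
      nlinarith
    have h3 := (abs_le.1 h1).1
    linarith
  obtain ⟨Y, hY⟩ : ∃ Y : ℕ, y0 ≤ Y ∧ 3 ≤ Y ∧ Real.exp (2 * C0) ≤ Y := by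
    obtain ⟨Y1, hY1⟩ := exists_nat_ge y0
    obtain ⟨Y2, hY2⟩ := exists_nat_ge (Real.exp (2 * C0))
    refine ⟨Y1 + Y2 + 3, ?_, by omega, ?_⟩
    · push_cast
      have : (0 : ℝ) ≤ Y2 := Nat.cast_nonneg _
      linarith
    · push_cast
      have : (0 : ℝ) ≤ Y1 := Nat.cast_nonneg _
      linarith
  obtain ⟨hYy0, hY3, hYe⟩ := hY
  have hY3' : (3 : ℝ) ≤ Y := by exact_mod_cast hY3
  have hub : ∀ x : ℝ, ∃ Q : ℕ, ∀ p : ℕ, Q ≤ p → x < Chebyshev.theta p := by
    intro x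
    obtain ⟨Q, hQ⟩ := exists_nat_gt (2 * x)
    refine ⟨Q + Y, fun p hp => ?_⟩
    have hp' : (Q : ℝ) + Y ≤ p := by exact_mod_cast hp
    have hQ0 : (0 : ℝ) ≤ Q := Nat.cast_nonneg _
    have := hhalf p (by linarith) (by linarith)
    linarith
  obtain ⟨K, hK⟩ := exists_nat_ge (Real.exp (Chebyshev.theta Y + Real.log (2 * Y)))
  set K' := K + 6 with hK'
  obtain ⟨N1, hN1⟩ := exists_nat_ge (Real.exp (Real.exp (K' : ℝ) + |y0| + Y + 4))
  refine ⟨83, N1, fun N hN => ?_⟩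
  have hNlarge : Real.exp (Real.exp (K' : ℝ) + |y0| + Y + 4) ≤ N := le_trans hN1 (by exact_mod_cast hN)
  have hN0 : (0 : ℝ) < N := lt_of_lt_of_le (Real.exp_pos _) hNlarge
  set L := Real.log N with hL
  have hLlarge : Real.exp (K' : ℝ) + |y0| + Y + 4 ≤ L := (Real.le_log_iff_exp_le hN0).2 hNlarge
  have hK'0 : (0 : ℝ) ≤ K' := Nat.cast_nonneg _
  have hY0 : (0 : ℝ) ≤ Y := Nat.cast_nonneg _
  have habs := abs_nonneg y0
  have hLpos : 0 < L := by
    have := Real.exp_pos (K' : ℝ)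
    linarith
  have hy0L : y0 ≤ 2 * L := by
    have := le_abs_self y0
    have := Real.exp_pos (K' : ℝ)
    linarith
  have hlogL : (K' : ℝ) ≤ Real.log L := by
    rw [Real.le_log_iff_exp_le hLpos]
    linarith
  have hK'6 : (6 : ℝ) ≤ K' := by
    rw [hK']; push_cast
    have : (0 : ℝ) ≤ K := Nat.cast_nonneg _
    linarith
  set P := Φ (2 * L) with hP
  have hP0 : 0 ≤ P := hΦ0 _ hy0L
  have hP1 : 1 ≤ P := by
    obtain ⟨δ, h1, h2, h3, h4⟩ := h (2 * L) hy0L
    by_contra hc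
    push Not at hc
    have h5 : P ^ 2 < 1 := by nlinarith
    have h6 : 2 * L ≤ (2 * L) ^ 2 * δ + 2 * L := by nlinarith [mul_nonneg (sq_nonneg (2 * L)) h1]
    have h7 : 1 ≤ L := by
      have := Real.exp_pos (K' : ℝ)
      linarith
    linarith
  -- the sets
  set T : ℕ → Finset ℕ := fun q => (Finset.Icc 1 N).filter fun n : ℕ =>
    Chebyshev.theta q ≤ Real.log n ∧ Real.log n ≤ Chebyshev.theta q + Real.log (2 * q) ∧
    Real.exp Real.eulerMascheroniConstant * Real.log (Real.log n) * (Nat.totient n : ℝ) ≤ n with hT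
  set E := Real.exp (40 * Real.log (2 * L) * P) with hE
  have hTq : ∀ q ∈ (Finset.Icc Y ⌊2 * L⌋₊).filter Nat.Prime, ((T q).card : ℝ) ≤ E := by
    intro q hq
    rw [Finset.mem_filter, Finset.mem_Icc] at hq
    obtain ⟨⟨hq1, hq2⟩, hqp⟩ := hq
    have hqY : (Y : ℝ) ≤ q := by exact_mod_cast hq1
    have hq2L : (q : ℝ) ≤ 2 * L := (Nat.le_floor_iff (by positivity)).1 hq2
    obtain ⟨δ, h1, h2, h3, h4⟩ := h q (by linarith)
    have hφ0 := hΦ0 q (by linarith)
    have := cnt2_one hqp (by omega) hφ0 h1 h2 h3 h4 (T q) (by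
      intro n hn
      simp only [hT, Finset.mem_filter, Finset.mem_Icc] at hn
      exact ⟨hn.1.1, hn.2.1, hn.2.2.1, hn.2.2.2⟩)
    refine le_trans this ?_
    apply Real.exp_le_exp.2
    have hqpos : (0 : ℝ) < q := by exact_mod_cast hqp.pos
    have hl : Real.log q ≤ Real.log (2 * L) := Real.log_le_log hqpos hq2L
    have hl0 : 0 ≤ Real.log q := Real.log_nonneg (by linarith)
    have hm : Φ q ≤ P := hΦ (by simpa using (by linarith : y0 ≤ (q : ℝ))) (by simpa using hy0L) hq2L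
    have h5 : Real.log q * Φ q ≤ Real.log (2 * L) * P :=
      mul_le_mul hl hm hφ0 (le_trans hl0 hl)
    nlinarith
  -- the cover
  have hcover : ((Finset.Icc 1 N).filter fun n : ℕ =>
      Real.exp Real.eulerMascheroniConstant * Real.log (Real.log n) * (Nat.totient n : ℝ) ≤ n) ⊆
      Finset.Icc 1 K' ∪ ((Finset.Icc Y ⌊2 * L⌋₊).filter Nat.Prime).biUnion T := by
    intro n hn
    rw [Finset.mem_filter, Finset.mem_Icc] at hn
    obtain ⟨⟨hn1, hnN⟩, hex⟩ := hn
    rw [Finset.mem_union]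
    by_cases hnK : n ≤ K'
    · left; exact Finset.mem_Icc.2 ⟨hn1, hnK⟩
    · right
      push Not at hnK
      have hnpos : (0 : ℝ) < n := by exact_mod_cast hn1
      have hn6 : (6 : ℝ) ≤ n := by
        have : (K' : ℝ) ≤ n := by exact_mod_cast hnK.le
        linarith
      obtain ⟨q, hqp, hq3, h1, h2⟩ := cnt2_exists_q (Real.log n)
        (Real.log_le_log (by norm_num) hn6) (hub _)
      have hqpos : (0 : ℝ) < q := by exact_mod_cast hqp.pos
      have hYq : Y ≤ q := by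
        by_contra hc
        push Not at hc
        have hc' : (q : ℝ) ≤ Y := by exact_mod_cast hc.le
        have h3 : Real.log n ≤ Chebyshev.theta Y + Real.log (2 * Y) := by
          have h4 := Chebyshev.theta_mono hc'
          have h5 : Real.log (2 * (q : ℝ)) ≤ Real.log (2 * Y) :=
            Real.log_le_log (by positivity) (by linarith)
          linarith
        have h6 : (n : ℝ) ≤ K := by
          refine le_trans ?_ hK
          rw [← Real.log_le_iff_le_exp hnpos]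
          exact h3
        have h7 : n ≤ K := by exact_mod_cast h6
        omega
      have hYq' : (Y : ℝ) ≤ q := by exact_mod_cast hYq
      rw [Finset.mem_biUnion]
      refine ⟨q, ?_, ?_⟩
      · rw [Finset.mem_filter, Finset.mem_Icc]
        refine ⟨⟨hYq, ?_⟩, hqp⟩
        rw [Nat.le_floor_iff (by positivity)]
        have h3 := hhalf q (by linarith) (by linarith)
        have h4 : Real.log n ≤ L := Real.log_le_log hnpos (by exact_mod_cast hnN)
        linarith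
      · simp only [hT, Finset.mem_filter, Finset.mem_Icc]
        exact ⟨⟨hn1, hnN⟩, h1, h2, hex⟩
  have hcard : (eulerExceptions N : ℝ) ≤ K' + 2 * L * E := by
    have h1 : eulerExceptions N ≤ (Finset.Icc 1 K').card +
        ∑ q ∈ (Finset.Icc Y ⌊2 * L⌋₊).filter Nat.Prime, (T q).card := by
      unfold eulerExceptions
      refine le_trans ?_ (le_trans (Finset.card_union_le _ _)
        (Nat.add_le_add_left Finset.card_biUnion_le _))
      convert Finset.card_le_card hcover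
    have h2 : (eulerExceptions N : ℝ) ≤ (Finset.Icc 1 K').card +
        ∑ q ∈ (Finset.Icc Y ⌊2 * L⌋₊).filter Nat.Prime, ((T q).card : ℝ) := by exact_mod_cast h1
    refine le_trans h2 ?_
    rw [Nat.card_Icc, Nat.add_sub_cancel]
    have h3 : ∑ q ∈ (Finset.Icc Y ⌊2 * L⌋₊).filter Nat.Prime, ((T q).card : ℝ) ≤
        ((Finset.Icc Y ⌊2 * L⌋₊).filter Nat.Prime).card * E := by
      rw [← nsmul_eq_mul]
      exact Finset.sum_le_card_nsmul _ _ _ hTq
    have h4 : (((Finset.Icc Y ⌊2 * L⌋₊).filter Nat.Prime).card : ℝ) ≤ 2 * L := by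
      have h5 : ((Finset.Icc Y ⌊2 * L⌋₊).filter Nat.Prime).card ≤ ⌊2 * L⌋₊ := by
        refine le_trans (Finset.card_filter_le _ _) ?_
        rw [Nat.card_Icc]
        omega
      refine le_trans (by exact_mod_cast h5) (Nat.floor_le (by positivity))
    have h6 : (((Finset.Icc Y ⌊2 * L⌋₊).filter Nat.Prime).card : ℝ) * E ≤ 2 * L * E :=
      mul_le_mul_of_nonneg_right h4 (Real.exp_pos _).le
    linarith
  refine le_trans hcard ?_
  have hlog2 : Real.log 2 ≤ 1 := by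
    have := Real.log_two_lt_d9
    linarith
  have e1 : Real.log (2 * L) ≤ 2 * Real.log L := by
    rw [Real.log_mul two_ne_zero hLpos.ne']
    linarith
  have hlL0 : 0 ≤ Real.log L := by linarith
  have hlP : Real.log L ≤ Real.log L * P := le_mul_of_one_le_right hlL0 hP1
  have e2 : 2 * L ≤ Real.exp (2 * Real.log L) := by
    rw [← Real.log_le_iff_le_exp (by positivity)]
    exact e1
  have e3 : E ≤ Real.exp (80 * (Real.log L * P)) := by
    apply Real.exp_le_exp.2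
    nlinarith [mul_le_mul_of_nonneg_right e1 hP0]
  have e4 : 2 * L * E ≤ Real.exp (82 * (Real.log L * P)) := by
    calc 2 * L * E ≤ Real.exp (2 * Real.log L) * Real.exp (80 * (Real.log L * P)) :=
          mul_le_mul e2 e3 (Real.exp_pos _).le (Real.exp_pos _).le
      _ = Real.exp (2 * Real.log L + 80 * (Real.log L * P)) := (Real.exp_add _ _).symm
      _ ≤ _ := by
          apply Real.exp_le_exp.2
          linarith
  have e5 : (K' : ℝ) ≤ Real.exp (82 * (Real.log L * P)) := by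
    have h1 := Real.add_one_le_exp (Real.log L)
    have h2 : Real.exp (Real.log L) ≤ Real.exp (82 * (Real.log L * P)) :=
      Real.exp_le_exp.2 (by nlinarith)
    linarith
  have e6 : Real.exp (83 * Real.log L * P) =
      Real.exp (Real.log L * P) * Real.exp (82 * (Real.log L * P)) := by
    rw [← Real.exp_add]
    congr 1
    ring
  have e7 : 2 ≤ Real.exp (Real.log L * P) := by
    have := Real.add_one_le_exp (Real.log L * P)
    linarith
  rw [e6]
  have e8 := Real.exp_pos (82 * (Real.log L * P))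
  nlinarith

end Pool.Agent.H424.RB
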