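import Pool.Agent.H424.RB.Base

/-!
# Job RB-PARTS: integration by parts on a tail, by Fubini
-/

set_option autoImplicit false

namespace Pool.Agent.H424.RB

open MeasureTheory Filter Topology Set

/-- TARGET -/
theorem tail_parts {q q' k : ℝ → ℝ} {y : ℝ} (hq : ∀ t, y ≤ t → HasDerivAt q (q' t) t)
    (hq' : ContinuousOn q' (Ici y)) (hk : IntegrableOn k (Ioi y))
    (hqk : IntegrableOn (fun t => (∫ u in y..t, |q' u|) * k t) (Ioi y)) :
    IntegrableOn (fun u => q' u * ∫ t in Ioi u, k t) (Ioi y) ∧
    ∫ t in Ioi y, q t * k t = q y * (∫ t in Ioi y, k t) + ∫ u in Ioi y, q' u * ∫ t in Ioi u, k t := by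
  -- continuous extension of q'
  set Q : ℝ → ℝ := fun u => q' (max y u) with hQ
  have hQc : Continuous Q := by
    have : ContinuousOn q' (Set.range (fun u : ℝ => max y u)) := hq'.mono (by
      rintro _ ⟨u, rfl⟩
      exact (le_max_left y u : y ≤ max y u))
    exact this.comp_continuous (continuous_const.max continuous_id) (fun u => ⟨u, rfl⟩)
  have hQe : ∀ u, y ≤ u → Q u = q' u := by
    intro u hu
    simp only [hQ, max_eq_right hu]
  set μ : Measure ℝ := volume.restrict (Ioi y) with hμ
  set f : ℝ × ℝ → ℝ := fun p => {p : ℝ × ℝ | p.2 ≤ p.1}.indicator (fun p => Q p.2 * k p.1) p with hf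
  have hS : MeasurableSet {p : ℝ × ℝ | p.2 ≤ p.1} := measurableSet_le measurable_snd measurable_fst
  have hkm : AEStronglyMeasurable k μ := hk.aestronglyMeasurable
  have hfm : AEStronglyMeasurable f (μ.prod μ) := by
    refine AEStronglyMeasurable.indicator ?_ hS
    exact ((hQc.comp continuous_snd).aestronglyMeasurable).mul hkm.comp_fst
  -- sections
  have hsec : ∀ t, y < t → (fun u => f (t, u)) =ᵐ[μ] (Ioc y t).indicator (fun u => Q u * k t) := by
    intro t ht
    filter_upwards [ae_restrict_mem measurableSet_Ioi] with u hu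
    simp only [hf, indicator, mem_ofPred_eq, mem_Ioc]
    have hu' : y < u := hu
    simp [hu']
  have hsecint : ∀ t, y < t → ∀ g : ℝ → ℝ, Continuous g →
      ∫ u, (Ioc y t).indicator g u ∂μ = ∫ u in y..t, g u := by
    intro t ht g hg
    rw [hμ, integral_indicator measurableSet_Ioc, Measure.restrict_restrict measurableSet_Ioc,
      intervalIntegral.integral_of_le ht.le]
    congr 2
    exact inter_eq_left.2 (fun u hu => hu.1)
  have hinner : ∀ᵐ t ∂μ, Integrable (fun u => f (t, u)) μ := by
    filter_upwards [ae_restrict_mem measurableSet_Ioi] with t ht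
    refine Integrable.congr ?_ (hsec t ht).symm
    rw [integrable_indicator_iff measurableSet_Ioc]
    have : IntegrableOn (fun u => Q u * k t) (Icc y t) volume :=
      (hQc.mul continuous_const).continuousOn.integrableOn_Icc
    have h2 : IntegrableOn (fun u => Q u * k t) (Ioc y t) volume := this.mono_set Ioc_subset_Icc_self
    exact IntegrableOn.mono_measure h2 Measure.restrict_le_self
  have hnorm : ∀ᵐ t ∂μ, ∫ u, ‖f (t, u)‖ ∂μ = ‖(∫ u in y..t, |q' u|) * k t‖ := by
    filter_upwards [ae_restrict_mem measurableSet_Ioi] with t ht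
    have ht' : y < t := ht
    have h1 : ∫ u, ‖f (t, u)‖ ∂μ = ∫ u, (Ioc y t).indicator (fun u => |Q u| * |k t|) u ∂μ := by
      refine integral_congr_ae ?_
      filter_upwards [hsec t ht] with u hu
      rw [hu]
      by_cases hm : u ∈ Ioc y t
      · simp [indicator_of_mem hm]
      · simp [indicator_of_notMem hm]
    rw [h1, hsecint t ht (fun u => |Q u| * |k t|) (hQc.abs.mul continuous_const), intervalIntegral.integral_mul_const]
    have h2 : ∫ u in y..t, |Q u| = ∫ u in y..t, |q' u| := by
      refine intervalIntegral.integral_congr ?_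
      intro u hu
      rw [uIcc_of_le ht'.le] at hu
      simp only [hQe u hu.1]
    rw [h2, norm_mul, Real.norm_eq_abs, Real.norm_eq_abs, abs_of_nonneg (a := ∫ u in y..t, |q' u|)]
    exact intervalIntegral.integral_nonneg ht'.le (fun u _ => abs_nonneg _)
  have hfi : Integrable f (μ.prod μ) := by
    rw [integrable_prod_iff hfm]
    refine ⟨hinner, ?_⟩
    refine Integrable.congr (hqk.norm) ?_
    filter_upwards [hnorm] with t ht
    rw [ht]
  -- the two iterated integrals
  have hleft : ∀ᵐ t ∂μ, ∫ u, f (t, u) ∂μ = q t * k t - q y * k t := by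
    filter_upwards [ae_restrict_mem measurableSet_Ioi] with t ht
    have ht' : y < t := ht
    rw [integral_congr_ae (hsec t ht), hsecint t ht (fun u => Q u * k t) (hQc.mul continuous_const),
      intervalIntegral.integral_mul_const]
    have h2 : ∫ u in y..t, Q u = q t - q y := by
      refine intervalIntegral.integral_eq_sub_of_hasDerivAt ?_ (hQc.intervalIntegrable _ _)
      intro u hu
      rw [uIcc_of_le ht'.le] at hu
      rw [hQe u hu.1]
      exact hq u hu.1
    rw [h2]
    ring
  have hright : ∀ᵐ u ∂μ, ∫ t, f (t, u) ∂μ = q' u * ∫ t in Ioi u, k t := by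
    filter_upwards [ae_restrict_mem measurableSet_Ioi] with u hu
    have hu' : y < u := hu
    have h1 : (fun t => f (t, u)) = (Ici u).indicator (fun t => q' u * k t) := by
      funext t
      simp only [hf, indicator, mem_ofPred_eq, mem_Ici, hQe u hu'.le]
    rw [h1, hμ, integral_indicator measurableSet_Ici, Measure.restrict_restrict measurableSet_Ici,
      integral_const_mul]
    have h3 : Ici u ∩ Ioi y = Ici u := inter_eq_left.2 (fun t ht => lt_of_lt_of_le hu' ht)
    rw [h3, integral_Ici_eq_integral_Ioi]
  have hswap := integral_integral_swap (f := fun t u => f (t, u)) hfi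
  constructor
  · exact (hfi.integral_prod_right).congr hright
  · have hL : Integrable (fun t => q t * k t - q y * k t) μ := (hfi.integral_prod_left).congr hleft
    have hk2 : Integrable (fun t => q y * k t) μ := hk.const_mul _
    have e1 : ∫ t, q t * k t ∂μ = ∫ t, (q t * k t - q y * k t) ∂μ + ∫ t, q y * k t ∂μ := by
      rw [← integral_add hL hk2]
      congr 1
      funext t
      ring
    rw [e1, ← integral_congr_ae hleft, hswap, integral_congr_ae hright, integral_const_mul]
    ring

end Pool.Agent.H424.RB
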