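import Pool.Agent.H424.RB.Mert
import Pool.Agent.H424.RB.Parts


/-!
# Job RB-JMAR: an upper bound for `mar` gives a lower bound for `Jp`

`Pr y = ∑_{p ≤ y} -log(1 - 1/p)`, `mar y = Pr y - γ - log log θ(y)`, `kt t = (θ(t) - t)(1 + log t)/(t² log² t)`,
`Kt y = ∫_{t>y} kt`, `Jp y = ∫_{t>y} (ψ(t) - t)/t²`.

Plain-words proof of the target.
(1) For `y` large (`y ≥ 4`, `θ(y) > 1`): the function `log log` is concave on `(1, ∞)` with derivative `1/(y log y)` at
    `y`, so `log log θ(y) ≤ log log y + (θ(y) - y)/(y log y)`.  [Elementary: `log log θ - log log y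
    = log (log θ/log y) ≤ log θ/log y - 1 = log(θ/y)/log y ≤ (θ/y - 1)/log y`, twice `Real.log_le_sub_one_of_pos`.]
    With `mertens_exact`: `mar y = Pr y - γ - log log θ(y) ≥ -Kt y - 2/y`.
    So `Kt y ≥ -mar y - 2/y ≥ -y^(b-1) - 2/y ≥ -3 y^(b-1)` for `y ≥ max y0 4` (and `y ≥` the point from which `θ > 1`).
(2) Let `q(t) = log² t/(1 + log t)`, so `(θ(t) - t)/t² = q(t) kt(t)` for `t > 1`, and
    `q'(t) = (2 log t + log² t)/(t (1 + log t)²)`, `0 ≤ q'(t) ≤ 1/t`, `0 ≤ q(t) ≤ log t` for `t ≥ 2`.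
    `tail_parts` (with `∫_y^t |q'| ≤ q(t) ≤ log t` and `|kt(t)| log t ≤ C/(t log² t)` by `theta_pnt` with `A = 2`,
    using `(1 + log t) ≤ 3 log t`...) gives, for large `y`,
    `Jt(y) := ∫_{t>y} (θ(t) - t)/t² = q(y) Kt(y) + ∫_{u>y} q'(u) Kt(u) du
       ≥ -3 log y · y^(b-1) - 3 ∫_y^∞ u^(b-2) du = -3 (log y + 1/(1-b)) y^(b-1)`.
(3) `Jp y = Jt y + ∫_{t>y} (ψ(t) - θ(t))/t²`, and for `t ≥ t1`: `ψ(t) - θ(t) ≥ θ(√t) ≥ √t/2`
    (`Chebyshev.psi_sub_theta_ge_psi_add_psi_add_psi`, or `psi_eq_theta_add_sum_theta`, or directly: `ψ(t)-θ(t)` is a sum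
    of nonnegative terms containing `log p` for all `p² ≤ t`; and `theta_pnt` for `√t` large).
    So `∫_{t>y} (ψ - θ)/t² ≥ (1/2)∫_y^∞ t^(-3/2) dt = y^(-1/2)`.
    (All three integrands are integrable on `(y,∞)`: `|θ(t) - t| ≤ C t/log² t`, `0 ≤ ψ - θ ≤ C √t` by
    `Chebyshev.psi_sub_theta_le_mul_sqrt`.)
(4) Given `b' > b`: `3(log y + 1/(1-b)) y^(b-1) ≤ y^(b'-1)` for large `y` (`log y = o(y^(b'-b))`).  Together:
    `Jp y ≥ y^(-1/2) - y^(b'-1)` for large `y`, which is the claim.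
-/

set_option autoImplicit false

namespace Pool.Agent.H424.RB

open MeasureTheory Filter Topology Set

theorem JM_int_log {y : ℝ} (hy : 1 < y) :
    IntegrableOn (fun t : ℝ => 1 / (t * Real.log t ^ 2)) (Ioi y) := by
  refine integrableOn_Ioi_deriv_of_nonneg' (g := fun t : ℝ => -(Real.log t)⁻¹) (l := 0) ?_ ?_ ?_
  · intro t ht
    have ht1 : 1 < t := lt_of_lt_of_le hy ht
    have hl : Real.log t ≠ 0 := (Real.log_pos ht1).ne'
    have h := ((Real.hasDerivAt_log (by linarith : t ≠ 0)).inv hl).neg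
    refine HasDerivAt.congr_deriv (f := fun t : ℝ => -(Real.log t)⁻¹) h ?_
    field_simp
  · intro t ht
    have ht1 : 1 < t := lt_trans hy ht
    have hl : 0 < Real.log t := Real.log_pos ht1
    have : 0 < t := by linarith
    positivity
  · have := Real.tendsto_log_atTop.inv_tendsto_atTop.neg
    rw [neg_zero] at this
    exact this

theorem JM_meas_theta : Measurable Chebyshev.theta := Chebyshev.theta_mono.measurable

theorem JM_meas_psi : Measurable Chebyshev.psi := Chebyshev.psi_mono.measurable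

theorem JM_int_theta {y : ℝ} (hy : 2 ≤ y) :
    IntegrableOn (fun t : ℝ => (Chebyshev.theta t - t) / t ^ 2) (Ioi y) := by
  obtain ⟨C, hC, h⟩ := theta_pnt 2
  refine Integrable.mono' ((JM_int_log (y := y) (by linarith)).const_mul C) ?_ ?_
  · exact ((JM_meas_theta.sub measurable_id).div (measurable_id.pow_const 2)).aestronglyMeasurable
  · refine (ae_restrict_iff' measurableSet_Ioi).2 (Filter.Eventually.of_forall fun t ht => ?_)
    have ht2 : 2 ≤ t := le_trans hy (le_of_lt ht)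
    have ht0 : 0 < t := by linarith
    have hl : 0 < Real.log t := Real.log_pos (by linarith)
    rw [Real.norm_eq_abs, abs_div, abs_of_pos (by positivity : 0 < t ^ 2),
      div_le_iff₀ (by positivity)]
    refine (h t ht2).trans (le_of_eq ?_)
    field_simp

theorem JM_int_diff {y : ℝ} (hy : 0 < y) :
    IntegrableOn (fun t : ℝ => (Chebyshev.psi t - Chebyshev.theta t) / t ^ 2) (Ioi y) := by
  obtain ⟨C, hC⟩ := Chebyshev.psi_sub_theta_le_mul_sqrt
  refine Integrable.mono' ((integrableOn_Ioi_rpow_of_lt (a := (-(3 / 2) : ℝ)) (by norm_num)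
    hy).const_mul C) ?_ ?_
  · exact ((JM_meas_psi.sub JM_meas_theta).div (measurable_id.pow_const 2)).aestronglyMeasurable
  · refine (ae_restrict_iff' measurableSet_Ioi).2 (Filter.Eventually.of_forall fun t ht => ?_)
    have ht0 : 0 < t := lt_trans hy ht
    have h0 : 0 ≤ Chebyshev.psi t - Chebyshev.theta t := sub_nonneg.2 (Chebyshev.theta_le_psi t)
    rw [Real.norm_eq_abs, abs_div, abs_of_nonneg h0, abs_of_pos (by positivity : 0 < t ^ 2),
      div_le_iff₀ (by positivity)]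
    refine (hC t).trans (le_of_eq ?_)
    rw [Real.sqrt_eq_rpow, mul_assoc]
    congr 1
    have e : t ^ 2 = t ^ (2 : ℝ) := by norm_cast
    rw [e, ← Real.rpow_add ht0]
    norm_num

/-- `log log` is concave -/
theorem JM_loglog {x y : ℝ} (hx : 1 < x) (hy : 1 < y) :
    Real.log (Real.log x) ≤ Real.log (Real.log y) + (x - y) / (y * Real.log y) := by
  have hlx := Real.log_pos hx
  have hly := Real.log_pos hy
  have h1 : Real.log (Real.log x / Real.log y) ≤ Real.log x / Real.log y - 1 :=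
    Real.log_le_sub_one_of_pos (by positivity)
  rw [Real.log_div hlx.ne' hly.ne'] at h1
  have h2 : Real.log (x / y) ≤ x / y - 1 := Real.log_le_sub_one_of_pos (by positivity)
  rw [Real.log_div (by linarith) (by linarith)] at h2
  have h3 : Real.log x / Real.log y - 1 = (Real.log x - Real.log y) / Real.log y := by
    field_simp
  have h4 : (Real.log x - Real.log y) / Real.log y ≤ (x / y - 1) / Real.log y :=
    div_le_div_of_nonneg_right h2 hly.le
  have h5 : (x / y - 1) / Real.log y = (x - y) / (y * Real.log y) := by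
    have : y ≠ 0 := by linarith
    field_simp
  linarith

/-- `θ(y) ≥ y / 2` for large `y` -/
theorem JM_theta_ge : ∃ Y : ℝ, 4 ≤ Y ∧ ∀ y : ℝ, Y ≤ y → y / 2 ≤ Chebyshev.theta y := by
  obtain ⟨C, hC, h⟩ := theta_pnt 1
  refine ⟨max 4 (Real.exp (2 * C)), le_max_left _ _, fun y hy => ?_⟩
  have hy4 : 4 ≤ y := (le_max_left _ _).trans hy
  have hye : Real.exp (2 * C) ≤ y := (le_max_right _ _).trans hy
  have h1 := h y (by linarith)
  have hl : 2 * C ≤ Real.log y := (Real.le_log_iff_exp_le (by linarith)).2 hye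
  have hl0 : 0 < Real.log y := by linarith
  rw [pow_one] at h1
  have h2 : C * y / Real.log y ≤ y / 2 := by
    rw [div_le_iff₀ hl0]
    nlinarith
  have h3 := neg_le_of_abs_le (h1.trans h2)
  linarith

/-- step one -/
theorem JM_step1 {b y0 : ℝ} (hb0 : 0 < b) (h : ∀ y : ℝ, y0 ≤ y → mar y ≤ y ^ (b - 1)) :
    ∃ Y : ℝ, 4 ≤ Y ∧ ∀ y : ℝ, Y ≤ y → -(3 * y ^ (b - 1)) ≤ Kt y := by
  obtain ⟨Y, hY4, hY⟩ := JM_theta_ge
  refine ⟨max Y y0, hY4.trans (le_max_left _ _), fun y hy => ?_⟩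
  have hyY : Y ≤ y := (le_max_left _ _).trans hy
  have hy0 : y0 ≤ y := (le_max_right _ _).trans hy
  have hy4 : 4 ≤ y := hY4.trans hyY
  have h1 := (mertens_exact.2 y (by linarith)).2
  have h2 := h y hy0
  have h3 := JM_loglog (x := Chebyshev.theta y) (y := y) (by linarith [hY y hyY]) (by linarith)
  have h4 : 2 / y ≤ 2 * y ^ (b - 1) := by
    have : y ^ (-1 : ℝ) ≤ y ^ (b - 1) :=
      Real.rpow_le_rpow_of_exponent_le (by linarith) (by linarith)
    rw [Real.rpow_neg_one] at this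
    rw [div_eq_mul_inv]
    linarith
  unfold mar at h2
  linarith

/-- the weight -/
noncomputable def JMq (t : ℝ) : ℝ := Real.log t ^ 2 / (1 + Real.log t)

/-- its derivative -/
noncomputable def JMq' (t : ℝ) : ℝ :=
  (2 * Real.log t + Real.log t ^ 2) / (t * (1 + Real.log t) ^ 2)

theorem JM_deriv {t : ℝ} (ht : 1 < t) : HasDerivAt JMq (JMq' t) t := by
  have hl := Real.log_pos ht
  have h1 : (1 + Real.log t) ≠ 0 := by linarith
  have ht0 : t ≠ 0 := by linarith
  have h := ((Real.hasDerivAt_log ht0).pow 2).div ((Real.hasDerivAt_log ht0).const_add 1) h1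
  refine HasDerivAt.congr_deriv (f := JMq) h ?_
  unfold JMq'
  rw [Pi.pow_apply]
  field_simp
  ring

theorem JM_cont {y : ℝ} (hy : 1 < y) : ContinuousOn JMq' (Ici y) := by
  have hlog : ContinuousOn Real.log (Ici y) := by
    refine Real.continuousOn_log.mono ?_
    intro t ht h0
    have h1 : y ≤ t := ht
    have h2 : t = 0 := h0
    linarith
  unfold JMq'
  refine ContinuousOn.div ((continuousOn_const.mul hlog).add (hlog.pow 2))
    (continuousOn_id.mul ((continuousOn_const.add hlog).pow 2)) ?_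
  intro t ht
  have h1 : y ≤ t := ht
  have hl := Real.log_pos (lt_of_lt_of_le hy h1)
  have : 0 < t := by linarith
  have h3 : 0 < t * (1 + Real.log t) ^ 2 := by positivity
  exact h3.ne'

theorem JM_q'_nonneg {t : ℝ} (ht : 1 < t) : 0 ≤ JMq' t := by
  have hl := Real.log_pos ht
  have : 0 < t := by linarith
  unfold JMq'
  positivity

theorem JM_q'_le {t : ℝ} (ht : 1 < t) : JMq' t ≤ 1 / t := by
  have hl := Real.log_pos ht
  have ht0 : 0 < t := by linarith
  unfold JMq'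
  rw [div_le_div_iff₀ (by positivity) ht0]
  nlinarith

theorem JM_q_nonneg {t : ℝ} (ht : 1 < t) : 0 ≤ JMq t := by
  have hl := Real.log_pos ht
  unfold JMq
  positivity

theorem JM_q_le {t : ℝ} (ht : 1 < t) : JMq t ≤ Real.log t := by
  have hl := Real.log_pos ht
  unfold JMq
  rw [div_le_iff₀ (by positivity)]
  nlinarith

theorem JM_q_kt {t : ℝ} (ht : 1 < t) : JMq t * kt t = (Chebyshev.theta t - t) / t ^ 2 := by
  have hl := Real.log_pos ht
  have h1 : (1 + Real.log t) ≠ 0 := by linarith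
  have ht0 : t ≠ 0 := by linarith
  unfold JMq kt
  field_simp

theorem JM_int_abs {y t : ℝ} (hy : 1 < y) (hyt : y ≤ t) :
    ∫ u in y..t, |JMq' u| = JMq t - JMq y := by
  have e : ∫ u in y..t, |JMq' u| = ∫ u in y..t, JMq' u := by
    apply intervalIntegral.integral_congr
    intro u hu
    rw [uIcc_of_le hyt] at hu
    exact abs_of_nonneg (JM_q'_nonneg (lt_of_lt_of_le hy hu.1))
  rw [e]
  apply intervalIntegral.integral_eq_sub_of_hasDerivAt
  · intro u hu
    rw [uIcc_of_le hyt] at hu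
    exact JM_deriv (lt_of_lt_of_le hy hu.1)
  · apply ContinuousOn.intervalIntegrable
    rw [uIcc_of_le hyt]
    exact (JM_cont hy).mono fun u hu => hu.1

theorem JM_parts {y : ℝ} (hy : 2 ≤ y) :
    IntegrableOn (fun u => JMq' u * Kt u) (Ioi y) ∧
    ∫ t in Ioi y, (Chebyshev.theta t - t) / t ^ 2 =
      JMq y * Kt y + ∫ u in Ioi y, JMq' u * Kt u := by
  have hy1 : 1 < y := by linarith
  have hkt : IntegrableOn kt (Ioi y) := mertens_exact.1.mono_set (Ioi_subset_Ioi hy)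
  have hqk : IntegrableOn (fun t => (∫ u in y..t, |JMq' u|) * kt t) (Ioi y) := by
    have h1 : IntegrableOn (fun t => (Chebyshev.theta t - t) / t ^ 2 - JMq y * kt t) (Ioi y) :=
      (JM_int_theta hy).sub (hkt.const_mul _)
    refine h1.congr_fun ?_ measurableSet_Ioi
    intro t ht
    have ht1 : y < t := ht
    simp only
    rw [JM_int_abs hy1 ht1.le, ← JM_q_kt (lt_trans hy1 ht1)]
    ring
  obtain ⟨h1, h2⟩ := tail_parts (q := JMq) (q' := JMq') (k := kt) (y := y)
    (fun t ht => JM_deriv (lt_of_lt_of_le hy1 ht)) (JM_cont hy1) hkt hqk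
  refine ⟨h1, ?_⟩
  rw [← setIntegral_congr_fun measurableSet_Ioi
    (fun t (ht : t ∈ Ioi y) => JM_q_kt (lt_trans hy1 ht))]
  exact h2

theorem JM_step2 {b y0 : ℝ} (hb0 : 0 < b) (hb1 : b < 1)
    (h : ∀ y : ℝ, y0 ≤ y → mar y ≤ y ^ (b - 1)) :
    ∃ Y : ℝ, 4 ≤ Y ∧ ∀ y : ℝ, Y ≤ y → -(3 * (Real.log y + 1 / (1 - b)) * y ^ (b - 1)) ≤
      ∫ t in Ioi y, (Chebyshev.theta t - t) / t ^ 2 := by
  obtain ⟨Y, hY4, hY⟩ := JM_step1 hb0 h
  refine ⟨Y, hY4, fun y hy => ?_⟩
  have hy4 : 4 ≤ y := hY4.trans hy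
  have hy0 : 0 < y := by linarith
  have hy1 : 1 < y := by linarith
  obtain ⟨h1, h2⟩ := JM_parts (y := y) (by linarith)
  rw [h2]
  have hp : 0 < y ^ (b - 1) := Real.rpow_pos_of_pos hy0 _
  have a1 : -(3 * Real.log y * y ^ (b - 1)) ≤ JMq y * Kt y := by
    have k1 := hY y hy
    have k2 := JM_q_nonneg hy1
    have k3 := JM_q_le hy1
    have k4 : JMq y * (-(3 * y ^ (b - 1))) ≤ JMq y * Kt y := mul_le_mul_of_nonneg_left k1 k2
    have k5 : JMq y * (3 * y ^ (b - 1)) ≤ Real.log y * (3 * y ^ (b - 1)) :=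
      mul_le_mul_of_nonneg_right k3 (by positivity)
    linarith
  have hint : IntegrableOn (fun u : ℝ => -(3 * u ^ (b - 2))) (Ioi y) :=
    ((integrableOn_Ioi_rpow_of_lt (a := b - 2) (by linarith) hy0).const_mul 3).neg
  have a2 : ∫ u in Ioi y, -(3 * u ^ (b - 2)) ≤ ∫ u in Ioi y, JMq' u * Kt u := by
    apply setIntegral_mono_on hint h1 measurableSet_Ioi
    intro u hu
    have hyu : y < u := hu
    have hu0 : 0 < u := by linarith
    have hu1 : 1 < u := by linarith
    have k1 := hY u (hy.trans hyu.le)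
    have k2 := JM_q'_nonneg hu1
    have k3 := JM_q'_le hu1
    have k4 : JMq' u * (-(3 * u ^ (b - 1))) ≤ JMq' u * Kt u := mul_le_mul_of_nonneg_left k1 k2
    have hup : 0 < u ^ (b - 1) := Real.rpow_pos_of_pos hu0 _
    have k5 : JMq' u * (3 * u ^ (b - 1)) ≤ 1 / u * (3 * u ^ (b - 1)) :=
      mul_le_mul_of_nonneg_right k3 (by positivity)
    have k6 : 1 / u * (3 * u ^ (b - 1)) = 3 * u ^ (b - 2) := by
      have : u ^ (b - 2) = u ^ (b - 1) / u := by
        rw [show b - 2 = (b - 1) - 1 by ring, Real.rpow_sub_one hu0.ne']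
      rw [this]
      field_simp
    linarith
  have a3 : ∫ u in Ioi y, -(3 * u ^ (b - 2)) = -(3 * (1 / (1 - b)) * y ^ (b - 1)) := by
    rw [integral_neg, integral_const_mul, integral_Ioi_rpow_of_lt (by linarith) hy0,
      show b - 2 + 1 = b - 1 by ring]
    have hb2 : b - 1 ≠ 0 := by linarith
    have hb3 : 1 - b ≠ 0 := by linarith
    have e : -y ^ (b - 1) / (b - 1) = 1 / (1 - b) * y ^ (b - 1) := by
      rw [show b - 1 = -(1 - b) by ring]
      field_simp
    rw [e]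
    ring
  rw [a3] at a2
  have e : 3 * (Real.log y + 1 / (1 - b)) * y ^ (b - 1) = 3 * Real.log y * y ^ (b - 1) +
    3 * (1 / (1 - b)) * y ^ (b - 1) := by ring
  rw [e]
  linarith

theorem JM_step3 : ∃ Y : ℝ, 4 ≤ Y ∧ ∀ y : ℝ, Y ≤ y → y ^ (-(1 / 2) : ℝ) ≤
    ∫ t in Ioi y, (Chebyshev.psi t - Chebyshev.theta t) / t ^ 2 := by
  obtain ⟨Y, hY4, hY⟩ := JM_theta_ge
  refine ⟨Y ^ 2, by nlinarith, fun y hy => ?_⟩
  have hy16 : 16 ≤ y := by nlinarith
  have hy0 : 0 < y := by linarith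
  have hint : IntegrableOn (fun t : ℝ => (1 / 2) * t ^ (-(3 / 2) : ℝ)) (Ioi y) :=
    (integrableOn_Ioi_rpow_of_lt (a := (-(3 / 2) : ℝ)) (by norm_num) hy0).const_mul _
  have h1 : ∫ t in Ioi y, (1 / 2) * t ^ (-(3 / 2) : ℝ) ≤
      ∫ t in Ioi y, (Chebyshev.psi t - Chebyshev.theta t) / t ^ 2 := by
    apply setIntegral_mono_on hint (JM_int_diff hy0) measurableSet_Ioi
    intro t ht
    have hyt : y < t := ht
    have ht0 : 0 < t := by linarith
    have hs : Y ≤ Real.sqrt t := Real.le_sqrt_of_sq_le (by linarith)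
    have h2 := hY _ hs
    have h3 := Chebyshev.theta_le_psi (Real.sqrt t)
    have h4 := Chebyshev.psi_sub_theta_ge_psi_add_psi_add_psi ht0.le
    have h5 : t ^ ((2 : ℝ)⁻¹) = Real.sqrt t := by
      rw [Real.sqrt_eq_rpow, one_div]
    rw [h5] at h4
    have h6 := Chebyshev.psi_nonneg (t ^ ((3 : ℝ)⁻¹))
    have h7 := Chebyshev.psi_nonneg (t ^ ((7 : ℝ)⁻¹))
    have h8 : Real.sqrt t / 2 ≤ Chebyshev.psi t - Chebyshev.theta t := by linarith
    have h9 : (1 / 2) * t ^ (-(3 / 2) : ℝ) = (Real.sqrt t / 2) / t ^ 2 := by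
      have e1 : t ^ (-(3 / 2) : ℝ) = Real.sqrt t / t ^ 2 := by
        rw [Real.sqrt_eq_rpow]
        have e2 : t ^ 2 = t ^ (2 : ℝ) := by norm_cast
        rw [e2, ← Real.rpow_sub ht0]
        norm_num
      rw [e1]
      ring
    rw [h9]
    exact div_le_div_of_nonneg_right h8 (by positivity)
  refine le_trans (le_of_eq ?_) h1
  rw [integral_const_mul, integral_Ioi_rpow_of_lt (by norm_num) hy0]
  norm_num
  ring

/-- TARGET -/
theorem J_of_mar {b b' y0 : ℝ} (hb0 : 0 < b) (hb1 : b < 1) (hbb : b < b')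
    (h : ∀ y : ℝ, y0 ≤ y → mar y ≤ y ^ (b - 1)) :
    ∃ y1 : ℝ, ∀ y : ℝ, y1 ≤ y → y ^ (-(1 / 2) : ℝ) - y ^ (b' - 1) ≤ Jp y := by
  obtain ⟨Y2, hY24, hY2⟩ := JM_step2 hb0 hb1 h
  obtain ⟨Y3, hY34, hY3⟩ := JM_step3
  -- the logarithm is smaller than a power
  have hd : 0 < b' - b := by linarith
  have hlim : Tendsto (fun y : ℝ => 3 * (Real.log y / y ^ (b' - b) + 1 / (1 - b) *
      (y ^ (b' - b))⁻¹)) atTop (𝓝 0) := by
    have l1 : Tendsto (fun y : ℝ => Real.log y / y ^ (b' - b)) atTop (𝓝 0) :=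
      (isLittleO_log_rpow_atTop hd).tendsto_div_nhds_zero
    have l2 : Tendsto (fun y : ℝ => (y ^ (b' - b))⁻¹) atTop (𝓝 0) :=
      (tendsto_rpow_atTop hd).inv_tendsto_atTop
    have l3 := (l1.add (l2.const_mul (1 / (1 - b)))).const_mul 3
    simpa using l3
  obtain ⟨Y4, hY4⟩ := Filter.eventually_atTop.1 (hlim.eventually (ge_mem_nhds zero_lt_one))
  refine ⟨max (max Y2 Y3) Y4, fun y hy => ?_⟩
  have hy2 : Y2 ≤ y := ((le_max_left _ _).trans (le_max_left _ _)).trans hy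
  have hy3 : Y3 ≤ y := ((le_max_right _ _).trans (le_max_left _ _)).trans hy
  have hy4 : Y4 ≤ y := (le_max_right _ _).trans hy
  have hy0 : 0 < y := by linarith
  have h2 := hY2 y hy2
  have h3 := hY3 y hy3
  have h4 : 3 * (Real.log y / y ^ (b' - b) + 1 / (1 - b) * (y ^ (b' - b))⁻¹) ≤ 1 := hY4 y hy4
  have hpd : 0 < y ^ (b' - b) := Real.rpow_pos_of_pos hy0 _
  have hpb : 0 < y ^ (b - 1) := Real.rpow_pos_of_pos hy0 _
  have h5 : 3 * (Real.log y + 1 / (1 - b)) ≤ y ^ (b' - b) := by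
    have e : 3 * (Real.log y / y ^ (b' - b) + 1 / (1 - b) * (y ^ (b' - b))⁻¹) =
        3 * (Real.log y + 1 / (1 - b)) / y ^ (b' - b) := by
      rw [div_eq_mul_inv, div_eq_mul_inv (3 * _)]
      ring
    rw [e, div_le_one hpd] at h4
    exact h4
  have h6 : 3 * (Real.log y + 1 / (1 - b)) * y ^ (b - 1) ≤ y ^ (b' - 1) := by
    have e : y ^ (b' - 1) = y ^ (b' - b) * y ^ (b - 1) := by
      rw [← Real.rpow_add hy0]
      congr 1
      ring
    rw [e]
    exact mul_le_mul_of_nonneg_right h5 hpb.le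
  have h7 : Jp y = (∫ t in Ioi y, (Chebyshev.theta t - t) / t ^ 2) +
      ∫ t in Ioi y, (Chebyshev.psi t - Chebyshev.theta t) / t ^ 2 := by
    unfold Jp
    rw [← integral_add (JM_int_theta (by linarith)) (JM_int_diff hy0)]
    congr 1
    funext t
    ring
  rw [h7]
  linarith

end Pool.Agent.H424.RB
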