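import Pool.Agent.H424.RB.Lan1
import Pool.Agent.TH988.RB.Lan
import Pool.Agent.TH942.OS.Gen
import Pool.Agent.Y21.FW.Zeros

/-!
# Job RB-LAN2: a one-sided bound for `J` gives a zero-free half-plane (Landau)  (helper184)
-/

set_option autoImplicit false

namespace Pool.Agent.H424.RB

open MeasureTheory Filter Topology Set

namespace Lan2

open Pool.Agent.W263.BSD

theorem Z_ne_real {x : ℝ} (hx : 0 < x) : riemannZeta₁ (x : ℂ) ≠ 0 := by
  rcases eq_or_ne x 1 with rfl | h1
  · rw [Complex.ofReal_one, riemannZeta₁_one]; exact one_ne_zero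
  · have hx1 : (x : ℂ) ≠ 1 := by exact_mod_cast h1
    have hz : riemannZeta (x : ℂ) ≠ 0 := by
      rcases lt_or_gt_of_ne h1 with h | h
      · exact Pool.Agent.Y21.FW.real_ne hx h
      · exact riemannZeta_ne_zero_of_one_le_re (by simpa using h.le)
    intro h0
    apply hz
    rw [riemannZeta_eq_inv_sub_mul hx1, h0, mul_zero]

/-- the continuation of `Jp 1 - s Φ(s)` -/
noncomputable def G (s : ℂ) : ℂ :=
  -(1 + deriv riemannZeta₁ (s + 1) / riemannZeta₁ (s + 1)) / (s + 1)

theorem Z_an (s : ℂ) : AnalyticAt ℂ riemannZeta₁ s :=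
  differentiable_riemannZeta₁.analyticAt s

theorem u_an (s : ℂ) : AnalyticAt ℂ (fun s : ℂ => riemannZeta₁ (s + 1)) s := by
  have hs : AnalyticAt ℂ (fun s : ℂ => s + 1) s := by fun_prop
  exact AnalyticAt.fun_comp (f := fun s : ℂ => s + 1) (x := s) (Z_an (s + 1)) hs

theorem du_an (s : ℂ) : AnalyticAt ℂ (fun s : ℂ => deriv riemannZeta₁ (s + 1)) s := by
  have hs : AnalyticAt ℂ (fun s : ℂ => s + 1) s := by fun_prop
  exact AnalyticAt.fun_comp (f := fun s : ℂ => s + 1) (x := s) (Z_an (s + 1)).deriv hs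

theorem G_an {s : ℂ} (h1 : s + 1 ≠ 0) (h2 : riemannZeta₁ (s + 1) ≠ 0) : AnalyticAt ℂ G s := by
  have hs : AnalyticAt ℂ (fun s : ℂ => s + 1) s := by fun_prop
  exact ((analyticAt_const.add ((du_an s).div (u_an s) h2)).neg).div hs h1

theorem dslope_an {F : ℂ → ℂ} {a b : ℂ} (hb : AnalyticAt ℂ F b) :
    AnalyticAt ℂ (dslope F a) b := by
  rcases eq_or_ne b a with rfl | hne
  · obtain ⟨p, hp⟩ := hb
    exact ⟨_, hp.has_fpower_series_dslope_fslope⟩
  · have h1 : dslope F a =ᶠ[𝓝 b] slope F a := dslope_eventuallyEq_slope_of_ne F hne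
    have h2 : AnalyticAt ℂ (slope F a) b := by
      have : slope F a = fun x => (x - a)⁻¹ * (F x - F a) := by
        funext x
        rw [slope_def_field, div_eq_inv_mul]
      rw [this]
      have h3 : AnalyticAt ℂ (fun x : ℂ => x - a) b := by fun_prop
      exact (h3.inv (sub_ne_zero.2 hne)).mul (hb.sub analyticAt_const)
    exact h2.congr h1.symm

theorem LInt_of_bdd {f : ℝ → ℝ} (hf : Measurable f) {B : ℝ} (hB : ∀ u, 0 < u → |f u| ≤ B) {w : ℝ}
    (hw : 0 < w) : LInt f w := by
  unfold LInt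
  have h1 : IntegrableOn (fun u : ℝ => B * Real.exp (-w * u)) (Ioi 0) :=
    (integrableOn_exp_mul_Ioi (by linarith) 0).const_mul B
  refine Integrable.mono' h1 (hf.mul (by fun_prop)).aestronglyMeasurable ?_
  refine (ae_restrict_iff' measurableSet_Ioi).mpr (Eventually.of_forall fun u hu => ?_)
  rw [norm_mul, Real.norm_eq_abs, Real.norm_of_nonneg (Real.exp_pos _).le]
  have : -(w * u) = -w * u := by ring
  rw [this]
  exact mul_le_mul_of_nonneg_right (hB u hu) (Real.exp_pos _).le

theorem LInt_exp {a w : ℝ} (h : a < w) : LInt (fun u => Real.exp (a * u)) w := by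
  unfold LInt
  have h1 : IntegrableOn (fun u : ℝ => Real.exp ((a - w) * u)) (Ioi 0) :=
    integrableOn_exp_mul_Ioi (by linarith) 0
  refine h1.congr (Eventually.of_forall fun u => ?_)
  simp only []
  rw [← Real.exp_add]
  congr 1
  ring

theorem lap_exp {a w : ℝ} (h : a < w) : lap (fun u => Real.exp (a * u)) w = 1 / (w - a) := by
  unfold lap
  have h1 : ∫ u in Ioi (0 : ℝ), Real.exp ((a - w) * u) = - Real.exp ((a - w) * 0) / (a - w) :=
    integral_exp_mul_Ioi (by linarith) 0
  have h2 : ∀ u : ℝ, Real.exp (a * u) * Real.exp (-(w * u)) = Real.exp ((a - w) * u) := by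
    intro u
    rw [← Real.exp_add]
    congr 1
    ring
  simp only [h2]
  rw [h1, mul_zero, Real.exp_zero]
  have h3 : w - a ≠ 0 := by intro h; linarith
  have h4 : a - w ≠ 0 := by intro h; linarith
  field_simp
  ring

theorem Phi_eq (j : ℝ → ℝ) (s : ℂ) :
    (∫ T in Ioi (0 : ℝ), Complex.exp (-(s * T)) * ((j T : ℝ) : ℂ)) = lapC j s := by
  unfold lapC
  congr 1
  funext T
  ring

/-- `u' = A u` with `A` analytic and `u` analytic, not identically zero near `s0`: `u s0 ≠ 0`. -/
theorem ode_ne_zero {u A : ℂ → ℂ} {s0 : ℂ} (hu : AnalyticAt ℂ u s0) (hA : AnalyticAt ℂ A s0)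
    (hode : ∀ᶠ s in 𝓝 s0, deriv u s = A s * u s) (hne : ¬ ∀ᶠ s in 𝓝 s0, u s = 0) :
    u s0 ≠ 0 := by
  intro h0
  have h1 := hu.analyticOrderAt_deriv_add_one
  rw [h0] at h1
  simp only [sub_zero] at h1
  have h2 : analyticOrderAt (deriv u) s0 = analyticOrderAt (fun s => A s * u s) s0 :=
    analyticOrderAt_congr hode
  have h3 : analyticOrderAt (fun s => A s * u s) s0 = analyticOrderAt A s0 + analyticOrderAt u s0 :=
    analyticOrderAt_mul hA hu
  have hfin : analyticOrderAt u s0 ≠ ⊤ := by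
    intro h
    exact hne (analyticOrderAt_eq_top.1 h)
  rw [h2, h3] at h1
  have h4 : analyticOrderAt (fun x => u x) s0 = analyticOrderAt u s0 := rfl
  rw [h4] at h1
  obtain ⟨m, hm⟩ := ENat.ne_top_iff_exists.1 hfin
  rw [← hm] at h1
  have h5 : ((m : ℕ∞)) + 1 ≤ m := by
    calc (m : ℕ∞) + 1 ≤ (analyticOrderAt A s0 + m) + 1 := by gcongr; exact le_add_self
      _ = m := h1
  have h6 : m + 1 ≤ m := by exact_mod_cast h5
  omega

end Lan2

open Lan2 Pool.Agent.W263.BSD

/-- TARGET -/
theorem zero_free_of_Jp {b C y0 : ℝ} (hb0 : 0 < b) (hb1 : b < 1)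
    (h : ∀ y : ℝ, y0 ≤ y → -(C * y ^ (b - 1)) ≤ Jp y) :
    ∀ s : ℂ, b < s.re → riemannZeta s ≠ 0 := by
  obtain ⟨⟨B, hB⟩, hmeas, hJ1, hlap⟩ := jp_laplace
  set j : ℝ → ℝ := fun T => Jp (Real.exp T) with hj
  set a : ℝ := b - 1 with ha
  have ha0 : a < 0 := by rw [ha]; linarith
  have ha1 : -1 < a := by rw [ha]; linarith
  have hjB : ∀ T, 0 < T → |j T| ≤ B := fun T hT => hB _ (Real.one_le_exp hT.le)
  have hB0 : 0 ≤ B := (abs_nonneg _).trans (hB 1 le_rfl)
  -- the nonnegative function
  set M : ℝ := max y0 1 with hM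
  have hM1 : 1 ≤ M := le_max_right _ _
  have hM0 : 0 < M := by linarith
  set C' : ℝ := |C| + B * M ^ (-a) with hC'
  have hMa : 0 < M ^ (-a) := Real.rpow_pos_of_pos hM0 _
  have hC'1 : |C| ≤ C' := by
    have := mul_nonneg hB0 hMa.le
    linarith
  have hC'2 : B * M ^ (-a) ≤ C' := by
    have := abs_nonneg C
    linarith
  set f : ℝ → ℝ := fun T => j T + C' * Real.exp (a * T) with hf
  have hfm : Measurable f := hmeas.add (by fun_prop)
  have hf0 : ∀ T, 0 < T → 0 ≤ f T := by
    intro T hT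
    have hexp : (Real.exp T) ^ a = Real.exp (a * T) := by
      rw [← Real.exp_mul, mul_comm]
    rcases le_or_gt y0 (Real.exp T) with h1 | h1
    · have h2 := h _ h1
      rw [hexp] at h2
      have h3 : C * Real.exp (a * T) ≤ C' * Real.exp (a * T) :=
        mul_le_mul_of_nonneg_right ((le_abs_self C).trans hC'1) (Real.exp_pos _).le
      simp only [hf, hj]
      linarith
    · have h2 : Real.exp T ≤ M := h1.le.trans (le_max_left _ _)
      have h3 : M ^ a ≤ (Real.exp T) ^ a :=
        Real.rpow_le_rpow_of_nonpos (Real.exp_pos T) h2 ha0.le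
      rw [hexp] at h3
      have h4 : M ^ (-a) * M ^ a = 1 := by
        rw [← Real.rpow_add hM0]
        simp
      have h5 : B ≤ C' * Real.exp (a * T) := by
        calc B = B * (M ^ (-a) * M ^ a) := by rw [h4, mul_one]
          _ = (B * M ^ (-a)) * M ^ a := by ring
          _ ≤ C' * Real.exp (a * T) := by
            apply mul_le_mul hC'2 h3 (Real.rpow_pos_of_pos hM0 _).le
            exact (mul_nonneg hB0 hMa.le).trans hC'2
      have h6 := (abs_le.1 (hjB T hT)).1
      simp only [hf]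
      linarith
  have hLj : ∀ w, 0 < w → LInt j w := fun w hw => LInt_of_bdd hmeas hjB hw
  have hLf : ∀ w > (0 : ℝ), LInt f w := fun w hw =>
    (hLj w hw).add ((LInt_exp (a := a) (w := w) (by linarith)).const_mul C')
  -- the real-analytic continuation
  set g : ℝ → ℝ := fun w => -(dslope G 0 (w : ℂ)).re + C' / (w - a) with hg
  have hGan : ∀ w : ℝ, -1 < w → AnalyticAt ℂ G (w : ℂ) := by
    intro w hw
    apply G_an
    · have : ((w : ℂ) + 1) = ((w + 1 : ℝ) : ℂ) := by push_cast; ring
      rw [this]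
      have : w + 1 ≠ 0 := by intro h; linarith
      exact_mod_cast this
    · have : ((w : ℂ) + 1) = ((w + 1 : ℝ) : ℂ) := by push_cast; ring
      rw [this]
      exact Z_ne_real (by linarith)
  have hgan : ∀ w > a, AnalyticAt ℝ g w := by
    intro w hw
    have h1 : AnalyticAt ℂ (dslope G 0) (w : ℂ) := dslope_an (hGan w (by linarith))
    have h2 : AnalyticAt ℝ (fun w : ℝ => w - a) w := by fun_prop
    have h3 : w - a ≠ 0 := by intro h; linarith
    exact (h1.re_ofReal.neg).add (analyticAt_const.div h2 h3)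
  have hG0 : G 0 = (Jp 1 : ℂ) := by
    rw [hJ1]
    unfold G
    rw [zero_add, riemannZeta₁_one]
    simp
  have hPhi : ∀ s : ℂ, 0 < s.re → riemannZeta₁ (s + 1) ≠ 0 → lapC j s = - dslope G 0 s := by
    intro s hs hZ
    have h1 := hlap s hs
    rw [Phi_eq] at h1
    have hs0 : s ≠ 0 := by rintro rfl; simp at hs
    have hs1 : s + 1 ≠ 0 := by
      intro h
      have : (s + 1).re = 0 := by rw [h]; simp
      simp at this
      linarith
    rw [dslope_of_ne _ hs0, slope_def_field, hG0]
    unfold G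
    rw [sub_zero]
    field_simp
    linear_combination h1
  have heq : ∀ w > (0 : ℝ), a < w → lap f w = g w := by
    intro w hw hwa
    have h1 : lap f w = lap j w + C' * (1 / (w - a)) := by
      rw [hf, lap_add (hLj w hw) ((LInt_exp hwa).const_mul C'), lap_const_mul, lap_exp hwa]
    rw [h1]
    have hZ : riemannZeta₁ ((w : ℂ) + 1) ≠ 0 := by
      have : ((w : ℂ) + 1) = ((w + 1 : ℝ) : ℂ) := by push_cast; ring
      rw [this]
      exact Z_ne_real (by linarith)
    have h2 := hPhi (w : ℂ) (by simpa using hw) hZ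
    rw [lapC_ofReal] at h2
    have h3 : lap j w = -(dslope G 0 (w : ℂ)).re := by
      have := congrArg Complex.re h2
      simpa using this
    rw [h3, hg]
    simp only []
    ring
  obtain ⟨hLfa, -⟩ := Pool.Agent.TH988.RB.landau_lap hfm hf0 hLf hgan heq
  have hLja : ∀ w > a, LInt j w := by
    intro w hw
    have h1 := (hLfa w hw).sub ((LInt_exp (a := a) (w := w) hw).const_mul C')
    have h2 : (fun u => f u - C' * Real.exp (a * u)) = j := by
      funext u
      simp [hf]
    rwa [h2] at h1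
  -- holomorphy of the Laplace transform
  have hPd : ∀ z : ℂ, a < z.re → DifferentiableAt ℂ (lapC j) z := fun z hz =>
    lapC_differentiableAt hmeas hLja hz
  set H : Set ℂ := {s : ℂ | a < s.re} with hH
  have hHo : IsOpen H := isOpen_lt continuous_const Complex.continuous_re
  have hHc : IsPreconnected H := (convex_halfSpace_re_gt a).isPreconnected
  have hPan : AnalyticOnNhd ℂ (lapC j) H := by
    intro z hz
    have : DifferentiableOn ℂ (lapC j) H := fun y hy => (hPd y hy).differentiableWithinAt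
    exact this.analyticAt (hHo.mem_nhds hz)
  have hid : EqOn (fun s : ℂ => (s + 1) * riemannZeta₁ (s + 1) * (s * lapC j s - Jp 1))
      (fun s : ℂ => riemannZeta₁ (s + 1) + deriv riemannZeta₁ (s + 1)) H := by
    have hA1 : AnalyticOnNhd ℂ
        (fun s : ℂ => (s + 1) * riemannZeta₁ (s + 1) * (s * lapC j s - Jp 1)) H := by
      intro z hz
      have e1 : AnalyticAt ℂ (fun s : ℂ => s + 1) z := by fun_prop
      have e2 : AnalyticAt ℂ (fun s : ℂ => s) z := by fun_prop
      exact (e1.mul (u_an z)).mul ((e2.mul (hPan z hz)).sub analyticAt_const)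
    have hA2 : AnalyticOnNhd ℂ
        (fun s : ℂ => riemannZeta₁ (s + 1) + deriv riemannZeta₁ (s + 1)) H := by
      intro z _
      exact (u_an z).add (du_an z)
    have h1 : (1 : ℂ) ∈ H := by simp only [hH]; show a < (1 : ℂ).re; simp; linarith
    refine hA1.eqOn_of_preconnected_of_eventuallyEq hA2 hHc h1 ?_
    have ho : IsOpen {s : ℂ | 0 < s.re} := isOpen_lt continuous_const Complex.continuous_re
    filter_upwards [ho.mem_nhds (show (1 : ℂ) ∈ {s : ℂ | 0 < s.re} by
      show 0 < (1 : ℂ).re; simp)] with s hs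
    have := hlap s hs
    rw [Phi_eq] at this
    exact this
  -- `Z` has no zero in `Re s > b`
  have hZne : ∀ s0 : ℂ, a < s0.re → riemannZeta₁ (s0 + 1) ≠ 0 := by
    intro s0 hs0
    set A : ℂ → ℂ := fun s => (s + 1) * (s * lapC j s - Jp 1) - 1 with hA
    have hAan : AnalyticAt ℂ A s0 := by
      have e1 : AnalyticAt ℂ (fun s : ℂ => s + 1) s0 := by fun_prop
      have e2 : AnalyticAt ℂ (fun s : ℂ => s) s0 := by fun_prop
      exact (e1.mul ((e2.mul (hPan s0 hs0)).sub analyticAt_const)).sub analyticAt_const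
    refine ode_ne_zero (u := fun s => riemannZeta₁ (s + 1)) (u_an s0) hAan ?_ ?_
    · filter_upwards [hHo.mem_nhds hs0] with s hs
      have h1 := hid hs
      simp only at h1
      have h2 : deriv (fun s : ℂ => riemannZeta₁ (s + 1)) s = deriv riemannZeta₁ (s + 1) := by
        rw [deriv_comp_add_const]
      rw [h2, hA]
      simp only
      linear_combination -h1
    · intro hev
      have h1 : AnalyticOnNhd ℂ (fun s : ℂ => riemannZeta₁ (s + 1)) univ := fun z _ => u_an z
      have h2 := h1.eqOn_zero_of_preconnected_of_eventuallyEq_zero isPreconnected_univ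
        (mem_univ s0) hev
      have h3 := h2 (mem_univ (0 : ℂ))
      simp [riemannZeta₁_one] at h3
  intro s hs
  rcases eq_or_ne s 1 with rfl | h1
  · exact riemannZeta_ne_zero_of_one_le_re (by simp)
  · rw [riemannZeta_eq_inv_sub_mul h1]
    have h2 := hZne (s - 1) (by simp; linarith)
    rw [sub_add_cancel] at h2
    exact mul_ne_zero (inv_ne_zero (sub_ne_zero.2 h1)) h2

end Pool.Agent.H424.RB
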