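import Pool.Agent.H424.RB.Base


/-!
# Job RB-LOWP: many integers with large `n / φ(n)` when `mar y` is large

`Pr y = ∑_{p ≤ y} -log(1 - 1/p)`, `mar y = Pr y - γ - log log θ(y)`, `θ = Chebyshev.theta`,
`eulerExceptions N = #{1 ≤ n ≤ N : e^γ log log n · φ(n) ≤ n}`.

Plain-words proof of the target (`C0 = 40` is far more than enough; `y1` large).
`theta_pnt` with `A = 1` gives `y/2 ≤ θ(y) ≤ 2y` for `y ≥ y1`, and let `y1 ≥ 100`.
Choose `R` distinct primes `p_1, …, p_R ∈ (y - H, y]` and `R` distinct primes `q_1, …, q_R ∈ (y, y + H]`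
(`p_i > y/2`).  Let `L = ∏_{p ≤ y} p` (the primorial of `⌊y⌋₊`).  For `A ⊆ {1,…,R}` let
`n_A = L · ∏_{i∈A} q_i / ∏_{i∈A} p_i`, i.e. the product of the set of primes `({p ≤ y} \ {p_i : i∈A}) ∪ {q_i : i∈A}`.
The `2^R` integers `n_A` are distinct and squarefree (their sets of prime factors are distinct).  We show: each is `≤ N`
and exceptional.
 * `log n_A = θ(y) + ∑_{i∈A} log(q_i/p_i)`, `0 ≤ log(q_i/p_i) ≤ (q_i - p_i)/p_i ≤ 2H/(y/2) = 4H/y`.  So
   `θ(y) ≤ log n_A ≤ θ(y) + 4RH/y`.  As `R ≤ #` of integers in `(y, y+H]` `≤ H + 1` and `H ≤ y/2` (if `R ≥ 1` then `H`..; in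
   any case `R ≤ H + 1 ≤ y`), `4RH/y ≤ 2y`, so `log n_A ≤ 4y`, `n_A ≤ exp(4y) ≤ N`.
   [`R ≤ π(y+H) - π(y)`, the primes in `(y, y+H]` are at most `H+1` integers; `H + 1 ≤ y/2 + 1 ≤ y`.  Then
   `4RH/y ≤ 4H ≤ 2y`.]
 * `log(n_A/φ(n_A)) = Pr y + ∑_{i∈A} (ℓ(q_i) - ℓ(p_i))`, `ℓ(p) = -log(1-1/p)`, and
   `ℓ(p_i) - ℓ(q_i) = log((1 - 1/q_i)/(1 - 1/p_i)) ≤ (1/p_i - 1/q_i)/(1 - 1/p_i) ≤ 2 (q_i - p_i)/(p_i q_i) ≤ 2·2H/((y/2) y)
   = 8H/y²`.  So `log(n_A/φ(n_A)) ≥ Pr y - 8RH/y²`.
 * `log log log n_A ≤ log log(θ(y) + 4RH/y)`; `log(θ + e) ≤ log θ + e/θ` and again, so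
   `≤ log log θ(y) + (4RH/y)/(θ(y) log θ(y)) ≤ log log θ(y) + 8RH/y²` (`θ(y) ≥ y/2`, `log θ(y) ≥ 1`).
 * So `log(n_A/φ(n_A)) - γ - log log log n_A ≥ mar y - 16RH/y² ≥ 0` if `C0 ≥ 16`, which is
   `n_A/φ(n_A) ≥ e^γ log log n_A`.
-/

set_option autoImplicit false

namespace Pool.Agent.H424.RB

open MeasureTheory Filter Topology Set

/-- TARGET -/
theorem low_phi : ∃ C0 y1 : ℝ, 0 < C0 ∧ ∀ y : ℝ, y1 ≤ y → ∀ H : ℝ, 0 < H → H ≤ y / 2 → ∀ R : ℕ,
    R ≤ ((Finset.Ioc ⌊y - H⌋₊ ⌊y⌋₊).filter Nat.Prime).card →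
    R ≤ ((Finset.Ioc ⌊y⌋₊ ⌊y + H⌋₊).filter Nat.Prime).card →
    C0 * (R * H / y ^ 2) ≤ mar y →
    ∀ N : ℕ, Real.exp (4 * y) ≤ N → 2 ^ R ≤ eulerExceptions N := by
  classical
  obtain ⟨C, hC, hth⟩ := theta_pnt 1
  refine ⟨16, max 100 (Real.exp (2 * C)), by norm_num, ?_⟩
  intro y hy H hH hHy R hR1 hR2 hmar N hN
  have hy100 : 100 ≤ y := (le_max_left _ _).trans hy
  have hyC : Real.exp (2 * C) ≤ y := (le_max_right _ _).trans hy
  have hy0 : 0 < y := by linarith
  have hlogy : 2 * C ≤ Real.log y := (Real.le_log_iff_exp_le hy0).mpr hyC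
  have hlog0 : 0 < Real.log y := by linarith
  have hθ := hth y (by linarith)
  rw [pow_one] at hθ
  have hθb : C * y / Real.log y ≤ y / 2 := by
    rw [div_le_div_iff₀ hlog0 (by norm_num)]
    nlinarith
  have hθ1 : y / 2 ≤ Chebyshev.theta y := by
    have := (abs_le.mp hθ).1
    linarith
  have hθ2 : Chebyshev.theta y ≤ 2 * y := by
    have := (abs_le.mp hθ).2
    linarith
  set θ : ℝ := Chebyshev.theta y with hθdef
  set P : Finset ℕ := (Finset.Ioc 0 ⌊y⌋₊).filter Nat.Prime with hP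
  have hθsum : θ = ∑ p ∈ P, Real.log p := rfl
  set p : Fin R ↪o ℕ := ((Finset.Ioc ⌊y - H⌋₊ ⌊y⌋₊).filter Nat.Prime).orderEmbOfCardLe hR1 with hpdef
  set q : Fin R ↪o ℕ := ((Finset.Ioc ⌊y⌋₊ ⌊y + H⌋₊).filter Nat.Prime).orderEmbOfCardLe hR2 with hqdef
  have hpm : ∀ i, p i ∈ (Finset.Ioc ⌊y - H⌋₊ ⌊y⌋₊).filter Nat.Prime := fun i =>
    Finset.orderEmbOfCardLe_mem _ hR1 i
  have hqm : ∀ i, q i ∈ (Finset.Ioc ⌊y⌋₊ ⌊y + H⌋₊).filter Nat.Prime := fun i =>
    Finset.orderEmbOfCardLe_mem _ hR2 i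
  have hpp : ∀ i, (p i).Prime := fun i => (Finset.mem_filter.mp (hpm i)).2
  have hqp : ∀ i, (q i).Prime := fun i => (Finset.mem_filter.mp (hqm i)).2
  have hp1 : ∀ i, y - H < p i := fun i =>
    (Nat.floor_lt (by linarith)).mp (Finset.mem_Ioc.mp (Finset.mem_filter.mp (hpm i)).1).1
  have hp2 : ∀ i, (p i : ℝ) ≤ y := fun i =>
    (Nat.le_floor_iff hy0.le).mp (Finset.mem_Ioc.mp (Finset.mem_filter.mp (hpm i)).1).2
  have hp2' : ∀ i, p i ≤ ⌊y⌋₊ := fun i => (Finset.mem_Ioc.mp (Finset.mem_filter.mp (hpm i)).1).2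
  have hq1' : ∀ i, ⌊y⌋₊ < q i := fun i => (Finset.mem_Ioc.mp (Finset.mem_filter.mp (hqm i)).1).1
  have hq1 : ∀ i, y < q i := fun i => (Nat.floor_lt hy0.le).mp (hq1' i)
  have hq2 : ∀ i, (q i : ℝ) ≤ y + H := fun i =>
    (Nat.le_floor_iff (by linarith)).mp (Finset.mem_Ioc.mp (Finset.mem_filter.mp (hqm i)).1).2
  have hPp : ∀ i, p i ∈ P := fun i => by
    rw [hP, Finset.mem_filter, Finset.mem_Ioc]
    exact ⟨⟨(hpp i).pos, hp2' i⟩, hpp i⟩
  have hPq : ∀ i, q i ∉ P := fun i h => by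
    rw [hP, Finset.mem_filter, Finset.mem_Ioc] at h
    exact absurd h.1.2 (not_le.mpr (hq1' i))
  -- the number of primes is at most H + 1
  have hRH : (R : ℝ) ≤ H + 1 := by
    have h1 : R ≤ ⌊y + H⌋₊ - ⌊y⌋₊ := by
      refine hR2.trans ((Finset.card_filter_le _ _).trans ?_)
      rw [Nat.card_Ioc]
    have h2 : ⌊y⌋₊ ≤ ⌊y + H⌋₊ := Nat.floor_le_floor (by linarith)
    have h3 : (R : ℝ) ≤ (⌊y + H⌋₊ : ℝ) - ⌊y⌋₊ := by
      rw [← Nat.cast_sub h2]
      exact_mod_cast h1
    have h4 := Nat.floor_le (by linarith : 0 ≤ y + H)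
    have h5 := Nat.lt_floor_add_one y
    linarith
  have hR0 : (0 : ℝ) ≤ R := Nat.cast_nonneg R
  -- the sets of primes
  let S : Finset (Fin R) → Finset ℕ := fun A => (P \ A.image p) ∪ A.image q
  have hSp : ∀ A, ∀ r ∈ S A, r.Prime := by
    intro A r hr
    rcases Finset.mem_union.mp hr with h | h
    · exact (Finset.mem_filter.mp (Finset.mem_sdiff.mp h).1).2
    · obtain ⟨i, _, rfl⟩ := Finset.mem_image.mp h
      exact hqp i
  have hSsum : ∀ A : Finset (Fin R), ∀ g : ℕ → ℝ,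
      ∑ r ∈ S A, g r = ∑ r ∈ P, g r - ∑ i ∈ A, g (p i) + ∑ i ∈ A, g (q i) := by
    intro A g
    have hsub : A.image p ⊆ P := by
      intro r hr
      obtain ⟨i, _, rfl⟩ := Finset.mem_image.mp hr
      exact hPp i
    have hdis : Disjoint (P \ A.image p) (A.image q) := by
      rw [Finset.disjoint_left]
      intro r hr hr2
      obtain ⟨i, _, rfl⟩ := Finset.mem_image.mp hr2
      exact hPq i (Finset.mem_sdiff.mp hr).1
    have h1 := Finset.sum_sdiff (f := g) hsub
    have h2 : ∑ r ∈ A.image p, g r = ∑ i ∈ A, g (p i) :=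
      Finset.sum_image fun a _ b _ h => p.injective h
    have h3 : ∑ r ∈ A.image q, g r = ∑ i ∈ A, g (q i) :=
      Finset.sum_image fun a _ b _ h => q.injective h
    rw [Finset.sum_union hdis, h3, ← h1, h2]
    ring
  let n : Finset (Fin R) → ℕ := fun A => ∏ r ∈ S A, r
  have hn0 : ∀ A, 0 < n A := fun A => Finset.prod_pos fun r hr => (hSp A r hr).pos
  have hnf : ∀ A, (n A).primeFactors = S A := fun A => Nat.primeFactors_prod (hSp A)
  have hinj : Function.Injective n := by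
    intro A B hAB
    have hS : S A = S B := by rw [← hnf A, ← hnf B, hAB]
    have key : ∀ A : Finset (Fin R), ∀ i, i ∈ A ↔ q i ∈ S A := by
      intro A i
      constructor
      · intro hi
        exact Finset.mem_union_right _ (Finset.mem_image_of_mem _ hi)
      · intro hi
        rcases Finset.mem_union.mp hi with h | h
        · exact absurd (Finset.mem_sdiff.mp h).1 (hPq i)
        · obtain ⟨j, hj, hji⟩ := Finset.mem_image.mp h
          rwa [q.injective hji] at hj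
    ext i
    rw [key A i, key B i, hS]
  -- estimates
  have hA : ∀ A : Finset (Fin R), ((A.card : ℕ) : ℝ) ≤ R := by
    intro A
    have := Finset.card_le_univ A
    rw [Fintype.card_fin] at this
    exact_mod_cast this
  have hdiff : ∀ i, (q i : ℝ) - p i ≤ 2 * H := fun i => by
    have := hp1 i
    have := hq2 i
    linarith
  have hpy : ∀ i, y / 2 < p i := fun i => by
    have := hp1 i
    linarith
  have hpq : ∀ i, (p i : ℝ) < q i := fun i => lt_of_le_of_lt (hp2 i) (hq1 i)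
  have hlogn : ∀ A, Real.log (n A) = θ - ∑ i ∈ A, Real.log (p i) + ∑ i ∈ A, Real.log (q i) := by
    intro A
    rw [hθsum, ← hSsum A (fun r => Real.log r)]
    simp only [n]
    rw [Nat.cast_prod, Real.log_prod]
    intro r hr
    exact_mod_cast (hSp A r hr).ne_zero
  have hD : ∀ A, θ ≤ Real.log (n A) ∧ Real.log (n A) ≤ θ + 4 * R * H / y := by
    intro A
    rw [hlogn]
    have h1 : ∀ i ∈ A, 0 ≤ Real.log (q i) - Real.log (p i) := by
      intro i _
      have h2 := hpy i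
      have := Real.log_le_log (by linarith : (0:ℝ) < p i) (hpq i).le
      linarith
    have h2 : ∀ i ∈ A, Real.log (q i) - Real.log (p i) ≤ 4 * H / y := by
      intro i _
      have h3 := hpy i
      have hp0 : (0:ℝ) < p i := by linarith
      have hq0 : (0:ℝ) < q i := hp0.trans (hpq i)
      rw [← Real.log_div hq0.ne' hp0.ne']
      have h4 := Real.log_le_sub_one_of_pos (div_pos hq0 hp0)
      refine h4.trans ?_
      rw [div_sub_one hp0.ne', div_le_div_iff₀ hp0 hy0]
      have h5 := hdiff i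
      nlinarith
    have h3 := Finset.sum_nonneg h1
    have h4 := Finset.sum_le_card_nsmul _ _ _ h2
    rw [Finset.sum_sub_distrib] at h3 h4
    rw [nsmul_eq_mul] at h4
    have h5 : (A.card : ℝ) * (4 * H / y) ≤ R * (4 * H / y) :=
      mul_le_mul_of_nonneg_right (hA A) (by positivity)
    have h6 : (R : ℝ) * (4 * H / y) = 4 * R * H / y := by ring
    constructor <;> linarith
  have hℓ : ∀ A, Pr y - 8 * R * H / y ^ 2 ≤ ∑ r ∈ S A, -Real.log (1 - 1 / (r : ℝ)) := by
    intro A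
    rw [hSsum A (fun r => -Real.log (1 - 1 / (r : ℝ)))]
    have hPr : Pr y = ∑ r ∈ P, -Real.log (1 - 1 / (r : ℝ)) := rfl
    rw [hPr]
    have h2 : ∀ i ∈ A, -Real.log (1 - 1 / (p i : ℝ)) - -Real.log (1 - 1 / (q i : ℝ)) ≤
        8 * H / y ^ 2 := by
      intro i _
      have h3 := hpy i
      have hp0 : (0:ℝ) < p i := by linarith
      have hq0 : (0:ℝ) < q i := hp0.trans (hpq i)
      have hp1' : 0 < 1 - 1 / (p i : ℝ) := by
        rw [sub_pos, div_lt_one hp0]
        linarith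
      have hq1' : 0 < 1 - 1 / (q i : ℝ) := by
        rw [sub_pos, div_lt_one hq0]
        linarith [hpq i]
      have e : -Real.log (1 - 1 / (p i : ℝ)) - -Real.log (1 - 1 / (q i : ℝ)) =
          Real.log ((1 - 1 / (q i : ℝ)) / (1 - 1 / (p i : ℝ))) := by
        rw [Real.log_div hq1'.ne' hp1'.ne']
        ring
      rw [e]
      refine (Real.log_le_sub_one_of_pos (div_pos hq1' hp1')).trans ?_
      have hpm1 : 0 < (p i : ℝ) - 1 := by linarith
      have e2 : (1 - 1 / (q i : ℝ)) / (1 - 1 / (p i : ℝ)) - 1 =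
          ((q i : ℝ) - p i) / (q i * (p i - 1)) := by
        field_simp
        ring
      rw [e2, div_le_div_iff₀ (by positivity) (by positivity)]
      have h5 := hdiff i
      have h6 := hq1 i
      have h7 : y / 4 ≤ (p i : ℝ) - 1 := by linarith
      have h8 : y * (y / 4) ≤ q i * ((p i : ℝ) - 1) :=
        mul_le_mul h6.le h7 (by positivity) hq0.le
      calc ((q i : ℝ) - p i) * y ^ 2 ≤ (2 * H) * y ^ 2 :=
            mul_le_mul_of_nonneg_right h5 (by positivity)
        _ = 8 * H * (y * (y / 4)) := by ring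
        _ ≤ 8 * H * (q i * ((p i : ℝ) - 1)) := mul_le_mul_of_nonneg_left h8 (by positivity)
    have h4 := Finset.sum_le_card_nsmul _ _ _ h2
    rw [Finset.sum_sub_distrib, nsmul_eq_mul] at h4
    have h5 : (A.card : ℝ) * (8 * H / y ^ 2) ≤ R * (8 * H / y ^ 2) :=
      mul_le_mul_of_nonneg_right (hA A) (by positivity)
    have h6 : (R : ℝ) * (8 * H / y ^ 2) = 8 * R * H / y ^ 2 := by ring
    linarith
  have hθ0 : 0 < θ := by linarith
  have hlθ : 1 ≤ Real.log θ := by
    rw [Real.le_log_iff_exp_le hθ0]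
    have := Real.exp_one_lt_d9
    linarith
  have hexc : ∀ A, Real.exp Real.eulerMascheroniConstant * Real.log (Real.log (n A)) *
      (Nat.totient (n A) : ℝ) ≤ n A := by
    intro A
    obtain ⟨hD1, hD2⟩ := hD A
    have hL1 : 1 ≤ Real.log (Real.log (n A)) := hlθ.trans (Real.log_le_log hθ0 hD1)
    have hL0 : 0 < Real.log (Real.log (n A)) := by linarith
    -- log log log n
    have hlll : Real.log (Real.log (Real.log (n A))) ≤ Real.log (Real.log θ) + 8 * R * H / y ^ 2 := by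
      have h1 : Real.log (Real.log (n A)) ≤ Real.log θ + 8 * R * H / y ^ 2 := by
        have h2 : Real.log (Real.log (n A)) - Real.log θ ≤ Real.log (n A) / θ - 1 := by
          rw [← Real.log_div (by linarith) hθ0.ne']
          exact Real.log_le_sub_one_of_pos (by
            apply div_pos _ hθ0
            linarith)
        have h3 : Real.log (n A) / θ - 1 ≤ 8 * R * H / y ^ 2 := by
          rw [div_sub_one hθ0.ne', div_le_div_iff₀ hθ0 (by positivity)]
          have h4 : (Real.log (n A) - θ) * y ≤ 4 * R * H := by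
            have : Real.log (n A) - θ ≤ 4 * R * H / y := by linarith
            rwa [le_div_iff₀ hy0] at this
          have h5 : 0 ≤ 4 * R * H := by positivity
          calc (Real.log (n A) - θ) * y ^ 2 = ((Real.log (n A) - θ) * y) * y := by ring
            _ ≤ (4 * R * H) * y := mul_le_mul_of_nonneg_right h4 hy0.le
            _ = (8 * R * H) * (y / 2) := by ring
            _ ≤ (8 * R * H) * θ := mul_le_mul_of_nonneg_left hθ1 (by positivity)
        linarith
      have h0 : 0 ≤ 8 * R * H / y ^ 2 := by positivity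
      have h6 : Real.log (Real.log (Real.log (n A))) ≤
          Real.log (Real.log θ + 8 * R * H / y ^ 2) := Real.log_le_log hL0 h1
      have h7 : Real.log (Real.log θ + 8 * R * H / y ^ 2) - Real.log (Real.log θ) ≤
          (Real.log θ + 8 * R * H / y ^ 2) / Real.log θ - 1 := by
        rw [← Real.log_div (by linarith) (by linarith)]
        exact Real.log_le_sub_one_of_pos (by
          apply div_pos <;> linarith)
      have h8 : (Real.log θ + 8 * R * H / y ^ 2) / Real.log θ - 1 ≤ 8 * R * H / y ^ 2 := by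
        rw [div_sub_one (by linarith), add_sub_cancel_left]
        exact div_le_self h0 hlθ
      linarith
    have hmar' : 16 * (R * H / y ^ 2) ≤ Pr y - Real.eulerMascheroniConstant
        - Real.log (Real.log θ) := hmar
    have hsum : Real.eulerMascheroniConstant + Real.log (Real.log (Real.log (n A))) ≤
        ∑ r ∈ S A, -Real.log (1 - 1 / (r : ℝ)) := by
      have h1 := hℓ A
      have e : 16 * (R * H / y ^ 2) = 8 * R * H / y ^ 2 + 8 * R * H / y ^ 2 := by ring
      linarith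
    -- totient
    have htot : (Nat.totient (n A) : ℝ) = n A * ∏ r ∈ S A, (1 - (r : ℝ)⁻¹) := by
      have h1 := Nat.totient_eq_mul_prod_factors (n A)
      rw [hnf] at h1
      have h2 : ((Nat.totient (n A) : ℚ) : ℝ) =
          (((n A : ℚ) * ∏ r ∈ S A, (1 - (r : ℚ)⁻¹) : ℚ) : ℝ) := by rw [h1]
      push_cast at h2
      exact h2
    have hfac : ∀ r ∈ S A, 0 < 1 - (r : ℝ)⁻¹ := by
      intro r hr
      have h2 : (2 : ℝ) ≤ r := by exact_mod_cast (hSp A r hr).two_le
      have h3 : (r : ℝ)⁻¹ ≤ 2⁻¹ := inv_anti₀ (by norm_num) h2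
      linarith
    have hprod : 0 < ∏ r ∈ S A, (1 - (r : ℝ)⁻¹) := Finset.prod_pos hfac
    have hlp : Real.log (∏ r ∈ S A, (1 - (r : ℝ)⁻¹)) = -∑ r ∈ S A, -Real.log (1 - 1 / (r : ℝ)) := by
      rw [Real.log_prod (fun r hr => (hfac r hr).ne'), Finset.sum_neg_distrib, neg_neg]
      simp only [one_div]
    have hfin : Real.exp Real.eulerMascheroniConstant * Real.log (Real.log (n A)) *
        ∏ r ∈ S A, (1 - (r : ℝ)⁻¹) ≤ 1 := by
      have hpos : 0 < Real.exp Real.eulerMascheroniConstant * Real.log (Real.log (n A)) *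
        ∏ r ∈ S A, (1 - (r : ℝ)⁻¹) := mul_pos (mul_pos (Real.exp_pos _) hL0) hprod
      rw [← Real.log_nonpos_iff hpos.le, Real.log_mul (mul_pos (Real.exp_pos _) hL0).ne' hprod.ne',
        Real.log_mul (Real.exp_pos _).ne' hL0.ne', Real.log_exp, hlp]
      linarith
    have hnpos : (0 : ℝ) < n A := by exact_mod_cast hn0 A
    rw [htot]
    calc _ = (n A : ℝ) * (Real.exp Real.eulerMascheroniConstant * Real.log (Real.log (n A)) *
        ∏ r ∈ S A, (1 - (r : ℝ)⁻¹)) := by ring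
      _ ≤ (n A : ℝ) * 1 := mul_le_mul_of_nonneg_left hfin hnpos.le
      _ = n A := mul_one _
  have hle : ∀ A, n A ≤ N := by
    intro A
    obtain ⟨hD1, hD2⟩ := hD A
    have hnpos : (0 : ℝ) < n A := by exact_mod_cast hn0 A
    have h1 : 4 * R * H / y ≤ 2 * y := by
      rw [div_le_iff₀ hy0]
      have h2 : (R : ℝ) ≤ y := by linarith
      calc 4 * R * H ≤ 4 * y * (y / 2) := by
            apply mul_le_mul _ hHy hH.le (by positivity)
            linarith
        _ = 2 * y * y := by ring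
    have h2 : Real.log (n A) ≤ 4 * y := by linarith
    have h3 : (n A : ℝ) ≤ Real.exp (4 * y) := (Real.log_le_iff_le_exp hnpos).mp h2
    exact_mod_cast h3.trans hN
  -- count
  unfold eulerExceptions
  have hcard : (Finset.univ : Finset (Finset (Fin R))).card = 2 ^ R := by
    rw [Finset.card_univ, Fintype.card_finset, Fintype.card_fin]
  rw [← hcard]
  apply Finset.card_le_card_of_injOn n
  · intro A _
    rw [Finset.mem_coe, Finset.mem_filter, Finset.mem_Icc]
    exact ⟨⟨hn0 A, hle A⟩, hexc A⟩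
  · exact hinj.injOn

end Pool.Agent.H424.RB
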