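import Pool.Agent.H424.RB.Base


/-!
# Job RB-LOWS: many exceptions to Robin's inequality when `mar y` is large

`Pr y = ∑_{p ≤ y} -log(1 - 1/p)`, `mar y = Pr y - γ - log log θ(y)`, `θ = Chebyshev.theta`,
`robinExceptions N = #{1 ≤ n ≤ N : e^γ n log log n ≤ σ(n)}`.

Plain-words proof of the target (`C0`, `y1` large constants).
`theta_pnt` with `A = 1` gives `y/2 ≤ θ(y) ≤ 2y` for `y ≥ y1`; let `y1 ≥ 100`.
Choose `R` distinct primes `p_1, …, p_R ∈ (y - H, y]` and `R` distinct primes `q_1, …, q_R ∈ (y, y + H]`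
(`p_i > y/2 > √y`).  Let `L = lcm(1, …, ⌊y⌋₊) = ∏_{p ≤ y} p^{k_p}`, `k_p = ⌊log y/log p⌋`
(Mathlib: `Chebyshev.lcmUpto`, `Chebyshev.lcmUpto_eq_prod_pow_log`, `Chebyshev.psi_eq_log_lcmUpto`,
`Chebyshev.factorization_lcmUpto`, look up the exact names and namespaces in `Mathlib/NumberTheory/Chebyshev.lean`), so
`log L = ψ(y)`, and `k_p = 1` for `p > √y`.  For `A ⊆ {1,…,R}` let `n_A = (L / ∏_{i∈A} p_i) · ∏_{i∈A} q_i`.
Since `k_{p_i} = 1`, `L = (∏_{i∈A} p_i) · M_A` with `M_A` coprime to `∏_{i∈A} p_i`, and `M_A` is coprime to the `q_i > y`.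
The `2^R` integers `n_A` are distinct (`q_i ∣ n_A` iff `i ∈ A`).  We show: each is `≤ N` and exceptional.
 * `log n_A = ψ(y) + ∑_{i∈A} log(q_i/p_i)`, `0 ≤ log(q_i/p_i) ≤ (q_i - p_i)/p_i ≤ 2H/(y/2) = 4H/y`.  So
   `ψ(y) ≤ log n_A ≤ ψ(y) + 4RH/y`.  `R ≤ H + 1 ≤ y` (integers in `(y, y+H]`), so `4RH/y ≤ 4H ≤ 2y`; `ψ(y) ≤ 2y` for large
   `y` (`theta_pnt` and `ψ - θ ≤ C√y`, `Chebyshev.psi_sub_theta_le_mul_sqrt`).  So `n_A ≤ exp(4y) ≤ N`.
 * `σ(n)/n` is multiplicative (`ArithmeticFunction.isMultiplicative_sigma`), so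
   `log(σ(n_A)/n_A) = log(σ(L)/L) + ∑_{i∈A} (log(1 + 1/q_i) - log(1 + 1/p_i))
     ≥ log(σ(L)/L) - ∑_{i∈A} (1/p_i - 1/q_i) ≥ log(σ(L)/L) - R · 2H/((y/2)y) = log(σ(L)/L) - 4RH/y²`
   (`log(1+a) - log(1+b) ≤ a - b` for `a ≥ b ≥ 0`).
 * `σ(L)/L = ∏_{p≤y} (1 - p^{-k_p-1})/(1 - 1/p)`, so `log(σ(L)/L) = Pr y + ∑_{p ≤ y} log(1 - p^{-k_p-1})`.
   `p^{k_p+1} > y` always, and `= p²` for `p > √y`.  `-log(1-x) ≤ 2x` for `0 ≤ x ≤ 1/2`.  The primes `p ≤ √y` contribute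
   at most `√y · 2/y = 2/√y`, the primes `p > √y` at most `∑_{m > √y} 2/m² ≤ 2/(√y - 1) ≤ 4/√y`
   (`∑_{m > x} 1/m² ≤ 1/⌊x⌋`).  So `log(σ(L)/L) ≥ Pr y - 6/√y`.
 * `log log log n_A ≤ log log(ψ(y) + 4RH/y)`; with `ψ(y) ≤ θ(y) + C√y` (`Chebyshev.psi_sub_theta_le_mul_sqrt`), and
   `log(θ + e) ≤ log θ + e/θ` twice: `≤ log log θ(y) + (C√y + 4RH/y)/(θ(y) log θ(y)) ≤ log log θ(y) + 2C/√y + 8RH/y²`
   (`θ(y) ≥ y/2`, `log θ(y) ≥ 1`).
 * So `log(σ(n_A)/n_A) - γ - log log log n_A ≥ mar y - (6 + 2C)/√y - 12RH/y² ≥ 0` for `C0 ≥ max (6 + 2C) 12`, i.e.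
   `σ(n_A) ≥ e^γ n_A log log n_A`.
-/

set_option autoImplicit false

namespace Pool.Agent.H424.RB

open MeasureTheory Filter Topology Set

/-- `log (σ(m)/m)` -/
noncomputable def j604_lf (m : ℕ) : ℝ :=
  Real.log ((ArithmeticFunction.sigma 1 m : ℕ) : ℝ) - Real.log (m : ℝ)

theorem j604_lf_prod (S : Finset ℕ) (g : ℕ → ℕ) (hg : ∀ p ∈ S, g p ≠ 0)
    (hc : ∀ p ∈ S, ∀ p' ∈ S, p ≠ p' → Nat.Coprime (g p) (g p')) :
    j604_lf (∏ p ∈ S, g p) = ∑ p ∈ S, j604_lf (g p) := by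
  unfold j604_lf
  rw [ArithmeticFunction.IsMultiplicative.map_prod g
    ArithmeticFunction.isMultiplicative_sigma S (fun p hp p' hp' h => hc p hp p' hp' h)]
  rw [Nat.cast_prod, Nat.cast_prod, Real.log_prod, Real.log_prod, ← Finset.sum_sub_distrib]
  · intro p hp
    exact_mod_cast hg p hp
  · intro p hp
    have := ArithmeticFunction.sigma_pos 1 (g p) (hg p hp)
    exact_mod_cast this.ne'

theorem j604_lf_pow (p k : ℕ) (hp : p.Prime) :
    j604_lf (p ^ k) = Real.log (1 - 1 / (p : ℝ) ^ (k + 1)) - Real.log (1 - 1 / (p : ℝ)) := by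
  have hp1 : (1 : ℝ) < p := by exact_mod_cast hp.one_lt
  have hp0 : (0 : ℝ) < p := by linarith
  unfold j604_lf
  rw [ArithmeticFunction.sigma_one_apply_prime_pow hp]
  push_cast
  have h1 : (∑ j ∈ Finset.range (k + 1), (p : ℝ) ^ j) = ((p : ℝ) ^ (k + 1) - 1) / (p - 1) :=
    geom_sum_eq hp1.ne' (k + 1)
  have hpk : (1 : ℝ) < (p : ℝ) ^ (k + 1) := one_lt_pow₀ hp1 (by omega)
  have h2 : (1 : ℝ) - 1 / (p : ℝ) ^ (k + 1) = ((p : ℝ) ^ (k + 1) - 1) / (p : ℝ) ^ (k + 1) := by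
    field_simp
  have h3 : (1 : ℝ) - 1 / (p : ℝ) = ((p : ℝ) - 1) / p := by
    field_simp
  rw [h1, h2, h3, Real.log_div (by linarith) (by linarith), Real.log_div (by linarith) (by linarith),
    Real.log_div (by linarith) (by linarith), Real.log_pow, Real.log_pow]
  push_cast
  ring

theorem j604_lf_prime (q : ℕ) (hq : q.Prime) : j604_lf q = Real.log (1 + 1 / (q : ℝ)) := by
  have hq0 : (0 : ℝ) < q := by exact_mod_cast hq.pos
  have h1 := j604_lf_pow q 1 hq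
  rw [pow_one] at h1
  rw [h1]
  have hq1 : (1 : ℝ) < q := by exact_mod_cast hq.one_lt
  have h2 : (1 : ℝ) - 1 / (q : ℝ) ^ (1 + 1) = (1 + 1 / (q : ℝ)) * (1 - 1 / (q : ℝ)) := by
    field_simp
    ring
  have h3 : (0 : ℝ) < 1 - 1 / (q : ℝ) := by
    rw [sub_pos, div_lt_one hq0]
    exact hq1
  have h4 : (0 : ℝ) < 1 + 1 / (q : ℝ) := by positivity
  rw [h2, Real.log_mul h4.ne' h3.ne']
  ring

theorem j604_log_bound (x : ℝ) (h0 : 0 ≤ x) (h1 : x ≤ 1 / 2) : -(2 * x) ≤ Real.log (1 - x) := by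
  have h2 : (0 : ℝ) < 1 - x := by linarith
  have h3 := Real.one_sub_inv_le_log_of_pos h2
  have h4 : -(2 * x) ≤ 1 - (1 - x)⁻¹ := by
    have h5 : (1 - x)⁻¹ ≤ 1 + 2 * x := by
      rw [inv_le_comm₀ h2 (by linarith), ← one_div, div_le_iff₀ (by linarith)]
      nlinarith
    linarith
  linarith

/-- The main estimate for the least common multiple. -/
theorem j604_L (y : ℝ) (hy : 4 ≤ y) :
    Pr y - 6 / √y ≤ ∑ p ∈ (Finset.Ioc 0 ⌊y⌋₊).filter Nat.Prime,
      j604_lf (p ^ Nat.log p ⌊y⌋₊) := by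
  have hy0 : (0 : ℝ) < y := by linarith
  set n := ⌊y⌋₊ with hn
  have hn4 : 4 ≤ n := Nat.le_floor (by exact_mod_cast hy)
  have hyn : y < n + 1 := Nat.lt_floor_add_one y
  have hny : (n : ℝ) ≤ y := Nat.floor_le hy0.le
  set s := Nat.sqrt n with hs
  have hs2 : 2 ≤ s := by
    rw [hs, Nat.le_sqrt]
    omega
  have hsn : s ≤ n := Nat.sqrt_le_self n
  have hsle : (s : ℝ) ≤ √y := by
    apply Real.le_sqrt_of_sq_le
    have h1 : s ^ 2 ≤ n := Nat.sqrt_le' n
    have h2 : ((s ^ 2 : ℕ) : ℝ) ≤ n := by exact_mod_cast h1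
    push_cast at h2
    linarith
  have hsge : √y < s + 1 := by
    rw [Real.sqrt_lt' (by positivity)]
    have h1 : n < (s + 1) ^ 2 := Nat.lt_succ_sqrt' n
    have h2 : n + 1 ≤ (s + 1) ^ 2 := h1
    have h3 : (((n + 1 : ℕ)) : ℝ) ≤ (((s + 1) ^ 2 : ℕ) : ℝ) := by exact_mod_cast h2
    push_cast at h3
    linarith
  have hsq2 : 2 ≤ √y := by
    apply Real.le_sqrt_of_sq_le
    linarith
  have hss : √y ≤ 2 * s := by
    have : (2 : ℝ) ≤ s := by exact_mod_cast hs2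
    linarith
  -- the terms
  have hterm : ∀ p ∈ (Finset.Ioc 0 n).filter Nat.Prime,
      -Real.log (1 - 1 / (p : ℝ)) - 2 * (if p ≤ s then 1 / y else ((p : ℝ) ^ 2)⁻¹) ≤
        j604_lf (p ^ Nat.log p n) := by
    intro p hp
    rw [Finset.mem_filter, Finset.mem_Ioc] at hp
    obtain ⟨⟨-, hpn⟩, hpp⟩ := hp
    rw [j604_lf_pow _ _ hpp]
    have hp2 : (2 : ℝ) ≤ p := by exact_mod_cast hpp.two_le
    have hk : 1 ≤ Nat.log p n := Nat.log_pos hpp.one_lt hpn
    have h1 : n < p ^ (Nat.log p n + 1) := Nat.lt_pow_succ_log_self hpp.one_lt n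
    have h2 : ((n + 1 : ℕ) : ℝ) ≤ ((p ^ (Nat.log p n + 1) : ℕ) : ℝ) := by exact_mod_cast h1
    push_cast at h2
    have h3 : (p : ℝ) ^ 2 ≤ (p : ℝ) ^ (Nat.log p n + 1) :=
      pow_le_pow_right₀ (by linarith) (by omega)
    have h4 : (4 : ℝ) ≤ (p : ℝ) ^ 2 := by nlinarith
    have h5 : 1 / (p : ℝ) ^ (Nat.log p n + 1) ≤ 1 / 2 := by
      rw [div_le_div_iff₀ (by positivity) (by norm_num)]
      linarith
    have h6 := j604_log_bound (1 / (p : ℝ) ^ (Nat.log p n + 1)) (by positivity) h5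
    have h7 : 1 / (p : ℝ) ^ (Nat.log p n + 1) ≤ (if p ≤ s then 1 / y else ((p : ℝ) ^ 2)⁻¹) := by
      split_ifs
      · apply one_div_le_one_div_of_le hy0
        linarith
      · rw [← one_div]
        exact one_div_le_one_div_of_le (by positivity) h3
    linarith
  have hsum : ∑ p ∈ (Finset.Ioc 0 n).filter Nat.Prime,
      2 * (if p ≤ s then 1 / y else ((p : ℝ) ^ 2)⁻¹) ≤ 6 / √y := by
    have h1 : ∑ p ∈ (Finset.Ioc 0 n).filter Nat.Prime,
        2 * (if p ≤ s then 1 / y else ((p : ℝ) ^ 2)⁻¹) ≤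
        ∑ p ∈ Finset.Ioc 0 n, 2 * (if p ≤ s then 1 / y else ((p : ℝ) ^ 2)⁻¹) := by
      apply Finset.sum_le_sum_of_subset_of_nonneg (Finset.filter_subset _ _)
      intro p _ _
      split_ifs <;> positivity
    have h2 : Finset.Ioc 0 n = Finset.Ioc 0 s ∪ Finset.Ioc s n := by
      rw [Finset.Ioc_union_Ioc_eq_Ioc (Nat.zero_le _) hsn]
    have h3 : Disjoint (Finset.Ioc 0 s) (Finset.Ioc s n) := by
      rw [Finset.disjoint_left]
      intro a ha hb
      rw [Finset.mem_Ioc] at ha hb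
      omega
    have h1' : ∑ p ∈ Finset.Ioc 0 n, 2 * (if p ≤ s then 1 / y else ((p : ℝ) ^ 2)⁻¹) =
        ∑ p ∈ Finset.Ioc 0 s, 2 * (if p ≤ s then 1 / y else ((p : ℝ) ^ 2)⁻¹) +
        ∑ p ∈ Finset.Ioc s n, 2 * (if p ≤ s then 1 / y else ((p : ℝ) ^ 2)⁻¹) := by
      rw [h2, Finset.sum_union h3]
    rw [h1'] at h1
    have h4 : ∑ p ∈ Finset.Ioc 0 s, 2 * (if p ≤ s then 1 / y else ((p : ℝ) ^ 2)⁻¹) =
        s * (2 * (1 / y)) := by
      rw [Finset.sum_congr rfl (fun p hp => by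
        rw [if_pos (Finset.mem_Ioc.1 hp).2])]
      rw [Finset.sum_const, Nat.card_Ioc, nsmul_eq_mul, Nat.sub_zero]
    have h5 : ∑ p ∈ Finset.Ioc s n, 2 * (if p ≤ s then 1 / y else ((p : ℝ) ^ 2)⁻¹) =
        2 * ∑ p ∈ Finset.Ioc s n, ((p : ℝ) ^ 2)⁻¹ := by
      rw [Finset.mul_sum]
      refine Finset.sum_congr rfl fun p hp => ?_
      rw [if_neg (by have := (Finset.mem_Ioc.1 hp).1; omega)]
    have h6 : ∑ p ∈ Finset.Ioc s n, ((p : ℝ) ^ 2)⁻¹ ≤ (s : ℝ)⁻¹ - (n : ℝ)⁻¹ :=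
      sum_Ioc_inv_sq_le_sub (by omega) hsn
    have h7 : (0 : ℝ) ≤ (n : ℝ)⁻¹ := by positivity
    have h8 : (s : ℝ)⁻¹ ≤ 2 / √y := by
      have hs0 : (0 : ℝ) < s := by
        have : (2 : ℝ) ≤ s := by exact_mod_cast hs2
        linarith
      rw [inv_eq_one_div, div_le_div_iff₀ hs0 (by linarith)]
      linarith
    have h9 : (s : ℝ) * (2 * (1 / y)) ≤ 2 / √y := by
      have hyy : √y * √y = y := Real.mul_self_sqrt hy0.le
      have : (s : ℝ) * (2 * (1 / y)) ≤ √y * (2 * (1 / y)) :=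
        mul_le_mul_of_nonneg_right hsle (by positivity)
      refine this.trans (le_of_eq ?_)
      rw [mul_one_div, mul_div_assoc', div_eq_div_iff hy0.ne' (by positivity)]
      nlinarith
    have h10 : (6 : ℝ) / √y = 2 / √y + 2 * (2 / √y) := by ring
    rw [h4, h5] at h1
    linarith
  have hfin := Finset.sum_le_sum hterm
  rw [Finset.sum_sub_distrib] at hfin
  unfold Pr
  linarith

/-- The factor at `p` of the number attached to the set `A` of replaced primes. -/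
def j604_g (n : ℕ) (τ : ℕ → ℕ) (A : Finset ℕ) (p : ℕ) : ℕ :=
  if p ∈ A then τ p else p ^ Nat.log p n

/-- The primes up to `n`. -/
def j604_S (n : ℕ) : Finset ℕ := (Finset.Ioc 0 n).filter Nat.Prime

/-- The number attached to the set `A` of replaced primes. -/
def j604_n (n : ℕ) (τ : ℕ → ℕ) (A : Finset ℕ) : ℕ := ∏ p ∈ j604_S n, j604_g n τ A p

theorem j604_mem_S {n p : ℕ} : p ∈ j604_S n ↔ p.Prime ∧ p ≤ n := by
  unfold j604_S
  rw [Finset.mem_filter, Finset.mem_Ioc]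
  constructor
  · rintro ⟨⟨-, h1⟩, h2⟩
    exact ⟨h2, h1⟩
  · rintro ⟨h1, h2⟩
    exact ⟨⟨h1.pos, h2⟩, h1⟩

/-- Replacement data. -/
structure J604 (n : ℕ) (τ : ℕ → ℕ) (B : Finset ℕ) : Prop where
  sub : B ⊆ j604_S n
  log1 : ∀ p ∈ B, Nat.log p n = 1
  prime : ∀ p ∈ B, (τ p).Prime
  big : ∀ p ∈ B, n < τ p
  inj : ∀ p ∈ B, ∀ p' ∈ B, τ p = τ p' → p = p'

theorem j604_g_ne {n : ℕ} {τ : ℕ → ℕ} {B : Finset ℕ} (D : J604 n τ B) {A : Finset ℕ}
    (hA : A ⊆ B) : ∀ p ∈ j604_S n, j604_g n τ A p ≠ 0 := by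
  intro p hp
  unfold j604_g
  split_ifs with h
  · exact (D.prime p (hA h)).ne_zero
  · exact pow_ne_zero _ (j604_mem_S.1 hp).1.ne_zero

theorem j604_coprime {n : ℕ} {τ : ℕ → ℕ} {B : Finset ℕ} (D : J604 n τ B) {A : Finset ℕ}
    (hA : A ⊆ B) : ∀ p ∈ j604_S n, ∀ p' ∈ j604_S n, p ≠ p' →
      Nat.Coprime (j604_g n τ A p) (j604_g n τ A p') := by
  have key : ∀ p ∈ A, ∀ p' ∈ j604_S n, Nat.Coprime (τ p) (p' ^ Nat.log p' n) := by
    intro p hp p' hp'
    apply Nat.Coprime.pow_right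
    rw [Nat.coprime_primes (D.prime p (hA hp)) (j604_mem_S.1 hp').1]
    have h1 := D.big p (hA hp)
    have h2 := (j604_mem_S.1 hp').2
    omega
  intro p hp p' hp' hne
  unfold j604_g
  split_ifs with h h'
  · rw [Nat.coprime_primes (D.prime p (hA h)) (D.prime p' (hA h'))]
    exact fun h'' => hne (D.inj p (hA h) p' (hA h') h'')
  · exact key p h p' hp'
  · exact (key p' ‹_› p hp).symm
  · apply Nat.Coprime.pow_left
    apply Nat.Coprime.pow_right
    rw [Nat.coprime_primes (j604_mem_S.1 hp).1 (j604_mem_S.1 hp').1]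
    exact hne

theorem j604_dvd {n : ℕ} {τ : ℕ → ℕ} {B : Finset ℕ} (D : J604 n τ B) {A : Finset ℕ}
    (hA : A ⊆ B) {q : ℕ} (hq : q ∈ B) : τ q ∣ j604_n n τ A ↔ q ∈ A := by
  constructor
  · intro h
    unfold j604_n at h
    rw [Prime.dvd_finsetProd_iff (D.prime q hq).prime] at h
    obtain ⟨p, hp, hdvd⟩ := h
    unfold j604_g at hdvd
    split_ifs at hdvd with h'
    · have h1 := (Nat.prime_dvd_prime_iff_eq (D.prime q hq) (D.prime p (hA h'))).1 hdvd
      rw [D.inj q hq p (hA h') h1]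
      exact h'
    · exfalso
      have h1 := (D.prime q hq).dvd_of_dvd_pow hdvd
      have h2 := (Nat.prime_dvd_prime_iff_eq (D.prime q hq) (j604_mem_S.1 hp).1).1 h1
      have h3 := D.big q hq
      have h4 := (j604_mem_S.1 hp).2
      omega
  · intro h
    have h1 : τ q = j604_g n τ A q := by
      unfold j604_g
      rw [if_pos h]
    rw [h1]
    exact Finset.dvd_prod_of_mem _ (D.sub hq)

theorem j604_injOn {n : ℕ} {τ : ℕ → ℕ} {B : Finset ℕ} (D : J604 n τ B) :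
    Set.InjOn (j604_n n τ) (B.powerset : Set (Finset ℕ)) := by
  intro A hA A' hA' h
  rw [Finset.mem_coe, Finset.mem_powerset] at hA hA'
  ext q
  constructor
  · intro hq
    rw [← j604_dvd D hA' (hA hq)]
    have := (j604_dvd D hA (hA hq)).2 hq
    rwa [h] at this
  · intro hq
    rw [← j604_dvd D hA (hA' hq)]
    have := (j604_dvd D hA' (hA' hq)).2 hq
    rwa [← h] at this

theorem j604_sum {n : ℕ} {τ : ℕ → ℕ} {B : Finset ℕ} (D : J604 n τ B) {A : Finset ℕ}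
    (hA : A ⊆ B) (F : ℕ → ℝ) : ∑ p ∈ j604_S n, F (j604_g n τ A p) =
      ∑ p ∈ j604_S n, F (p ^ Nat.log p n) + ∑ p ∈ A, (F (τ p) - F p) := by
  rw [← sub_eq_iff_eq_add', ← Finset.sum_sub_distrib]
  have h1 : ∀ p ∈ j604_S n, F (j604_g n τ A p) - F (p ^ Nat.log p n) =
      if p ∈ A then F (τ p) - F p else 0 := by
    intro p _
    unfold j604_g
    split_ifs with h
    · rw [D.log1 p (hA h), pow_one]
    · rw [sub_self]
  rw [Finset.sum_congr rfl h1, Finset.sum_ite_mem,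
    Finset.inter_eq_right.2 (hA.trans D.sub)]

theorem j604_log_n {n : ℕ} {τ : ℕ → ℕ} {B : Finset ℕ} (D : J604 n τ B) {A : Finset ℕ}
    (hA : A ⊆ B) : Real.log (j604_n n τ A : ℝ) = Chebyshev.psi n +
      ∑ p ∈ A, (Real.log (τ p) - Real.log p) := by
  unfold j604_n
  rw [Nat.cast_prod, Real.log_prod (fun p hp => by exact_mod_cast j604_g_ne D hA p hp),
    j604_sum D hA (fun m => Real.log (m : ℝ)), Chebyshev.psi_eq_sum_mul_log_prime,
    Nat.primesLE_eq_filter_Ioc_zero]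
  congr 1
  refine Finset.sum_congr rfl fun p _ => ?_
  push_cast
  rw [Real.log_pow]

theorem j604_lf_n {n : ℕ} {τ : ℕ → ℕ} {B : Finset ℕ} (D : J604 n τ B) {A : Finset ℕ}
    (hA : A ⊆ B) : j604_lf (j604_n n τ A) = ∑ p ∈ j604_S n, j604_lf (p ^ Nat.log p n) +
      ∑ p ∈ A, (Real.log (1 + 1 / (τ p : ℝ)) - Real.log (1 + 1 / (p : ℝ))) := by
  unfold j604_n
  rw [j604_lf_prod _ _ (j604_g_ne D hA) (j604_coprime D hA), j604_sum D hA j604_lf]
  congr 1
  refine Finset.sum_congr rfl fun p hp => ?_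
  rw [j604_lf_prime _ (D.prime p (hA hp)), j604_lf_prime _ (j604_mem_S.1 (D.sub (hA hp))).1]

theorem j604_pos {n : ℕ} {τ : ℕ → ℕ} {B : Finset ℕ} (D : J604 n τ B) {A : Finset ℕ}
    (hA : A ⊆ B) : 0 < j604_n n τ A :=
  Nat.pos_of_ne_zero (Finset.prod_ne_zero_iff.2 (j604_g_ne D hA))

/-- The comparison of logarithms for one pair of primes. -/
theorem j604_pair {y H p q : ℝ} (hy : 4 ≤ y) (hH : 0 < H) (hH2 : H ≤ y / 2)
    (hp : y - H < p) (hpy : p ≤ y) (hq : y < q) (hqH : q ≤ y + H) :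
    0 ≤ Real.log q - Real.log p ∧ Real.log q - Real.log p ≤ 4 * H / y ∧
      -(4 * H / y ^ 2) ≤ Real.log (1 + 1 / q) - Real.log (1 + 1 / p) := by
  have hp0 : y / 2 ≤ p := by linarith
  have hp1 : 0 < p := by linarith
  have hq1 : 0 < q := by linarith
  have hy0 : 0 < y := by linarith
  refine ⟨?_, ?_, ?_⟩
  · rw [sub_nonneg]
    exact Real.log_le_log hp1 (by linarith)
  · rw [← Real.log_div hq1.ne' hp1.ne']
    have h1 := Real.log_le_sub_one_of_pos (div_pos hq1 hp1)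
    have h2 : q / p - 1 ≤ 4 * H / y := by
      rw [div_sub_one hp1.ne', div_le_div_iff₀ hp1 hy0]
      have h3 : q - p ≤ 2 * H := by linarith
      have h4 : (q - p) * y ≤ 2 * H * y := mul_le_mul_of_nonneg_right h3 hy0.le
      have h5 : 2 * H * y ≤ 4 * H * p := by nlinarith
      linarith
    linarith
  · have ha : 0 < 1 + 1 / p := by positivity
    have hb : 0 < 1 + 1 / q := by positivity
    have h1 := Real.log_le_sub_one_of_pos (div_pos ha hb)
    rw [Real.log_div ha.ne' hb.ne'] at h1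
    have h2 : (1 + 1 / p) / (1 + 1 / q) - 1 ≤ 1 / p - 1 / q := by
      rw [div_sub_one hb.ne', div_le_iff₀ hb]
      have h3 : 0 ≤ 1 / p - 1 / q := by
        rw [sub_nonneg]
        exact one_div_le_one_div_of_le hp1 (by linarith)
      have h4 : 0 < 1 / q := by positivity
      nlinarith
    have h3 : 1 / p - 1 / q ≤ 4 * H / y ^ 2 := by
      rw [div_sub_div _ _ hp1.ne' hq1.ne', div_le_div_iff₀ (by positivity) (by positivity)]
      have h4 : q - p ≤ 2 * H := by linarith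
      have h5 : (1 * q - p * 1) * y ^ 2 ≤ 2 * H * y ^ 2 := by
        apply mul_le_mul_of_nonneg_right _ (by positivity)
        linarith
      have h6 : y ^ 2 ≤ 2 * (p * q) := by nlinarith
      nlinarith
    linarith

theorem j604_loglog {θ e x : ℝ} (hθ : 3 ≤ θ) (he : 0 ≤ e) (hx1 : θ ≤ x) (hx : x ≤ θ + e) :
    0 < Real.log x ∧ Real.log (Real.log x) ≤ Real.log (Real.log θ) + e / θ := by
  have hθ0 : 0 < θ := by linarith
  have hl : 1 ≤ Real.log θ := by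
    rw [Real.le_log_iff_exp_le hθ0]
    have := Real.exp_one_lt_d9
    linarith
  have hx0 : 0 < x := by linarith
  have hlx : Real.log θ ≤ Real.log x := Real.log_le_log hθ0 hx1
  refine ⟨by linarith, ?_⟩
  have h1 : Real.log x ≤ Real.log θ + e / θ := by
    have h2 : Real.log x ≤ Real.log (θ + e) := Real.log_le_log hx0 hx
    have h3 : θ + e = θ * (1 + e / θ) := by field_simp
    have h4 : 0 < 1 + e / θ := by positivity
    rw [h3, Real.log_mul hθ0.ne' h4.ne'] at h2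
    have h5 := Real.log_le_sub_one_of_pos h4
    linarith
  have h6 : 0 ≤ e / θ := by positivity
  have h7 : Real.log (Real.log x) ≤ Real.log (Real.log θ + e / θ) :=
    Real.log_le_log (by linarith) h1
  have hl0 : 0 < Real.log θ := by linarith
  have h8 : Real.log θ + e / θ = Real.log θ * (1 + e / θ / Real.log θ) := by field_simp
  have h9 : 0 < 1 + e / θ / Real.log θ := by positivity
  rw [h8, Real.log_mul hl0.ne' h9.ne'] at h7
  have h10 := Real.log_le_sub_one_of_pos h9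
  have h11 : e / θ / Real.log θ ≤ e / θ := div_le_self h6 hl
  linarith

/-- TARGET -/
theorem low_sigma : ∃ C0 y1 : ℝ, 0 < C0 ∧ ∀ y : ℝ, y1 ≤ y → ∀ H : ℝ, 0 < H → H ≤ y / 2 → ∀ R : ℕ,
    R ≤ ((Finset.Ioc ⌊y - H⌋₊ ⌊y⌋₊).filter Nat.Prime).card →
    R ≤ ((Finset.Ioc ⌊y⌋₊ ⌊y + H⌋₊).filter Nat.Prime).card →
    C0 * (1 / √y + R * H / y ^ 2) ≤ mar y →
    ∀ N : ℕ, Real.exp (4 * y) ≤ N → 2 ^ R ≤ robinExceptions N := by
  classical
  obtain ⟨C₁, hC₁, hpnt⟩ := theta_pnt 1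
  obtain ⟨C₂, hC₂⟩ := Chebyshev.psi_sub_theta_le_mul_sqrt
  set C := max C₂ 0 with hC
  have hC0 : 0 ≤ C := le_max_right _ _
  refine ⟨max (6 + 2 * C) 12, max 100 (max (C ^ 2) (Real.exp (2 * C₁))), ?_, ?_⟩
  · exact lt_of_lt_of_le (by norm_num) (le_max_right _ _)
  intro y hy H hH hH2 R hR1 hR2 hmar N hN
  have hy100 : 100 ≤ y := (le_max_left _ _).trans hy
  have hyC : C ^ 2 ≤ y := ((le_max_left _ _).trans (le_max_right _ _)).trans hy
  have hyE : Real.exp (2 * C₁) ≤ y := ((le_max_right _ _).trans (le_max_right _ _)).trans hy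
  have hy0 : 0 < y := by linarith
  have hsq : √y * √y = y := Real.mul_self_sqrt hy0.le
  have hsq10 : 10 ≤ √y := by
    apply Real.le_sqrt_of_sq_le
    linarith
  have hCs : C ≤ √y := Real.le_sqrt_of_sq_le hyC
  -- θ
  set θ := Chebyshev.theta y with hθ
  have hθ1 : |θ - y| ≤ y / 2 := by
    refine (hpnt y (by linarith)).trans ?_
    rw [pow_one]
    have h1 : 2 * C₁ ≤ Real.log y := by
      rw [Real.le_log_iff_exp_le hy0]
      exact hyE
    have h2 : 0 < Real.log y := by linarith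
    rw [div_le_div_iff₀ h2 (by norm_num)]
    nlinarith
  rw [abs_le] at hθ1
  have hθlo : y / 2 ≤ θ := by linarith
  have hθhi : θ ≤ 3 / 2 * y := by linarith
  have hψ1 : θ ≤ Chebyshev.psi y := Chebyshev.theta_le_psi y
  have hψ2 : Chebyshev.psi y ≤ θ + C * √y := by
    have h1 := hC₂ y
    have h2 : C₂ * √y ≤ C * √y := mul_le_mul_of_nonneg_right (le_max_left _ _) (by positivity)
    linarith
  -- the primes
  set n := ⌊y⌋₊ with hn
  have hny : (n : ℝ) ≤ y := Nat.floor_le hy0.le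
  have hyn : y < n + 1 := Nat.lt_floor_add_one y
  obtain ⟨B, hB, hBR⟩ := Finset.exists_subset_card_eq hR1
  obtain ⟨Q, hQ, hQR⟩ := Finset.exists_subset_card_eq hR2
  have e : B ≃ Q := Finset.equivOfCardEq (hBR.trans hQR.symm)
  let τ : ℕ → ℕ := fun p => if h : p ∈ B then (e ⟨p, h⟩ : ℕ) else 0
  have hτ : ∀ p (h : p ∈ B), τ p = e ⟨p, h⟩ := fun p h => dif_pos h
  have hτQ : ∀ p ∈ B, τ p ∈ Q := by
    intro p h
    rw [hτ p h]
    exact (e ⟨p, h⟩).2
  have hBy : ∀ p ∈ B, y - H < (p : ℝ) ∧ (p : ℝ) ≤ y ∧ p ≤ n ∧ p.Prime := by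
    intro p hp
    have h1 := hB hp
    rw [Finset.mem_filter, Finset.mem_Ioc] at h1
    refine ⟨Nat.lt_of_floor_lt h1.1.1, ?_, h1.1.2, h1.2⟩
    have h2 : (p : ℝ) ≤ n := by exact_mod_cast h1.1.2
    linarith
  have hQy : ∀ q ∈ Q, y < (q : ℝ) ∧ (q : ℝ) ≤ y + H ∧ n < q ∧ q.Prime := by
    intro q hq
    have h1 := hQ hq
    rw [Finset.mem_filter, Finset.mem_Ioc] at h1
    refine ⟨Nat.lt_of_floor_lt h1.1.1, ?_, h1.1.1, h1.2⟩
    exact (Nat.le_floor_iff (by linarith)).1 h1.1.2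
  have D : J604 n τ B := by
    refine ⟨?_, ?_, ?_, ?_, ?_⟩
    · intro p hp
      exact j604_mem_S.2 ⟨(hBy p hp).2.2.2, (hBy p hp).2.2.1⟩
    · intro p hp
      obtain ⟨h1, h2, h3, h4⟩ := hBy p hp
      have h5 : (n : ℝ) < (p : ℝ) * p := by nlinarith
      have h6 : n < p * p := by exact_mod_cast h5
      rw [Nat.log_eq_iff (Or.inl one_ne_zero)]
      exact ⟨by rw [pow_one]; exact h3, by rw [pow_succ, pow_one]; exact h6⟩
    · intro p hp
      exact (hQy _ (hτQ p hp)).2.2.2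
    · intro p hp
      exact (hQy _ (hτQ p hp)).2.2.1
    · intro p hp p' hp' h
      rw [hτ p hp, hτ p' hp'] at h
      have h1 := e.injective (Subtype.ext h)
      exact congrArg Subtype.val h1
  have hRH : (R : ℝ) ≤ H + 1 := by
    have h1 : R ≤ ⌊y + H⌋₊ - n := by
      refine hR2.trans ((Finset.card_filter_le _ _).trans ?_)
      rw [Nat.card_Ioc]
    have h2 : n ≤ ⌊y + H⌋₊ := Nat.floor_le_floor (by linarith)
    have h3 : (R : ℝ) ≤ ((⌊y + H⌋₊ - n : ℕ) : ℝ) := by exact_mod_cast h1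
    rw [Nat.cast_sub h2] at h3
    have h4 : ((⌊y + H⌋₊ : ℕ) : ℝ) ≤ y + H := Nat.floor_le (by linarith)
    linarith
  set E : ℝ := R * (4 * H / y) with hE
  have hE0 : 0 ≤ E := by positivity
  have hEy : E ≤ y + 2 := by
    have h1 : E ≤ (H + 1) * (4 * H / y) := mul_le_mul_of_nonneg_right hRH (by positivity)
    have h2 : 4 * H / y ≤ 2 := by
      rw [div_le_iff₀ hy0]
      linarith
    have h3 : (H + 1) * (4 * H / y) ≤ (H + 1) * 2 := mul_le_mul_of_nonneg_left h2 (by linarith)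
    linarith
  -- the exceptions
  unfold robinExceptions
  have hcard : 2 ^ R = (B.powerset.image (j604_n n τ)).card := by
    rw [Finset.card_image_of_injOn (j604_injOn D), Finset.card_powerset, hBR]
  rw [hcard]
  apply Finset.card_le_card
  intro m hm
  rw [Finset.mem_image] at hm
  obtain ⟨A, hA, rfl⟩ := hm
  rw [Finset.mem_powerset] at hA
  have hpair : ∀ p ∈ A, 0 ≤ Real.log (τ p) - Real.log p ∧
      Real.log (τ p) - Real.log p ≤ 4 * H / y ∧
      -(4 * H / y ^ 2) ≤ Real.log (1 + 1 / (τ p : ℝ)) - Real.log (1 + 1 / (p : ℝ)) := by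
    intro p hp
    obtain ⟨h1, h2, -, -⟩ := hBy p (hA hp)
    obtain ⟨h3, h4, -, -⟩ := hQy _ (hτQ p (hA hp))
    exact j604_pair (by linarith) hH hH2 h1 h2 h3 h4
  have hAR : (A.card : ℝ) ≤ R := by
    rw [← hBR]
    exact_mod_cast Finset.card_le_card hA
  have hlog := j604_log_n D hA
  have hψn : Chebyshev.psi (n : ℝ) = Chebyshev.psi y := (Chebyshev.psi_eq_psi_coe_floor y).symm
  rw [hψn] at hlog
  have hs0 : 0 ≤ ∑ p ∈ A, (Real.log (τ p) - Real.log p) :=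
    Finset.sum_nonneg fun p hp => (hpair p hp).1
  have hs1 : ∑ p ∈ A, (Real.log (τ p) - Real.log p) ≤ E := by
    have h1 : ∑ p ∈ A, (Real.log (τ p) - Real.log p) ≤ ∑ _p ∈ A, 4 * H / y :=
      Finset.sum_le_sum fun p hp => (hpair p hp).2.1
    rw [Finset.sum_const, nsmul_eq_mul] at h1
    have h2 : (A.card : ℝ) * (4 * H / y) ≤ R * (4 * H / y) :=
      mul_le_mul_of_nonneg_right hAR (by positivity)
    linarith
  have hs2 : -(R * (4 * H / y ^ 2)) ≤
      ∑ p ∈ A, (Real.log (1 + 1 / (τ p : ℝ)) - Real.log (1 + 1 / (p : ℝ))) := by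
    have h1 : ∑ _p ∈ A, -(4 * H / y ^ 2) ≤
        ∑ p ∈ A, (Real.log (1 + 1 / (τ p : ℝ)) - Real.log (1 + 1 / (p : ℝ))) :=
      Finset.sum_le_sum fun p hp => (hpair p hp).2.2
    rw [Finset.sum_const, nsmul_eq_mul] at h1
    have h2 : (A.card : ℝ) * (4 * H / y ^ 2) ≤ R * (4 * H / y ^ 2) :=
      mul_le_mul_of_nonneg_right hAR (by positivity)
    linarith
  have hlf := j604_lf_n D hA
  have hL : Pr y - 6 / √y ≤ ∑ p ∈ j604_S n, j604_lf (p ^ Nat.log p n) := j604_L y (by linarith)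
  have hmpos : 0 < j604_n n τ A := j604_pos D hA
  set m := j604_n n τ A with hm
  set x := Real.log (m : ℝ) with hx
  have hxlo : θ ≤ x := by linarith
  have hxhi : x ≤ θ + (C * √y + E) := by linarith
  have hCE : 0 ≤ C * √y + E := by positivity
  obtain ⟨hlx, hllx⟩ := j604_loglog (by linarith) hCE hxlo hxhi
  have hm0 : (0 : ℝ) < m := by exact_mod_cast hmpos
  rw [Finset.mem_filter, Finset.mem_Icc]
  refine ⟨⟨hmpos, ?_⟩, ?_⟩
  · have h1 : x ≤ 4 * y := by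
      have h2 : C * √y ≤ y := by nlinarith
      linarith
    have h3 : (m : ℝ) ≤ N := by
      rw [← Real.exp_log hm0]
      exact (Real.exp_le_exp.2 h1).trans hN
    exact_mod_cast h3
  · have he1 : (C * √y + E) / θ ≤ 2 * C * (1 / √y) + 8 * (R * H / y ^ 2) := by
      have h1 : (C * √y + E) / θ ≤ (C * √y + E) / (y / 2) :=
        div_le_div_of_nonneg_left hCE (by linarith) hθlo
      have h2 : (C * √y + E) / (y / 2) = 2 * C * (√y / y) + 8 * (R * H / y ^ 2) := by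
        rw [hE]
        field_simp
        ring
      have h3 : √y / y = 1 / √y := by
        rw [div_eq_div_iff hy0.ne' (by positivity), hsq, one_mul]
      rw [h2, h3] at h1
      exact h1
    have hC01 : (6 + 2 * C) * (1 / √y) ≤ max (6 + 2 * C) 12 * (1 / √y) :=
      mul_le_mul_of_nonneg_right (le_max_left _ _) (by positivity)
    have hC02 : 12 * (R * H / y ^ 2) ≤ max (6 + 2 * C) 12 * (R * H / y ^ 2) :=
      mul_le_mul_of_nonneg_right (le_max_right _ _) (by positivity)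
    have h6 : 6 / √y = 6 * (1 / √y) := by ring
    have h7 : R * (4 * H / y ^ 2) = 4 * (R * H / y ^ 2) := by ring
    unfold mar at hmar
    rw [← hθ] at hmar
    have hmain : Real.eulerMascheroniConstant + Real.log (Real.log x) ≤ j604_lf m := by
      rw [hlf]
      rw [h6] at hL
      rw [h7] at hs2
      have h8 : max (6 + 2 * C) 12 * (1 / √y + R * H / y ^ 2) =
        max (6 + 2 * C) 12 * (1 / √y) + max (6 + 2 * C) 12 * (R * H / y ^ 2) := by ring
      rw [h8] at hmar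
      linarith
    unfold j604_lf at hmain
    have hσ : (0 : ℝ) < ((ArithmeticFunction.sigma 1 m : ℕ) : ℝ) := by
      exact_mod_cast ArithmeticFunction.sigma_pos 1 m hmpos.ne'
    have h9 : Real.exp Real.eulerMascheroniConstant * m * Real.log x =
        Real.exp (Real.eulerMascheroniConstant + x + Real.log (Real.log x)) := by
      rw [Real.exp_add, Real.exp_add, hx, Real.exp_log hm0, ← hx, Real.exp_log hlx]
    rw [h9, ← Real.exp_log hσ]
    apply Real.exp_le_exp.2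
    linarith

end Pool.Agent.H424.RB
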