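import Pool.Agent.H424.RB.Mert


/-!
# Job RB-MARUP: upper bounds for `mar`

`Pr y = ∑_{p ≤ y} -log(1 - 1/p)`, `mar y = Pr y - γ - log log θ(y)`, `kt t = (θ(t) - t)(1 + log t)/(t² log² t)`,
`Kt y = ∫_{t>y} kt`.

Plain-words proof of the target.
(1) For all large `y`: `mar y ≤ |Kt y| + 5 ((θ(y) - y)/y)²`.  Indeed by `mertens_exact` (the lower bound `0 ≤`),
    `mar y ≤ -Kt y + [log log y + (θ(y) - y)/(y log y) - log log θ(y)]`.  Let `x = θ(y)/y`; for large `y`, `|x - 1| ≤ 1/2`
    and `log y ≥ 4` (`theta_pnt` with `A = 1`).  `log log θ(y) = log log y + log(1 + log x/log y)`, `|log x| ≤ 2 |x - 1| ≤ 1`,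
    `log(1 + v) ≥ v - v²` for `|v| ≤ 1/2`, `log x ≥ (x-1) - (x-1)²` for `x ≥ 1/2`.  So the bracket is
    `(x-1)/log y - log(1 + log x/log y) ≤ ((x-1) - log x)/log y + (log x/log y)² ≤ (x-1)² + 4 (x-1)²`.
(2) First part.  If `|θ(t) - t| ≤ C t^σ` then for `y ≥ e²` `|Kt y| ≤ ∫_y^∞ C t^(σ-2) dt = C y^(σ-1)/(1-σ)`, as
    `(1 + L)/L² ≤ 1` for `L ≥ 2`.  And `5 ((θ(y)-y)/y)² ≤ 5 C² y^(2σ-2) ≤ 5 C² y^(σ-1)`.
(3) Second part.  For `A ≥ 1`: by `theta_pnt` with exponent `A`, `|kt t| ≤ C (1+L)/(t L^(A+2)) ≤ 2C/(t L^(A+1))` with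
    `L = log t ≥ 1`, so `|Kt y| ≤ 2C/(A log^A y)`; and `((θ(y)-y)/y)² ≤ C²/log^(2A) y ≤ C²/log^A y`.
    For `A = 0` use the case `A = 1` and `1/log y ≤ 1`.
-/

set_option autoImplicit false

namespace Pool.Agent.H424.RB

open MeasureTheory Filter Topology Set

theorem J599_log_lower {v : ℝ} (hv : -(1 / 2) ≤ v) : v - 2 * v ^ 2 ≤ Real.log (1 + v) := by
  have h1 : 0 < 1 + v := by linarith
  have h := Real.one_sub_inv_le_log_of_pos h1
  have h2 : 1 - (1 + v)⁻¹ - (v - 2 * v ^ 2) = v ^ 2 * (1 + 2 * v) / (1 + v) := by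
    field_simp
    ring
  have h3 : 0 ≤ v ^ 2 * (1 + 2 * v) / (1 + v) := by
    have : 0 ≤ 1 + 2 * v := by linarith
    positivity
  linarith

theorem J599_aux {y : ℝ} (hy : 2 ≤ y) (hL : 4 ≤ Real.log y)
    (hθ : |Chebyshev.theta y - y| ≤ y / 2) :
    mar y ≤ |Kt y| + ((Chebyshev.theta y - y) / y) ^ 2 := by
  have hy0 : 0 < y := by linarith
  obtain ⟨h1, -⟩ := mertens_exact.2 y hy
  unfold mar
  set θ := Chebyshev.theta y with hθdef
  set L := Real.log y with hLdef
  have hL0 : 0 < L := by linarith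
  obtain ⟨u, hu⟩ : ∃ u, u = (θ - y) / y := ⟨_, rfl⟩
  have hθu : θ = (1 + u) * y := by
    rw [hu]
    field_simp
    ring
  have hu1 : |u| ≤ 1 / 2 := by
    rw [hu, abs_div, abs_of_pos hy0, div_le_iff₀ hy0]
    linarith
  obtain ⟨hu2, hu3⟩ := abs_le.1 hu1
  have hx0 : 0 < 1 + u := by linarith
  have hlogθ : Real.log θ = L + Real.log (1 + u) := by
    rw [hθu, Real.log_mul hx0.ne' hy0.ne']
    ring
  set l := Real.log (1 + u) with hl
  have hl1 : l ≤ u := by
    have := Real.log_le_sub_one_of_pos hx0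
    linarith
  have hl2 : u - 2 * u ^ 2 ≤ l := J599_log_lower (by linarith)
  have hl3 : |l| ≤ 2 * |u| := by
    have e1 : u ^ 2 = |u| ^ 2 := (sq_abs u).symm
    have e2 : |u| ^ 2 ≤ |u| * (1 / 2) := by
      rw [sq]
      exact mul_le_mul_of_nonneg_left hu1 (abs_nonneg u)
    rw [abs_le]
    constructor
    · have := neg_abs_le u
      nlinarith
    · have := le_abs_self u
      have := abs_nonneg u
      linarith
  obtain ⟨v, hv⟩ : ∃ v, v = l / L := ⟨_, rfl⟩
  have hvL : v * L = l := by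
    rw [hv]
    field_simp
  have hv1 : |v| ≤ |u| / 2 := by
    rw [hv, abs_div, abs_of_pos hL0, div_le_iff₀ hL0]
    have := abs_nonneg u
    nlinarith
  have hv2 : -(1 / 2) ≤ v := by
    have := neg_abs_le v
    linarith
  have hv0 : 0 < 1 + v := by linarith
  have hloglog : Real.log (Real.log θ) = Real.log L + Real.log (1 + v) := by
    rw [hlogθ, show L + l = L * (1 + v) by rw [← hvL]; ring, Real.log_mul hL0.ne' hv0.ne']
  have hlv := J599_log_lower hv2
  have hvsq : v ^ 2 ≤ u ^ 2 / 4 := by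
    rw [← sq_abs v, ← sq_abs u]
    have := abs_nonneg v
    nlinarith
  have huL : u / L - v ≤ u ^ 2 / 2 := by
    rw [hv, ← sub_div, div_le_iff₀ hL0]
    have := sq_nonneg u
    nlinarith
  have hfrac : (θ - y) / (y * L) = u / L := by
    rw [hu]
    field_simp
  rw [hfrac] at h1
  rw [hloglog, ← hu]
  have hK := neg_abs_le (Kt y)
  linarith

theorem J599_kt_bound {t B : ℝ} (ht : 0 < t) (hL : 2 ≤ Real.log t)
    (hB : |Chebyshev.theta t - t| ≤ B) : |kt t| ≤ B / t ^ 2 := by
  unfold kt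
  have hL0 : 0 < Real.log t := by linarith
  have hB0 : 0 ≤ B := (abs_nonneg _).trans hB
  rw [abs_div, abs_mul, abs_of_pos (by positivity : 0 < t ^ 2 * Real.log t ^ 2),
    abs_of_pos (by linarith : 0 < 1 + Real.log t), div_le_div_iff₀ (by positivity) (by positivity)]
  have h1 : |Chebyshev.theta t - t| * (1 + Real.log t) ≤ B * Real.log t ^ 2 := by
    have : 1 + Real.log t ≤ Real.log t ^ 2 := by nlinarith
    exact mul_le_mul hB this (by linarith) hB0
  calc |Chebyshev.theta t - t| * (1 + Real.log t) * t ^ 2 ≤ B * Real.log t ^ 2 * t ^ 2 :=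
        mul_le_mul_of_nonneg_right h1 (by positivity)
    _ = B * (t ^ 2 * Real.log t ^ 2) := by ring

theorem J599_kt_bound' {t B : ℝ} (ht : 0 < t) (hL : 2 ≤ Real.log t)
    (hB : |Chebyshev.theta t - t| ≤ B * t) : |kt t| ≤ 2 * B / (t * Real.log t) := by
  unfold kt
  have hL0 : 0 < Real.log t := by linarith
  have hB0 : 0 ≤ B * t := (abs_nonneg _).trans hB
  rw [abs_div, abs_mul, abs_of_pos (by positivity : 0 < t ^ 2 * Real.log t ^ 2),
    abs_of_pos (by linarith : 0 < 1 + Real.log t), div_le_div_iff₀ (by positivity) (by positivity)]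
  have h1 : |Chebyshev.theta t - t| * (1 + Real.log t) ≤ (B * t) * (2 * Real.log t) :=
    mul_le_mul hB (by linarith) (by linarith) hB0
  calc |Chebyshev.theta t - t| * (1 + Real.log t) * (t * Real.log t)
      ≤ (B * t) * (2 * Real.log t) * (t * Real.log t) :=
        mul_le_mul_of_nonneg_right h1 (by positivity)
    _ = 2 * B * (t ^ 2 * Real.log t ^ 2) := by ring

theorem J599_small : ∃ y1 : ℝ, Real.exp 4 ≤ y1 ∧ ∀ y : ℝ, y1 ≤ y →
    |Chebyshev.theta y - y| ≤ y / 2 := by
  obtain ⟨C, hC, h⟩ := theta_pnt 1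
  refine ⟨Real.exp (4 + 2 * C), Real.exp_le_exp.2 (by linarith), fun y hy => ?_⟩
  have hy0 : 0 < y := lt_of_lt_of_le (Real.exp_pos _) hy
  have hlog : 4 + 2 * C ≤ Real.log y := by
    rw [← Real.log_exp (4 + 2 * C)]
    exact Real.log_le_log (Real.exp_pos _) hy
  have h2 : 2 ≤ y := by
    have := Real.add_one_le_exp (4 + 2 * C)
    linarith
  refine (h y h2).trans ?_
  rw [pow_one, div_le_div_iff₀ (by linarith) (by norm_num)]
  nlinarith

theorem J599_big {y1 y : ℝ} (h1 : Real.exp 4 ≤ y1) (hy : y1 ≤ y) : 5 ≤ y ∧ 4 ≤ Real.log y := by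
  have h2 := Real.add_one_le_exp (4 : ℝ)
  refine ⟨by linarith, ?_⟩
  rw [← Real.log_exp 4]
  exact Real.log_le_log (Real.exp_pos _) (h1.trans hy)

/-- TARGET -/
theorem mar_upper :
    (∀ σ C : ℝ, 1 / 2 ≤ σ → σ < 1 → 0 ≤ C → (∀ y : ℝ, 1 ≤ y → |Chebyshev.theta y - y| ≤ C * y ^ σ) →
      ∃ C' y1 : ℝ, 0 < C' ∧ ∀ y : ℝ, y1 ≤ y → mar y ≤ C' * y ^ (σ - 1)) ∧
    (∀ A : ℕ, ∃ C' y1 : ℝ, 0 < C' ∧ ∀ y : ℝ, y1 ≤ y → mar y ≤ C' / Real.log y ^ A) := by
  obtain ⟨y1, hy1, hsmall⟩ := J599_small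
  constructor
  · intro σ C _ hσ hC hθ
    have hσ0 : 0 < 1 - σ := by linarith
    refine ⟨C / (1 - σ) + C ^ 2 + 1, y1, by positivity, fun y hy => ?_⟩
    obtain ⟨hy5, hyL⟩ := J599_big hy1 hy
    have hy0 : 0 < y := by linarith
    have hmain := J599_aux (by linarith : 2 ≤ y) hyL (hsmall y hy)
    have hint : IntegrableOn (fun t : ℝ => C * t ^ (σ - 2)) (Ioi y) :=
      (integrableOn_Ioi_rpow_of_lt (by linarith) hy0).const_mul C
    have hK : |Kt y| ≤ C / (1 - σ) * y ^ (σ - 1) := by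
      unfold Kt
      rw [← Real.norm_eq_abs]
      refine (norm_integral_le_of_norm_le hint ?_).trans ?_
      · refine (ae_restrict_iff' measurableSet_Ioi).2 (Eventually.of_forall fun t ht => ?_)
        have ht' : y < t := ht
        have ht0 : 0 < t := hy0.trans ht'
        have hlt : 2 ≤ Real.log t := by
          have := Real.log_le_log hy0 ht'.le
          linarith
        rw [Real.norm_eq_abs]
        refine (J599_kt_bound ht0 hlt (hθ t (by linarith))).trans ?_
        rw [Real.rpow_sub ht0, mul_div_assoc]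
        norm_num
      · rw [integral_const_mul, integral_Ioi_rpow_of_lt (by linarith) hy0]
        have e1 : σ - 2 + 1 = -(1 - σ) := by ring
        have e2 : σ - 1 = -(1 - σ) := by ring
        rw [e1, e2, neg_div_neg_eq]
        apply le_of_eq
        ring
    have hsq : ((Chebyshev.theta y - y) / y) ^ 2 ≤ C ^ 2 * y ^ (σ - 1) := by
      have h1 : |(Chebyshev.theta y - y) / y| ≤ C * y ^ (σ - 1) := by
        rw [abs_div, abs_of_pos hy0, div_le_iff₀ hy0]
        refine (hθ y (by linarith)).trans (le_of_eq ?_)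
        rw [mul_assoc, ← Real.rpow_add_one hy0.ne']
        congr 2
        ring
      have h2 : y ^ (σ - 1) ≤ 1 := Real.rpow_le_one_of_one_le_of_nonpos (by linarith) (by linarith)
      have h3 : 0 ≤ y ^ (σ - 1) := Real.rpow_nonneg hy0.le _
      rw [← sq_abs]
      calc |(Chebyshev.theta y - y) / y| ^ 2 ≤ (C * y ^ (σ - 1)) ^ 2 :=
            pow_le_pow_left₀ (abs_nonneg _) h1 2
        _ = C ^ 2 * (y ^ (σ - 1) * y ^ (σ - 1)) := by ring
        _ ≤ C ^ 2 * (y ^ (σ - 1) * 1) :=
            mul_le_mul_of_nonneg_left (mul_le_mul_of_nonneg_left h2 h3) (sq_nonneg C)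
        _ = C ^ 2 * y ^ (σ - 1) := by ring
    have h3 : 0 ≤ y ^ (σ - 1) := Real.rpow_nonneg hy0.le _
    calc mar y ≤ C / (1 - σ) * y ^ (σ - 1) + C ^ 2 * y ^ (σ - 1) := by linarith
      _ ≤ (C / (1 - σ) + C ^ 2 + 1) * y ^ (σ - 1) := by nlinarith
  · intro A
    obtain ⟨C, hC, hθ⟩ := theta_pnt (A + 1)
    refine ⟨2 * C + C ^ 2, y1, by positivity, fun y hy => ?_⟩
    obtain ⟨hy5, hyL⟩ := J599_big hy1 hy
    have hy0 : 0 < y := by linarith
    have hL0 : 0 < Real.log y := by linarith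
    have hL1 : 1 ≤ Real.log y := by linarith
    have hmain := J599_aux (by linarith : 2 ≤ y) hyL (hsmall y hy)
    have hA0 : (0 : ℝ) < (A : ℝ) + 1 := by positivity
    -- the model integral
    have hderiv : ∀ t ∈ Ici y, HasDerivAt
        (fun t : ℝ => -(2 * C / (A + 1)) * (Real.log t ^ (A + 1))⁻¹)
        (2 * C / (t * Real.log t ^ (A + 2))) t := by
      intro t ht
      have ht' : y ≤ t := ht
      have ht0 : 0 < t := hy0.trans_le ht'
      have hlt : 0 < Real.log t := hL0.trans_le (Real.log_le_log hy0 ht')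
      have h1 := (((Real.hasDerivAt_log ht0.ne').pow (A + 1)).inv
        (pow_ne_zero _ hlt.ne')).const_mul (-(2 * C / ((A : ℝ) + 1)))
      refine HasDerivAt.congr_deriv (show HasDerivAt
        (fun t : ℝ => -(2 * C / (A + 1)) * (Real.log t ^ (A + 1))⁻¹) _ t from h1) ?_
      rw [show A + 1 - 1 = A from rfl, Pi.pow_apply]
      push_cast
      field_simp
      ring
    have hpos : ∀ t ∈ Ioi y, 0 ≤ 2 * C / (t * Real.log t ^ (A + 2)) := by
      intro t ht
      have ht' : y < t := ht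
      have ht0 : 0 < t := hy0.trans ht'
      have hlt : 0 < Real.log t := hL0.trans_le (Real.log_le_log hy0 ht'.le)
      positivity
    have hlim : Tendsto (fun t : ℝ => -(2 * C / ((A : ℝ) + 1)) * (Real.log t ^ (A + 1))⁻¹) atTop
        (𝓝 0) := by
      have h1 : Tendsto (fun t : ℝ => (Real.log t ^ (A + 1))⁻¹) atTop (𝓝 0) :=
        tendsto_inv_atTop_zero.comp
          ((tendsto_pow_atTop (Nat.succ_ne_zero A)).comp Real.tendsto_log_atTop)
      simpa using h1.const_mul (-(2 * C / ((A : ℝ) + 1)))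
    have hint := integrableOn_Ioi_deriv_of_nonneg' hderiv hpos hlim
    have hval := integral_Ioi_of_hasDerivAt_of_nonneg' hderiv hpos hlim
    have hK : |Kt y| ≤ 2 * C / Real.log y ^ A := by
      unfold Kt
      rw [← Real.norm_eq_abs]
      refine (norm_integral_le_of_norm_le hint ?_).trans ?_
      · refine (ae_restrict_iff' measurableSet_Ioi).2 (Eventually.of_forall fun t ht => ?_)
        have ht' : y < t := ht
        have ht0 : 0 < t := hy0.trans ht'
        have hlt : 2 ≤ Real.log t := by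
          have := Real.log_le_log hy0 ht'.le
          linarith
        have hlt0 : 0 < Real.log t := by linarith
        rw [Real.norm_eq_abs]
        have hb : |Chebyshev.theta t - t| ≤ (C / Real.log t ^ (A + 1)) * t := by
          refine (hθ t (by linarith)).trans (le_of_eq ?_)
          ring
        refine (J599_kt_bound' ht0 hlt hb).trans (le_of_eq ?_)
        field_simp
        ring
      · rw [hval]
        have e1 : 0 - -(2 * C / ((A : ℝ) + 1)) * (Real.log y ^ (A + 1))⁻¹ =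
            2 * C / (((A : ℝ) + 1) * (Real.log y ^ (A + 1))) := by
          field_simp
          ring
        rw [e1]
        apply div_le_div_of_nonneg_left (by positivity) (by positivity)
        rw [pow_succ]
        have hLA : 0 < Real.log y ^ A := by positivity
        have h1 : (1 : ℝ) ≤ (A : ℝ) + 1 := by
          have : (0 : ℝ) ≤ A := Nat.cast_nonneg A
          linarith
        nlinarith [mul_le_mul h1 hL1 zero_le_one hA0.le]
    have hsq : ((Chebyshev.theta y - y) / y) ^ 2 ≤ C ^ 2 / Real.log y ^ A := by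
      have h1 : |(Chebyshev.theta y - y) / y| ≤ C / Real.log y ^ (A + 1) := by
        rw [abs_div, abs_of_pos hy0, div_le_iff₀ hy0]
        refine (hθ y (by linarith)).trans (le_of_eq ?_)
        ring
      rw [← sq_abs]
      have hLA : 0 < Real.log y ^ A := by positivity
      have hLA1 : 0 < Real.log y ^ (A + 1) := by positivity
      calc |(Chebyshev.theta y - y) / y| ^ 2 ≤ (C / Real.log y ^ (A + 1)) ^ 2 :=
            pow_le_pow_left₀ (abs_nonneg _) h1 2
        _ = C ^ 2 / (Real.log y ^ (A + 1)) ^ 2 := by ring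
        _ ≤ C ^ 2 / Real.log y ^ A := by
            apply div_le_div_of_nonneg_left (by positivity) hLA
            rw [← pow_mul]
            exact pow_le_pow_right₀ hL1 (by omega)
    calc mar y ≤ 2 * C / Real.log y ^ A + C ^ 2 / Real.log y ^ A := by linarith
      _ = (2 * C + C ^ 2) / Real.log y ^ A := by ring

end Pool.Agent.H424.RB
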