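import Pool.Agent.H424.RB.Base2
import Pool.Agent.H424.RB.JMar
import Pool.Agent.H424.RB.MarUp
import Pool.Agent.H424.RB.Cnt2
import Pool.Agent.H424.RB.LowP
import Pool.Agent.H424.RB.LowS
import Pool.Agent.H424.RB.Lan2
import Pool.Agent.W190.A17
import Pool.Agent.H295R2.T2

/-! Assembly: the number of exceptions and zero-free half-planes. -/

set_option autoImplicit false

namespace Pool.Agent.H424.RB

open MeasureTheory Filter Topology Set

theorem ev_rpow (K : ℝ) {α β : ℝ} (h : α < β) : ∀ᶠ y : ℝ in atTop, K * y ^ α ≤ y ^ β := by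
  have h1 : Tendsto (fun y : ℝ => y ^ (β - α)) atTop atTop := tendsto_rpow_atTop (by linarith)
  filter_upwards [h1.eventually_ge_atTop K, eventually_gt_atTop (0 : ℝ)] with y h2 h3
  have h4 : 0 < y ^ α := Real.rpow_pos_of_pos h3 _
  calc K * y ^ α ≤ y ^ (β - α) * y ^ α := by gcongr
    _ = y ^ β := by rw [← Real.rpow_add h3]; congr 1; ring

theorem ev_log_rpow (K : ℝ) {α β : ℝ} (h : α < β) : ∀ᶠ y : ℝ in atTop, K * Real.log y * y ^ α ≤ y ^ β := by
  have h1 : Real.log =o[atTop] fun y : ℝ => y ^ ((β - α) / 2) := isLittleO_log_rpow_atTop (by linarith)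
  have h2 := h1.bound (c := 1) one_pos
  filter_upwards [h2, ev_rpow |K| (show (α + β) / 2 < β by linarith), eventually_ge_atTop (1 : ℝ)] with y h3 h4 h5
  have hy : 0 < y := by linarith
  rw [one_mul, Real.norm_of_nonneg (Real.log_nonneg h5), Real.norm_of_nonneg (by positivity)] at h3
  have h6 : 0 < y ^ α := Real.rpow_pos_of_pos hy _
  calc K * Real.log y * y ^ α ≤ |K| * y ^ ((β - α) / 2) * y ^ α := by
        gcongr
        · exact Real.log_nonneg h5
        · exact le_abs_self K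
    _ = |K| * y ^ ((α + β) / 2) := by
        rw [mul_assoc, ← Real.rpow_add hy]
        congr 2
        ring
    _ ≤ _ := h4

/-- few exceptions force `mar y` to be small -/
theorem lower_step {E : ℕ → ℕ} {κ : ℝ}
    (hlow : ∃ C0 y1 : ℝ, 0 < C0 ∧ ∀ y : ℝ, y1 ≤ y → ∀ H : ℝ, 0 < H → H ≤ y / 2 → ∀ R : ℕ,
      R ≤ ((Finset.Ioc ⌊y - H⌋₊ ⌊y⌋₊).filter Nat.Prime).card →
      R ≤ ((Finset.Ioc ⌊y⌋₊ ⌊y + H⌋₊).filter Nat.Prime).card →
      C0 * (κ / √y + R * H / y ^ 2) ≤ mar y → ∀ N : ℕ, Real.exp (4 * y) ≤ N → 2 ^ R ≤ E N)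
    {a h b : ℝ} (ha0 : 0 ≤ a) (ha1 : a ≤ 1) (hah : a < h) (hh1 : h ≤ 1) (hb : a + h - 1 < b)
    (hκ : κ = 0 ∨ 1 / 2 < b)
    (hE : ∀ᶠ N : ℕ in atTop, (E N : ℝ) ≤ Real.exp (Real.log N ^ a))
    (hw : ∀ᶠ y : ℝ in atTop, ∀ t : ℝ, y / 2 ≤ t → t ≤ 2 * y → |Chebyshev.theta t - t| ≤ y ^ h / 8) :
    ∀ᶠ y : ℝ in atTop, mar y ≤ y ^ (b - 1) := by
  obtain ⟨C0, y1, hC0, hl⟩ := hlow
  obtain ⟨N0, hN0⟩ := eventually_atTop.1 hE
  have e1 : ∀ᶠ y : ℝ in atTop, 88 * Real.log y * y ^ a ≤ y ^ h := ev_log_rpow 88 hah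
  have e2 : ∀ᶠ y : ℝ in atTop, (11 * C0) * y ^ (a + h - 2) ≤ y ^ (b - 1) := ev_rpow _ (by linarith)
  have e3 : ∀ᶠ y : ℝ in atTop, (2 * C0 * κ) * y ^ (-(1 / 2) : ℝ) ≤ y ^ (b - 1) := by
    rcases hκ with h0 | h0
    · filter_upwards [eventually_ge_atTop (0 : ℝ)] with y hy
      rw [h0, mul_zero, zero_mul]
      exact Real.rpow_nonneg hy _
    · exact ev_rpow _ (by linarith)
  filter_upwards [e1, e2, e3, hw, eventually_ge_atTop y1, eventually_ge_atTop (2 : ℝ),
    eventually_ge_atTop (N0 : ℝ)] with y h1 h2 h3 h4 h5 h6 h7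
  by_contra hcon
  push Not at hcon
  have hy0 : 0 < y := by linarith
  have hya : 1 ≤ y ^ a := Real.one_le_rpow (by linarith) ha0
  have hyh0 : 0 < y ^ h := Real.rpow_pos_of_pos hy0 _
  have hyh1 : y ^ h ≤ y := by
    calc y ^ h ≤ y ^ (1 : ℝ) := Real.rpow_le_rpow_of_exponent_le (by linarith) hh1
      _ = y := Real.rpow_one y
  set H : ℝ := y ^ h / 2 with hH
  obtain ⟨p1, p2⟩ := primes_interval (H := H) h6 (by positivity) h4 (by rw [hH]; linarith) (by rw [hH]; linarith)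
  set R : ℕ := ⌊10 * y ^ a⌋₊ + 1 with hR
  have hR1 : 10 * y ^ a < R := by rw [hR]; push_cast; exact Nat.lt_floor_add_one _
  have hR2 : (R : ℝ) ≤ 11 * y ^ a := by
    rw [hR]; push_cast
    have := Nat.floor_le (show 0 ≤ 10 * y ^ a by positivity)
    linarith
  have hly : 0 < Real.log y := Real.log_pos (by linarith)
  have hl2 : Real.log (2 * y) ≤ 2 * Real.log y := by
    rw [Real.log_mul (by norm_num) hy0.ne']
    have : Real.log 2 ≤ Real.log y := Real.log_le_log (by norm_num) h6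
    linarith
  have hl20 : 0 < Real.log (2 * y) := Real.log_pos (by linarith)
  have hR3 : (R : ℝ) ≤ H / (2 * Real.log (2 * y)) := by
    rw [le_div_iff₀ (by positivity)]
    calc (R : ℝ) * (2 * Real.log (2 * y)) ≤ 11 * y ^ a * (2 * (2 * Real.log y)) := by gcongr
      _ ≤ y ^ h / 2 := by linarith
      _ = H := hH.symm
  have c1 : R ≤ ((Finset.Ioc ⌊y - H⌋₊ ⌊y⌋₊).filter Nat.Prime).card := by
    exact_mod_cast hR3.trans p1
  have c2 : R ≤ ((Finset.Ioc ⌊y⌋₊ ⌊y + H⌋₊).filter Nat.Prime).card := by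
    exact_mod_cast hR3.trans p2
  have c3 : C0 * (κ / √y + R * H / y ^ 2) ≤ mar y := by
    have e4 : κ / √y = κ * y ^ (-(1 / 2) : ℝ) := by
      rw [Real.sqrt_eq_rpow, Real.rpow_neg hy0.le, div_eq_mul_inv]
    have e5 : (R : ℝ) * H / y ^ 2 ≤ 11 / 2 * y ^ (a + h - 2) := by
      have e6 : y ^ (a + h - 2) = y ^ a * y ^ h / y ^ 2 := by
        rw [Real.rpow_sub hy0, Real.rpow_add hy0]
        norm_cast
      rw [e6, hH]
      calc (R : ℝ) * (y ^ h / 2) / y ^ 2 ≤ (11 * y ^ a) * (y ^ h / 2) / y ^ 2 := by gcongr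
        _ = _ := by ring
    calc C0 * (κ / √y + R * H / y ^ 2) ≤ C0 * (κ * y ^ (-(1 / 2) : ℝ) + 11 / 2 * y ^ (a + h - 2)) := by
          rw [e4]; gcongr
      _ = (2 * C0 * κ * y ^ (-(1 / 2) : ℝ) + 11 * C0 * y ^ (a + h - 2)) / 2 := by ring
      _ ≤ (y ^ (b - 1) + y ^ (b - 1)) / 2 := by gcongr
      _ = y ^ (b - 1) := by ring
      _ ≤ mar y := hcon.le
  -- the integer `N`
  set N : ℕ := ⌈Real.exp (4 * y)⌉₊ with hN
  have hN1 : Real.exp (4 * y) ≤ N := Nat.le_ceil _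
  have hN2 : (N : ℝ) ≤ Real.exp (5 * y) := by
    have h8 : (N : ℝ) < Real.exp (4 * y) + 1 := Nat.ceil_lt_add_one (Real.exp_pos _).le
    have h9 : Real.exp (5 * y) = Real.exp (4 * y) * Real.exp y := by rw [← Real.exp_add]; congr 1; ring
    have h10 : 2 ≤ Real.exp y := by linarith [Real.add_one_le_exp y]
    have h11 : 1 ≤ Real.exp (4 * y) := Real.one_le_exp (by linarith)
    rw [h9]
    nlinarith
  have hNN : N0 ≤ N := by
    have : (N0 : ℝ) ≤ N := by
      calc (N0 : ℝ) ≤ y := h7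
        _ ≤ 4 * y := by linarith
        _ ≤ Real.exp (4 * y) := by linarith [Real.add_one_le_exp (4 * y)]
        _ ≤ N := hN1
    exact_mod_cast this
  have hN3 : 1 ≤ (N : ℝ) := le_trans (Real.one_le_exp (by linarith)) hN1
  have hlN : Real.log N ≤ 5 * y := by
    rw [Real.log_le_iff_le_exp (by linarith)]
    exact hN2
  have hlN0 : 0 ≤ Real.log N := Real.log_nonneg hN3
  have d1 : (2 : ℝ) ^ R ≤ E N := by
    exact_mod_cast hl y h5 H (by positivity) (by rw [hH]; linarith) R c1 c2 c3 N hN1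
  have d2 := hN0 N hNN
  have d3 : Real.log N ^ a ≤ 5 * y ^ a := by
    calc Real.log N ^ a ≤ (5 * y) ^ a := Real.rpow_le_rpow hlN0 hlN ha0
      _ = 5 ^ a * y ^ a := Real.mul_rpow (by norm_num) hy0.le
      _ ≤ 5 * y ^ a := by
        gcongr
        calc (5 : ℝ) ^ a ≤ 5 ^ (1 : ℝ) := Real.rpow_le_rpow_of_exponent_le (by norm_num) ha1
          _ = 5 := Real.rpow_one 5
  have d4 : (2 : ℝ) ^ R = Real.exp (R * Real.log 2) := by
    rw [mul_comm, Real.exp_mul, Real.exp_log (by norm_num), Real.rpow_natCast]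
  have d5 : (1 : ℝ) / 2 < Real.log 2 := by linarith [Real.log_two_gt_d9]
  have d6 : 5 * y ^ a < R * Real.log 2 := by nlinarith
  have d7 : (2 : ℝ) ^ R ≤ Real.exp (5 * y ^ a) := d1.trans (d2.trans (Real.exp_le_exp.2 d3))
  rw [d4, Real.exp_le_exp] at d7
  linarith

/-- the window hypothesis of `lower_step` for `h = 1` -/
theorem window_one : ∀ᶠ y : ℝ in atTop, ∀ t : ℝ, y / 2 ≤ t → t ≤ 2 * y →
    |Chebyshev.theta t - t| ≤ y ^ (1 : ℝ) / 8 := by
  obtain ⟨C, hC, h⟩ := theta_pnt 1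
  have h1 : Tendsto (fun y : ℝ => Real.log (y / 2)) atTop atTop :=
    Real.tendsto_log_atTop.comp (tendsto_id.atTop_div_const (by norm_num))
  filter_upwards [h1.eventually_ge_atTop (16 * C), eventually_ge_atTop (8 : ℝ)] with y h2 h3 t h4 h5
  have h6 := h t (by linarith)
  rw [pow_one] at h6
  have h7 : 16 * C ≤ Real.log t := h2.trans (Real.log_le_log (by linarith) h4)
  have h8 : 0 < Real.log t := by linarith [mul_pos (by norm_num : (0 : ℝ) < 16) hC]
  rw [Real.rpow_one]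
  refine h6.trans ?_
  rw [div_le_iff₀ h8]
  have ht : 0 < t := by linarith
  nlinarith

/-- zero-free half-planes and `θ` -/
theorem theta_free {θ σ : ℝ} (h0 : 1 / 2 ≤ θ) (hz : ∀ s : ℂ, θ < s.re → riemannZeta s ≠ 0) (h : θ < σ)
    (h1 : σ ≤ 1) : ∃ C : ℝ, 0 ≤ C ∧ ∀ y : ℝ, 1 ≤ y → |Chebyshev.theta y - y| ≤ C * y ^ σ := by
  obtain ⟨C, hC, hψ⟩ := Pool.Agent.W190.psi_of_free θ h0 hz σ h h1
  obtain ⟨C1, hC1⟩ := Chebyshev.psi_sub_theta_le_mul_sqrt
  refine ⟨C + |C1|, by positivity, fun y hy => ?_⟩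
  have h2 := hψ y hy
  have h3 : |Chebyshev.psi y - Chebyshev.theta y| ≤ |C1| * y ^ σ := by
    rw [abs_of_nonneg (by linarith [Chebyshev.theta_le_psi y])]
    calc _ ≤ C1 * √y := hC1 y
      _ ≤ |C1| * √y := by gcongr; exact le_abs_self _
      _ ≤ _ := by
        gcongr
        rw [Real.sqrt_eq_rpow]
        exact Real.rpow_le_rpow_of_exponent_le hy (by linarith)
  have h4 : Chebyshev.theta y - y = (Chebyshev.psi y - y) - (Chebyshev.psi y - Chebyshev.theta y) := by ring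
  rw [h4]
  calc _ ≤ |Chebyshev.psi y - y| + |Chebyshev.psi y - Chebyshev.theta y| := abs_sub _ _
    _ ≤ _ := by linarith

/-- the window hypothesis of `lower_step` in a zero-free half-plane -/
theorem window_free {θ h : ℝ} (h0 : 1 / 2 ≤ θ) (hz : ∀ s : ℂ, θ < s.re → riemannZeta s ≠ 0) (hθh : θ < h)
    (hh1 : h ≤ 1) :
    ∀ᶠ y : ℝ in atTop, ∀ t : ℝ, y / 2 ≤ t → t ≤ 2 * y → |Chebyshev.theta t - t| ≤ y ^ h / 8 := by
  obtain ⟨C, hC, hC1⟩ := theta_free h0 hz (show θ < (θ + h) / 2 by linarith) (by linarith)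
  filter_upwards [ev_rpow (16 * C) (show (θ + h) / 2 < h by linarith), eventually_ge_atTop (2 : ℝ)] with y h1 h2 t h3 h4
  have hσ0 : 0 ≤ (θ + h) / 2 := by linarith
  have hσ1 : (θ + h) / 2 ≤ 1 := by linarith
  calc |Chebyshev.theta t - t| ≤ C * t ^ ((θ + h) / 2) := hC1 t (by linarith)
    _ ≤ C * (2 * y) ^ ((θ + h) / 2) := by
      gcongr
      linarith
    _ = C * (2 ^ ((θ + h) / 2) * y ^ ((θ + h) / 2)) := by
      rw [Real.mul_rpow (by norm_num) (by linarith)]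
    _ ≤ C * (2 * y ^ ((θ + h) / 2)) := by
      gcongr
      calc (2 : ℝ) ^ ((θ + h) / 2) ≤ 2 ^ (1 : ℝ) := Real.rpow_le_rpow_of_exponent_le (by norm_num) hσ1
        _ = 2 := Real.rpow_one 2
    _ ≤ _ := by linarith

/-- from a bound for `mar` to a zero-free half-plane -/
theorem free_of_mar {β : ℝ} (hβ0 : 0 ≤ β) (h : ∀ b : ℝ, β < b → ∀ᶠ y : ℝ in atTop, mar y ≤ y ^ (b - 1)) :
    ∀ s : ℂ, β < s.re → riemannZeta s ≠ 0 := by
  intro s hs
  rcases le_or_gt 1 s.re with h1 | h1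
  · exact riemannZeta_ne_zero_of_one_le_re h1
  set b : ℝ := (2 * β + s.re) / 3 with hb
  set b' : ℝ := (β + 2 * s.re) / 3 with hb'
  have hb0 : 0 < b := by rw [hb]; linarith
  have hb1 : b < 1 := by rw [hb]; linarith
  have hbb : b < b' := by rw [hb, hb']; linarith
  have hb'1 : b' < 1 := by rw [hb']; linarith
  have hb's : b' < s.re := by rw [hb']; linarith
  obtain ⟨y0, hy0⟩ := eventually_atTop.1 (h b (by rw [hb]; linarith))
  obtain ⟨y1, hy1⟩ := J_of_mar hb0 hb1 hbb hy0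
  refine zero_free_of_Jp (b := b') (C := 1) (y0 := max y1 1) (by linarith) hb'1 (fun y hy => ?_) s hb's
  have h2 := hy1 y ((le_max_left _ _).trans hy)
  have h3 : 0 ≤ y ^ (-(1 / 2) : ℝ) := Real.rpow_nonneg (by linarith [(le_max_right y1 1).trans hy]) _
  linarith

/-- few exceptions give a zero-free half-plane -/
theorem free_of_few {E : ℕ → ℕ} {κ : ℝ}
    (hlow : ∃ C0 y1 : ℝ, 0 < C0 ∧ ∀ y : ℝ, y1 ≤ y → ∀ H : ℝ, 0 < H → H ≤ y / 2 → ∀ R : ℕ,
      R ≤ ((Finset.Ioc ⌊y - H⌋₊ ⌊y⌋₊).filter Nat.Prime).card →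
      R ≤ ((Finset.Ioc ⌊y⌋₊ ⌊y + H⌋₊).filter Nat.Prime).card →
      C0 * (κ / √y + R * H / y ^ 2) ≤ mar y → ∀ N : ℕ, Real.exp (4 * y) ≤ N → 2 ^ R ≤ E N)
    {θ : ℝ} (hθ0 : 0 ≤ θ) (hκ : κ = 0 ∨ 1 / 2 ≤ θ)
    (hE : ∀ ε : ℝ, 0 < ε → ∀ᶠ N : ℕ in atTop, (E N : ℝ) ≤ Real.exp (Real.log N ^ ((1 + θ) / 2 + ε))) :
    ∀ s : ℂ, θ < s.re → riemannZeta s ≠ 0 := by
  rcases le_or_gt 1 θ with hθ1 | hθ1
  · intro s hs
    exact riemannZeta_ne_zero_of_one_le_re (by linarith)
  -- first step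
  have step1 : ∀ s : ℂ, (1 + θ) / 2 < s.re → riemannZeta s ≠ 0 := by
    refine free_of_mar (by linarith) fun b hb => ?_
    set a : ℝ := min ((1 + θ) / 2 + (b - (1 + θ) / 2) / 2) ((1 + (1 + θ) / 2) / 2) with ha
    have ha1 : (1 + θ) / 2 < a := by
      rw [ha, lt_min_iff]
      constructor <;> linarith
    have ha2 : a < b := by
      refine (min_le_left _ _).trans_lt ?_
      linarith
    have ha3 : a < 1 := by
      refine (min_le_right _ _).trans_lt ?_
      linarith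
    refine lower_step (h := 1) hlow (by linarith) ha3.le ha3 le_rfl (by linarith) ?_ ?_ window_one
    · rcases hκ with h | h
      · exact Or.inl h
      · right; linarith
    · have := hE (a - (1 + θ) / 2) (by linarith)
      rwa [add_sub_cancel] at this
  refine free_of_mar hθ0 fun b hb => ?_
  -- second step: `a = (1+θ)/2 + ε`, `h = (1+θ)/2 + 2ε`, `a + h - 1 = θ + 3ε`
  set ε : ℝ := min ((b - θ) / 4) ((1 - θ) / 8) with hε
  have hε0 : 0 < ε := by
    rw [hε, lt_min_iff]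
    constructor <;> linarith
  have hε1 : ε ≤ (b - θ) / 4 := min_le_left _ _
  have hε2 : ε ≤ (1 - θ) / 8 := min_le_right _ _
  refine lower_step (a := (1 + θ) / 2 + ε) (h := (1 + θ) / 2 + 2 * ε) hlow (by linarith) (by linarith) (by linarith)
    (by linarith) (by linarith) ?_ (hE ε hε0) (window_free (θ := (1 + θ) / 2) (by linarith) step1 (by linarith)
      (by linarith))
  rcases hκ with h | h
  · exact Or.inl h
  · right; linarith

/-- zero-free half-planes give few exceptions -/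
theorem few_of_free {θ : ℝ} (h0 : 1 / 2 ≤ θ) (h1 : θ < 1) (hz : ∀ s : ℂ, θ < s.re → riemannZeta s ≠ 0)
    {ε : ℝ} (hε : 0 < ε) :
    ∀ᶠ N : ℕ in atTop, (eulerExceptions N : ℝ) ≤ Real.exp (Real.log N ^ ((1 + θ) / 2 + ε)) := by
  set σ : ℝ := min (θ + ε) ((1 + θ) / 2) with hσ
  have hσ1 : θ < σ := by rw [hσ, lt_min_iff]; constructor <;> linarith
  have hσ2 : σ < 1 := (min_le_right _ _).trans_lt (by linarith)
  have hσ3 : σ ≤ θ + ε := min_le_left _ _
  obtain ⟨C, hC, hC1⟩ := theta_free h0 hz hσ1 hσ2.le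
  obtain ⟨C', y1, hC'0, hC'⟩ := mar_upper.1 σ C (by linarith) hσ2 hC hC1
  obtain ⟨y2, hy2⟩ := eventually_atTop.1 (ev_rpow C' (show σ - 1 < 0 by linarith))
  set Φ : ℝ → ℝ := fun y => √(C' + 1) * y ^ ((1 + σ) / 2) with hΦ
  set y0 : ℝ := max (max y1 y2) 1 with hy0
  have hy01 : y1 ≤ y0 := (le_max_left _ _).trans (le_max_left _ _)
  have hy02 : y2 ≤ y0 := (le_max_right _ _).trans (le_max_left _ _)
  have hy03 : 1 ≤ y0 := le_max_right _ _
  have g1 : MonotoneOn Φ (Ici y0) := by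
    intro x hx y hy hxy
    have hx1 : 0 ≤ x := by have : y0 ≤ x := hx; linarith
    simp only [hΦ]
    gcongr
  have g2 : ∀ y, y0 ≤ y → 0 ≤ Φ y := by
    intro y hy
    have : 0 ≤ y := by linarith
    simp only [hΦ]
    positivity
  have g3 : ∀ y, y0 ≤ y → ∃ δ : ℝ, 0 ≤ δ ∧ δ ≤ 1 ∧ mar y ≤ δ ∧ y ^ 2 * δ + y ≤ Φ y ^ 2 := by
    intro y hy
    have hy1 : 1 ≤ y := by linarith
    have hyp : 0 < y := by linarith
    refine ⟨C' * y ^ (σ - 1), by positivity, ?_, hC' y (by linarith), ?_⟩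
    · have := hy2 y (by linarith)
      rwa [Real.rpow_zero] at this
    · simp only [hΦ]
      rw [mul_pow, Real.sq_sqrt (by linarith), ← Real.rpow_natCast (y ^ ((1 + σ) / 2)) 2, ← Real.rpow_mul hyp.le]
      have e1 : (1 + σ) / 2 * ((2 : ℕ) : ℝ) = 1 + σ := by push_cast; ring
      rw [e1]
      have e2 : y ^ 2 * (C' * y ^ (σ - 1)) = C' * y ^ (1 + σ) := by
        have : y ^ (1 + σ) = y ^ 2 * y ^ (σ - 1) := by
          rw [← Real.rpow_natCast y 2, ← Real.rpow_add hyp]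
          congr 1
          push_cast; ring
        rw [this]; ring
      rw [e2]
      have e3 : y ≤ y ^ (1 + σ) := by
        calc y = y ^ (1 : ℝ) := (Real.rpow_one y).symm
          _ ≤ _ := Real.rpow_le_rpow_of_exponent_le hy1 (by linarith)
      linarith
  obtain ⟨K, N1, hK⟩ := count_up g1 g2 g3
  have e1 : ∀ᶠ x : ℝ in atTop, (|K| * (√(C' + 1) * 2 ^ ((1 + σ) / 2))) * Real.log x * x ^ ((1 + σ) / 2) ≤
      x ^ ((1 + θ) / 2 + ε) := ev_log_rpow _ (by linarith)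
  have t1 : Tendsto (fun N : ℕ => Real.log (N : ℝ)) atTop atTop :=
    Real.tendsto_log_atTop.comp tendsto_natCast_atTop_atTop
  filter_upwards [t1.eventually e1, eventually_ge_atTop N1, t1.eventually_ge_atTop 1] with N h2 h3 h4
  refine (hK N h3).trans (Real.exp_le_exp.2 ?_)
  refine le_trans ?_ h2
  have h5 : 0 ≤ Real.log (Real.log N) := Real.log_nonneg h4
  rw [hΦ]
  simp only
  rw [Real.mul_rpow (by norm_num) (by linarith)]
  calc K * Real.log (Real.log N) * (√(C' + 1) * (2 ^ ((1 + σ) / 2) * Real.log N ^ ((1 + σ) / 2)))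
      ≤ |K| * Real.log (Real.log N) * (√(C' + 1) * (2 ^ ((1 + σ) / 2) * Real.log N ^ ((1 + σ) / 2))) := by
        gcongr
        exact le_abs_self K
    _ = _ := by ring

/-- `y / log^k y` is increasing -/
theorem mono_div_log (k : ℕ) : MonotoneOn (fun y : ℝ => y / Real.log y ^ k) (Ici (Real.exp (k + 1))) := by
  intro x hx y hy hxy
  have hx1 : Real.exp (k + 1) ≤ x := hx
  have hk : (0 : ℝ) ≤ k := Nat.cast_nonneg k
  have hx0 : 0 < x := lt_of_lt_of_le (Real.exp_pos _) hx1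
  have hy0 : 0 < y := by linarith
  have hLx : (k : ℝ) + 1 ≤ Real.log x := (Real.le_log_iff_exp_le hx0).2 hx1
  have hLy : Real.log x ≤ Real.log y := Real.log_le_log hx0 hxy
  have hLx0 : 0 < Real.log x := by linarith
  have hLy0 : 0 < Real.log y := by linarith
  simp only
  rw [div_le_div_iff₀ (by positivity) (by positivity)]
  -- (Ly/Lx)^k ≤ y/x
  have h1 : (Real.log y / Real.log x) ^ k ≤ y / x := by
    have h2 : Real.log y / Real.log x ≤ Real.exp ((Real.log y - Real.log x) / Real.log x) := by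
      have : Real.log y / Real.log x = (Real.log y - Real.log x) / Real.log x + 1 := by field_simp; ring
      rw [this]
      exact Real.add_one_le_exp _
    calc (Real.log y / Real.log x) ^ k ≤ Real.exp ((Real.log y - Real.log x) / Real.log x) ^ k := by
          gcongr
      _ = Real.exp (k * ((Real.log y - Real.log x) / Real.log x)) := by rw [← Real.exp_nat_mul]
      _ ≤ Real.exp (Real.log y - Real.log x) := by
          apply Real.exp_le_exp.2
          rw [mul_div_assoc', div_le_iff₀ hLx0]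
          nlinarith
      _ = y / x := by rw [Real.exp_sub, Real.exp_log hy0, Real.exp_log hx0]
  rw [div_pow, div_le_div_iff₀ (by positivity) hx0] at h1
  linarith

/-- the unconditional upper bound -/
theorem few_uncond (A : ℕ) :
    ∀ᶠ N : ℕ in atTop, (eulerExceptions N : ℝ) ≤ Real.exp (Real.log N / Real.log (Real.log N) ^ A) := by
  obtain ⟨C', y1, hC'0, hC'⟩ := mar_upper.2 (2 * A + 4)
  have e0 : ∀ᶠ y : ℝ in atTop, Real.log y ^ (2 * A + 4) ≤ y := by
    have h1 : (fun y : ℝ => Real.log y ^ ((2 * A + 4 : ℕ) : ℝ)) =o[atTop] (fun y : ℝ => y ^ (1 : ℝ)) :=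
      isLittleO_log_rpow_rpow_atTop _ one_pos
    filter_upwards [h1.bound one_pos, eventually_ge_atTop (1 : ℝ)] with y h2 h3
    have := Real.log_nonneg h3
    rw [Real.rpow_natCast, Real.rpow_one, one_mul, Real.norm_of_nonneg (by positivity),
      Real.norm_of_nonneg (by linarith)] at h2
    exact h2
  obtain ⟨y2, hy2⟩ := eventually_atTop.1 e0
  have e0' : ∀ᶠ y : ℝ in atTop, C' ≤ Real.log y := Real.tendsto_log_atTop.eventually_ge_atTop C'
  obtain ⟨y3, hy3⟩ := eventually_atTop.1 e0'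
  set Φ : ℝ → ℝ := fun y => √(C' + 1) * (y / Real.log y ^ (A + 2)) with hΦ
  set y0 : ℝ := max (max (max y1 y2) y3) (Real.exp ((A + 2 : ℕ) + 1)) with hy0
  have hy01 : y1 ≤ y0 := (le_max_left _ _).trans ((le_max_left _ _).trans (le_max_left _ _))
  have hy02 : y2 ≤ y0 := (le_max_right _ _).trans ((le_max_left _ _).trans (le_max_left _ _))
  have hy03 : y3 ≤ y0 := (le_max_right _ _).trans (le_max_left _ _)
  have hy04 : Real.exp ((A + 2 : ℕ) + 1) ≤ y0 := le_max_right _ _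
  have hlog1 : ∀ y : ℝ, y0 ≤ y → 0 < y ∧ 1 ≤ Real.log y := by
    intro y hy
    have h1 : Real.exp ((A + 2 : ℕ) + 1) ≤ y := hy04.trans hy
    have h2 : 0 < y := lt_of_lt_of_le (Real.exp_pos _) h1
    refine ⟨h2, ?_⟩
    have h3 := (Real.le_log_iff_exp_le h2).2 h1
    have h4 : (0 : ℝ) ≤ (A + 2 : ℕ) := Nat.cast_nonneg _
    linarith
  have g1 : MonotoneOn Φ (Ici y0) := by
    intro x hx y hy hxy
    have := mono_div_log (A + 2) (hy04.trans hx : Real.exp ((A + 2 : ℕ) + 1) ≤ x)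
      (hy04.trans hy : Real.exp ((A + 2 : ℕ) + 1) ≤ y) hxy
    simp only [hΦ]
    exact mul_le_mul_of_nonneg_left this (Real.sqrt_nonneg _)
  have g2 : ∀ y, y0 ≤ y → 0 ≤ Φ y := by
    intro y hy
    obtain ⟨h1, h2⟩ := hlog1 y hy
    simp only [hΦ]
    positivity
  have g3 : ∀ y, y0 ≤ y → ∃ δ : ℝ, 0 ≤ δ ∧ δ ≤ 1 ∧ mar y ≤ δ ∧ y ^ 2 * δ + y ≤ Φ y ^ 2 := by
    intro y hy
    obtain ⟨h1, h2⟩ := hlog1 y hy
    have hl0 : 0 < Real.log y := by linarith
    refine ⟨C' / Real.log y ^ (2 * A + 4), by positivity, ?_, hC' y (by linarith), ?_⟩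
    · rw [div_le_one (by positivity)]
      calc C' ≤ Real.log y := hy3 y (by linarith)
        _ ≤ Real.log y ^ (2 * A + 4) := le_self_pow₀ h2 (by omega)
    · simp only [hΦ]
      rw [mul_pow, Real.sq_sqrt (by linarith), div_pow, ← pow_mul]
      have e1 : (A + 2) * 2 = 2 * A + 4 := by ring
      rw [e1]
      have e2 : y ≤ y ^ 2 / Real.log y ^ (2 * A + 4) := by
        rw [le_div_iff₀ (by positivity), sq]
        exact mul_le_mul_of_nonneg_left (hy2 y (by linarith)) h1.le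
      have e3 : y ^ 2 * (C' / Real.log y ^ (2 * A + 4)) = C' * (y ^ 2 / Real.log y ^ (2 * A + 4)) := by ring
      rw [e3]
      linarith
  obtain ⟨K, N1, hK⟩ := count_up g1 g2 g3
  -- final comparison
  have e1 : ∀ᶠ u : ℝ in atTop, 2 * |K| * √(C' + 1) ≤ u := eventually_ge_atTop _
  have t1 : Tendsto (fun N : ℕ => Real.log (N : ℝ)) atTop atTop :=
    Real.tendsto_log_atTop.comp tendsto_natCast_atTop_atTop
  have t2 : Tendsto (fun N : ℕ => Real.log (Real.log (N : ℝ))) atTop atTop := Real.tendsto_log_atTop.comp t1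
  filter_upwards [t2.eventually e1, eventually_ge_atTop N1, t1.eventually_ge_atTop 1,
    t2.eventually_ge_atTop 1] with N h2 h3 h4 h6
  refine (hK N h3).trans (Real.exp_le_exp.2 ?_)
  rw [hΦ]
  simp only
  set L : ℝ := Real.log N with hL
  set M : ℝ := Real.log L with hM
  have h5 : M ≤ Real.log (2 * L) := Real.log_le_log (by linarith) (by linarith)
  have hM0 : 0 < M := by linarith
  have hl2L : 0 < Real.log (2 * L) := by linarith
  calc K * M * (√(C' + 1) * (2 * L / Real.log (2 * L) ^ (A + 2)))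
      = K * (M * (√(C' + 1) * (2 * L / Real.log (2 * L) ^ (A + 2)))) := by ring
    _ ≤ |K| * (M * (√(C' + 1) * (2 * L / Real.log (2 * L) ^ (A + 2)))) :=
        mul_le_mul_of_nonneg_right (le_abs_self K) (by positivity)
    _ ≤ |K| * (M * (√(C' + 1) * (2 * L / M ^ (A + 2)))) := by gcongr
    _ = (2 * |K| * √(C' + 1)) * (L / (M ^ A * M)) := by
        rw [pow_add]
        field_simp
    _ ≤ M * (L / (M ^ A * M)) := by gcongr
    _ = L / M ^ A := by field_simp

/-- zero-free half-planes and the large values of `n / φ(n)` -/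
theorem euler_iff {θ : ℝ} (h0 : 0 < θ) (h1 : θ < 1) :
    (∀ s : ℂ, θ < s.re → riemannZeta s ≠ 0) ↔
    ∀ ε : ℝ, 0 < ε → ∀ᶠ N : ℕ in atTop,
      (eulerExceptions N : ℝ) ≤ Real.exp (Real.log N ^ ((1 + θ) / 2 + ε)) := by
  constructor
  · intro hz ε hε
    refine few_of_free ?_ h1 hz hε
    refine Pool.Agent.H295R2.T2 fun s hs => ?_
    by_cases h : s = 1
    · rw [h, Pool.Agent.H295R2.Zs, riemannZeta₁_one]
      exact one_ne_zero
    · rw [← Pool.Agent.H295R2.Zs_eq h]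
      exact mul_ne_zero (sub_ne_zero.2 h) (hz s hs)
  · intro hE
    refine free_of_few (κ := 0) ?_ h0.le (Or.inl rfl) hE
    obtain ⟨C0, y1, hC0, h⟩ := low_phi
    refine ⟨C0, y1, hC0, fun y hy H hH hHy R hR1 hR2 hm N hN => h y hy H hH hHy R hR1 hR2 ?_ N hN⟩
    simpa using hm

/-- zero-free half-planes and the exceptions to Robin's inequality -/
theorem robin_iff {θ : ℝ} (h0 : 1 / 2 ≤ θ) (h1 : θ < 1) :
    (∀ s : ℂ, θ < s.re → riemannZeta s ≠ 0) ↔
    ∀ ε : ℝ, 0 < ε → ∀ᶠ N : ℕ in atTop,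
      (robinExceptions N : ℝ) ≤ Real.exp (Real.log N ^ ((1 + θ) / 2 + ε)) := by
  constructor
  · intro hz ε hε
    filter_upwards [few_of_free h0 h1 hz hε] with N hN
    refine le_trans ?_ hN
    exact_mod_cast robin_le_euler N
  · intro hE
    exact free_of_few (κ := 1) low_sigma (by linarith) (Or.inr h0) hE

/-- the Riemann hypothesis and the exceptions to Robin's inequality -/
theorem robin_RH :
    RiemannHypothesis ↔
    ∀ ε : ℝ, 0 < ε → ∀ᶠ N : ℕ in atTop,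
      (robinExceptions N : ℝ) ≤ Real.exp (Real.log N ^ (3 / 4 + ε)) := by
  rw [Pool.Agent.W190.rh_free, robin_iff le_rfl (by norm_num)]
  have : ((1 : ℝ) + 1 / 2) / 2 = 3 / 4 := by norm_num
  rw [this]

end Pool.Agent.H424.RB
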