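import Pool.Agent.H424.RB.Defs
import Pool.Agent.H442R2.EHI.PntErr
import Pool.Agent.H305R2.MertensE

/-! Base facts: the prime number theorem with error term for real arguments, Mertens' third theorem for `Pr`. -/

set_option autoImplicit false

namespace Pool.Agent.H424.RB

open MeasureTheory Filter Topology Set

/-- the prime number theorem with error term, real variable -/
theorem theta_pnt (A : ℕ) : ∃ C : ℝ, 0 < C ∧ ∀ y : ℝ, 2 ≤ y →
    |Chebyshev.theta y - y| ≤ C * y / Real.log y ^ A := by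
  obtain ⟨C, hC, h⟩ := Pool.Agent.H442R2.EHI.PntErrAux.thetaU A
  -- log^A y ≤ K * y
  obtain ⟨K, hK, hlog⟩ : ∃ K : ℝ, 0 < K ∧ ∀ y : ℝ, 2 ≤ y → Real.log y ^ A ≤ K * y := by
    have h1 : (fun y : ℝ => Real.log y ^ A) =o[atTop] (fun y : ℝ => y) := by
      simpa using (isLittleO_log_rpow_rpow_atTop (A : ℝ) one_pos)
    have h2 := h1.bound (c := 1) one_pos
    obtain ⟨y0, hy0⟩ := eventually_atTop.1 h2
    refine ⟨max 1 (Real.log (max y0 2) ^ A), by positivity, fun y hy => ?_⟩
    have hly : 0 ≤ Real.log y := Real.log_nonneg (by linarith)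
    rcases le_total y0 y with h3 | h3
    · have := hy0 y h3
      rw [Real.norm_of_nonneg (by positivity), Real.norm_of_nonneg (by linarith)] at this
      calc Real.log y ^ A ≤ 1 * y := this
        _ ≤ _ := by gcongr; exact le_max_left _ _
    · have h4 : Real.log y ^ A ≤ Real.log (max y0 2) ^ A := by
        gcongr
        exact h3.trans (le_max_left _ _)
      calc Real.log y ^ A ≤ Real.log (max y0 2) ^ A * 1 := by rw [mul_one]; exact h4
        _ ≤ max 1 (Real.log (max y0 2) ^ A) * y := by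
          gcongr
          · exact le_max_right _ _
          · linarith
  refine ⟨C * 2 ^ A + 2 ^ A * K, by positivity, fun y hy => ?_⟩
  set N : ℕ := ⌊y⌋₊ with hN
  have hN2 : 2 ≤ N := Nat.le_floor (by exact_mod_cast hy)
  have hNy : (N : ℝ) ≤ y := Nat.floor_le (by linarith)
  have hyN : y < N + 1 := Nat.lt_floor_add_one y
  have hθ : Chebyshev.theta y = Chebyshev.theta (N : ℝ) := Chebyshev.theta_eq_theta_coe_floor y
  have h1 := h N hN2
  have hN2' : (2 : ℝ) ≤ N := by exact_mod_cast hN2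
  have hlN : 0 < Real.log N := Real.log_pos (by linarith)
  have hly : 0 < Real.log y := Real.log_pos (by linarith)
  have hl2 : Real.log y ≤ 2 * Real.log N := by
    have : y ≤ (N : ℝ) ^ 2 := by nlinarith
    calc Real.log y ≤ Real.log ((N : ℝ) ^ 2) := Real.log_le_log (by linarith) this
      _ = 2 * Real.log N := by rw [Real.log_pow]; norm_num
  have hpow : Real.log y ^ A ≤ 2 ^ A * Real.log N ^ A := by
    rw [← mul_pow]
    gcongr
  have h2 : (N : ℝ) / Real.log N ^ A ≤ 2 ^ A * (y / Real.log y ^ A) := by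
    rw [div_le_iff₀ (by positivity)]
    have : (1 : ℝ) ≤ 2 ^ A * Real.log N ^ A / Real.log y ^ A := by
      rw [le_div_iff₀ (by positivity)]
      linarith
    calc (N : ℝ) ≤ y * 1 := by linarith
      _ ≤ y * (2 ^ A * Real.log N ^ A / Real.log y ^ A) := by gcongr
      _ = _ := by ring
  have h3 : (1 : ℝ) ≤ K * y / Real.log y ^ A := by
    rw [le_div_iff₀ (by positivity)]
    linarith [hlog y hy]
  have h3' : K * y / Real.log y ^ A ≤ 2 ^ A * K * y / Real.log y ^ A := by
    gcongr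
    have : (1 : ℝ) ≤ 2 ^ A := one_le_pow₀ (by norm_num)
    nlinarith
  rw [hθ]
  calc |Chebyshev.theta (N : ℝ) - y| ≤ |Chebyshev.theta (N : ℝ) - N| + |(N : ℝ) - y| := by
        have := abs_add_le (Chebyshev.theta (N : ℝ) - N) ((N : ℝ) - y)
        simpa using this
    _ ≤ C * (N / Real.log N ^ A) + 1 := by
        gcongr
        rw [abs_le]
        constructor <;> linarith
    _ ≤ C * (2 ^ A * (y / Real.log y ^ A)) + 2 ^ A * K * y / Real.log y ^ A := by
        gcongr
        linarith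
    _ = (C * 2 ^ A + 2 ^ A * K) * y / Real.log y ^ A := by ring

/-- the same for `ψ` -/
theorem psi_pnt (A : ℕ) : ∃ C : ℝ, 0 < C ∧ ∀ y : ℝ, 2 ≤ y →
    |Chebyshev.psi y - y| ≤ C * y / Real.log y ^ A := by
  obtain ⟨C, hC, h⟩ := theta_pnt A
  obtain ⟨C1, h1⟩ := Chebyshev.psi_sub_theta_le_mul_sqrt
  obtain ⟨K, hK, hlog⟩ : ∃ K : ℝ, 0 < K ∧ ∀ y : ℝ, 2 ≤ y → √y * Real.log y ^ A ≤ K * y := by
    have h1 : (fun y : ℝ => Real.log y ^ (A : ℝ)) =o[atTop] (fun y : ℝ => y ^ (1 / 2 : ℝ)) :=
      isLittleO_log_rpow_rpow_atTop _ (by norm_num)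
    have h2 := h1.bound (c := 1) one_pos
    obtain ⟨y0, hy0⟩ := eventually_atTop.1 h2
    refine ⟨max 1 (Real.log (max y0 2) ^ A), by positivity, fun y hy => ?_⟩
    have hly : 0 ≤ Real.log y := Real.log_nonneg (by linarith)
    have hs1 : 1 ≤ √y := by rw [Real.one_le_sqrt]; linarith
    have hss : √y * √y = y := Real.mul_self_sqrt (by linarith)
    rcases le_total y0 y with h3 | h3
    · have := hy0 y h3
      rw [Real.norm_of_nonneg (by positivity), Real.norm_of_nonneg (by positivity), Real.rpow_natCast,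
        ← Real.sqrt_eq_rpow] at this
      calc √y * Real.log y ^ A ≤ √y * (1 * √y) := by gcongr
        _ = 1 * y := by rw [one_mul, hss, one_mul]
        _ ≤ _ := by gcongr; exact le_max_left _ _
    · have h4 : Real.log y ^ A ≤ Real.log (max y0 2) ^ A := by
        gcongr
        exact h3.trans (le_max_left _ _)
      have h5 : √y ≤ y := by nlinarith
      calc √y * Real.log y ^ A ≤ y * Real.log (max y0 2) ^ A := by gcongr
        _ ≤ y * max 1 (Real.log (max y0 2) ^ A) := by gcongr; exact le_max_right _ _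
        _ = _ := mul_comm _ _
  refine ⟨C + |C1| * K, by positivity, fun y hy => ?_⟩
  have hly : 0 < Real.log y := Real.log_pos (by linarith)
  have h2 := h y hy
  have h3 : |Chebyshev.psi y - Chebyshev.theta y| ≤ |C1| * √y := by
    rw [abs_of_nonneg (by linarith [Chebyshev.theta_le_psi y])]
    calc _ ≤ C1 * √y := h1 y
      _ ≤ _ := by gcongr; exact le_abs_self _
  have h4 : √y ≤ K * y / Real.log y ^ A := by
    rw [le_div_iff₀ (by positivity)]
    exact hlog y hy
  calc |Chebyshev.psi y - y| ≤ |Chebyshev.theta y - y| + |Chebyshev.psi y - Chebyshev.theta y| := by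
        have := abs_add_le (Chebyshev.theta y - y) (Chebyshev.psi y - Chebyshev.theta y)
        have e : Chebyshev.theta y - y + (Chebyshev.psi y - Chebyshev.theta y) = Chebyshev.psi y - y := by ring
        rwa [e] at this
    _ ≤ C * y / Real.log y ^ A + |C1| * (K * y / Real.log y ^ A) := by
        gcongr
        exact h3.trans (by gcongr)
    _ = _ := by ring

theorem Ioc_filter (y : ℝ) : (Finset.Ioc 0 ⌊y⌋₊) = Finset.Icc 1 ⌊y⌋₊ := by
  ext n
  simp [Finset.mem_Ioc, Finset.mem_Icc, Nat.succ_le_iff]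

/-- Mertens' third theorem -/
theorem Pr_mertens : Tendsto (fun y : ℝ => Pr y - Real.log (Real.log y)) atTop
    (𝓝 Real.eulerMascheroniConstant) := by
  have h1 := Pool.Agent.H305R2.mertens_three
  have h2 : Tendsto (fun N : ℕ => Real.log ((∏ p ∈ (Finset.Icc 1 N).filter Nat.Prime,
      (1 - (p : ℝ)⁻¹)⁻¹) / Real.log N)) atTop (𝓝 Real.eulerMascheroniConstant) := by
    have := (Real.continuousAt_log (Real.exp_pos Real.eulerMascheroniConstant).ne').tendsto.comp h1
    rwa [Real.log_exp] at this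
  have h3 : Tendsto (fun y : ℝ => Real.log ((∏ p ∈ (Finset.Icc 1 ⌊y⌋₊).filter Nat.Prime,
      (1 - (p : ℝ)⁻¹)⁻¹) / Real.log ⌊y⌋₊)) atTop (𝓝 Real.eulerMascheroniConstant) :=
    h2.comp tendsto_nat_floor_atTop
  -- log log ⌊y⌋ - log log y → 0
  have h4 : Tendsto (fun y : ℝ => Real.log (Real.log ⌊y⌋₊) - Real.log (Real.log y)) atTop (𝓝 0) := by
    have h5 : Tendsto (fun y : ℝ => Real.log ⌊y⌋₊ / Real.log y) atTop (𝓝 1) := by
      have h6 : Tendsto (fun y : ℝ => (⌊y⌋₊ : ℝ) / y) atTop (𝓝 1) := tendsto_nat_floor_div_atTop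
      have h7 : Tendsto (fun y : ℝ => Real.log ((⌊y⌋₊ : ℝ) / y)) atTop (𝓝 0) := by
        have := (Real.continuousAt_log one_ne_zero).tendsto.comp h6
        rwa [Real.log_one] at this
      have h8 : Tendsto (fun y : ℝ => 1 + Real.log ((⌊y⌋₊ : ℝ) / y) / Real.log y) atTop (𝓝 1) := by
        have := (tendsto_const_nhds (x := (1 : ℝ))).add (h7.div_atTop Real.tendsto_log_atTop)
        simpa using this
      refine h8.congr' ?_
      filter_upwards [eventually_ge_atTop (2 : ℝ)] with y hy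
      have hN : 0 < (⌊y⌋₊ : ℝ) := by
        have : 2 ≤ ⌊y⌋₊ := Nat.le_floor (by exact_mod_cast hy)
        exact_mod_cast (by omega : 0 < ⌊y⌋₊)
      have hly : 0 < Real.log y := Real.log_pos (by linarith)
      rw [Real.log_div hN.ne' (by linarith)]
      field_simp
      ring
    have h9 : Tendsto (fun y : ℝ => Real.log (Real.log ⌊y⌋₊ / Real.log y)) atTop (𝓝 0) := by
      have := (Real.continuousAt_log one_ne_zero).tendsto.comp h5
      rwa [Real.log_one] at this
    refine h9.congr' ?_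
    filter_upwards [eventually_ge_atTop (2 : ℝ)] with y hy
    have hN : 2 ≤ (⌊y⌋₊ : ℝ) := by
      have : 2 ≤ ⌊y⌋₊ := Nat.le_floor (by exact_mod_cast hy)
      exact_mod_cast this
    have hly : 0 < Real.log y := Real.log_pos (by linarith)
    have hlN : 0 < Real.log ⌊y⌋₊ := Real.log_pos (by linarith)
    rw [Real.log_div hlN.ne' hly.ne']
  have h10 := h3.add h4
  rw [add_zero] at h10
  refine h10.congr' ?_
  filter_upwards [eventually_ge_atTop (2 : ℝ)] with y hy
  have hN : 2 ≤ (⌊y⌋₊ : ℝ) := by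
    have : 2 ≤ ⌊y⌋₊ := Nat.le_floor (by exact_mod_cast hy)
    exact_mod_cast this
  have hly : 0 < Real.log y := Real.log_pos (by linarith)
  have hlN : 0 < Real.log ⌊y⌋₊ := Real.log_pos (by linarith)
  have hpos : ∀ p ∈ (Finset.Icc 1 ⌊y⌋₊).filter Nat.Prime, (1 - (p : ℝ)⁻¹)⁻¹ ≠ 0 := by
    intro p hp
    rw [Finset.mem_filter] at hp
    have h2 : (2 : ℝ) ≤ p := by exact_mod_cast hp.2.two_le
    have : (p : ℝ)⁻¹ < 1 := inv_lt_one_of_one_lt₀ (by linarith)
    exact inv_ne_zero (by linarith)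
  rw [Real.log_div (Finset.prod_ne_zero_iff.2 hpos) hlN.ne', Real.log_prod hpos]
  unfold Pr
  rw [Ioc_filter]
  have e : ∑ i ∈ (Finset.Icc 1 ⌊y⌋₊).filter Nat.Prime, Real.log (1 - (i : ℝ)⁻¹)⁻¹ =
      ∑ p ∈ (Finset.Icc 1 ⌊y⌋₊).filter Nat.Prime, -Real.log (1 - 1 / (p : ℝ)) := by
    refine Finset.sum_congr rfl fun p _ => ?_
    rw [Real.log_inv, one_div]
  rw [e]
  ring

end Pool.Agent.H424.RB
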