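import Pool.Agent.H424.RB.Defs

/-! `σ(n) φ(n) ≤ n²`, and primes in intervals from a bound for `θ(t) - t`. -/

set_option autoImplicit false

namespace Pool.Agent.H424.RB

open MeasureTheory Filter Topology Set

theorem sigma_totient_le (n : ℕ) (hn : 0 < n) :
    ArithmeticFunction.sigma 1 n * Nat.totient n ≤ n * n := by
  induction n using Nat.recOnPosPrimePosCoprime with
  | zero => omega
  | one => simp
  | prime_pow p k hp hk =>
    obtain ⟨k, rfl⟩ : ∃ j, k = j + 1 := ⟨k - 1, by omega⟩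
    rw [ArithmeticFunction.sigma_one_apply_prime_pow hp, Nat.totient_prime_pow_succ hp]
    obtain ⟨x, rfl⟩ : ∃ x, p = x + 1 := ⟨p - 1, by have := hp.pos; omega⟩
    have h := geom_sum_mul_add x (k + 1 + 1)
    rw [Nat.add_sub_cancel]
    calc (∑ i ∈ Finset.range (k + 1 + 1), (x + 1) ^ i) * ((x + 1) ^ k * x)
        = ((∑ i ∈ Finset.range (k + 1 + 1), (x + 1) ^ i) * x) * (x + 1) ^ k := by ring
      _ ≤ (x + 1) ^ (k + 1 + 1) * (x + 1) ^ k := by
          refine Nat.mul_le_mul_right _ ?_
          omega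
      _ = (x + 1) ^ (k + 1) * (x + 1) ^ (k + 1) := by ring
  | coprime a b ha hb hab iha ihb =>
    rw [ArithmeticFunction.isMultiplicative_sigma.map_mul_of_coprime hab, Nat.totient_mul hab]
    calc ArithmeticFunction.sigma 1 a * ArithmeticFunction.sigma 1 b *
          (Nat.totient a * Nat.totient b)
        = (ArithmeticFunction.sigma 1 a * Nat.totient a) *
          (ArithmeticFunction.sigma 1 b * Nat.totient b) := by ring
      _ ≤ (a * a) * (b * b) := Nat.mul_le_mul (iha (by omega)) (ihb (by omega))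
      _ = a * b * (a * b) := by ring

/-- the exceptions to Robin's inequality are among the large values of `n / φ(n)` -/
theorem robin_le_euler (N : ℕ) : robinExceptions N ≤ eulerExceptions N := by
  classical
  unfold robinExceptions eulerExceptions
  refine Finset.card_le_card fun n hn => ?_
  rw [Finset.mem_filter] at hn ⊢
  refine ⟨hn.1, ?_⟩
  have hn1 : 1 ≤ n := (Finset.mem_Icc.1 hn.1).1
  have hnR : (0 : ℝ) < n := by exact_mod_cast hn1
  have h1 := hn.2
  have h2 : (ArithmeticFunction.sigma 1 n : ℝ) * (Nat.totient n : ℝ) ≤ n * n := by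
    exact_mod_cast sigma_totient_le n hn1
  have hφ : (0 : ℝ) ≤ Nat.totient n := Nat.cast_nonneg _
  have h3 : Real.exp Real.eulerMascheroniConstant * n * Real.log (Real.log n) * Nat.totient n ≤ n * n :=
    (mul_le_mul_of_nonneg_right h1 hφ).trans h2
  have h4 : (Real.exp Real.eulerMascheroniConstant * Real.log (Real.log n) * Nat.totient n) * n ≤ n * n := by
    linarith [h3, (by ring : (Real.exp Real.eulerMascheroniConstant * Real.log (Real.log n) * (Nat.totient n : ℝ)) * n
      = Real.exp Real.eulerMascheroniConstant * n * Real.log (Real.log n) * Nat.totient n)]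
  exact le_of_mul_le_mul_right h4 hnR

/-- `θ(b) - θ(a)` is at most `log b` times the number of primes in `(a, b]` -/
theorem theta_sub_le {a b : ℝ} (ha : 0 ≤ a) (hab : a ≤ b) (hb : 1 ≤ b) :
    Chebyshev.theta b - Chebyshev.theta a ≤
      (((Finset.Ioc ⌊a⌋₊ ⌊b⌋₊).filter Nat.Prime).card : ℝ) * Real.log b := by
  have hf : ⌊a⌋₊ ≤ ⌊b⌋₊ := Nat.floor_mono hab
  have h1 : Chebyshev.theta b = Chebyshev.theta a +
      ∑ p ∈ (Finset.Ioc ⌊a⌋₊ ⌊b⌋₊).filter Nat.Prime, Real.log p := by
    unfold Chebyshev.theta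
    rw [← Finset.sum_union]
    · congr 1
      rw [← Finset.filter_union]
      congr 1
      exact (Finset.Ioc_union_Ioc_eq_Ioc (Nat.zero_le _) hf).symm
    · rw [Finset.disjoint_left]
      intro p hp hq
      rw [Finset.mem_filter, Finset.mem_Ioc] at hp hq
      omega
  rw [h1, add_sub_cancel_left, ← nsmul_eq_mul]
  refine Finset.sum_le_card_nsmul _ _ _ fun p hp => ?_
  rw [Finset.mem_filter, Finset.mem_Ioc] at hp
  refine Real.log_le_log (by exact_mod_cast hp.2.pos) ?_
  have : (p : ℝ) ≤ ⌊b⌋₊ := by exact_mod_cast hp.1.2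
  exact this.trans (Nat.floor_le (by linarith))

/-- primes in both halves of a short interval around `y` -/
theorem primes_interval {y H w : ℝ} (hy : 2 ≤ y) (hw0 : 0 ≤ w)
    (hw : ∀ t : ℝ, y / 2 ≤ t → t ≤ 2 * y → |Chebyshev.theta t - t| ≤ w) (hH : 4 * w ≤ H) (hHy : H ≤ y / 2) :
    H / (2 * Real.log (2 * y)) ≤ (((Finset.Ioc ⌊y - H⌋₊ ⌊y⌋₊).filter Nat.Prime).card : ℝ) ∧
    H / (2 * Real.log (2 * y)) ≤ (((Finset.Ioc ⌊y⌋₊ ⌊y + H⌋₊).filter Nat.Prime).card : ℝ) := by
  have hH0 : 0 ≤ H := by linarith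
  have hl : 0 < Real.log (2 * y) := Real.log_pos (by linarith)
  have h1 := abs_le.1 (hw y (by linarith) (by linarith))
  have h2 := abs_le.1 (hw (y - H) (by linarith) (by linarith))
  have h3 := abs_le.1 (hw (y + H) (by linarith) (by linarith))
  constructor
  · have h4 := theta_sub_le (a := y - H) (b := y) (by linarith) (by linarith) (by linarith)
    have h5 : Real.log y ≤ Real.log (2 * y) := Real.log_le_log (by linarith) (by linarith)
    rw [div_le_iff₀ (by positivity)]
    have h6 : (((Finset.Ioc ⌊y - H⌋₊ ⌊y⌋₊).filter Nat.Prime).card : ℝ) * Real.log y ≤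
        (((Finset.Ioc ⌊y - H⌋₊ ⌊y⌋₊).filter Nat.Prime).card : ℝ) * Real.log (2 * y) := by gcongr
    nlinarith
  · have h4 := theta_sub_le (a := y) (b := y + H) (by linarith) (by linarith) (by linarith)
    have h5 : Real.log (y + H) ≤ Real.log (2 * y) := Real.log_le_log (by linarith) (by linarith)
    rw [div_le_iff₀ (by positivity)]
    have h6 : (((Finset.Ioc ⌊y⌋₊ ⌊y + H⌋₊).filter Nat.Prime).card : ℝ) * Real.log (y + H) ≤
        (((Finset.Ioc ⌊y⌋₊ ⌊y + H⌋₊).filter Nat.Prime).card : ℝ) * Real.log (2 * y) := by gcongr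
    nlinarith

end Pool.Agent.H424.RB
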