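import Pool.Agent.H424.RB.Defs

/-!
# Job RB-CAA: a colossally abundant number with a given largest prime factor

`IsCA n`: for some `ε > 0`, `σ(m)/m^(1+ε) ≤ σ(n)/n^(1+ε)` for all `m ≥ 1`.
-/

set_option autoImplicit false

namespace Pool.Agent.H424.RB

open Filter Topology Set

/-- `σ(q^a)` for a prime `q` -/
noncomputable def ss (q a : ℕ) : ℝ := ∑ i ∈ Finset.range (a + 1), (q : ℝ) ^ i

/-- the value `σ(q^a)/(q^a)^(1+ε)` -/
noncomputable def gg (ε : ℝ) (q a : ℕ) : ℝ := ss q a / ((q : ℝ) ^ a) ^ (1 + ε)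

/-- the ratio `q^ε f(q^(a+1))/f(q^a)` -/
noncomputable def rr (q a : ℕ) : ℝ := 1 + ((q : ℝ) - 1) / ((q : ℝ) ^ (a + 2) - q)

lemma ss_pos (q a : ℕ) (hq : 2 ≤ q) : 0 < ss q a := by
  unfold ss
  apply Finset.sum_pos
  · intro i _
    have : (0:ℝ) < q := by exact_mod_cast (by omega : 0 < q)
    positivity
  · exact ⟨0, by simp⟩

lemma gg_pos (ε : ℝ) (q a : ℕ) (hq : 2 ≤ q) : 0 < gg ε q a := by
  unfold gg
  have : (0:ℝ) < q := by exact_mod_cast (by omega : 0 < q)
  have h2 := ss_pos q a hq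
  positivity

lemma gg_zero (ε : ℝ) (q : ℕ) : gg ε q 0 = 1 := by
  simp [gg, ss]

lemma pow_gt (q a : ℕ) (hq : 2 ≤ q) : (q : ℝ) < (q : ℝ) ^ (a + 2) := by
  have h1 : (1:ℝ) < q := by exact_mod_cast (by omega : 1 < q)
  calc (q : ℝ) = (q:ℝ) ^ 1 := by ring
    _ < (q : ℝ) ^ (a + 2) := pow_lt_pow_right₀ h1 (by omega)

lemma ss_succ (q a : ℕ) (hq : 2 ≤ q) : ss q (a + 1) = q * rr q a * ss q a := by
  have h1 : (1:ℝ) < q := by exact_mod_cast (by omega : 1 < q)
  have e1 : ss q a * ((q : ℝ) - 1) = (q : ℝ) ^ (a + 1) - 1 := by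
    unfold ss; exact geom_sum_mul _ _
  have e2 : ss q (a + 1) * ((q : ℝ) - 1) = (q : ℝ) ^ (a + 1 + 1) - 1 := by
    unfold ss; exact geom_sum_mul _ _
  have h2 : (q : ℝ) ^ (a + 2) - q ≠ 0 := by
    have := pow_gt q a hq
    intro h; linarith
  have h3 : (q : ℝ) - 1 ≠ 0 := by intro h; linarith
  have h4 : (rr q a) * ((q : ℝ) ^ (a + 2) - q) = (q : ℝ) ^ (a + 2) - 1 := by
    unfold rr
    field_simp
    ring
  apply mul_right_cancel₀ h3
  rw [e2]
  have : (q : ℝ) * rr q a * ss q a * ((q : ℝ) - 1) = rr q a * ((q : ℝ) ^ (a + 2) - q) := by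
    calc (q : ℝ) * rr q a * ss q a * ((q : ℝ) - 1) = (q : ℝ) * rr q a * (ss q a * ((q : ℝ) - 1)) := by ring
      _ = _ := by rw [e1]; ring
  rw [this, h4]

lemma gg_succ (ε : ℝ) (q a : ℕ) (hq : 2 ≤ q) :
    gg ε q (a + 1) = gg ε q a * (rr q a / (q : ℝ) ^ ε) := by
  have h0 : (0:ℝ) < q := by exact_mod_cast (by omega : 0 < q)
  unfold gg
  rw [ss_succ q a hq, pow_succ, Real.mul_rpow (by positivity) h0.le, Real.rpow_add h0, Real.rpow_one]
  have h1 : (0:ℝ) < (q : ℝ) ^ ε := Real.rpow_pos_of_pos h0 _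
  have h2 : (0:ℝ) < ((q : ℝ) ^ a) ^ (1 + ε) := Real.rpow_pos_of_pos (by positivity) _
  field_simp

lemma rr_anti (q : ℕ) (hq : 2 ≤ q) {a b : ℕ} (h : a < b) : rr q b < rr q a := by
  have h1 : (1:ℝ) < q := by exact_mod_cast (by omega : 1 < q)
  unfold rr
  have h2 := pow_gt q a hq
  have h3 : (q : ℝ) ^ (a + 2) < (q : ℝ) ^ (b + 2) := pow_lt_pow_right₀ h1 (by omega)
  have : ((q : ℝ) - 1) / ((q : ℝ) ^ (b + 2) - q) < ((q : ℝ) - 1) / ((q : ℝ) ^ (a + 2) - q) := by
    apply div_lt_div_of_pos_left <;> linarith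
  linarith

lemma rr_pos (q a : ℕ) (hq : 2 ≤ q) : 0 < rr q a := by
  have h1 : (1:ℝ) < q := by exact_mod_cast (by omega : 1 < q)
  unfold rr
  have h2 := pow_gt q a hq
  have : 0 < ((q : ℝ) - 1) / ((q : ℝ) ^ (a + 2) - q) := by
    apply div_pos <;> linarith
  linarith

lemma rr_zero (q : ℕ) (hq : 2 ≤ q) : rr q 0 = 1 + 1 / q := by
  have h1 : (1:ℝ) < q := by exact_mod_cast (by omega : 1 < q)
  unfold rr
  have h2 : (q : ℝ) ^ (0 + 2) - q = q * (q - 1) := by ring
  rw [h2]
  have h3 : (q : ℝ) - 1 ≠ 0 := by intro h; linarith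
  have h4 : (q : ℝ) ≠ 0 := by linarith
  field_simp

lemma rr_exists (q : ℕ) (hq : 2 ≤ q) {t : ℝ} (ht : 1 < t) : ∃ a, rr q a < t := by
  have h1 : (1:ℝ) < q := by exact_mod_cast (by omega : 1 < q)
  obtain ⟨a, ha⟩ := pow_unbounded_of_one_lt (1 / (t - 1) + 1) h1
  refine ⟨a, ?_⟩
  unfold rr
  have h2 := pow_gt q a hq
  have h3 : (q : ℝ) ^ (a + 2) - q = q * (q ^ (a + 1) - 1) := by ring
  have h4 : (q : ℝ) ^ a ≤ (q : ℝ) ^ (a + 1) := pow_le_pow_right₀ h1.le (by omega)
  have h5 : 1 / (t - 1) < (q : ℝ) ^ (a + 1) - 1 := by linarith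
  have h6 : (0:ℝ) < t - 1 := by linarith
  have h7 : 1 < ((q : ℝ) ^ (a + 1) - 1) * (t - 1) := by
    rw [div_lt_iff₀ h6] at h5; exact h5
  have h8 : ((q : ℝ) - 1) / ((q : ℝ) ^ (a + 2) - q) < t - 1 := by
    rw [div_lt_iff₀ (by linarith), h3]
    nlinarith
  linarith

open Classical in
/-- the exponent of `q` -/
noncomputable def aa (ε : ℝ) (q : ℕ) : ℕ := if h : ∃ a, rr q a < (q : ℝ) ^ ε then Nat.find h else 0

lemma one_lt_rpow' {ε : ℝ} (hε : 0 < ε) (q : ℕ) (hq : 2 ≤ q) : 1 < (q : ℝ) ^ ε :=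
  Real.one_lt_rpow (by exact_mod_cast (by omega : 1 < q)) hε

lemma aa_spec {ε : ℝ} (hε : 0 < ε) (q : ℕ) (hq : 2 ≤ q) : rr q (aa ε q) < (q : ℝ) ^ ε := by
  classical
  have h := rr_exists q hq (one_lt_rpow' hε q hq)
  unfold aa
  rw [dif_pos h]
  exact Nat.find_spec h

lemma aa_min {ε : ℝ} (hε : 0 < ε) (q : ℕ) (hq : 2 ≤ q) {a : ℕ} (ha : a < aa ε q) : (q : ℝ) ^ ε ≤ rr q a := by
  classical
  have h := rr_exists q hq (one_lt_rpow' hε q hq)
  unfold aa at ha
  rw [dif_pos h] at ha
  exact not_lt.1 (Nat.find_min h ha)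

lemma gg_le {ε : ℝ} (hε : 0 < ε) (q : ℕ) (hq : 2 ≤ q) (j : ℕ) : gg ε q j ≤ gg ε q (aa ε q) := by
  have hQ : (0:ℝ) < (q : ℝ) ^ ε := lt_trans one_pos (one_lt_rpow' hε q hq)
  rcases le_total j (aa ε q) with h | h
  · -- increasing
    have key : ∀ k, ∀ j, j + k = aa ε q → gg ε q j ≤ gg ε q (aa ε q) := by
      intro k
      induction k with
      | zero => intro j hj; have : j = aa ε q := by omega
                rw [this]
      | succ k ih =>
        intro j hj
        refine le_trans ?_ (ih (j + 1) (by omega))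
        rw [gg_succ ε q j hq]
        have h1 := gg_pos ε q j hq
        have h2 : 1 ≤ rr q j / (q : ℝ) ^ ε := by
          rw [le_div_iff₀ hQ, one_mul]
          exact aa_min hε q hq (by omega)
        nlinarith
    exact key (aa ε q - j) j (by omega)
  · induction j, h using Nat.le_induction with
    | base => exact le_rfl
    | succ j hj ih =>
      refine le_trans ?_ ih
      rw [gg_succ ε q j hq]
      have h1 := gg_pos ε q j hq
      have h2 : rr q j / (q : ℝ) ^ ε ≤ 1 := by
        rw [div_le_iff₀ hQ, one_mul]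
        have h3 := aa_spec hε q hq
        rcases Nat.eq_or_lt_of_le hj with h | h
        · rw [← h]; exact h3.le
        · exact ((rr_anti q hq h).trans h3).le
      have h4 : 0 ≤ rr q j / (q : ℝ) ^ ε := div_nonneg (rr_pos q j hq).le hQ.le
      nlinarith

lemma f_eq (ε : ℝ) (m : ℕ) (hm : m ≠ 0) (S : Finset ℕ) (hS : m.primeFactors ⊆ S) :
    (ArithmeticFunction.sigma 1 m : ℝ) / (m : ℝ) ^ (1 + ε) = ∏ q ∈ S, gg ε q (m.factorization q) := by
  have h1 : ∏ q ∈ S, gg ε q (m.factorization q) = ∏ q ∈ m.primeFactors, gg ε q (m.factorization q) := by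
    symm
    apply Finset.prod_subset hS
    intro q _ hq
    have : m.factorization q = 0 := by
      rw [← Nat.support_factorization] at hq
      exact Finsupp.notMem_support_iff.1 hq
    rw [this, gg_zero]
  rw [h1]
  unfold gg
  rw [Finset.prod_div_distrib]
  congr 1
  · have h2 := ArithmeticFunction.isMultiplicative_sigma (k := 1)
    have h3 := ArithmeticFunction.IsMultiplicative.multiplicative_factorization _ h2 hm
    rw [h3, Finsupp.prod, Nat.support_factorization]
    push_cast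
    apply Finset.prod_congr rfl
    intro q hq
    rw [ArithmeticFunction.sigma_one_apply_prime_pow (Nat.prime_of_mem_primeFactors hq)]
    unfold ss
    push_cast
    rfl
  · rw [Real.finsetProd_rpow]
    · congr 1
      have h4 := Nat.prod_factorization_pow_eq_self hm
      conv_lhs => rw [← h4]
      rw [Finsupp.prod, Nat.support_factorization]
      push_cast
      rfl
    · intro q _; positivity

/-- TARGET -/
theorem ca_struct {p : ℕ} (hp : p.Prime) (hp3 : 3 ≤ p) :
    ∃ n : ℕ, IsCA n ∧ (∀ q : ℕ, q.Prime → (q ∣ n ↔ q ≤ p)) ∧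
      ∀ q : ℕ, q.Prime → q ≤ p →
        p * Real.log p ≤ 4 * Real.log q * (q : ℝ) ^ (n.factorization q + 1) ∧
        (q : ℝ) ^ n.factorization q * Real.log q ≤ 4 * (p * Real.log p) := by
  classical
  have hp0 : (3:ℝ) ≤ p := by exact_mod_cast hp3
  have hpp : (0:ℝ) < p := by linarith
  have hlogp : 0 < Real.log p := Real.log_pos (by linarith)
  have hlog1 : 0 < Real.log (1 + 1 / p) := Real.log_pos (by
    have : (0:ℝ) < 1 / p := by positivity
    linarith)
  set ε : ℝ := Real.log (1 + 1 / p) / Real.log p with hεdef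
  have hε : 0 < ε := div_pos hlog1 hlogp
  have hpow : ∀ q : ℕ, 2 ≤ q → (q : ℝ) ^ ε = Real.exp (ε * Real.log q) := by
    intro q hq
    have : (0:ℝ) < q := by exact_mod_cast (by omega : 0 < q)
    rw [Real.rpow_def_of_pos this, mul_comm]
  have hεp : ε * Real.log p = Real.log (1 + 1 / p) := by
    rw [hεdef]; field_simp
  have hexp : Real.exp (Real.log (1 + 1 / (p:ℝ))) = 1 + 1 / p := Real.exp_log (by positivity)
  -- the exponents
  have hgt : ∀ q : ℕ, p < q → aa ε q = 0 := by
    intro q hq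
    have hq2 : 2 ≤ q := by omega
    by_contra hne
    have h1 := aa_min hε q hq2 (a := 0) (Nat.pos_of_ne_zero hne)
    rw [rr_zero q hq2, hpow q hq2] at h1
    have hq' : (p:ℝ) < q := by exact_mod_cast hq
    have h2 : ε * Real.log p ≤ ε * Real.log q :=
      mul_le_mul_of_nonneg_left (Real.log_le_log hpp hq'.le) hε.le
    have h3 := Real.exp_le_exp.2 h2
    rw [hεp, hexp] at h3
    have h4 : 1 / (q:ℝ) < 1 / p := one_div_lt_one_div_of_lt hpp hq'
    linarith
  have hle : ∀ q : ℕ, 2 ≤ q → q ≤ p → 1 ≤ aa ε q := by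
    intro q hq2 hq
    by_contra hne
    have h0 : aa ε q = 0 := by omega
    have h1 := aa_spec hε q hq2
    rw [h0, rr_zero q hq2, hpow q hq2] at h1
    have hq' : (q:ℝ) ≤ p := by exact_mod_cast hq
    have hq0 : (0:ℝ) < q := by exact_mod_cast (by omega : 0 < q)
    have h2 : ε * Real.log q ≤ ε * Real.log p :=
      mul_le_mul_of_nonneg_left (Real.log_le_log hq0 hq') hε.le
    have h3 := Real.exp_le_exp.2 h2
    rw [hεp, hexp] at h3
    have h4 : 1 / (p:ℝ) ≤ 1 / q := one_div_le_one_div_of_le hq0 hq'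
    linarith
  -- the number
  set P : Finset ℕ := (Finset.range (p + 1)).filter Nat.Prime with hPdef
  set n : ℕ := ∏ q ∈ P, q ^ aa ε q with hn
  have hPp : ∀ q ∈ P, q.Prime := by
    intro q hq; rw [hPdef, Finset.mem_filter] at hq; exact hq.2
  have hn0 : n ≠ 0 := by
    rw [hn, Finset.prod_ne_zero_iff]
    intro q hq
    exact pow_ne_zero _ (hPp q hq).ne_zero
  have hfac : ∀ q : ℕ, q.Prime → n.factorization q = aa ε q := by
    intro q hq
    rw [hn, Nat.factorization_prod (fun q hq => pow_ne_zero _ (hPp q hq).ne_zero)]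
    rw [Finsupp.finsetSum_apply]
    by_cases hqp : q ≤ p
    · rw [Finset.sum_eq_single q]
      · rw [(hq).factorization_pow]; simp
      · intro b hb hbq
        rw [(hPp b hb).factorization_pow]
        simp [hbq]
      · intro h
        exfalso; apply h
        rw [hPdef, Finset.mem_filter, Finset.mem_range]
        exact ⟨by omega, hq⟩
    · rw [hgt q (by omega)]
      apply Finset.sum_eq_zero
      intro b hb
      rw [(hPp b hb).factorization_pow]
      have : b ≠ q := by
        intro h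
        rw [hPdef, Finset.mem_filter, Finset.mem_range] at hb
        omega
      simp [this]
  refine ⟨n, ⟨Nat.one_le_iff_ne_zero.2 hn0, ε, hε, ?_⟩, ?_, ?_⟩
  · intro m hm
    have hm0 : m ≠ 0 := by omega
    rw [f_eq ε m hm0 (m.primeFactors ∪ n.primeFactors) Finset.subset_union_left,
      f_eq ε n hn0 (m.primeFactors ∪ n.primeFactors) Finset.subset_union_right]
    apply Finset.prod_le_prod
    · intro q hq
      have hqp : q.Prime := by
        rcases Finset.mem_union.1 hq with h | h <;> exact Nat.prime_of_mem_primeFactors h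
      exact (gg_pos ε q _ hqp.two_le).le
    · intro q hq
      have hqp : q.Prime := by
        rcases Finset.mem_union.1 hq with h | h <;> exact Nat.prime_of_mem_primeFactors h
      rw [hfac q hqp]
      exact gg_le hε q hqp.two_le _
  · intro q hq
    constructor
    · intro h
      by_contra hlt
      have h1 := hfac q hq
      rw [hgt q (by omega)] at h1
      have h2 := (hq.dvd_iff_one_le_factorization hn0).1 h
      omega
    · intro h
      rw [hq.dvd_iff_one_le_factorization hn0, hfac q hq]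
      exact hle q hq.two_le h
  · intro q hq hqp
    rw [hfac q hq]
    have hq2 := hq.two_le
    have hq2' : (2:ℝ) ≤ q := by exact_mod_cast hq2
    have hqp' : (q:ℝ) ≤ p := by exact_mod_cast hqp
    have hlogq : 0 < Real.log q := Real.log_pos (by linarith)
    have hlogqp : Real.log q ≤ Real.log p := Real.log_le_log (by linarith) hqp'
    set x : ℝ := ε * Real.log q with hx
    have hx0 : 0 < x := mul_pos hε hlogq
    have hplp : 0 < p * Real.log p := by positivity
    have hlogle : Real.log (1 + 1 / (p:ℝ)) ≤ 1 / p := by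
      have := Real.log_le_sub_one_of_pos (show (0:ℝ) < 1 + 1 / p by positivity)
      linarith
    have hlogge : 1 / (2 * (p:ℝ)) ≤ Real.log (1 + 1 / (p:ℝ)) := by
      have h := Real.one_sub_inv_le_log_of_pos (show (0:ℝ) < 1 + 1 / p by positivity)
      refine le_trans ?_ h
      have : 1 - (1 + 1 / (p:ℝ))⁻¹ = 1 / (p + 1) := by field_simp; ring
      rw [this]
      apply one_div_le_one_div_of_le <;> linarith
    have hxle : x ≤ Real.log q / (p * Real.log p) := by
      rw [hx, hεdef, div_mul_eq_mul_div, div_le_div_iff₀ hlogp hplp]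
      have : Real.log (1 + 1 / (p:ℝ)) * p ≤ 1 := by
        calc Real.log (1 + 1 / (p:ℝ)) * p ≤ 1 / p * p := mul_le_mul_of_nonneg_right hlogle hpp.le
          _ = 1 := by field_simp
      nlinarith [mul_pos hlogq hlogp]
    have hxge : Real.log q / (2 * (p * Real.log p)) ≤ x := by
      rw [hx, hεdef, div_mul_eq_mul_div, div_le_div_iff₀ (by positivity) hlogp]
      have : 1 ≤ Real.log (1 + 1 / (p:ℝ)) * (2 * p) := by
        calc (1:ℝ) = 1 / (2 * p) * (2 * p) := by field_simp
          _ ≤ _ := mul_le_mul_of_nonneg_right hlogge (by positivity)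
      nlinarith [mul_pos hlogq hlogp]
    have hx1 : x ≤ 1 := by
      refine hxle.trans ?_
      rw [div_le_one hplp]
      nlinarith
    have hexpx : (q:ℝ) ^ ε = Real.exp x := hpow q hq2
    have he1 : Real.exp x - 1 ≤ 2 * x := by
      have h := Real.abs_exp_sub_one_le (x := x) (by rw [abs_of_pos hx0]; exact hx1)
      rw [abs_of_pos hx0] at h
      exact (le_abs_self _).trans h
    have he2 : x ≤ Real.exp x - 1 := by
      have := Real.add_one_le_exp x
      linarith
    constructor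
    · have h1 := aa_spec hε q hq2
      rw [hexpx] at h1
      unfold rr at h1
      set a := aa ε q with ha
      have h2 := pow_gt q a hq2
      have h3 : ((q:ℝ) - 1) / ((q : ℝ) ^ (a + 2) - q) ≤ 2 * (Real.log q / (p * Real.log p)) := by
        linarith
      rw [div_le_iff₀ (by linarith)] at h3
      have h4 : ((q:ℝ) - 1) * (p * Real.log p) ≤ 2 * Real.log q * ((q : ℝ) ^ (a + 2) - q) := by
        have := mul_le_mul_of_nonneg_right h3 hplp.le
        refine this.trans (le_of_eq ?_)
        field_simp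
      have h5 : (q : ℝ) ^ (a + 2) = q * q ^ (a + 1) := by ring
      rw [h5] at h4
      have h6 : (q:ℝ) * (p * Real.log p) ≤ q * (4 * Real.log q * (q:ℝ) ^ (a + 1)) := by
        nlinarith [mul_pos hlogq (show (0:ℝ) < q by linarith)]
      exact le_of_mul_le_mul_left h6 (by linarith)
    · have hle1 := hle q hq2 hqp
      have h1 := aa_min hε q hq2 (a := aa ε q - 1) (by omega)
      rw [hexpx] at h1
      obtain ⟨b, hb⟩ : ∃ b, aa ε q = b + 1 := ⟨aa ε q - 1, by omega⟩
      rw [hb] at h1 ⊢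
      rw [Nat.add_sub_cancel] at h1
      unfold rr at h1
      have h2 := pow_gt q b hq2
      have h3 : Real.log q / (2 * (p * Real.log p)) ≤ ((q:ℝ) - 1) / ((q : ℝ) ^ (b + 2) - q) := by
        linarith
      rw [div_le_div_iff₀ (by positivity) (by linarith)] at h3
      have h5 : (q : ℝ) ^ (b + 2) = q * q ^ (b + 1) := by ring
      rw [h5] at h3
      have h7 : Real.log q ≤ p * Real.log p := by nlinarith
      have h6 : (q:ℝ) * ((q:ℝ) ^ (b + 1) * Real.log q) ≤ q * (4 * (p * Real.log p)) := by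
        nlinarith [mul_le_mul_of_nonneg_left h7 (show (0:ℝ) ≤ q by linarith)]
      exact le_of_mul_le_mul_left h6 (by linarith)

end Pool.Agent.H424.RB
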