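import Pool.Agent.H424.RB.CaA
import Pool.Agent.H424.RB.Base

set_option autoImplicit false

namespace Pool.Agent.H424.RB

open Filter Topology Set

theorem cab_theta_ev : ∀ᶠ x : ℝ in atTop, x / 2 ≤ Chebyshev.theta x ∧ Chebyshev.theta x ≤ 2 * x := by
  obtain ⟨C, hC, h⟩ := theta_pnt 1
  have h1 : ∀ᶠ x : ℝ in atTop, 2 * C ≤ Real.log x := Real.tendsto_log_atTop.eventually_ge_atTop _
  filter_upwards [h1, eventually_ge_atTop (2:ℝ)] with x hx hx2
  have h2 := h x hx2
  have hlog : 0 < Real.log x := lt_of_lt_of_le (by positivity) hx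
  have h3 : C * x / Real.log x ^ 1 ≤ x / 2 := by
    rw [pow_one, div_le_iff₀ hlog]
    nlinarith
  have h4 := abs_le.1 (h2.trans h3)
  constructor <;> linarith [h4.1, h4.2]

theorem cab_pi_ev : ∀ᶠ x : ℝ in atTop,
    (Nat.primeCounting ⌊3 * √x⌋₊ : ℝ) * (2 * Real.log x) ≤ 24 * √x := by
  have hε : (0:ℝ) < 2 - Real.log 4 := by
    have : Real.log 4 = 2 * Real.log 2 := by
      rw [show (4:ℝ) = 2 ^ 2 by norm_num, Real.log_pow]; norm_num
    rw [this]
    linarith [Real.log_two_lt_d9]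
  have h1 := Chebyshev.eventually_primeCounting_le hε
  have h2 : Tendsto (fun x : ℝ => 3 * √x) atTop atTop :=
    Tendsto.const_mul_atTop (by norm_num) Real.tendsto_sqrt_atTop
  have h3 := h2.eventually h1
  filter_upwards [h3, eventually_ge_atTop (2:ℝ)] with x hx hx2
  have hlog : 0 < Real.log x := Real.log_pos (by linarith)
  have hs : 0 < √x := Real.sqrt_pos.2 (by linarith)
  have hl : Real.log x / 2 ≤ Real.log (3 * √x) := by
    rw [← Real.log_sqrt (by linarith)]
    exact Real.log_le_log hs (by linarith)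
  have hx' : (Nat.primeCounting ⌊3 * √x⌋₊ : ℝ) ≤ 2 * (3 * √x) / Real.log (3 * √x) := by
    have : Real.log 4 + (2 - Real.log 4) = 2 := by ring
    rw [this] at hx
    exact hx
  have h5 : 2 * (3 * √x) / Real.log (3 * √x) ≤ 12 * √x / Real.log x := by
    rw [div_le_div_iff₀ (by linarith) hlog]
    nlinarith
  calc (Nat.primeCounting ⌊3 * √x⌋₊ : ℝ) * (2 * Real.log x)
      ≤ (12 * √x / Real.log x) * (2 * Real.log x) :=
        mul_le_mul_of_nonneg_right (hx'.trans h5) (by positivity)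
    _ = 24 * √x := by field_simp; ring

theorem cab_sq_ev : ∀ᶠ x : ℝ in atTop, 4 * (x * Real.log x) / Real.log 2 ≤ x ^ 2 := by
  have h1 : ∀ᶠ x : ℝ in atTop, Real.log x ≤ (Real.log 2 / 4) * x := by
    have := Real.isLittleO_log_id_atTop.def (c := Real.log 2 / 4) (by positivity)
    filter_upwards [this, eventually_ge_atTop (1:ℝ)] with x hx hx1
    simp only [id, Real.norm_eq_abs] at hx
    rw [abs_of_nonneg (show (0:ℝ) ≤ x by linarith), abs_of_nonneg (Real.log_nonneg hx1)] at hx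
    exact hx
  filter_upwards [h1, eventually_ge_atTop (1:ℝ)] with x hx hx1
  have hl2 : 0 < Real.log 2 := Real.log_pos (by norm_num)
  rw [div_le_iff₀ hl2]
  nlinarith

theorem cab_log_sum {n p : ℕ} (hn : n ≠ 0) (hd : ∀ q : ℕ, q.Prime → (q ∣ n ↔ q ≤ p)) :
    n.primeFactors = (Finset.Ioc 0 p).filter Nat.Prime := by
  ext q
  simp only [Nat.mem_primeFactors, Finset.mem_filter, Finset.mem_Ioc]
  constructor
  · rintro ⟨h1, h2, _⟩
    exact ⟨⟨h1.pos, (hd q h1).1 h2⟩, h1⟩
  · rintro ⟨⟨_, h2⟩, h3⟩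
    exact ⟨h3, (hd q h3).2 h2, hn⟩

/-- the upper bound of `log n` -/
theorem cab_logn {p n : ℕ} (hp : p.Prime) (hn : n ≠ 0)
    (hd : ∀ q : ℕ, q.Prime → (q ∣ n ↔ q ≤ p))
    (hub : ∀ q : ℕ, q.Prime → q ≤ p →
      (q : ℝ) ^ n.factorization q * Real.log q ≤ 4 * (p * Real.log p))
    (hpi : (Nat.primeCounting ⌊3 * √(p:ℝ)⌋₊ : ℝ) * (2 * Real.log p) ≤ 24 * √(p:ℝ))
    (hsq : 4 * ((p:ℝ) * Real.log p) / Real.log 2 ≤ (p:ℝ) ^ 2) :
    Chebyshev.theta p ≤ Real.log n ∧ Real.log n ≤ Chebyshev.theta p + 24 * √(p:ℝ) := by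
  have hp2 : (2:ℝ) ≤ p := by exact_mod_cast hp.two_le
  have hlp : 0 < Real.log p := Real.log_pos (by linarith)
  have hfac : ∀ q ∈ (Finset.Ioc 0 p).filter Nat.Prime, 1 ≤ n.factorization q := by
    intro q hq
    simp only [Finset.mem_filter, Finset.mem_Ioc] at hq
    exact (hq.2.dvd_iff_one_le_factorization hn).1 ((hd q hq.2).2 hq.1.2)
  have hlog : Real.log n = ∑ q ∈ (Finset.Ioc 0 p).filter Nat.Prime,
      (n.factorization q : ℝ) * Real.log q := by
    rw [Real.log_nat_eq_sum_factorization, Finsupp.sum, Nat.support_factorization,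
      cab_log_sum hn hd]
  have hth : Chebyshev.theta p = ∑ q ∈ (Finset.Ioc 0 p).filter Nat.Prime, Real.log q := by
    simp [Chebyshev.theta]
  have hdiff : Real.log n - Chebyshev.theta p = ∑ q ∈ (Finset.Ioc 0 p).filter Nat.Prime,
      ((n.factorization q : ℝ) - 1) * Real.log q := by
    rw [hlog, hth, ← Finset.sum_sub_distrib]
    refine Finset.sum_congr rfl fun q _ => ?_
    ring
  have hnonneg : ∀ q ∈ (Finset.Ioc 0 p).filter Nat.Prime,
      0 ≤ ((n.factorization q : ℝ) - 1) * Real.log q := by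
    intro q hq
    have h1 : (1:ℝ) ≤ n.factorization q := by exact_mod_cast hfac q hq
    have h2 : (1:ℝ) ≤ q := by
      simp only [Finset.mem_filter, Finset.mem_Ioc] at hq
      exact_mod_cast hq.1.1
    exact mul_nonneg (by linarith) (Real.log_nonneg h2)
  constructor
  · have : 0 ≤ Real.log n - Chebyshev.theta p := by
      rw [hdiff]; exact Finset.sum_nonneg hnonneg
    linarith
  · have h1 : Real.log n - Chebyshev.theta p ≤ ∑ q ∈ (Finset.Ioc 0 ⌊3 * √(p:ℝ)⌋₊).filter Nat.Prime,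
        2 * Real.log p := by
      rw [hdiff]
      have hA : ∑ q ∈ (Finset.Ioc 0 p).filter Nat.Prime,
          ((n.factorization q : ℝ) - 1) * Real.log q ≤
          ∑ q ∈ ((Finset.Ioc 0 p).filter Nat.Prime).filter (fun q => 2 ≤ n.factorization q),
            2 * Real.log p := by
        rw [Finset.sum_filter (s := (Finset.Ioc 0 p).filter Nat.Prime)]
        refine Finset.sum_le_sum fun q hq => ?_
        split_ifs with h
        · have hq' := hq
          simp only [Finset.mem_filter, Finset.mem_Ioc] at hq'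
          have hq2 : (2:ℝ) ≤ q := by exact_mod_cast hq'.2.two_le
          have hl2 : 0 < Real.log 2 := Real.log_pos (by norm_num)
          have hlq : Real.log 2 ≤ Real.log q := Real.log_le_log (by norm_num) hq2
          have h3 := hub q hq'.2 hq'.1.2
          have h4 : (q:ℝ) ^ n.factorization q ≤ (p:ℝ) ^ 2 := by
            refine le_trans ?_ hsq
            rw [le_div_iff₀ hl2]
            refine le_trans ?_ h3
            exact mul_le_mul_of_nonneg_left hlq (by positivity)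
          have h5 := Real.log_le_log (by positivity) h4
          rw [Real.log_pow, Real.log_pow] at h5
          push_cast at h5
          have : 0 ≤ Real.log q := by linarith
          nlinarith
        · have h1 := hfac q hq
          have h2 : n.factorization q = 1 := by omega
          rw [h2]; simp
      refine hA.trans ?_
      refine Finset.sum_le_sum_of_subset_of_nonneg ?_ (fun _ _ _ => by positivity)
      intro q hq
      simp only [Finset.mem_filter, Finset.mem_Ioc] at hq ⊢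
      obtain ⟨⟨⟨hq0, hqp⟩, hqpr⟩, ha⟩ := hq
      refine ⟨⟨hq0, ?_⟩, hqpr⟩
      apply Nat.le_floor
      by_contra hcon
      push Not at hcon
      have hs : 0 < √(p:ℝ) := Real.sqrt_pos.2 (by linarith)
      have hq2 : (2:ℝ) ≤ q := by exact_mod_cast hqpr.two_le
      have h3 := hub q hqpr hqp
      have h4 : (q:ℝ) ^ 2 ≤ (q:ℝ) ^ n.factorization q :=
        pow_le_pow_right₀ (by linarith) ha
      have h5 : (9 * (p:ℝ)) < (q:ℝ) ^ 2 := by
        have : (3 * √(p:ℝ)) ^ 2 = 9 * p := by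
          rw [mul_pow, Real.sq_sqrt (by linarith)]; norm_num
        rw [← this]
        exact pow_lt_pow_left₀ hcon (by positivity) (by norm_num)
      have h6 : Real.log p / 2 ≤ Real.log q := by
        rw [← Real.log_sqrt (by linarith)]
        exact Real.log_le_log hs (by linarith)
      have h7 : 9 * (p:ℝ) * (Real.log p / 2) ≤ (q:ℝ) ^ n.factorization q * Real.log q :=
        mul_le_mul (h5.le.trans h4) h6 (by positivity) (by positivity)
      have : 0 < (p:ℝ) * Real.log p := by positivity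
      nlinarith
    have h2 : (Nat.primeCounting ⌊3 * √(p:ℝ)⌋₊ : ℝ) =
        (((Finset.Ioc 0 ⌊3 * √(p:ℝ)⌋₊).filter Nat.Prime).card : ℝ) := by
      congr 1
      rw [Nat.primeCounting, Nat.primeCounting', Nat.count_eq_card_filter_range]
      congr 1
      ext q
      simp only [Finset.mem_filter, Finset.mem_range, Finset.mem_Ioc]
      constructor
      · rintro ⟨h1, h2⟩
        exact ⟨⟨h2.pos, by omega⟩, h2⟩
      · rintro ⟨⟨h1, h2⟩, h3⟩
        exact ⟨by omega, h3⟩
    rw [Finset.sum_const, nsmul_eq_mul, ← h2] at h1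
    linarith

/-- one factor -/
theorem cab_factor {q a : ℕ} (hq : q.Prime) :
    Real.log (ArithmeticFunction.sigma 1 (q ^ a) : ℝ) - a * Real.log q =
      -Real.log (1 - 1 / (q:ℝ)) + Real.log (1 - ((q:ℝ) ^ (a + 1))⁻¹) := by
  have hq2 : (2:ℝ) ≤ q := by exact_mod_cast hq.two_le
  have hq0 : (0:ℝ) < q := by linarith
  have h1 : ((ArithmeticFunction.sigma 1 (q ^ a) : ℕ) : ℝ) = ((q:ℝ) ^ (a + 1) - 1) / (q - 1) := by
    rw [ArithmeticFunction.sigma_one_apply_prime_pow hq]
    push_cast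
    rw [geom_sum_eq (by linarith)]
  have hpow : (1:ℝ) < (q:ℝ) ^ (a + 1) := one_lt_pow₀ (by linarith) (by omega)
  have h2 : (0:ℝ) < 1 - 1 / (q:ℝ) := by
    rw [sub_pos, div_lt_one hq0]; linarith
  have h3 : (0:ℝ) < 1 - ((q:ℝ) ^ (a + 1))⁻¹ := by
    rw [sub_pos]; exact inv_lt_one_of_one_lt₀ hpow
  have h4 : ((ArithmeticFunction.sigma 1 (q ^ a) : ℕ) : ℝ) * (1 - 1 / (q:ℝ)) =
      (1 - ((q:ℝ) ^ (a + 1))⁻¹) * (q:ℝ) ^ a := by
    rw [h1]
    have : (q:ℝ) - 1 ≠ 0 := by linarith
    field_simp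
    ring
  have hs : (0:ℝ) < ((ArithmeticFunction.sigma 1 (q ^ a) : ℕ) : ℝ) := by
    rw [h1]; exact div_pos (by linarith) (by linarith)
  have h5 := congrArg Real.log h4
  rw [Real.log_mul hs.ne' h2.ne', Real.log_mul h3.ne' (by positivity), Real.log_pow] at h5
  linarith

/-- the sum of the error terms -/
theorem cab_err {p n : ℕ} (hp : p.Prime) (hp4 : 16 ≤ p) (hn : n ≠ 0)
    (hd : ∀ q : ℕ, q.Prime → (q ∣ n ↔ q ≤ p))
    (hlb : ∀ q : ℕ, q.Prime → q ≤ p →
      p * Real.log p ≤ 4 * Real.log q * (q : ℝ) ^ (n.factorization q + 1)) :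
    ∑ q ∈ (Finset.Ioc 0 p).filter Nat.Prime, ((q:ℝ) ^ (n.factorization q + 1))⁻¹ ≤ 4 / √(p:ℝ) := by
  have hp2 : (16:ℝ) ≤ p := by exact_mod_cast hp4
  have hlp : 0 < Real.log p := Real.log_pos (by linarith)
  have hs : 0 < √(p:ℝ) := Real.sqrt_pos.2 (by linarith)
  have hss : √(p:ℝ) * √(p:ℝ) = p := Real.mul_self_sqrt (by linarith)
  have hs4 : 4 ≤ √(p:ℝ) := by
    rw [show (4:ℝ) = √16 by rw [show (16:ℝ) = 4 ^ 2 by norm_num, Real.sqrt_sq (by norm_num)]]
    exact Real.sqrt_le_sqrt hp2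
  set k := Nat.sqrt p with hk
  have hk1 : (k:ℝ) ≤ √(p:ℝ) := Real.nat_sqrt_le_real_sqrt
  have hk2 : √(p:ℝ) ≤ k + 1 := Real.real_sqrt_le_nat_sqrt_succ
  have hk3 : √(p:ℝ) / 2 ≤ k := by linarith
  have hkpos : 0 < k := by
    have : (0:ℝ) < k := by linarith
    exact_mod_cast this
  have hkp : k ≤ p := Nat.sqrt_le_self p
  have hA : ∑ q ∈ (Finset.Ioc 0 p).filter Nat.Prime, ((q:ℝ) ^ (n.factorization q + 1))⁻¹ ≤
      ∑ q ∈ Finset.Ioc 0 k, (2 / (p:ℝ)) + ∑ q ∈ Finset.Ioc k p, ((q:ℝ) ^ 2)⁻¹ := by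
    rw [Finset.sum_filter]
    have hU : Finset.Ioc 0 p = Finset.Ioc 0 k ∪ Finset.Ioc k p := by
      ext x; simp only [Finset.mem_union, Finset.mem_Ioc]; omega
    have hdis : Disjoint (Finset.Ioc 0 k) (Finset.Ioc k p) := by
      rw [Finset.disjoint_left]; intro x; simp only [Finset.mem_Ioc]; omega
    rw [hU, Finset.sum_union hdis]
    refine add_le_add (Finset.sum_le_sum fun q hq => ?_) (Finset.sum_le_sum fun q hq => ?_)
    · split_ifs with hpr
      · rw [Finset.mem_Ioc] at hq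
        have hq2 : (2:ℝ) ≤ q := by exact_mod_cast hpr.two_le
        have h1 := hlb q hpr (hq.2.trans hkp)
        have hqs : (q:ℝ) ≤ √(p:ℝ) := le_trans (by exact_mod_cast hq.2) hk1
        have h2 : Real.log q ≤ Real.log p / 2 := by
          rw [← Real.log_sqrt (by linarith)]
          exact Real.log_le_log (by linarith) hqs
        have h3 : (p:ℝ) / 2 ≤ (q:ℝ) ^ (n.factorization q + 1) := by
          have hpw : 0 < (q:ℝ) ^ (n.factorization q + 1) := by positivity
          have h4 : (p:ℝ) * Real.log p ≤ 2 * Real.log p * (q:ℝ) ^ (n.factorization q + 1) := by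
            refine h1.trans ?_
            refine mul_le_mul_of_nonneg_right ?_ hpw.le
            linarith
          by_contra hcon
          push Not at hcon
          have : 2 * Real.log p * (q:ℝ) ^ (n.factorization q + 1) < 2 * Real.log p * (p / 2) :=
            mul_lt_mul_of_pos_left hcon (by positivity)
          linarith
        calc ((q:ℝ) ^ (n.factorization q + 1))⁻¹ ≤ ((p:ℝ) / 2)⁻¹ :=
              inv_anti₀ (by linarith) h3
          _ = 2 / p := by rw [inv_div]
      · positivity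
    · split_ifs with hpr
      · rw [Finset.mem_Ioc] at hq
        have hq2 : (2:ℝ) ≤ q := by exact_mod_cast hpr.two_le
        have ha : 1 ≤ n.factorization q :=
          (hpr.dvd_iff_one_le_factorization hn).1 ((hd q hpr).2 hq.2)
        refine inv_anti₀ (by positivity) ?_
        exact pow_le_pow_right₀ (by linarith) (by omega)
      · positivity
  refine hA.trans ?_
  have h1 : ∑ q ∈ Finset.Ioc 0 k, (2 / (p:ℝ)) ≤ 2 / √(p:ℝ) := by
    rw [Finset.sum_const, Nat.card_Ioc, nsmul_eq_mul, Nat.sub_zero]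
    rw [mul_div_assoc', div_le_div_iff₀ (by linarith) hs]
    nlinarith
  have h2 : ∑ q ∈ Finset.Ioc k p, ((q:ℝ) ^ 2)⁻¹ ≤ 2 / √(p:ℝ) := by
    have h3 := sum_Ioc_inv_sq_le_sub (α := ℝ) hkpos.ne' hkp
    refine h3.trans ?_
    have h4 : (0:ℝ) ≤ ((p:ℕ):ℝ)⁻¹ := by positivity
    have h5 : ((k:ℕ):ℝ)⁻¹ ≤ 2 / √(p:ℝ) := by
      rw [← inv_div]
      exact inv_anti₀ (by positivity) hk3
    linarith
  have h3 : (4:ℝ) / √(p:ℝ) = 2 / √(p:ℝ) + 2 / √(p:ℝ) := by ring
  linarith

/-- TARGET -/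
theorem ca_low : ∃ C0 y1 : ℝ, 0 < C0 ∧ ∀ p : ℕ, p.Prime → y1 ≤ p → C0 / √(p : ℝ) ≤ mar p →
    ∃ n : ℕ, IsCA n ∧ (∀ q : ℕ, q.Prime → (q ∣ n ↔ q ≤ p)) ∧ Real.log n ≤ 3 * p ∧
      Real.exp Real.eulerMascheroniConstant * n * Real.log (Real.log n) ≤
        (ArithmeticFunction.sigma 1 n : ℝ) := by
  have hev : ∀ᶠ x : ℝ in atTop, (x / 2 ≤ Chebyshev.theta x ∧ Chebyshev.theta x ≤ 2 * x) ∧
      ((Nat.primeCounting ⌊3 * √x⌋₊ : ℝ) * (2 * Real.log x) ≤ 24 * √x) ∧
      (4 * (x * Real.log x) / Real.log 2 ≤ x ^ 2) ∧ 576 ≤ x := by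
    filter_upwards [cab_theta_ev, cab_pi_ev, cab_sq_ev, eventually_ge_atTop (576:ℝ)] with x h1 h2 h3 h4
    exact ⟨h1, h2, h3, h4⟩
  obtain ⟨y1, hy1⟩ := eventually_atTop.1 hev
  refine ⟨56, y1, by norm_num, ?_⟩
  intro p hp hyp hmar
  obtain ⟨⟨hth1, hth2⟩, hpi, hsq, h576⟩ := hy1 p hyp
  have hp576 : 576 ≤ p := by exact_mod_cast h576
  obtain ⟨n, hCA, hd, hn3⟩ := ca_struct hp (by omega)
  have hn1 : 1 ≤ n := hCA.1
  have hn0 : n ≠ 0 := by omega
  have hs : 0 < √(p:ℝ) := Real.sqrt_pos.2 (by linarith)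
  have hss : √(p:ℝ) * √(p:ℝ) = p := Real.mul_self_sqrt (by linarith)
  have hs24 : 24 ≤ √(p:ℝ) := by
    rw [show (24:ℝ) = √576 by rw [show (576:ℝ) = 24 ^ 2 by norm_num, Real.sqrt_sq (by norm_num)]]
    exact Real.sqrt_le_sqrt h576
  obtain ⟨hL1, hL2⟩ := cab_logn hp hn0 hd (fun q h1 h2 => (hn3 q h1 h2).2) hpi hsq
  have herr := cab_err hp (by omega) hn0 hd (fun q h1 h2 => (hn3 q h1 h2).1)
  refine ⟨n, hCA, hd, by nlinarith, ?_⟩
  set T := Chebyshev.theta (p:ℝ) with hT
  set L := Real.log n with hL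
  -- logarithms
  have hTpos : 0 < T := by linarith
  have hLpos : 0 < L := by linarith
  have hlogT : 1 ≤ Real.log T := by
    have h1 : (3:ℝ) ≤ T := by linarith
    have h2 : Real.log 3 ≤ Real.log T := Real.log_le_log (by norm_num) h1
    have h3 : (1:ℝ) ≤ Real.log 3 := by
      rw [Real.le_log_iff_exp_le (by norm_num)]
      linarith [Real.exp_one_lt_d9]
    linarith
  have hlogL : Real.log L ≤ Real.log T + 48 / √(p:ℝ) := by
    have h1 : Real.log L ≤ Real.log (T + 24 * √(p:ℝ)) := Real.log_le_log hLpos hL2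
    have h2 : Real.log (T + 24 * √(p:ℝ)) ≤ Real.log T + 24 * √(p:ℝ) / T := by
      have h3 : T + 24 * √(p:ℝ) = T * (1 + 24 * √(p:ℝ) / T) := by field_simp
      rw [h3, Real.log_mul hTpos.ne' (by positivity)]
      have := Real.log_le_sub_one_of_pos (show 0 < 1 + 24 * √(p:ℝ) / T by positivity)
      linarith
    have h4 : 24 * √(p:ℝ) / T ≤ 48 / √(p:ℝ) := by
      rw [div_le_div_iff₀ hTpos hs]
      nlinarith
    linarith
  have hlogLpos : 1 ≤ Real.log L := by
    refine hlogT.trans ?_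
    exact Real.log_le_log hTpos hL1
  have hloglogL : Real.log (Real.log L) ≤ Real.log (Real.log T) + 48 / √(p:ℝ) := by
    have h1 : Real.log (Real.log L) ≤ Real.log (Real.log T + 48 / √(p:ℝ)) :=
      Real.log_le_log (by linarith) hlogL
    have h2 : Real.log (Real.log T + 48 / √(p:ℝ)) ≤ Real.log (Real.log T) + 48 / √(p:ℝ) := by
      have h3 : Real.log T + 48 / √(p:ℝ) = Real.log T * (1 + 48 / √(p:ℝ) / Real.log T) := by
        field_simp
      have hpos : 0 < 48 / √(p:ℝ) := by positivity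
      rw [h3, Real.log_mul (by linarith) (by positivity)]
      have h4 := Real.log_le_sub_one_of_pos (show 0 < 1 + 48 / √(p:ℝ) / Real.log T by positivity)
      have h5 : 48 / √(p:ℝ) / Real.log T ≤ 48 / √(p:ℝ) := div_le_self hpos.le hlogT
      linarith
    linarith
  -- sigma
  have hsig : ((ArithmeticFunction.sigma 1 n : ℕ) : ℝ) =
      ∏ q ∈ (Finset.Ioc 0 p).filter Nat.Prime,
        ((ArithmeticFunction.sigma 1 (q ^ n.factorization q) : ℕ) : ℝ) := by
    rw [ArithmeticFunction.IsMultiplicative.multiplicative_factorization _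
      (ArithmeticFunction.isMultiplicative_sigma (k := 1)) hn0, Finsupp.prod,
      Nat.support_factorization, cab_log_sum hn0 hd]
    push_cast
    rfl
  have hsigpos : ∀ q ∈ (Finset.Ioc 0 p).filter Nat.Prime,
      ((ArithmeticFunction.sigma 1 (q ^ n.factorization q) : ℕ) : ℝ) ≠ 0 := by
    intro q hq
    simp only [Finset.mem_filter, Finset.mem_Ioc] at hq
    have : 0 < ArithmeticFunction.sigma 1 (q ^ n.factorization q) :=
      ArithmeticFunction.sigma_pos _ _ (pow_pos hq.1.1 _).ne'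
    exact_mod_cast this.ne'
  have hlogn : Real.log n = ∑ q ∈ (Finset.Ioc 0 p).filter Nat.Prime,
      (n.factorization q : ℝ) * Real.log q := by
    rw [Real.log_nat_eq_sum_factorization, Finsupp.sum, Nat.support_factorization,
      cab_log_sum hn0 hd]
  have hPr : Pr p = ∑ q ∈ (Finset.Ioc 0 p).filter Nat.Prime, -Real.log (1 - 1 / (q : ℝ)) := by
    simp [Pr]
  have hlogs : Pr p - 8 / √(p:ℝ) ≤
      Real.log ((ArithmeticFunction.sigma 1 n : ℕ) : ℝ) - L := by
    rw [hsig, Real.log_prod hsigpos, hL, hlogn, ← Finset.sum_sub_distrib]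
    have h1 : ∑ q ∈ (Finset.Ioc 0 p).filter Nat.Prime,
        (Real.log ((ArithmeticFunction.sigma 1 (q ^ n.factorization q) : ℕ) : ℝ) -
          (n.factorization q : ℝ) * Real.log q) = Pr p +
        ∑ q ∈ (Finset.Ioc 0 p).filter Nat.Prime,
          Real.log (1 - ((q:ℝ) ^ (n.factorization q + 1))⁻¹) := by
      rw [hPr, ← Finset.sum_add_distrib]
      refine Finset.sum_congr rfl fun q hq => ?_
      simp only [Finset.mem_filter] at hq
      exact cab_factor hq.2
    rw [h1]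
    have h2 : -(8 / √(p:ℝ)) ≤ ∑ q ∈ (Finset.Ioc 0 p).filter Nat.Prime,
          Real.log (1 - ((q:ℝ) ^ (n.factorization q + 1))⁻¹) := by
      have h3 : ∑ q ∈ (Finset.Ioc 0 p).filter Nat.Prime,
          (-2 * ((q:ℝ) ^ (n.factorization q + 1))⁻¹) ≤ ∑ q ∈ (Finset.Ioc 0 p).filter Nat.Prime,
          Real.log (1 - ((q:ℝ) ^ (n.factorization q + 1))⁻¹) := by
        refine Finset.sum_le_sum fun q hq => ?_
        simp only [Finset.mem_filter, Finset.mem_Ioc] at hq
        have hq2 : (2:ℝ) ≤ q := by exact_mod_cast hq.2.two_le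
        have hx : ((q:ℝ) ^ (n.factorization q + 1))⁻¹ ≤ 1 / 2 := by
          rw [one_div]
          refine inv_anti₀ (by norm_num) ?_
          calc (2:ℝ) ≤ q := hq2
            _ = (q:ℝ) ^ 1 := (pow_one _).symm
            _ ≤ (q:ℝ) ^ (n.factorization q + 1) := pow_le_pow_right₀ (by linarith) (by omega)
        have hx0 : 0 < ((q:ℝ) ^ (n.factorization q + 1))⁻¹ := by positivity
        set x := ((q:ℝ) ^ (n.factorization q + 1))⁻¹
        have h4 := Real.one_sub_inv_le_log_of_pos (show 0 < 1 - x by linarith)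
        refine le_trans ?_ h4
        have h5 : 1 - (1 - x)⁻¹ = -x / (1 - x) := by
          have : 1 - x ≠ 0 := by linarith
          field_simp
          ring
        rw [h5, le_div_iff₀ (by linarith)]
        nlinarith
      rw [← Finset.mul_sum] at h3
      have h6 : 8 / √(p:ℝ) = 2 * (4 / √(p:ℝ)) := by ring
      linarith
    linarith
  -- conclusion
  have hm : mar p = Pr p - Real.eulerMascheroniConstant - Real.log (Real.log T) := rfl
  have h56 : (56:ℝ) / √(p:ℝ) = 8 / √(p:ℝ) + 48 / √(p:ℝ) := by ring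
  have hfin : Real.eulerMascheroniConstant + L + Real.log (Real.log L) ≤
      Real.log ((ArithmeticFunction.sigma 1 n : ℕ) : ℝ) := by
    rw [hm] at hmar
    linarith
  have hnpos : (0:ℝ) < n := by exact_mod_cast hn1
  have hspos : (0:ℝ) < ((ArithmeticFunction.sigma 1 n : ℕ) : ℝ) := by
    have : 0 < ArithmeticFunction.sigma 1 n := ArithmeticFunction.sigma_pos _ _ hn0
    exact_mod_cast this
  have h7 := Real.exp_le_exp.2 hfin
  rw [Real.exp_log hspos, Real.exp_add, Real.exp_add, Real.exp_log hnpos,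
    Real.exp_log (by linarith)] at h7
  exact h7

end Pool.Agent.H424.RB
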