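import Pool.Agent.H424.RB.Spread
import Pool.Agent.H424.RB.CaB

/-! The criteria of Nicolas and Robin with exceptional sets. -/

set_option autoImplicit false

namespace Pool.Agent.H424.RB

open MeasureTheory Filter Topology Set

/-- `n / (e^γ φ(n) log log n)` for the primorial `n` of `p` -/
noncomputable def ratio (p : ℕ) : ℝ :=
  (primorial p : ℝ) / (Real.exp Real.eulerMascheroniConstant * (Nat.totient (primorial p) : ℝ) *
    Real.log (Real.log (primorial p)))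

theorem theta_primorial (p : ℕ) : Chebyshev.theta p = Real.log (primorial p) := by
  rw [Chebyshev.theta_eq_log_primorial, Nat.floor_natCast]

theorem log_theta_pos {p : ℕ} (hp : 3 ≤ p) : 0 < Real.log (Chebyshev.theta p) := by
  have h1 : Chebyshev.theta 3 ≤ Chebyshev.theta p := Chebyshev.theta_mono (by exact_mod_cast hp)
  rw [cnt2_theta_three] at h1
  have h2 : 1 < Real.log 6 := by
    rw [Real.lt_log_iff_exp_lt (by norm_num)]
    have := Real.exp_one_lt_d9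
    linarith
  exact Real.log_pos (by linarith)

theorem ratio_eq {p : ℕ} (hp : 3 ≤ p) : ratio p = Real.exp (mar p) := by
  have h1 := Key.log_ratio (n := primorial p) (primorial_pos p)
  have h2 : ∑ q ∈ (primorial p).primeFactors, Key.ell q = Pr p := by
    unfold Pr
    rw [primeFactors_primorial, Nat.floor_natCast]
    refine Finset.sum_congr ?_ fun q _ => rfl
    ext q
    simp only [Nat.mem_primesLE, Finset.mem_filter, Finset.mem_Ioc]
    constructor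
    · rintro ⟨h3, h4⟩
      exact ⟨⟨h4.pos, h3⟩, h4⟩
    · rintro ⟨⟨_, h3⟩, h4⟩
      exact ⟨h3, h4⟩
  rw [h2] at h1
  have hn : (0 : ℝ) < primorial p := by exact_mod_cast primorial_pos p
  have hφ : (0 : ℝ) < Nat.totient (primorial p) := by exact_mod_cast Nat.totient_pos.2 (primorial_pos p)
  have hl := log_theta_pos hp
  unfold ratio mar
  rw [theta_primorial] at hl ⊢
  rw [← h1, Real.exp_sub, Real.exp_sub, Real.exp_sub, Real.exp_log hn, Real.exp_log hφ, Real.exp_log hl]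
  field_simp

/-- `primeCount` and an inclusion up to finitely many primes -/
theorem primeCount_le {P Q : ℝ → Prop} (K : ℕ) (h : ∀ p : ℕ, K < p → p.Prime → P p → Q p) (X : ℕ) :
    primeCount P X ≤ primeCount Q X + K := by
  classical
  unfold primeCount
  have h1 : ((Finset.Icc 1 X).filter fun p : ℕ => p.Prime ∧ P p) ⊆
      ((Finset.Icc 1 X).filter fun p : ℕ => p.Prime ∧ Q p) ∪ Finset.Icc 1 K := by
    intro p hp
    rw [Finset.mem_filter, Finset.mem_Icc] at hp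
    rw [Finset.mem_union, Finset.mem_filter, Finset.mem_Icc, Finset.mem_Icc]
    by_cases hK : K < p
    · exact Or.inl ⟨hp.1, hp.2.1, h p hK hp.2.1 hp.2.2⟩
    · exact Or.inr ⟨hp.1.1, not_lt.1 hK⟩
  refine (Finset.card_le_card h1).trans ((Finset.card_union_le _ _).trans ?_)
  simp

/-- few primes and many primes exclude each other -/
theorem few_many {E F : ℕ → ℕ} {K : ℕ} (hEF : ∀ X, F X ≤ E X + K) {δ δ' : ℝ} (h : δ' < δ) (h1 : δ' < 1)
    (hE : ∀ᶠ X : ℕ in atTop, (E X : ℝ) ≤ (X : ℝ) ^ (1 - δ)) :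
    ¬ ∃ᶠ X : ℕ in atTop, (X : ℝ) ^ (1 - δ') < F X := by
  rw [not_frequently]
  have e1 := tendsto_natCast_atTop_atTop.eventually (ev_rpow (2 : ℝ) (show 1 - δ < 1 - δ' by linarith))
  have e2 := tendsto_natCast_atTop_atTop.eventually (ev_rpow (2 * K : ℝ) (show 0 < 1 - δ' by linarith))
  filter_upwards [hE, e1, e2] with X h3 h4 h5
  rw [Real.rpow_zero, mul_one] at h5
  have h6 : (F X : ℝ) ≤ E X + K := by exact_mod_cast hEF X
  linarith

theorem exp_neg_le_half {x : ℝ} (h0 : 0 ≤ x) (h1 : x ≤ 1) : Real.exp (-x) ≤ 1 - x / 2 := by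
  have h2 := Real.add_one_le_exp x
  rw [Real.exp_neg, inv_le_comm₀ (Real.exp_pos x) (by linarith)]
  refine le_trans ?_ h2
  rw [inv_le_comm₀ (by linarith) (by linarith), inv_le_iff_one_le_mul₀ (by linarith)]
  nlinarith

theorem exp_le_two {x : ℝ} (h0 : 0 ≤ x) (h1 : x ≤ 1) : Real.exp x ≤ 1 + 2 * x := by
  have h2 := abs_le.1 (Real.abs_exp_sub_one_sub_id_le (x := x) (by rw [abs_of_nonneg h0]; exact h1))
  nlinarith

/-- large negative values of the ratio at many primes -/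
theorem ratio_neg {b : ℝ} (hb : 1 / 2 ≤ b) {ρ : ℂ} (hρ : riemannZeta ρ = 0) (hbρ : b < ρ.re) {δ : ℝ} (hδ : 0 < δ)
    (hδ1 : δ ≤ 1) :
    ∃ (K : ℕ) (F : ℕ → ℕ), (∀ X, F X ≤ primeCount (fun p => ratio ⌊p⌋₊ < 1 - p ^ (b - 1)) X + K) ∧
      ∃ᶠ X : ℕ in atTop, (X : ℝ) ^ (1 - δ) < F X := by
  have hρ1 : ρ.re < 1 := by
    by_contra h
    exact riemannZeta_ne_zero_of_one_le_re (not_lt.1 h) hρ
  set b' : ℝ := (b + ρ.re) / 2 with hb'
  have hev := (ev_rpow 4 (show b - 1 < b' - 1 by linarith)).and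
    ((ev_rpow 1 (show b' - 1 < 0 by linarith)).and (eventually_ge_atTop (3 : ℝ)))
  obtain ⟨Y, hY⟩ := eventually_atTop.1 hev
  refine ⟨⌈Y⌉₊, _, fun X => primeCount_le ⌈Y⌉₊ (P := fun p => mar p ≤ -(p ^ (b' - 1))) ?_ X,
    many_neg (by linarith) hρ (by linarith) hδ hδ1⟩
  intro p hK hp hm
  obtain ⟨h1, h2, h3⟩ := hY p ((Nat.le_ceil Y).trans (by exact_mod_cast hK.le))
  have hp3 : 3 ≤ p := by exact_mod_cast h3
  rw [Real.rpow_zero, one_mul] at h2
  have hp0 : (0 : ℝ) < p := by linarith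
  have h4 : 0 < (p : ℝ) ^ (b - 1) := Real.rpow_pos_of_pos hp0 _
  show ratio ⌊(p : ℝ)⌋₊ < 1 - (p : ℝ) ^ (b - 1)
  rw [Nat.floor_natCast, ratio_eq hp3]
  have h5 : Real.exp (mar p) ≤ Real.exp (-((p : ℝ) ^ (b' - 1))) := Real.exp_le_exp.2 hm
  have h6 := exp_neg_le_half (x := (p : ℝ) ^ (b' - 1)) (by linarith) h2
  linarith

/-- large positive values of the ratio at many primes -/
theorem ratio_pos {b : ℝ} (hb : 1 / 2 ≤ b) {ρ : ℂ} (hρ : riemannZeta ρ = 0) (hbρ : b < ρ.re) {δ : ℝ} (hδ : 0 < δ)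
    (hδ1 : δ ≤ 1) :
    ∃ (K : ℕ) (F : ℕ → ℕ), (∀ X, F X ≤ primeCount (fun p => 1 + p ^ (b - 1) < ratio ⌊p⌋₊) X + K) ∧
      ∃ᶠ X : ℕ in atTop, (X : ℝ) ^ (1 - δ) < F X := by
  have hρ1 : ρ.re < 1 := by
    by_contra h
    exact riemannZeta_ne_zero_of_one_le_re (not_lt.1 h) hρ
  set b' : ℝ := (b + ρ.re) / 2 with hb'
  have hev := (ev_rpow 4 (show b - 1 < b' - 1 by linarith)).and
    ((ev_rpow 1 (show b' - 1 < 0 by linarith)).and (eventually_ge_atTop (3 : ℝ)))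
  obtain ⟨Y, hY⟩ := eventually_atTop.1 hev
  refine ⟨⌈Y⌉₊, _, fun X => primeCount_le ⌈Y⌉₊ (P := fun p => p ^ (b' - 1) ≤ mar p) ?_ X,
    many_pos (by linarith) hρ (by linarith) hδ hδ1⟩
  intro p hK hp hm
  obtain ⟨h1, h2, h3⟩ := hY p ((Nat.le_ceil Y).trans (by exact_mod_cast hK.le))
  have hp3 : 3 ≤ p := by exact_mod_cast h3
  have hp0 : (0 : ℝ) < p := by linarith
  have h4 : 0 < (p : ℝ) ^ (b - 1) := Real.rpow_pos_of_pos hp0 _
  show 1 + (p : ℝ) ^ (b - 1) < ratio ⌊(p : ℝ)⌋₊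
  rw [Nat.floor_natCast, ratio_eq hp3]
  have hm' : (p : ℝ) ^ (b' - 1) ≤ mar p := hm
  have h6 := Real.add_one_le_exp (mar p)
  linarith

/-- two-sided bound for `mar` in the case of a zero-free half-plane -/
theorem mar_free {θ σ : ℝ} (h0 : 1 / 2 ≤ θ) (hz : ∀ s : ℂ, θ < s.re → riemannZeta s ≠ 0) (h : θ < σ) (h1 : σ < 1) :
    ∃ C y1 : ℝ, 0 < C ∧ ∀ y : ℝ, y1 ≤ y → |mar y| ≤ C * y ^ (σ - 1) := by
  obtain ⟨C, hC, hC1⟩ := theta_free h0 hz h (by linarith)
  obtain ⟨C', y1, hC', hup⟩ := mar_upper.1 σ C (by linarith) h1 hC hC1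
  obtain ⟨Y, hY4, hlow⟩ := mar_ge_K
  have hσ0 : 0 < 1 - σ := by linarith
  refine ⟨C' + C / (1 - σ) + 2, max (max y1 Y) (Real.exp 4), by positivity, fun y hy => ?_⟩
  have hy1 : y1 ≤ y := ((le_max_left _ _).trans (le_max_left _ _)).trans hy
  have hyY : Y ≤ y := ((le_max_right _ _).trans (le_max_left _ _)).trans hy
  have hy4 : Real.exp 4 ≤ y := (le_max_right _ _).trans hy
  have hy0 : 0 < y := (Real.exp_pos _).trans_le hy4
  have hye : 4 ≤ Real.log y := (Real.le_log_iff_exp_le hy0).2 hy4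
  have hyy : 4 ≤ y := hY4.trans hyY
  have hp : 0 < y ^ (σ - 1) := Real.rpow_pos_of_pos hy0 _
  have hint : IntegrableOn (fun t : ℝ => C * t ^ (σ - 2)) (Ioi y) :=
    (integrableOn_Ioi_rpow_of_lt (by linarith) hy0).const_mul C
  have hK : |Kt y| ≤ C / (1 - σ) * y ^ (σ - 1) := by
    have e : ∫ t in Ioi y, C * t ^ (σ - 2) = C / (1 - σ) * y ^ (σ - 1) := by
      rw [integral_const_mul, integral_Ioi_rpow_of_lt (by linarith) hy0]
      have e1 : σ - 2 + 1 = -(1 - σ) := by ring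
      have e2 : σ - 1 = -(1 - σ) := by ring
      rw [e1, e2, neg_div_neg_eq]
      ring
    unfold Kt
    rw [← Real.norm_eq_abs, ← e]
    refine MeasureTheory.norm_integral_le_of_norm_le hint ?_
    filter_upwards [ae_restrict_mem measurableSet_Ioi] with t ht
    have ht0 : 0 < t := hy0.trans ht
    have hlt : 2 ≤ Real.log t := by
      have := Real.log_le_log hy0 (le_of_lt ht)
      linarith
    rw [Real.norm_eq_abs]
    refine (J599_kt_bound ht0 hlt (hC1 t (by linarith [show y < t from ht]))).trans (le_of_eq ?_)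
    rw [Real.rpow_sub ht0, mul_div_assoc]
    norm_num
  have hu := hup y hy1
  have hl := hlow y hyY
  have hK' := abs_le.1 hK
  have h2y : 2 / y ≤ 2 * y ^ (σ - 1) := by
    rw [div_eq_mul_inv, ← Real.rpow_neg_one]
    gcongr
    · linarith
    · linarith
  have hc0 : 0 ≤ C / (1 - σ) := by positivity
  rw [abs_le]
  constructor
  · have : 0 ≤ C' * y ^ (σ - 1) := by positivity
    nlinarith
  · have : 0 ≤ C / (1 - σ) * y ^ (σ - 1) := by positivity
    nlinarith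

/-- the ratio is close to `1` for all large primes, in the case of a zero-free half-plane -/
theorem ratio_free {θ b : ℝ} (h0 : 1 / 2 ≤ θ) (h1 : θ < 1) (hz : ∀ s : ℂ, θ < s.re → riemannZeta s ≠ 0) (h : θ < b) :
    ∃ K : ℕ, ∀ p : ℕ, K < p → |ratio p - 1| ≤ (p : ℝ) ^ (b - 1) := by
  set σ : ℝ := min ((θ + b) / 2) ((1 + θ) / 2) with hσ
  have hσ1 : θ < σ := by rw [hσ]; exact lt_min (by linarith) (by linarith)
  have hσ2 : σ ≤ (θ + b) / 2 := min_le_left _ _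
  have hσ3 : σ ≤ (1 + θ) / 2 := min_le_right _ _
  obtain ⟨C, y1, hC, hy1⟩ := mar_free h0 hz hσ1 (by linarith)
  have hev := (ev_rpow (2 * C) (show σ - 1 < b - 1 by linarith)).and
    ((ev_rpow C (show σ - 1 < 0 by linarith)).and (eventually_ge_atTop (max y1 3)))
  obtain ⟨Y, hY⟩ := eventually_atTop.1 hev
  refine ⟨⌈Y⌉₊, fun p hK => ?_⟩
  obtain ⟨h2, h3, h4⟩ := hY p ((Nat.le_ceil Y).trans (by exact_mod_cast hK.le))
  have h5 : (3 : ℝ) ≤ p := (le_max_right _ _).trans h4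
  have hp3 : 3 ≤ p := by exact_mod_cast h5
  have hp0 : (0 : ℝ) < p := by linarith
  have h6 := hy1 p ((le_max_left _ _).trans h4)
  rw [Real.rpow_zero] at h3
  have h7 := abs_le.1 h6
  have h8 : 0 < (p : ℝ) ^ (σ - 1) := Real.rpow_pos_of_pos hp0 _
  rw [ratio_eq hp3, abs_le]
  constructor
  · have := Real.add_one_le_exp (mar p)
    nlinarith
  · have h9 : Real.exp (mar p) ≤ Real.exp (C * (p : ℝ) ^ (σ - 1)) := Real.exp_le_exp.2 h7.2
    have h10 := exp_le_two (x := C * (p : ℝ) ^ (σ - 1)) (by positivity) h3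
    linarith

/-- a set of primes with bounded elements has few elements -/
theorem few_of_bounded {P : ℝ → Prop} {K : ℕ} (h : ∀ p : ℕ, K < p → ¬ P p) :
    ∀ᶠ X : ℕ in atTop, (primeCount P X : ℝ) ≤ (X : ℝ) ^ (1 - (1 / 2 : ℝ)) := by
  have e := tendsto_natCast_atTop_atTop.eventually (ev_rpow (K : ℝ) (show (0 : ℝ) < 1 - 1 / 2 by norm_num))
  filter_upwards [e] with X h1
  rw [Real.rpow_zero, mul_one] at h1
  have h2 : primeCount P X ≤ K := by
    have := primeCount_le (P := P) (Q := fun _ => False) K (fun p hp _ hP => h p hp hP) X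
    have e0 : primeCount (fun _ => False) X = 0 := by
      unfold primeCount
      simp
    omega
  have h3 : (primeCount P X : ℝ) ≤ K := by exact_mod_cast h2
  linarith

theorem nicolas_below {θ : ℝ} (h0 : 1 / 2 ≤ θ) (h1 : θ < 1) :
    (∀ s : ℂ, θ < s.re → riemannZeta s ≠ 0) ↔ ∀ ε : ℝ, 0 < ε → ∃ δ : ℝ, 0 < δ ∧ ∀ᶠ X : ℕ in atTop,
      (primeCount (fun p => ratio ⌊p⌋₊ < 1 - p ^ (θ - 1 + ε)) X : ℝ) ≤ (X : ℝ) ^ (1 - δ) := by
  constructor
  · intro hz ε hε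
    obtain ⟨K, hK⟩ := ratio_free h0 h1 hz (show θ < θ + ε by linarith)
    refine ⟨1 / 2, by norm_num, few_of_bounded (K := K) fun p hp hP => ?_⟩
    have h2 := (abs_le.1 (hK p hp)).1
    have hP' : ratio ⌊(p : ℝ)⌋₊ < 1 - (p : ℝ) ^ (θ - 1 + ε) := hP
    rw [Nat.floor_natCast, show θ - 1 + ε = θ + ε - 1 by ring] at hP'
    linarith
  · intro h s hs h2
    obtain ⟨δ, hδ, hE⟩ := h ((s.re - θ) / 2) (by linarith)
    set δ' : ℝ := min (δ / 2) (1 / 2) with hδ'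
    have hδ'0 : 0 < δ' := lt_min (by linarith) (by norm_num)
    have hδ'1 : δ' ≤ δ / 2 := min_le_left _ _
    have hδ'2 : δ' ≤ 1 / 2 := min_le_right _ _
    obtain ⟨K, F, hF, hFX⟩ := ratio_neg (b := θ + (s.re - θ) / 2) (by linarith) h2 (by linarith) hδ'0 (by linarith)
    rw [show θ - 1 + (s.re - θ) / 2 = θ + (s.re - θ) / 2 - 1 by ring] at hE
    exact few_many hF (by linarith) (by linarith) hE hFX

theorem nicolas_above {θ : ℝ} (h0 : 1 / 2 ≤ θ) (h1 : θ < 1) :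
    (∀ s : ℂ, θ < s.re → riemannZeta s ≠ 0) ↔ ∀ ε : ℝ, 0 < ε → ∃ δ : ℝ, 0 < δ ∧ ∀ᶠ X : ℕ in atTop,
      (primeCount (fun p => 1 + p ^ (θ - 1 + ε) < ratio ⌊p⌋₊) X : ℝ) ≤ (X : ℝ) ^ (1 - δ) := by
  constructor
  · intro hz ε hε
    obtain ⟨K, hK⟩ := ratio_free h0 h1 hz (show θ < θ + ε by linarith)
    refine ⟨1 / 2, by norm_num, few_of_bounded (K := K) fun p hp hP => ?_⟩
    have h2 := (abs_le.1 (hK p hp)).2
    have hP' : 1 + (p : ℝ) ^ (θ - 1 + ε) < ratio ⌊(p : ℝ)⌋₊ := hP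
    rw [Nat.floor_natCast, show θ - 1 + ε = θ + ε - 1 by ring] at hP'
    linarith
  · intro h s hs h2
    obtain ⟨δ, hδ, hE⟩ := h ((s.re - θ) / 2) (by linarith)
    set δ' : ℝ := min (δ / 2) (1 / 2) with hδ'
    have hδ'0 : 0 < δ' := lt_min (by linarith) (by norm_num)
    have hδ'1 : δ' ≤ δ / 2 := min_le_left _ _
    have hδ'2 : δ' ≤ 1 / 2 := min_le_right _ _
    obtain ⟨K, F, hF, hFX⟩ := ratio_pos (b := θ + (s.re - θ) / 2) (by linarith) h2 (by linarith) hδ'0 (by linarith)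
    rw [show θ - 1 + (s.re - θ) / 2 = θ + (s.re - θ) / 2 - 1 by ring] at hE
    exact few_many hF (by linarith) (by linarith) hE hFX

open Classical in
/-- the number of the colossally abundant `n ≤ N` with `σ(n) ≥ e^γ n log log n` -/
noncomputable def caExceptions (N : ℕ) : ℕ :=
  ((Finset.Icc 1 N).filter fun n : ℕ => IsCA n ∧
    Real.exp Real.eulerMascheroniConstant * n * Real.log (Real.log n) ≤
      (ArithmeticFunction.sigma 1 n : ℝ)).card

/-- Robin's criterion on colossally abundant numbers with exceptions -/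
theorem robin_ca {δ : ℝ} (hδ : 0 < δ)
    (hE : ∀ᶠ N : ℕ in atTop, (caExceptions N : ℝ) ≤ Real.log N ^ (1 - δ)) :
    ∀ s : ℂ, 1 / 2 < s.re → riemannZeta s ≠ 0 := by
  classical
  intro s hs h2
  set δ' : ℝ := min (δ / 2) (1 / 2) with hδ'
  have hδ'0 : 0 < δ' := lt_min (by linarith) (by norm_num)
  have hδ'1 : δ' ≤ δ / 2 := min_le_left _ _
  have hδ'2 : δ' ≤ 1 / 2 := min_le_right _ _
  set b : ℝ := (1 / 2 + s.re) / 2 with hb
  have hmany := many_pos (θ := b) (by linarith) h2 (by linarith) hδ'0 (by linarith)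
  obtain ⟨C0, y1, hC0, hca⟩ := ca_low
  have hev := (ev_rpow C0 (show (1 : ℝ) / 2 - 1 < b - 1 by linarith)).and (eventually_ge_atTop (max y1 1))
  obtain ⟨Y, hY⟩ := eventually_atTop.1 hev
  set K : ℕ := ⌈Y⌉₊ with hK
  have key : ∀ X : ℕ, primeCount (fun p => p ^ (b - 1) ≤ mar p) X ≤ caExceptions ⌊Real.exp (3 * X)⌋₊ + K := by
    intro X
    have h3 : ∀ p : ℕ, K < p → p.Prime → (p : ℝ) ^ (b - 1) ≤ mar p → ∃ n : ℕ, IsCA n ∧
        (∀ q : ℕ, q.Prime → (q ∣ n ↔ q ≤ p)) ∧ Real.log n ≤ 3 * p ∧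
        Real.exp Real.eulerMascheroniConstant * n * Real.log (Real.log n) ≤
          (ArithmeticFunction.sigma 1 n : ℝ) := by
      intro p hp hpp hm
      obtain ⟨h4, h5⟩ := hY p ((Nat.le_ceil Y).trans (by exact_mod_cast hp.le))
      have hp1 : (1 : ℝ) ≤ p := (le_max_right _ _).trans h5
      have hp0 : (0 : ℝ) < p := by linarith
      refine hca p hpp ((le_max_left _ _).trans h5) (le_trans (le_of_eq ?_) (h4.trans hm))
      rw [div_eq_mul_inv, Real.sqrt_eq_rpow, ← Real.rpow_neg hp0.le]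
      norm_num
    choose! f hf1 hf2 hf3 hf4 using h3
    set S := (Finset.Icc 1 X).filter fun p : ℕ => p.Prime ∧ (p : ℝ) ^ (b - 1) ≤ mar p with hS
    have hSc : primeCount (fun p => p ^ (b - 1) ≤ mar p) X = S.card := by
      unfold primeCount
      rw [hS]
    have h4 : S ⊆ (S.filter fun p => K < p) ∪ Finset.Icc 1 K := by
      intro p hp
      rw [Finset.mem_union, Finset.mem_filter, Finset.mem_Icc]
      by_cases h : K < p
      · exact Or.inl ⟨hp, h⟩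
      · have : 1 ≤ p := by
          rw [hS, Finset.mem_filter, Finset.mem_Icc] at hp
          exact hp.1.1
        exact Or.inr ⟨this, not_lt.1 h⟩
    have h5 : (S.filter fun p => K < p).card ≤ caExceptions ⌊Real.exp (3 * X)⌋₊ := by
      unfold caExceptions
      refine Finset.card_le_card_of_injOn f ?_ ?_
      · intro p hp
        rw [Finset.mem_coe, Finset.mem_filter, hS, Finset.mem_filter, Finset.mem_Icc] at hp
        obtain ⟨⟨⟨hp1, hpX⟩, hpp, hm⟩, hpK⟩ := hp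
        rw [Finset.mem_coe, Finset.mem_filter, Finset.mem_Icc]
        have hn1 : 1 ≤ f p := (hf1 p hpK hpp hm).1
        refine ⟨⟨hn1, ?_⟩, hf1 p hpK hpp hm, hf4 p hpK hpp hm⟩
        refine Nat.le_floor ?_
        have h6 := hf3 p hpK hpp hm
        have hn0 : (0 : ℝ) < f p := by exact_mod_cast hn1
        rw [← Real.log_le_log_iff hn0 (Real.exp_pos _), Real.log_exp]
        have : (p : ℝ) ≤ X := by exact_mod_cast hpX
        linarith
      · intro p hp q hq hpq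
        rw [Finset.mem_coe, Finset.mem_filter, hS, Finset.mem_filter, Finset.mem_Icc] at hp hq
        obtain ⟨⟨⟨hp1, hpX⟩, hpp, hm⟩, hpK⟩ := hp
        obtain ⟨⟨⟨hq1, hqX⟩, hqq, hm'⟩, hqK⟩ := hq
        have hpq' : f p = f q := hpq
        have e1 : p ≤ q := by
          rw [← hf2 q hqK hqq hm' p hpp, ← hpq', hf2 p hpK hpp hm p hpp]
        have e2 : q ≤ p := by
          rw [← hf2 p hpK hpp hm q hqq, hpq', hf2 q hqK hqq hm' q hqq]
        exact le_antisymm e1 e2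
    rw [hSc]
    refine (Finset.card_le_card h4).trans ((Finset.card_union_le _ _).trans ?_)
    simp only [Nat.card_Icc, Nat.add_sub_cancel]
    omega
  have hN : Tendsto (fun X : ℕ => ⌊Real.exp (3 * X)⌋₊) atTop atTop := by
    refine tendsto_nat_floor_atTop.comp (Real.tendsto_exp_atTop.comp ?_)
    exact (tendsto_natCast_atTop_atTop (R := ℝ)).const_mul_atTop (by norm_num : (0:ℝ) < 3)
  have hE' := hN.eventually hE
  have e1 := (tendsto_natCast_atTop_atTop (R := ℝ)).eventually (ev_rpow (6 : ℝ) (show 1 - δ < 1 - δ' by linarith))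
  have e2 := (tendsto_natCast_atTop_atTop (R := ℝ)).eventually (ev_rpow (2 * K + 6 : ℝ) (show 0 < 1 - δ' by linarith))
  have hnot : ∀ᶠ X : ℕ in atTop, ¬ (X : ℝ) ^ (1 - δ') < primeCount (fun p => p ^ (b - 1) ≤ mar p) X := by
    filter_upwards [hE', e1, e2, eventually_ge_atTop 1] with X h3 h4 h5 hX1
    rw [Real.rpow_zero, mul_one] at h5
    have hX : (1 : ℝ) ≤ X := by exact_mod_cast hX1
    have h6 : (primeCount (fun p => p ^ (b - 1) ≤ mar p) X : ℝ) ≤ caExceptions ⌊Real.exp (3 * X)⌋₊ + K := by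
      exact_mod_cast key X
    have hexp1 : 1 ≤ Real.exp (3 * X) := Real.one_le_exp (by positivity)
    have hfl1 : (1 : ℝ) ≤ (⌊Real.exp (3 * X)⌋₊ : ℝ) := by
      have : 1 ≤ ⌊Real.exp (3 * X)⌋₊ := Nat.le_floor (by exact_mod_cast hexp1)
      exact_mod_cast this
    have hlog0 : 0 ≤ Real.log (⌊Real.exp (3 * X)⌋₊ : ℝ) := Real.log_nonneg hfl1
    have hlog : Real.log (⌊Real.exp (3 * X)⌋₊ : ℝ) ≤ 3 * X := by
      have := Real.log_le_log (by linarith) (Nat.floor_le (Real.exp_pos (3 * (X : ℝ))).le)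
      rwa [Real.log_exp] at this
    have h7 : Real.log (⌊Real.exp (3 * X)⌋₊ : ℝ) ^ (1 - δ) ≤ 3 * (X : ℝ) ^ (1 - δ) + 3 := by
      rcases le_or_gt δ 1 with hd | hd
      · calc Real.log (⌊Real.exp (3 * X)⌋₊ : ℝ) ^ (1 - δ) ≤ (3 * (X : ℝ)) ^ (1 - δ) :=
              Real.rpow_le_rpow hlog0 hlog (by linarith)
          _ = 3 ^ (1 - δ) * (X : ℝ) ^ (1 - δ) := Real.mul_rpow (by norm_num) (by linarith)
          _ ≤ 3 * (X : ℝ) ^ (1 - δ) := by
            gcongr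
            calc (3 : ℝ) ^ (1 - δ) ≤ 3 ^ (1 : ℝ) :=
                  Real.rpow_le_rpow_of_exponent_le (by norm_num) (by linarith)
              _ = 3 := Real.rpow_one 3
          _ ≤ _ := by linarith
      · have h8 : 1 ≤ Real.log (⌊Real.exp (3 * X)⌋₊ : ℝ) := by
          have h9 : Real.exp (3 * X) - 1 < (⌊Real.exp (3 * X)⌋₊ : ℝ) := by
            have := Nat.lt_floor_add_one (Real.exp (3 * (X : ℝ)))
            linarith
          have h10 := Real.add_one_le_exp (3 * (X : ℝ))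
          have h11 := Real.exp_one_lt_d9
          rw [Real.le_log_iff_exp_le (by linarith)]
          linarith
        have h9 : Real.log (⌊Real.exp (3 * X)⌋₊ : ℝ) ^ (1 - δ) ≤ 1 :=
          Real.rpow_le_one_of_one_le_of_nonpos h8 (by linarith)
        have h10 : 0 ≤ (X : ℝ) ^ (1 - δ) := by positivity
        linarith
    have h8 : 0 ≤ (X : ℝ) ^ (1 - δ) := by positivity
    rw [not_lt]
    linarith
  exact hmany hnot

/-- the half-plane criterion, from below -/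
theorem nicolas_half_below :
    (∃ σ : ℝ, σ < 1 ∧ ∀ s : ℂ, σ < s.re → riemannZeta s ≠ 0) ↔ ∃ δ : ℝ, 0 < δ ∧ ∀ᶠ X : ℕ in atTop,
      (primeCount (fun p => ratio ⌊p⌋₊ < 1 - p ^ (-δ)) X : ℝ) ≤ (X : ℝ) ^ (1 - δ) := by
  constructor
  · rintro ⟨σ, hσ, hz⟩
    set θ : ℝ := max σ (1 / 2) with hθ
    have hθ1 : θ < 1 := max_lt hσ (by norm_num)
    have hz' : ∀ s : ℂ, θ < s.re → riemannZeta s ≠ 0 := fun s hs => hz s ((le_max_left _ _).trans_lt hs)
    have hθ2 : 1 / 2 ≤ θ := le_max_right _ _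
    obtain ⟨K, hK⟩ := ratio_free hθ2 hθ1 hz' (show θ < (1 + θ) / 2 by linarith)
    refine ⟨(1 - θ) / 2, by linarith, ?_⟩
    have := few_of_bounded (P := fun p => ratio ⌊p⌋₊ < 1 - p ^ (-((1 - θ) / 2))) (K := K) fun p hp hP => by
      have h2 := (abs_le.1 (hK p hp)).1
      have hP' : ratio ⌊(p : ℝ)⌋₊ < 1 - (p : ℝ) ^ (-((1 - θ) / 2)) := hP
      rw [Nat.floor_natCast, show -((1 - θ) / 2) = (1 + θ) / 2 - 1 by ring] at hP'
      linarith
    filter_upwards [this, eventually_ge_atTop 1] with X h1 hX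
    refine h1.trans (Real.rpow_le_rpow_of_exponent_le (by exact_mod_cast hX) (by linarith))
  · rintro ⟨δ, hδ, hE⟩
    set δ₁ : ℝ := min δ (1 / 2) with hδ₁
    have hδ₁0 : 0 < δ₁ := lt_min hδ (by norm_num)
    have hδ₁1 : δ₁ ≤ δ := min_le_left _ _
    have hδ₁2 : δ₁ ≤ 1 / 2 := min_le_right _ _
    refine ⟨1 - δ₁, by linarith, fun s hs h2 => ?_⟩
    obtain ⟨K, F, hF, hFX⟩ := ratio_neg (b := 1 - δ₁) (by linarith) h2 (by linarith)
      (show 0 < δ₁ / 2 by linarith) (by linarith)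
    refine few_many (K := K + 1) (fun X => (hF X).trans ?_) (show δ₁ / 2 < δ by linarith) (by linarith) hE hFX
    have := primeCount_le (P := fun p => ratio ⌊p⌋₊ < 1 - p ^ (1 - δ₁ - 1))
      (Q := fun p => ratio ⌊p⌋₊ < 1 - p ^ (-δ)) 1 (fun p hp _ hP => by
        have hp1 : (1 : ℝ) ≤ p := by exact_mod_cast hp.le
        have h3 : (p : ℝ) ^ (-δ) ≤ (p : ℝ) ^ (1 - δ₁ - 1) :=
          Real.rpow_le_rpow_of_exponent_le hp1 (by linarith)
        have hP' : ratio ⌊(p : ℝ)⌋₊ < 1 - (p : ℝ) ^ (1 - δ₁ - 1) := hP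
        show ratio ⌊(p : ℝ)⌋₊ < 1 - (p : ℝ) ^ (-δ)
        linarith) X
    omega

/-- the half-plane criterion, from above -/
theorem nicolas_half_above :
    (∃ σ : ℝ, σ < 1 ∧ ∀ s : ℂ, σ < s.re → riemannZeta s ≠ 0) ↔ ∃ δ : ℝ, 0 < δ ∧ ∀ᶠ X : ℕ in atTop,
      (primeCount (fun p => 1 + p ^ (-δ) < ratio ⌊p⌋₊) X : ℝ) ≤ (X : ℝ) ^ (1 - δ) := by
  constructor
  · rintro ⟨σ, hσ, hz⟩
    set θ : ℝ := max σ (1 / 2) with hθ
    have hθ1 : θ < 1 := max_lt hσ (by norm_num)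
    have hz' : ∀ s : ℂ, θ < s.re → riemannZeta s ≠ 0 := fun s hs => hz s ((le_max_left _ _).trans_lt hs)
    have hθ2 : 1 / 2 ≤ θ := le_max_right _ _
    obtain ⟨K, hK⟩ := ratio_free hθ2 hθ1 hz' (show θ < (1 + θ) / 2 by linarith)
    refine ⟨(1 - θ) / 2, by linarith, ?_⟩
    have := few_of_bounded (P := fun p => 1 + p ^ (-((1 - θ) / 2)) < ratio ⌊p⌋₊) (K := K) fun p hp hP => by
      have h2 := (abs_le.1 (hK p hp)).2
      have hP' : 1 + (p : ℝ) ^ (-((1 - θ) / 2)) < ratio ⌊(p : ℝ)⌋₊ := hP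
      rw [Nat.floor_natCast, show -((1 - θ) / 2) = (1 + θ) / 2 - 1 by ring] at hP'
      linarith
    filter_upwards [this, eventually_ge_atTop 1] with X h1 hX
    refine h1.trans (Real.rpow_le_rpow_of_exponent_le (by exact_mod_cast hX) (by linarith))
  · rintro ⟨δ, hδ, hE⟩
    set δ₁ : ℝ := min δ (1 / 2) with hδ₁
    have hδ₁0 : 0 < δ₁ := lt_min hδ (by norm_num)
    have hδ₁1 : δ₁ ≤ δ := min_le_left _ _
    have hδ₁2 : δ₁ ≤ 1 / 2 := min_le_right _ _
    refine ⟨1 - δ₁, by linarith, fun s hs h2 => ?_⟩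
    obtain ⟨K, F, hF, hFX⟩ := ratio_pos (b := 1 - δ₁) (by linarith) h2 (by linarith)
      (show 0 < δ₁ / 2 by linarith) (by linarith)
    refine few_many (K := K + 1) (fun X => (hF X).trans ?_) (show δ₁ / 2 < δ by linarith) (by linarith) hE hFX
    have := primeCount_le (P := fun p => 1 + p ^ (1 - δ₁ - 1) < ratio ⌊p⌋₊)
      (Q := fun p => 1 + p ^ (-δ) < ratio ⌊p⌋₊) 1 (fun p hp _ hP => by
        have hp1 : (1 : ℝ) ≤ p := by exact_mod_cast hp.le
        have h3 : (p : ℝ) ^ (-δ) ≤ (p : ℝ) ^ (1 - δ₁ - 1) :=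
          Real.rpow_le_rpow_of_exponent_le hp1 (by linarith)
        have hP' : 1 + (p : ℝ) ^ (1 - δ₁ - 1) < ratio ⌊(p : ℝ)⌋₊ := hP
        show 1 + (p : ℝ) ^ (-δ) < ratio ⌊(p : ℝ)⌋₊
        linarith) X
    omega

/-- Nicolas' criterion with exceptions -/
theorem nicolas_rh {δ : ℝ} (hδ : 0 < δ)
    (hE : ∀ᶠ X : ℕ in atTop, (primeCount (fun p => ratio ⌊p⌋₊ ≤ 1) X : ℝ) ≤ (X : ℝ) ^ (1 - δ)) :
    ∀ s : ℂ, 1 / 2 < s.re → riemannZeta s ≠ 0 := by
  intro s hs h2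
  set δ' : ℝ := min (δ / 2) (1 / 2) with hδ'
  have hδ'0 : 0 < δ' := lt_min (by linarith) (by norm_num)
  have hδ'1 : δ' ≤ δ / 2 := min_le_left _ _
  have hδ'2 : δ' ≤ 1 / 2 := min_le_right _ _
  obtain ⟨K, F, hF, hFX⟩ := ratio_neg (b := 1 / 2) le_rfl h2 hs hδ'0 (by linarith)
  refine few_many (K := K + 0) (fun X => (hF X).trans ?_) (by linarith) (by linarith) hE hFX
  have := primeCount_le (P := fun p => ratio ⌊p⌋₊ < 1 - p ^ ((1 : ℝ) / 2 - 1)) (Q := fun p => ratio ⌊p⌋₊ ≤ 1) 0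
    (fun p hp _ hP => by
      have : (0 : ℝ) ≤ (p : ℝ) ^ ((1 : ℝ) / 2 - 1) := by positivity
      have hP' : ratio ⌊(p : ℝ)⌋₊ < 1 - (p : ℝ) ^ ((1 : ℝ) / 2 - 1) := hP
      show ratio ⌊(p : ℝ)⌋₊ ≤ 1
      linarith) X
  omega

end Pool.Agent.H424.RB
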