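import Mathlib

/-!
# Exceptions to Robin's inequality and large values of `n / φ(n)`: definitions

* `Pr y = ∑_{p ≤ y} -log (1 - 1/p)`, the sum over primes;
* `mar y = Pr y - γ - log log θ(y)`, so that `∏_{p ≤ y} (1 - 1/p)⁻¹ = e^γ log θ(y) exp (mar y)`;
* `Jp y = ∫_y^∞ (ψ(t) - t) / t²`, `Kt y = ∫_y^∞ (θ(t) - t)(1 + log t)/(t² log² t)`;
* `robinExceptions N` is the number of the `n ≤ N` with `σ(n) ≥ e^γ n log log n`;
* `eulerExceptions N` is the number of the `n ≤ N` with `n / φ(n) ≥ e^γ log log n`.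
-/

set_option autoImplicit false

namespace Pool.Agent.H424.RB

open MeasureTheory

/-- `∑_{p ≤ y} -log (1 - 1/p)` -/
noncomputable def Pr (y : ℝ) : ℝ :=
  ∑ p ∈ (Finset.Ioc 0 ⌊y⌋₊).filter Nat.Prime, -Real.log (1 - 1 / (p : ℝ))

/-- `log (∏_{p ≤ y} (1 - 1/p)⁻¹ / (e^γ log θ(y)))` -/
noncomputable def mar (y : ℝ) : ℝ :=
  Pr y - Real.eulerMascheroniConstant - Real.log (Real.log (Chebyshev.theta y))

/-- `∫_y^∞ (ψ(t) - t) / t²` -/
noncomputable def Jp (y : ℝ) : ℝ := ∫ t in Set.Ioi y, (Chebyshev.psi t - t) / t ^ 2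

/-- the kernel `(θ(t) - t)(1 + log t)/(t² log² t)` -/
noncomputable def kt (t : ℝ) : ℝ := (Chebyshev.theta t - t) * (1 + Real.log t) / (t ^ 2 * Real.log t ^ 2)

/-- `∫_y^∞ (θ(t) - t)(1 + log t)/(t² log² t) dt` -/
noncomputable def Kt (y : ℝ) : ℝ := ∫ t in Set.Ioi y, kt t

/-- the primes `≤ 2 q` on which `n` differs from the product of the primes `≤ q` -/
def dif (q n : ℕ) : Finset ℕ :=
  (Finset.Icc 1 (2 * q)).filter fun p => p.Prime ∧ ((p ≤ q ∧ ¬ p ∣ n) ∨ (q < p ∧ p ∣ n))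

open Classical in
/-- the number of the `n ≤ N` with `σ(n) ≥ e^γ n log log n` -/
noncomputable def robinExceptions (N : ℕ) : ℕ :=
  ((Finset.Icc 1 N).filter fun n : ℕ =>
    Real.exp Real.eulerMascheroniConstant * n * Real.log (Real.log n) ≤
      (ArithmeticFunction.sigma 1 n : ℝ)).card

open Classical in
/-- the number of the `n ≤ N` with `n ≥ e^γ φ(n) log log n` -/
noncomputable def eulerExceptions (N : ℕ) : ℕ :=
  ((Finset.Icc 1 N).filter fun n : ℕ =>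
    Real.exp Real.eulerMascheroniConstant * Real.log (Real.log n) * (Nat.totient n : ℝ) ≤ n).card


/-- `n` is colossally abundant -/
def IsCA (n : ℕ) : Prop := 1 ≤ n ∧ ∃ ε : ℝ, 0 < ε ∧ ∀ m : ℕ, 1 ≤ m →
  (ArithmeticFunction.sigma 1 m : ℝ) / (m : ℝ) ^ (1 + ε) ≤ (ArithmeticFunction.sigma 1 n : ℝ) / (n : ℝ) ^ (1 + ε)

end Pool.Agent.H424.RB
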