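import Pool.Agent.H424.RB.Lan2

/-!
# An upper bound for `J` gives a zero-free half-plane (Landau); the sign reversed version of `Lan2`.
-/

set_option autoImplicit false

namespace Pool.Agent.H424.RB

open MeasureTheory Filter Topology Set

open Lan2 Pool.Agent.W263.BSD

/-- an upper bound for `Jp` gives a zero-free half-plane -/
theorem zero_free_of_Jp_le {b C y0 : ℝ} (hb0 : 0 < b) (hb1 : b < 1)
    (h : ∀ y : ℝ, y0 ≤ y → Jp y ≤ C * y ^ (b - 1)) :
    ∀ s : ℂ, b < s.re → riemannZeta s ≠ 0 := by
  obtain ⟨⟨B, hB⟩, hmeas, hJ1, hlap⟩ := jp_laplace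
  set j : ℝ → ℝ := fun T => Jp (Real.exp T) with hj
  set a : ℝ := b - 1 with ha
  have ha0 : a < 0 := by rw [ha]; linarith
  have ha1 : -1 < a := by rw [ha]; linarith
  have hjB : ∀ T, 0 < T → |j T| ≤ B := fun T hT => hB _ (Real.one_le_exp hT.le)
  have hB0 : 0 ≤ B := (abs_nonneg _).trans (hB 1 le_rfl)
  -- the nonnegative function
  set M : ℝ := max y0 1 with hM
  have hM1 : 1 ≤ M := le_max_right _ _
  have hM0 : 0 < M := by linarith
  set C' : ℝ := |C| + B * M ^ (-a) with hC'
  have hMa : 0 < M ^ (-a) := Real.rpow_pos_of_pos hM0 _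
  have hC'1 : |C| ≤ C' := by
    have := mul_nonneg hB0 hMa.le
    linarith
  have hC'2 : B * M ^ (-a) ≤ C' := by
    have := abs_nonneg C
    linarith
  set f : ℝ → ℝ := fun T => (-1) * j T + C' * Real.exp (a * T) with hf
  have hfm : Measurable f := (hmeas.const_mul (-1)).add (by fun_prop)
  have hf0 : ∀ T, 0 < T → 0 ≤ f T := by
    intro T hT
    have hexp : (Real.exp T) ^ a = Real.exp (a * T) := by
      rw [← Real.exp_mul, mul_comm]
    rcases le_or_gt y0 (Real.exp T) with h1 | h1
    · have h2 := h _ h1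
      rw [hexp] at h2
      have h3 : C * Real.exp (a * T) ≤ C' * Real.exp (a * T) :=
        mul_le_mul_of_nonneg_right ((le_abs_self C).trans hC'1) (Real.exp_pos _).le
      simp only [hf, hj]
      linarith
    · have h2 : Real.exp T ≤ M := h1.le.trans (le_max_left _ _)
      have h3 : M ^ a ≤ (Real.exp T) ^ a :=
        Real.rpow_le_rpow_of_nonpos (Real.exp_pos T) h2 ha0.le
      rw [hexp] at h3
      have h4 : M ^ (-a) * M ^ a = 1 := by
        rw [← Real.rpow_add hM0]
        simp
      have h5 : B ≤ C' * Real.exp (a * T) := by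
        calc B = B * (M ^ (-a) * M ^ a) := by rw [h4, mul_one]
          _ = (B * M ^ (-a)) * M ^ a := by ring
          _ ≤ C' * Real.exp (a * T) := by
            apply mul_le_mul hC'2 h3 (Real.rpow_pos_of_pos hM0 _).le
            exact (mul_nonneg hB0 hMa.le).trans hC'2
      have h6 := (abs_le.1 (hjB T hT)).2
      simp only [hf]
      linarith
  have hLj : ∀ w, 0 < w → LInt j w := fun w hw => LInt_of_bdd hmeas hjB hw
  have hLf : ∀ w > (0 : ℝ), LInt f w := fun w hw =>
    ((hLj w hw).const_mul (-1)).add ((LInt_exp (a := a) (w := w) (by linarith)).const_mul C')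
  -- the real-analytic continuation
  set g : ℝ → ℝ := fun w => (dslope G 0 (w : ℂ)).re + C' / (w - a) with hg
  have hGan : ∀ w : ℝ, -1 < w → AnalyticAt ℂ G (w : ℂ) := by
    intro w hw
    apply G_an
    · have : ((w : ℂ) + 1) = ((w + 1 : ℝ) : ℂ) := by push_cast; ring
      rw [this]
      have : w + 1 ≠ 0 := by intro h; linarith
      exact_mod_cast this
    · have : ((w : ℂ) + 1) = ((w + 1 : ℝ) : ℂ) := by push_cast; ring
      rw [this]
      exact Z_ne_real (by linarith)
  have hgan : ∀ w > a, AnalyticAt ℝ g w := by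
    intro w hw
    have h1 : AnalyticAt ℂ (dslope G 0) (w : ℂ) := dslope_an (hGan w (by linarith))
    have h2 : AnalyticAt ℝ (fun w : ℝ => w - a) w := by fun_prop
    have h3 : w - a ≠ 0 := by intro h; linarith
    exact (h1.re_ofReal).add (analyticAt_const.div h2 h3)
  have hG0 : G 0 = (Jp 1 : ℂ) := by
    rw [hJ1]
    unfold G
    rw [zero_add, riemannZeta₁_one]
    simp
  have hPhi : ∀ s : ℂ, 0 < s.re → riemannZeta₁ (s + 1) ≠ 0 → lapC j s = - dslope G 0 s := by
    intro s hs hZ
    have h1 := hlap s hs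
    rw [Phi_eq] at h1
    have hs0 : s ≠ 0 := by rintro rfl; simp at hs
    have hs1 : s + 1 ≠ 0 := by
      intro h
      have : (s + 1).re = 0 := by rw [h]; simp
      simp at this
      linarith
    rw [dslope_of_ne _ hs0, slope_def_field, hG0]
    unfold G
    rw [sub_zero]
    field_simp
    linear_combination h1
  have heq : ∀ w > (0 : ℝ), a < w → lap f w = g w := by
    intro w hw hwa
    have h1 : lap f w = (-1) * lap j w + C' * (1 / (w - a)) := by
      rw [hf, lap_add ((hLj w hw).const_mul (-1)) ((LInt_exp hwa).const_mul C'), lap_const_mul, lap_const_mul,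
        lap_exp hwa]
    rw [h1]
    have hZ : riemannZeta₁ ((w : ℂ) + 1) ≠ 0 := by
      have : ((w : ℂ) + 1) = ((w + 1 : ℝ) : ℂ) := by push_cast; ring
      rw [this]
      exact Z_ne_real (by linarith)
    have h2 := hPhi (w : ℂ) (by simpa using hw) hZ
    rw [lapC_ofReal] at h2
    have h3 : lap j w = -(dslope G 0 (w : ℂ)).re := by
      have := congrArg Complex.re h2
      simpa using this
    rw [h3, hg]
    simp only []
    ring
  obtain ⟨hLfa, -⟩ := Pool.Agent.TH988.RB.landau_lap hfm hf0 hLf hgan heq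
  have hLja : ∀ w > a, LInt j w := by
    intro w hw
    have h1 := ((hLfa w hw).sub ((LInt_exp (a := a) (w := w) hw).const_mul C')).const_mul (-1)
    have h2 : (fun u => (-1) * (f u - C' * Real.exp (a * u))) = j := by
      funext u
      simp [hf]
    rwa [h2] at h1
  -- holomorphy of the Laplace transform
  have hPd : ∀ z : ℂ, a < z.re → DifferentiableAt ℂ (lapC j) z := fun z hz =>
    lapC_differentiableAt hmeas hLja hz
  set H : Set ℂ := {s : ℂ | a < s.re} with hH
  have hHo : IsOpen H := isOpen_lt continuous_const Complex.continuous_re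
  have hHc : IsPreconnected H := (convex_halfSpace_re_gt a).isPreconnected
  have hPan : AnalyticOnNhd ℂ (lapC j) H := by
    intro z hz
    have : DifferentiableOn ℂ (lapC j) H := fun y hy => (hPd y hy).differentiableWithinAt
    exact this.analyticAt (hHo.mem_nhds hz)
  have hid : EqOn (fun s : ℂ => (s + 1) * riemannZeta₁ (s + 1) * (s * lapC j s - Jp 1))
      (fun s : ℂ => riemannZeta₁ (s + 1) + deriv riemannZeta₁ (s + 1)) H := by
    have hA1 : AnalyticOnNhd ℂ
        (fun s : ℂ => (s + 1) * riemannZeta₁ (s + 1) * (s * lapC j s - Jp 1)) H := by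
      intro z hz
      have e1 : AnalyticAt ℂ (fun s : ℂ => s + 1) z := by fun_prop
      have e2 : AnalyticAt ℂ (fun s : ℂ => s) z := by fun_prop
      exact (e1.mul (u_an z)).mul ((e2.mul (hPan z hz)).sub analyticAt_const)
    have hA2 : AnalyticOnNhd ℂ
        (fun s : ℂ => riemannZeta₁ (s + 1) + deriv riemannZeta₁ (s + 1)) H := by
      intro z _
      exact (u_an z).add (du_an z)
    have h1 : (1 : ℂ) ∈ H := by simp only [hH]; show a < (1 : ℂ).re; simp; linarith
    refine hA1.eqOn_of_preconnected_of_eventuallyEq hA2 hHc h1 ?_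
    have ho : IsOpen {s : ℂ | 0 < s.re} := isOpen_lt continuous_const Complex.continuous_re
    filter_upwards [ho.mem_nhds (show (1 : ℂ) ∈ {s : ℂ | 0 < s.re} by
      show 0 < (1 : ℂ).re; simp)] with s hs
    have := hlap s hs
    rw [Phi_eq] at this
    exact this
  -- `Z` has no zero in `Re s > b`
  have hZne : ∀ s0 : ℂ, a < s0.re → riemannZeta₁ (s0 + 1) ≠ 0 := by
    intro s0 hs0
    set A : ℂ → ℂ := fun s => (s + 1) * (s * lapC j s - Jp 1) - 1 with hA
    have hAan : AnalyticAt ℂ A s0 := by
      have e1 : AnalyticAt ℂ (fun s : ℂ => s + 1) s0 := by fun_prop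
      have e2 : AnalyticAt ℂ (fun s : ℂ => s) s0 := by fun_prop
      exact (e1.mul ((e2.mul (hPan s0 hs0)).sub analyticAt_const)).sub analyticAt_const
    refine ode_ne_zero (u := fun s => riemannZeta₁ (s + 1)) (u_an s0) hAan ?_ ?_
    · filter_upwards [hHo.mem_nhds hs0] with s hs
      have h1 := hid hs
      simp only at h1
      have h2 : deriv (fun s : ℂ => riemannZeta₁ (s + 1)) s = deriv riemannZeta₁ (s + 1) := by
        rw [deriv_comp_add_const]
      rw [h2, hA]
      simp only
      linear_combination -h1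
    · intro hev
      have h1 : AnalyticOnNhd ℂ (fun s : ℂ => riemannZeta₁ (s + 1)) univ := fun z _ => u_an z
      have h2 := h1.eqOn_zero_of_preconnected_of_eventuallyEq_zero isPreconnected_univ
        (mem_univ s0) hev
      have h3 := h2 (mem_univ (0 : ℂ))
      simp [riemannZeta₁_one] at h3
  intro s hs
  rcases eq_or_ne s 1 with rfl | h1
  · exact riemannZeta_ne_zero_of_one_le_re (by simp)
  · rw [riemannZeta_eq_inv_sub_mul h1]
    have h2 := hZne (s - 1) (by simp; linarith)
    rw [sub_add_cancel] at h2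
    exact mul_ne_zero (inv_ne_zero (sub_ne_zero.2 h1)) h2

end Pool.Agent.H424.RB
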