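import Pool.Agent.H424.RB.JMar
import Pool.Agent.H424.RB.MarUp
import Pool.Agent.H424.RB.Lan3
import Pool.Agent.H424.RB.Asm

/-! The function `K`: relation with `mar` and `J`, oscillation, slow variation. -/

set_option autoImplicit false

namespace Pool.Agent.H424.RB

open MeasureTheory Filter Topology Set

theorem KL_aux {y : ℝ} (hy : 2 ≤ y) (hL : 4 ≤ Real.log y)
    (hθ : |Chebyshev.theta y - y| ≤ y / 2) :
    mar y ≤ -Kt y + ((Chebyshev.theta y - y) / y) ^ 2 := by
  have hy0 : 0 < y := by linarith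
  obtain ⟨h1, -⟩ := mertens_exact.2 y hy
  unfold mar
  set θ := Chebyshev.theta y with hθdef
  set L := Real.log y with hLdef
  have hL0 : 0 < L := by linarith
  obtain ⟨u, hu⟩ : ∃ u, u = (θ - y) / y := ⟨_, rfl⟩
  have hθu : θ = (1 + u) * y := by
    rw [hu]
    field_simp
    ring
  have hu1 : |u| ≤ 1 / 2 := by
    rw [hu, abs_div, abs_of_pos hy0, div_le_iff₀ hy0]
    linarith
  obtain ⟨hu2, hu3⟩ := abs_le.1 hu1
  have hx0 : 0 < 1 + u := by linarith
  have hlogθ : Real.log θ = L + Real.log (1 + u) := by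
    rw [hθu, Real.log_mul hx0.ne' hy0.ne']
    ring
  set l := Real.log (1 + u) with hl
  have hl1 : l ≤ u := by
    have := Real.log_le_sub_one_of_pos hx0
    linarith
  have hl2 : u - 2 * u ^ 2 ≤ l := J599_log_lower (by linarith)
  have hl3 : |l| ≤ 2 * |u| := by
    have e1 : u ^ 2 = |u| ^ 2 := (sq_abs u).symm
    have e2 : |u| ^ 2 ≤ |u| * (1 / 2) := by
      rw [sq]
      exact mul_le_mul_of_nonneg_left hu1 (abs_nonneg u)
    rw [abs_le]
    constructor
    · have := neg_abs_le u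
      nlinarith
    · have := le_abs_self u
      have := abs_nonneg u
      linarith
  obtain ⟨v, hv⟩ : ∃ v, v = l / L := ⟨_, rfl⟩
  have hvL : v * L = l := by
    rw [hv]
    field_simp
  have hv1 : |v| ≤ |u| / 2 := by
    rw [hv, abs_div, abs_of_pos hL0, div_le_iff₀ hL0]
    have := abs_nonneg u
    nlinarith
  have hv2 : -(1 / 2) ≤ v := by
    have := neg_abs_le v
    linarith
  have hv0 : 0 < 1 + v := by linarith
  have hloglog : Real.log (Real.log θ) = Real.log L + Real.log (1 + v) := by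
    rw [hlogθ, show L + l = L * (1 + v) by rw [← hvL]; ring, Real.log_mul hL0.ne' hv0.ne']
  have hlv := J599_log_lower hv2
  have hvsq : v ^ 2 ≤ u ^ 2 / 4 := by
    rw [← sq_abs v, ← sq_abs u]
    have := abs_nonneg v
    nlinarith
  have huL : u / L - v ≤ u ^ 2 / 2 := by
    rw [hv, ← sub_div, div_le_iff₀ hL0]
    have := sq_nonneg u
    nlinarith
  have hfrac : (θ - y) / (y * L) = u / L := by
    rw [hu]
    field_simp
  rw [hfrac] at h1
  rw [hloglog, ← hu]
  linarith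


/-- `mar` is at most `-K` plus a square -/
theorem mar_le_K : ∃ Y : ℝ, ∀ y : ℝ, Y ≤ y → mar y ≤ -Kt y + ((Chebyshev.theta y - y) / y) ^ 2 := by
  obtain ⟨y1, h1, h2⟩ := J599_small
  refine ⟨y1, fun y hy => ?_⟩
  obtain ⟨h3, h4⟩ := J599_big h1 hy
  exact KL_aux (by linarith) h4 (h2 y hy)

/-- `mar` is at least `-K - 2/y` -/
theorem mar_ge_K : ∃ Y : ℝ, 4 ≤ Y ∧ ∀ y : ℝ, Y ≤ y → -Kt y - 2 / y ≤ mar y := by
  obtain ⟨Y, hY4, hY⟩ := JM_theta_ge
  refine ⟨Y, hY4, fun y hy => ?_⟩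
  have hy4 : 4 ≤ y := hY4.trans hy
  have h1 := (mertens_exact.2 y (by linarith)).2
  have h3 := JM_loglog (x := Chebyshev.theta y) (y := y) (by linarith [hY y hy]) (by linarith)
  unfold mar
  linarith

theorem KL_Jp {y : ℝ} (hy : 2 ≤ y) : Jp y = (∫ t in Ioi y, (Chebyshev.theta t - t) / t ^ 2) +
      ∫ t in Ioi y, (Chebyshev.psi t - Chebyshev.theta t) / t ^ 2 := by
  unfold Jp
  rw [← integral_add (JM_int_theta (by linarith)) (JM_int_diff (by linarith))]
  congr 1
  funext t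
  ring

/-- a lower bound for `K` gives one for `∫ (θ(t) - t) / t²` -/
theorem KL_step {b Y : ℝ} (hY4 : 4 ≤ Y) (hb1 : b < 1) (hY : ∀ y : ℝ, Y ≤ y → -(y ^ (b - 1)) ≤ Kt y) :
    ∀ y : ℝ, Y ≤ y → -((Real.log y + 1 / (1 - b)) * y ^ (b - 1)) ≤
      ∫ t in Ioi y, (Chebyshev.theta t - t) / t ^ 2 := by
  intro y hy
  have hy4 : 4 ≤ y := hY4.trans hy
  have hy0 : 0 < y := by linarith
  have hy1 : 1 < y := by linarith
  obtain ⟨h1, h2⟩ := JM_parts (y := y) (by linarith)
  rw [h2]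
  have hp : 0 < y ^ (b - 1) := Real.rpow_pos_of_pos hy0 _
  have a1 : -(Real.log y * y ^ (b - 1)) ≤ JMq y * Kt y := by
    have k1 := hY y hy
    have k2 := JM_q_nonneg hy1
    have k3 := JM_q_le hy1
    have k4 : JMq y * (-(y ^ (b - 1))) ≤ JMq y * Kt y := mul_le_mul_of_nonneg_left k1 k2
    have k5 : JMq y * (y ^ (b - 1)) ≤ Real.log y * (y ^ (b - 1)) :=
      mul_le_mul_of_nonneg_right k3 (by positivity)
    linarith
  have hint : IntegrableOn (fun u : ℝ => -(u ^ (b - 2))) (Ioi y) :=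
    ((integrableOn_Ioi_rpow_of_lt (a := b - 2) (by linarith) hy0)).neg
  have a2 : ∫ u in Ioi y, -(u ^ (b - 2)) ≤ ∫ u in Ioi y, JMq' u * Kt u := by
    apply setIntegral_mono_on hint h1 measurableSet_Ioi
    intro u hu
    have hyu : y < u := hu
    have hu0 : 0 < u := by linarith
    have hu1 : 1 < u := by linarith
    have k1 := hY u (hy.trans hyu.le)
    have k2 := JM_q'_nonneg hu1
    have k3 := JM_q'_le hu1
    have k4 : JMq' u * (-(u ^ (b - 1))) ≤ JMq' u * Kt u := mul_le_mul_of_nonneg_left k1 k2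
    have hup : 0 < u ^ (b - 1) := Real.rpow_pos_of_pos hu0 _
    have k5 : JMq' u * (u ^ (b - 1)) ≤ 1 / u * (u ^ (b - 1)) :=
      mul_le_mul_of_nonneg_right k3 (by positivity)
    have k6 : 1 / u * (u ^ (b - 1)) = u ^ (b - 2) := by
      have : u ^ (b - 2) = u ^ (b - 1) / u := by
        rw [show b - 2 = (b - 1) - 1 by ring, Real.rpow_sub_one hu0.ne']
      rw [this]
      field_simp
    linarith
  have a3 : ∫ u in Ioi y, -(u ^ (b - 2)) = -((1 / (1 - b)) * y ^ (b - 1)) := by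
    rw [integral_neg, integral_Ioi_rpow_of_lt (by linarith) hy0,
      show b - 2 + 1 = b - 1 by ring]
    have hb2 : b - 1 ≠ 0 := by linarith
    have hb3 : 1 - b ≠ 0 := by linarith
    have e : -y ^ (b - 1) / (b - 1) = 1 / (1 - b) * y ^ (b - 1) := by
      rw [show b - 1 = -(1 - b) by ring]
      field_simp
    rw [e]
  rw [a3] at a2
  have e : (Real.log y + 1 / (1 - b)) * y ^ (b - 1) = Real.log y * y ^ (b - 1) +
    (1 / (1 - b)) * y ^ (b - 1) := by ring
  rw [e]
  linarith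

/-- an upper bound for `K` gives one for `∫ (θ(t) - t) / t²` -/
theorem KL_step' {b Y : ℝ} (hY4 : 4 ≤ Y) (hb1 : b < 1) (hY : ∀ y : ℝ, Y ≤ y → Kt y ≤ y ^ (b - 1)) :
    ∀ y : ℝ, Y ≤ y → ∫ t in Ioi y, (Chebyshev.theta t - t) / t ^ 2 ≤
      (Real.log y + 1 / (1 - b)) * y ^ (b - 1) := by
  intro y hy
  have hy4 : 4 ≤ y := hY4.trans hy
  have hy0 : 0 < y := by linarith
  have hy1 : 1 < y := by linarith
  obtain ⟨h1, h2⟩ := JM_parts (y := y) (by linarith)
  rw [h2]
  have hp : 0 < y ^ (b - 1) := Real.rpow_pos_of_pos hy0 _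
  have a1 : JMq y * Kt y ≤ Real.log y * y ^ (b - 1) := by
    have k1 := hY y hy
    have k2 := JM_q_nonneg hy1
    have k3 := JM_q_le hy1
    have k4 : JMq y * Kt y ≤ JMq y * (y ^ (b - 1)) := mul_le_mul_of_nonneg_left k1 k2
    have k5 : JMq y * (y ^ (b - 1)) ≤ Real.log y * (y ^ (b - 1)) :=
      mul_le_mul_of_nonneg_right k3 (by positivity)
    linarith
  have hint : IntegrableOn (fun u : ℝ => u ^ (b - 2)) (Ioi y) :=
    integrableOn_Ioi_rpow_of_lt (a := b - 2) (by linarith) hy0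
  have a2 : ∫ u in Ioi y, JMq' u * Kt u ≤ ∫ u in Ioi y, u ^ (b - 2) := by
    apply setIntegral_mono_on h1 hint measurableSet_Ioi
    intro u hu
    have hyu : y < u := hu
    have hu0 : 0 < u := by linarith
    have hu1 : 1 < u := by linarith
    have k1 := hY u (hy.trans hyu.le)
    have k2 := JM_q'_nonneg hu1
    have k3 := JM_q'_le hu1
    have k4 : JMq' u * Kt u ≤ JMq' u * (u ^ (b - 1)) := mul_le_mul_of_nonneg_left k1 k2
    have hup : 0 < u ^ (b - 1) := Real.rpow_pos_of_pos hu0 _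
    have k5 : JMq' u * (u ^ (b - 1)) ≤ 1 / u * (u ^ (b - 1)) :=
      mul_le_mul_of_nonneg_right k3 (by positivity)
    have k6 : 1 / u * (u ^ (b - 1)) = u ^ (b - 2) := by
      have : u ^ (b - 2) = u ^ (b - 1) / u := by
        rw [show b - 2 = (b - 1) - 1 by ring, Real.rpow_sub_one hu0.ne']
      rw [this]
      field_simp
    linarith
  have a3 : ∫ u in Ioi y, u ^ (b - 2) = (1 / (1 - b)) * y ^ (b - 1) := by
    rw [integral_Ioi_rpow_of_lt (by linarith) hy0,
      show b - 2 + 1 = b - 1 by ring]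
    have hb2 : b - 1 ≠ 0 := by linarith
    have hb3 : 1 - b ≠ 0 := by linarith
    have e : -y ^ (b - 1) / (b - 1) = 1 / (1 - b) * y ^ (b - 1) := by
      rw [show b - 1 = -(1 - b) by ring]
      field_simp
    rw [e]
  rw [a3] at a2
  have e : (Real.log y + 1 / (1 - b)) * y ^ (b - 1) = Real.log y * y ^ (b - 1) +
    (1 / (1 - b)) * y ^ (b - 1) := by ring
  rw [e]
  linarith

/-- the logarithm is absorbed by a larger power -/
theorem KL_absorb {b b' : ℝ} (hb1 : b < 1) (h : b < b') :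
    ∀ᶠ y : ℝ in atTop, (Real.log y + 1 / (1 - b)) * y ^ (b - 1) ≤ y ^ (b' - 1) := by
  filter_upwards [ev_log_rpow 2 (show b - 1 < b' - 1 by linarith),
    ev_rpow (2 / (1 - b)) (show b - 1 < b' - 1 by linarith)] with y h1 h2
  have e : (Real.log y + 1 / (1 - b)) * y ^ (b - 1) =
      (2 * Real.log y * y ^ (b - 1) + 2 / (1 - b) * y ^ (b - 1)) / 2 := by ring
  rw [e]
  linarith

/-- negative values of `K` -/
theorem Kt_neg {b : ℝ} (hb0 : 0 < b) {ρ : ℂ} (hρ : riemannZeta ρ = 0) (hb : b < ρ.re) :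
    ∀ Y : ℝ, ∃ y : ℝ, Y ≤ y ∧ Kt y < -(y ^ (b - 1)) := by
  intro Y
  by_contra hcon
  push Not at hcon
  have hρ1 : ρ.re < 1 := by
    by_contra h
    exact riemannZeta_ne_zero_of_one_le_re (not_lt.1 h) hρ
  set b' : ℝ := (b + ρ.re) / 2 with hb'
  have hbb : b < b' := by rw [hb']; linarith
  have hb'1 : b' < 1 := by rw [hb']; linarith
  have h1 := KL_step (b := b) (Y := max Y 4) (le_max_right _ _) (by linarith)
    (fun y hy => hcon y ((le_max_left _ _).trans hy))
  obtain ⟨Y1, hY1⟩ := eventually_atTop.1 (KL_absorb (show b < 1 by linarith) hbb)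
  refine zero_free_of_Jp (b := b') (C := 1) (y0 := max (max Y 4) Y1) (by linarith) hb'1 (fun y hy => ?_) ρ
    (by rw [hb']; linarith) hρ
  have h2 : max Y 4 ≤ y := (le_max_left _ _).trans hy
  have h3 : Y1 ≤ y := (le_max_right _ _).trans hy
  have hy4 : 4 ≤ y := (le_max_right Y 4).trans h2
  have h4 := h1 y h2
  have h5 := hY1 y h3
  rw [KL_Jp (by linarith), one_mul]
  have h6 : 0 ≤ ∫ t in Ioi y, (Chebyshev.psi t - Chebyshev.theta t) / t ^ 2 := by
    refine setIntegral_nonneg measurableSet_Ioi fun t _ => ?_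
    have := Chebyshev.theta_le_psi t
    exact div_nonneg (by linarith) (by positivity)
  linarith

/-- the difference of `Jp` and its analogue for `θ` is `O(y^(-1/2))` -/
theorem KL_diff : ∃ C : ℝ, 0 < C ∧ ∀ y : ℝ, 1 ≤ y →
    ∫ t in Ioi y, (Chebyshev.psi t - Chebyshev.theta t) / t ^ 2 ≤ C * y ^ (-(1 / 2) : ℝ) := by
  obtain ⟨C, hC⟩ := Chebyshev.psi_sub_theta_le_mul_sqrt
  refine ⟨2 * (|C| + 1), by positivity, fun y hy => ?_⟩
  have hy0 : 0 < y := by linarith
  have hint : IntegrableOn (fun t : ℝ => (|C| + 1) * t ^ (-(3 / 2) : ℝ)) (Ioi y) :=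
    (integrableOn_Ioi_rpow_of_lt (a := (-(3 / 2) : ℝ)) (by norm_num) hy0).const_mul _
  have h1 : ∫ t in Ioi y, (Chebyshev.psi t - Chebyshev.theta t) / t ^ 2 ≤
      ∫ t in Ioi y, (|C| + 1) * t ^ (-(3 / 2) : ℝ) := by
    apply setIntegral_mono_on (JM_int_diff hy0) hint measurableSet_Ioi
    intro t ht
    have hyt : y < t := ht
    have ht0 : 0 < t := by linarith
    have e1 : t ^ (-(3 / 2) : ℝ) = Real.sqrt t / t ^ 2 := by
      rw [Real.sqrt_eq_rpow]
      have e2 : t ^ 2 = t ^ (2 : ℝ) := by norm_cast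
      rw [e2, ← Real.rpow_sub ht0]
      norm_num
    rw [e1, ← mul_div_assoc]
    refine div_le_div_of_nonneg_right ((hC t).trans ?_) (by positivity)
    exact mul_le_mul_of_nonneg_right (by linarith [le_abs_self C]) (Real.sqrt_nonneg _)
  refine h1.trans (le_of_eq ?_)
  rw [integral_const_mul, integral_Ioi_rpow_of_lt (by norm_num) hy0]
  norm_num
  ring

/-- positive values of `K` -/
theorem Kt_pos {b : ℝ} (hb0 : 1 / 2 ≤ b) {ρ : ℂ} (hρ : riemannZeta ρ = 0) (hb : b < ρ.re) :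
    ∀ Y : ℝ, ∃ y : ℝ, Y ≤ y ∧ y ^ (b - 1) < Kt y := by
  intro Y
  by_contra hcon
  push Not at hcon
  have hρ1 : ρ.re < 1 := by
    by_contra h
    exact riemannZeta_ne_zero_of_one_le_re (not_lt.1 h) hρ
  set b' : ℝ := (b + ρ.re) / 2 with hb'
  have hbb : b < b' := by rw [hb']; linarith
  have hb'1 : b' < 1 := by rw [hb']; linarith
  have h1 := KL_step' (b := b) (Y := max Y 4) (le_max_right _ _) (by linarith)
    (fun y hy => hcon y ((le_max_left _ _).trans hy))
  obtain ⟨Y1, hY1⟩ := eventually_atTop.1 (KL_absorb (show b < 1 by linarith) hbb)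
  obtain ⟨C, hC, hC1⟩ := KL_diff
  refine zero_free_of_Jp_le (b := b') (C := 1 + C) (y0 := max (max Y 4) Y1) (by linarith) hb'1 (fun y hy => ?_) ρ
    (by rw [hb']; linarith) hρ
  have h2 : max Y 4 ≤ y := (le_max_left _ _).trans hy
  have h3 : Y1 ≤ y := (le_max_right _ _).trans hy
  have hy4 : 4 ≤ y := (le_max_right Y 4).trans h2
  have h4 := h1 y h2
  have h5 := hY1 y h3
  have h6 := hC1 y (by linarith)
  have h7 : y ^ (-(1 / 2) : ℝ) ≤ y ^ (b' - 1) := Real.rpow_le_rpow_of_exponent_le (by linarith) (by linarith)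
  rw [KL_Jp (by linarith)]
  nlinarith

/-- slow variation of `K` -/
theorem Kt_slow {y z w : ℝ} (hy : 2 ≤ y) (hyz : y ≤ z) (hly : 1 ≤ Real.log y)
    (hw : ∀ t : ℝ, y ≤ t → t ≤ z → |Chebyshev.theta t - t| ≤ w) :
    |Kt y - Kt z| ≤ (z - y) * (2 * w / y ^ 2) := by
  have e : Kt y - Kt z = ∫ t in y..z, kt t := by
    have h1 := Kt_sub (y := y) hy
    have h2 := Kt_sub (y := z) (hy.trans hyz)
    have i1 : IntervalIntegrable kt volume 2 y :=
      (intervalIntegrable_iff_integrableOn_Ioc_of_le hy).2 (int_kt_Ioi.mono_set Ioc_subset_Ioi_self)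
    have i2 : IntervalIntegrable kt volume 2 z :=
      (intervalIntegrable_iff_integrableOn_Ioc_of_le (hy.trans hyz)).2 (int_kt_Ioi.mono_set Ioc_subset_Ioi_self)
    have h3 := intervalIntegral.integral_interval_sub_left i2 i1
    linarith
  rw [e]
  have h := intervalIntegral.norm_integral_le_of_norm_le_const (a := y) (b := z) (f := kt) (C := 2 * w / y ^ 2) ?_
  · rw [Real.norm_eq_abs, abs_of_nonneg (show 0 ≤ z - y by linarith)] at h
    linarith
  · intro t ht
    rw [uIoc_of_le hyz] at ht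
    have ht0 : 0 < t := by linarith [ht.1]
    have hlt : 1 ≤ Real.log t := hly.trans (Real.log_le_log (by linarith) ht.1.le)
    have hw1 := hw t ht.1.le ht.2
    have hw0 : 0 ≤ w := (abs_nonneg _).trans hw1
    unfold kt
    rw [Real.norm_eq_abs, abs_div, abs_mul, abs_of_pos (show 0 < 1 + Real.log t by linarith),
      abs_of_pos (show 0 < t ^ 2 * Real.log t ^ 2 by positivity), div_le_div_iff₀ (by positivity) (by positivity)]
    have h1 : 1 + Real.log t ≤ 2 * Real.log t ^ 2 := by nlinarith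
    have h2 : y ^ 2 ≤ t ^ 2 := by
      have := ht.1.le
      gcongr
    calc |Chebyshev.theta t - t| * (1 + Real.log t) * y ^ 2 ≤ w * (2 * Real.log t ^ 2) * t ^ 2 := by
          gcongr
      _ = 2 * w * (t ^ 2 * Real.log t ^ 2) := by ring

end Pool.Agent.H424.RB
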