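import Pool.Agent.H424.RB.Base

/-!
# Job RB-KEY: the shape of an integer with large `n / φ(n)`
-/

set_option autoImplicit false

namespace Pool.Agent.H424.RB

open Filter Topology Set

namespace Key

noncomputable def ell (x : ℝ) : ℝ := -Real.log (1 - 1 / x)

theorem ell_lower {x : ℝ} (hx : 1 < x) : 1 / x ≤ ell x := by
  have h0 : 0 < 1 - 1 / x := by
    rw [sub_pos, div_lt_one (by linarith)]; exact hx
  have := Real.log_le_sub_one_of_pos h0
  unfold ell
  linarith

theorem ell_upper {x : ℝ} (hx : 1 < x) : ell x ≤ 1 / (x - 1) := by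
  have h0 : 0 < 1 - 1 / x := by
    rw [sub_pos, div_lt_one (by linarith)]; exact hx
  have := Real.one_sub_inv_le_log_of_pos h0
  unfold ell
  have h1 : x - 1 ≠ 0 := by linarith
  have h2 : x ≠ 0 := by linarith
  have h3 : (1 - 1 / x)⁻¹ = 1 + 1 / (x - 1) := by
    have : 1 - 1 / x = (x - 1) / x := by field_simp
    rw [this, inv_div]
    field_simp
    ring
  rw [h3] at this
  linarith

theorem ell_diff {a b : ℝ} (ha : 1 < a) (hab : a ≤ b) : 1 / a - 1 / b ≤ ell a - ell b := by
  have hb : 1 < b := lt_of_lt_of_le ha hab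
  have ha0 : 0 < 1 - 1 / a := by
    rw [sub_pos, div_lt_one (by linarith)]; exact ha
  have hb0 : 0 < 1 - 1 / b := by
    rw [sub_pos, div_lt_one (by linarith)]; exact hb
  have huv : 1 / b ≤ 1 / a := one_div_le_one_div_of_le (by linarith) hab
  have h1 : ell a - ell b = Real.log ((1 - 1 / b) / (1 - 1 / a)) := by
    rw [Real.log_div hb0.ne' ha0.ne']
    unfold ell
    ring
  rw [h1]
  have h2 := Real.one_sub_inv_le_log_of_pos (div_pos hb0 ha0)
  rw [inv_div] at h2
  have h3 : 1 - (1 - 1 / a) / (1 - 1 / b) = (1 / a - 1 / b) / (1 - 1 / b) := by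
    rw [eq_div_iff hb0.ne', sub_mul, div_mul_cancel₀ _ hb0.ne']
    ring
  rw [h3] at h2
  refine le_trans ?_ h2
  rw [le_div_iff₀ hb0]
  have h4 : 0 ≤ 1 / b := by positivity
  have h5 : 0 ≤ 1 / a - 1 / b := by linarith
  nlinarith

theorem log_ratio {n : ℕ} (hn : 1 ≤ n) :
    Real.log n - Real.log (Nat.totient n) = ∑ p ∈ n.primeFactors, ell p := by
  have h1 := Nat.totient_eq_mul_prod_factors n
  have h2 : ((Nat.totient n : ℕ) : ℝ) = n * ∏ p ∈ n.primeFactors, (1 - (p : ℝ)⁻¹) := by
    have h3 := congrArg (fun x : ℚ => (x : ℝ)) h1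
    push_cast at h3
    exact h3
  have hpos : ∀ p ∈ n.primeFactors, 0 < 1 - (p : ℝ)⁻¹ := by
    intro p hp
    have h3 := (Nat.prime_of_mem_primeFactors hp).one_lt
    have h4 : (1 : ℝ) < p := by exact_mod_cast h3
    rw [sub_pos, inv_lt_one₀ (by linarith)]
    exact h4
  have hn0 : (0 : ℝ) < n := by exact_mod_cast hn
  rw [h2, Real.log_mul hn0.ne' (Finset.prod_pos hpos).ne', Real.log_prod fun p hp => (hpos p hp).ne']
  rw [sub_add_cancel_left, ← Finset.sum_neg_distrib]
  refine Finset.sum_congr rfl fun p _ => ?_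
  unfold ell
  rw [one_div]

end Key

open Key

/-- TARGET -/
theorem key_ineq {q : ℕ} (hq : q.Prime) (hq3 : 3 ≤ q) {δ : ℝ} (hδ : 0 ≤ δ) (hm : mar q ≤ δ) {n : ℕ} (hn : 1 ≤ n)
    (h1 : Chebyshev.theta q ≤ Real.log n) (h2 : Real.log n ≤ Chebyshev.theta q + Real.log (2 * q))
    (hex : Real.exp Real.eulerMascheroniConstant * Real.log (Real.log n) * (Nat.totient n : ℝ) ≤ n) :
    Real.log n - ∑ p ∈ n.primeFactors, Real.log p ≤ q * Real.log q * (δ + 4 / q) ∧
    ∑ p ∈ n.primeFactors.filter (fun p => 2 * q < p), Real.log p ≤ 2 * (q * Real.log q * (δ + 4 / q)) ∧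
    ∑ p ∈ dif q n, |(p : ℝ) - q| ≤ 2 * (q : ℝ) ^ 2 * (δ + 4 / q) := by
  classical
  have hn0 : (0 : ℝ) < n := by exact_mod_cast hn
  have hq3' : (3 : ℝ) ≤ q := by exact_mod_cast hq3
  have hq0 : (0 : ℝ) < q := by linarith
  -- the primes up to q
  set P : Finset ℕ := (Finset.Ioc 0 q).filter Nat.Prime with hP
  have hPr : Pr q = ∑ p ∈ P, ell p := by
    unfold Pr
    rw [Nat.floor_natCast]
    rfl
  have hθ : Chebyshev.theta q = ∑ p ∈ P, Real.log p := by
    unfold Chebyshev.theta
    rw [Nat.floor_natCast]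
  have hPpr : ∀ p ∈ P, p.Prime ∧ p ≤ q := by
    intro p hp
    rw [hP, Finset.mem_filter, Finset.mem_Ioc] at hp
    exact ⟨hp.2, hp.1.2⟩
  have hNpr : ∀ p ∈ n.primeFactors, p.Prime ∧ p ∣ n := fun p hp =>
    ⟨Nat.prime_of_mem_primeFactors hp, Nat.dvd_of_mem_primeFactors hp⟩
  -- theta q > 1
  have hθ1 : 1 < Chebyshev.theta q := by
    rw [hθ]
    have hsub : ({2, 3} : Finset ℕ) ⊆ P := by
      intro p hp
      rw [hP, Finset.mem_filter, Finset.mem_Ioc]
      rcases Finset.mem_insert.1 hp with rfl | hp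
      · exact ⟨⟨by norm_num, by omega⟩, Nat.prime_two⟩
      · rw [Finset.mem_singleton] at hp
        subst hp
        exact ⟨⟨by norm_num, by omega⟩, Nat.prime_three⟩
    have h3 : ∑ p ∈ ({2, 3} : Finset ℕ), Real.log p ≤ ∑ p ∈ P, Real.log p := by
      refine Finset.sum_le_sum_of_subset_of_nonneg hsub fun p hp _ => ?_
      exact Real.log_nonneg (by exact_mod_cast (hPpr p hp).1.one_le)
    have h4 : ∑ p ∈ ({2, 3} : Finset ℕ), Real.log p = Real.log 2 + Real.log 3 := by
      rw [Finset.sum_pair (by norm_num)]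
      norm_num
    rw [h4] at h3
    have h5 := Real.log_two_gt_d9
    have h6 : Real.log 2 ≤ Real.log 3 := Real.log_le_log (by norm_num) (by norm_num)
    linarith
  have hln1 : 1 < Real.log n := lt_of_lt_of_le hθ1 h1
  have hlln0 : 0 < Real.log (Real.log n) := Real.log_pos hln1
  have hlθ0 : 0 < Real.log (Chebyshev.theta q) := Real.log_pos hθ1
  -- (I')
  have hI' : Pr q - δ ≤ ∑ p ∈ n.primeFactors, ell p := by
    rw [← log_ratio hn]
    have hφ : (0 : ℝ) < Nat.totient n := by exact_mod_cast Nat.totient_pos.2 hn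
    have h3 : Real.log (Real.exp Real.eulerMascheroniConstant * Real.log (Real.log n) *
        (Nat.totient n : ℝ)) ≤ Real.log n :=
      Real.log_le_log (by positivity) hex
    rw [Real.log_mul (by positivity) hφ.ne', Real.log_mul (Real.exp_pos _).ne' hlln0.ne',
      Real.log_exp] at h3
    have h4 : Real.log (Real.log (Chebyshev.theta q)) ≤ Real.log (Real.log (Real.log n)) :=
      Real.log_le_log hlθ0 (Real.log_le_log (by linarith) h1)
    unfold mar at hm
    linarith
  -- the weights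
  set ℓq := ell q with hℓq
  have hℓq1 : 1 / (q : ℝ) ≤ ℓq := ell_lower (by linarith)
  have hℓq2 : ℓq ≤ 2 / q := by
    refine (ell_upper (by linarith)).trans ?_
    rw [div_le_div_iff₀ (by linarith) hq0]
    linarith
  have hlq : 0 < Real.log q := Real.log_pos (by linarith)
  set c := ℓq / Real.log q with hc
  have hc1 : 1 / (q * Real.log q) ≤ c := by
    rw [hc, ← div_div]
    exact div_le_div_of_nonneg_right hℓq1 hlq.le
  have hc0 : 0 < c := lt_of_lt_of_le (by positivity) hc1
  have hclq : c * Real.log q = ℓq := by rw [hc]; field_simp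
  -- decomposition
  set A := P.filter (fun p => ¬ p ∣ n) with hA
  set B := n.primeFactors.filter (fun p => q < p) with hB
  have hdec : ∀ w : ℕ → ℝ, ∑ p ∈ P, w p - ∑ p ∈ n.primeFactors, w p =
      ∑ p ∈ A, w p - ∑ p ∈ B, w p := by
    intro w
    have e1 := Finset.sum_filter_add_sum_filter_not P (fun p => p ∣ n) w
    have e2 := Finset.sum_filter_add_sum_filter_not n.primeFactors (fun p => q < p) w
    have e3 : P.filter (fun p => p ∣ n) = n.primeFactors.filter (fun p => ¬ q < p) := by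
      ext p
      simp only [hP, Finset.mem_filter, Finset.mem_Ioc, Nat.mem_primeFactors]
      constructor
      · rintro ⟨⟨⟨h3, h4⟩, h5⟩, h6⟩
        exact ⟨⟨h5, h6, by omega⟩, by omega⟩
      · rintro ⟨⟨h5, h6, h7⟩, h8⟩
        exact ⟨⟨⟨h5.pos, by omega⟩, h5⟩, h6⟩
    rw [e3] at e1
    rw [← e1, ← e2]
    ring
  have hI : ∑ p ∈ A, ell p - ∑ p ∈ B, ell p ≤ δ := by
    rw [← hdec (fun p => ell p), ← hPr]
    linarith
  set Mx := Real.log n - ∑ p ∈ n.primeFactors, Real.log p with hMx
  have hM0 : 0 ≤ Mx := by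
    have h3 : ∑ p ∈ n.primeFactors, Real.log p = Real.log ((∏ p ∈ n.primeFactors, p : ℕ) : ℝ) := by
      rw [Nat.cast_prod, Real.log_prod]
      intro p hp
      have := (hNpr p hp).1.pos
      positivity
    rw [hMx, h3, sub_nonneg]
    refine Real.log_le_log ?_ ?_
    · exact_mod_cast Finset.prod_pos fun p hp => (hNpr p hp).1.pos
    · exact_mod_cast Nat.le_of_dvd hn (Nat.prod_primeFactors_dvd n)
  have hII : Mx + ∑ p ∈ B, Real.log p - ∑ p ∈ A, Real.log p ≤ Real.log (2 * q) := by
    have h3 := hdec (fun p => Real.log p)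
    rw [← hθ] at h3
    rw [hMx]
    linarith
  have h2q : c * Real.log (2 * q) ≤ 4 / q := by
    have h3 : Real.log (2 * q) ≤ 2 * Real.log q := by
      rw [Real.log_mul (by norm_num) hq0.ne']
      have : Real.log 2 ≤ Real.log q := Real.log_le_log (by norm_num) (by linarith)
      linarith
    calc c * Real.log (2 * q) ≤ c * (2 * Real.log q) := by gcongr
      _ = 2 * ℓq := by rw [← hclq]; ring
      _ ≤ 2 * (2 / q) := by gcongr
      _ = 4 / q := by ring
  have hIII : ∑ p ∈ A, (ell p - c * Real.log p) + ∑ p ∈ B, (c * Real.log p - ell p) + c * Mx ≤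
      δ + 4 / q := by
    rw [Finset.sum_sub_distrib, Finset.sum_sub_distrib, ← Finset.mul_sum, ← Finset.mul_sum]
    have h3 := mul_le_mul_of_nonneg_left hII hc0.le
    nlinarith [h3, hI, h2q]
  -- lower bounds for the weights
  have hAw : ∀ p ∈ A, |(p : ℝ) - q| / (2 * (q : ℝ) ^ 2) ≤ ell p - c * Real.log p := by
    intro p hp
    rw [hA, Finset.mem_filter] at hp
    obtain ⟨hpp, hpq⟩ := hPpr p hp.1
    have hp2 : (2 : ℝ) ≤ p := by exact_mod_cast hpp.two_le
    have hpq' : (p : ℝ) ≤ q := by exact_mod_cast hpq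
    have h3 := ell_diff (a := p) (b := q) (by linarith) hpq'
    have h4 : c * Real.log p ≤ ℓq := by
      rw [← hclq]
      exact mul_le_mul_of_nonneg_left (Real.log_le_log (by linarith) hpq') hc0.le
    have h5 : |(p : ℝ) - q| / (2 * (q : ℝ) ^ 2) ≤ 1 / (p : ℝ) - 1 / q := by
      rw [abs_sub_comm, abs_of_nonneg (by linarith)]
      have : 1 / (p : ℝ) - 1 / q = (q - p) / (p * q) := by
        field_simp
      rw [this]
      refine div_le_div_of_nonneg_left (by linarith) (by positivity) ?_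
      nlinarith
    linarith
  have hBw : ∀ p ∈ B, 0 ≤ c * Real.log p - ell p ∧
      (p ≤ 2 * q → |(p : ℝ) - q| / (2 * (q : ℝ) ^ 2) ≤ c * Real.log p - ell p) ∧
      (2 * q < p → Real.log p / (2 * (q * Real.log q)) ≤ c * Real.log p - ell p) := by
    intro p hp
    rw [hB, Finset.mem_filter] at hp
    obtain ⟨hpp, hpd⟩ := hNpr p hp.1
    have hqp : (q : ℝ) ≤ p := by exact_mod_cast hp.2.le
    have hp0 : (0 : ℝ) < p := by linarith
    have h3 := ell_diff (a := q) (b := p) (by linarith) hqp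
    have h4 : ℓq ≤ c * Real.log p := by
      rw [← hclq]
      exact mul_le_mul_of_nonneg_left (Real.log_le_log hq0 hqp) hc0.le
    have h5 : 0 ≤ 1 / (q : ℝ) - 1 / p := by
      rw [sub_nonneg]
      exact one_div_le_one_div_of_le hq0 hqp
    refine ⟨by linarith, fun hp2 => ?_, fun hp2 => ?_⟩
    · have hp2' : (p : ℝ) ≤ 2 * q := by exact_mod_cast hp2
      have h6 : |(p : ℝ) - q| / (2 * (q : ℝ) ^ 2) ≤ 1 / (q : ℝ) - 1 / p := by
        rw [abs_of_nonneg (by linarith)]
        have : 1 / (q : ℝ) - 1 / p = (p - q) / (q * p) := by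
          field_simp
        rw [this]
        refine div_le_div_of_nonneg_left (by linarith) (by positivity) ?_
        nlinarith
      linarith
    · have hp2' : (2 * q : ℝ) + 1 ≤ p := by exact_mod_cast hp2
      have h6 : ell p ≤ 1 / (2 * q) := by
        refine (ell_upper (by linarith)).trans ?_
        exact one_div_le_one_div_of_le (by positivity) (by linarith)
      have hlp : Real.log q ≤ Real.log p := Real.log_le_log hq0 hqp
      have h7 : 1 / (2 * (q : ℝ)) ≤ Real.log p / (2 * (q * Real.log q)) := by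
        rw [div_le_div_iff₀ (by positivity) (by positivity)]
        nlinarith
      have h8 : Real.log p / (q * Real.log q) ≤ c * Real.log p := by
        have := mul_le_mul_of_nonneg_right hc1 (hlq.le.trans hlp)
        calc Real.log p / (q * Real.log q) = 1 / (q * Real.log q) * Real.log p := by ring
          _ ≤ _ := this
      have h9 : Real.log p / (q * Real.log q) = Real.log p / (2 * (q * Real.log q)) +
          Real.log p / (2 * (q * Real.log q)) := by
        field_simp
        norm_num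
      linarith
  have hA0 : 0 ≤ ∑ p ∈ A, (ell p - c * Real.log p) :=
    Finset.sum_nonneg fun p hp => le_trans (by positivity) (hAw p hp)
  have hB0 : 0 ≤ ∑ p ∈ B, (c * Real.log p - ell p) :=
    Finset.sum_nonneg fun p hp => (hBw p hp).1
  have hcM0 : 0 ≤ c * Mx := mul_nonneg hc0.le hM0
  have hR0 : 0 ≤ δ + 4 / q := by positivity
  have hqlq : 0 < (q : ℝ) * Real.log q := by positivity
  refine ⟨?_, ?_, ?_⟩
  · have h3 : c * Mx ≤ δ + 4 / q := by linarith
    have h4 : 1 / (q * Real.log q) * Mx ≤ δ + 4 / q :=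
      (mul_le_mul_of_nonneg_right hc1 hM0).trans h3
    rw [one_div_mul_eq_div, div_le_iff₀ hqlq] at h4
    linarith
  · have hsub : n.primeFactors.filter (fun p => 2 * q < p) ⊆ B := by
      intro p hp
      rw [Finset.mem_filter] at hp
      rw [hB, Finset.mem_filter]
      exact ⟨hp.1, by omega⟩
    have h3 : ∑ p ∈ n.primeFactors.filter (fun p => 2 * q < p),
        Real.log p / (2 * (q * Real.log q)) ≤ δ + 4 / q := by
      calc _ ≤ ∑ p ∈ n.primeFactors.filter (fun p => 2 * q < p), (c * Real.log p - ell p) := by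
            refine Finset.sum_le_sum fun p hp => ?_
            exact (hBw p (hsub hp)).2.2 (Finset.mem_filter.1 hp).2
        _ ≤ ∑ p ∈ B, (c * Real.log p - ell p) :=
            Finset.sum_le_sum_of_subset_of_nonneg hsub fun p hp _ => (hBw p hp).1
        _ ≤ δ + 4 / q := by linarith
    rw [← Finset.sum_div, div_le_iff₀ (by positivity)] at h3
    linarith
  · have hdif : dif q n = A ∪ B.filter (fun p => p ≤ 2 * q) := by
      ext p
      simp only [dif, hA, hB, hP, Finset.mem_filter, Finset.mem_Icc, Finset.mem_Ioc,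
        Finset.mem_union, Nat.mem_primeFactors]
      constructor
      · rintro ⟨⟨h3, h4⟩, h5, h6 | h6⟩
        · exact Or.inl ⟨⟨⟨by omega, h6.1⟩, h5⟩, h6.2⟩
        · exact Or.inr ⟨⟨⟨h5, h6.2, by omega⟩, h6.1⟩, h4⟩
      · rintro (⟨⟨⟨h3, h4⟩, h5⟩, h6⟩ | ⟨⟨⟨h5, h6, h7⟩, h8⟩, h9⟩)
        · exact ⟨⟨by omega, by omega⟩, h5, Or.inl ⟨h4, h6⟩⟩
        · exact ⟨⟨by omega, h9⟩, h5, Or.inr ⟨h8, h6⟩⟩
    have hdisj : Disjoint A (B.filter (fun p => p ≤ 2 * q)) := by
      rw [Finset.disjoint_left]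
      intro p hp hp'
      rw [hA, Finset.mem_filter] at hp
      rw [Finset.mem_filter, hB, Finset.mem_filter] at hp'
      have := (hPpr p hp.1).2
      omega
    have h3 : ∑ p ∈ dif q n, |(p : ℝ) - q| / (2 * (q : ℝ) ^ 2) ≤ δ + 4 / q := by
      rw [hdif, Finset.sum_union hdisj]
      have h4 : ∑ p ∈ A, |(p : ℝ) - q| / (2 * (q : ℝ) ^ 2) ≤
          ∑ p ∈ A, (ell p - c * Real.log p) := Finset.sum_le_sum hAw
      have h5 : ∑ p ∈ B.filter (fun p => p ≤ 2 * q), |(p : ℝ) - q| / (2 * (q : ℝ) ^ 2) ≤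
          ∑ p ∈ B, (c * Real.log p - ell p) := by
        calc _ ≤ ∑ p ∈ B.filter (fun p => p ≤ 2 * q), (c * Real.log p - ell p) := by
              refine Finset.sum_le_sum fun p hp => ?_
              rw [Finset.mem_filter] at hp
              exact (hBw p hp.1).2.1 hp.2
          _ ≤ _ := Finset.sum_le_sum_of_subset_of_nonneg (Finset.filter_subset _ _)
              fun p hp _ => (hBw p hp).1
      linarith
    rw [← Finset.sum_div, div_le_iff₀ (by positivity)] at h3
    linarith

end Pool.Agent.H424.RB
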