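import Pool.Agent.H424.RB.Base

/-!
# Job RB-LAN0: the transform of `ψ(x) - x`
-/

set_option autoImplicit false

namespace Pool.Agent.H424.RB

open MeasureTheory Filter Topology Set

theorem lan0_cpow_succ (s : ℂ) {t : ℝ} (ht : 1 < t) :
    (t : ℂ) * (t : ℂ) ^ (-s - 1) = (t : ℂ) ^ (-s) := by
  have h0 : (t : ℂ) ≠ 0 := by
    have : t ≠ 0 := by linarith
    exact_mod_cast this
  rw [Complex.cpow_sub _ _ h0, Complex.cpow_one, mul_div_cancel₀ _ h0]

theorem lan0_psi_eq (t : ℝ) :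
    Chebyshev.psi t = ∑ k ∈ Finset.Icc 1 ⌊t⌋₊, ArithmeticFunction.vonMangoldt k := by
  rw [Chebyshev.psi]
  rfl

/-- TARGET -/
theorem psi_transform (s : ℂ) (hs : 1 < s.re) :
    s * riemannZeta₁ s * (∫ t in Ioi (1 : ℝ), ((Chebyshev.psi t - t : ℝ) : ℂ) * (t : ℂ) ^ (-s - 1)) =
      -(riemannZeta₁ s + deriv riemannZeta₁ s) := by
  have hs1 : s ≠ 1 := by
    rintro rfl
    simp at hs
  have hs0 : s ≠ 0 := by
    rintro rfl
    simp at hs
    linarith
  have hsub : s - 1 ≠ 0 := sub_ne_zero.2 hs1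
  have hre : (-s).re < -1 := by
    rw [Complex.neg_re]
    linarith
  -- the integrals
  have hint0 : IntegrableOn (fun t : ℝ => (t : ℂ) ^ (-s)) (Ioi 1) :=
    integrableOn_Ioi_cpow_of_lt hre one_pos
  have hint2 : IntegrableOn (fun t : ℝ => (t : ℂ) * (t : ℂ) ^ (-s - 1)) (Ioi 1) :=
    hint0.congr_fun (fun t ht => (lan0_cpow_succ s ht).symm) measurableSet_Ioi
  have hmeas : Measurable Chebyshev.psi := Chebyshev.psi_mono.measurable
  have hint1 : IntegrableOn (fun t : ℝ => (Chebyshev.psi t : ℂ) * (t : ℂ) ^ (-s - 1)) (Ioi 1) := by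
    refine Integrable.mono' (hint0.norm.const_mul (Real.log 4 + 4)) ?_ ?_
    · refine AEStronglyMeasurable.mul ?_ ?_
      · exact (Complex.measurable_ofReal.comp hmeas).aestronglyMeasurable
      · refine ContinuousOn.aestronglyMeasurable (fun t ht => ?_) measurableSet_Ioi
        exact (Complex.continuousAt_ofReal_cpow_const _ _
          (Or.inr (zero_lt_one.trans ht).ne')).continuousWithinAt
    · refine (ae_restrict_iff' measurableSet_Ioi).2 (Eventually.of_forall fun t ht => ?_)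
      have ht1 : (1 : ℝ) < t := ht
      rw [← lan0_cpow_succ s ht1, norm_mul, norm_mul, ← mul_assoc]
      refine mul_le_mul_of_nonneg_right ?_ (norm_nonneg _)
      rw [Complex.norm_real, Complex.norm_real, Real.norm_of_nonneg (Chebyshev.psi_nonneg t),
        Real.norm_of_nonneg (by linarith)]
      exact Chebyshev.psi_le_const_mul_self (by linarith)
  have hI2 : ∫ t in Ioi (1 : ℝ), (t : ℂ) * (t : ℂ) ^ (-s - 1) = 1 / (s - 1) := by
    rw [setIntegral_congr_fun measurableSet_Ioi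
      (fun t ht => lan0_cpow_succ s ht), integral_Ioi_cpow_of_lt hre one_pos]
    rw [Complex.ofReal_one, Complex.one_cpow]
    have : -s + 1 = -(s - 1) := by ring
    rw [this, neg_div_neg_eq]
  have hO : (fun n : ℕ => ∑ k ∈ Finset.Icc 1 n, ArithmeticFunction.vonMangoldt k)
      =O[atTop] fun n => (n : ℝ) ^ (1 : ℝ) := by
    refine Asymptotics.IsBigO.of_bound (Real.log 4 + 4) (Eventually.of_forall fun n => ?_)
    have h1 : ∑ k ∈ Finset.Icc 1 n, ArithmeticFunction.vonMangoldt k = Chebyshev.psi n := by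
      rw [lan0_psi_eq, Nat.floor_natCast]
    rw [h1, Real.rpow_one, Real.norm_of_nonneg (Chebyshev.psi_nonneg _),
      Real.norm_of_nonneg (Nat.cast_nonneg n)]
    exact Chebyshev.psi_le_const_mul_self (Nat.cast_nonneg n)
  have hL := LSeries_eq_mul_integral_of_nonneg (fun n => ArithmeticFunction.vonMangoldt n)
    (r := 1) zero_le_one (s := s) hs hO (fun n => ArithmeticFunction.vonMangoldt_nonneg)
  have hI1 : ∫ t in Ioi (1 : ℝ), (∑ k ∈ Finset.Icc 1 ⌊t⌋₊,
      ((ArithmeticFunction.vonMangoldt k : ℝ) : ℂ)) * (t : ℂ) ^ (-(s + 1)) =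
      ∫ t in Ioi (1 : ℝ), (Chebyshev.psi t : ℂ) * (t : ℂ) ^ (-s - 1) := by
    refine setIntegral_congr_fun measurableSet_Ioi fun t _ => ?_
    rw [lan0_psi_eq, neg_add, ← sub_eq_add_neg]
    push_cast
    rfl
  rw [hI1] at hL
  have hL2 := ArithmeticFunction.LSeries_vonMangoldt_eq_deriv_riemannZeta_div hs
  have hsplit : ∫ t in Ioi (1 : ℝ), ((Chebyshev.psi t - t : ℝ) : ℂ) * (t : ℂ) ^ (-s - 1) =
      (∫ t in Ioi (1 : ℝ), (Chebyshev.psi t : ℂ) * (t : ℂ) ^ (-s - 1)) -
        ∫ t in Ioi (1 : ℝ), (t : ℂ) * (t : ℂ) ^ (-s - 1) := by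
    rw [← integral_sub hint1 hint2]
    refine setIntegral_congr_fun measurableSet_Ioi fun t _ => ?_
    push_cast
    ring
  rw [hsplit, hI2]
  have hz : riemannZeta s ≠ 0 := riemannZeta_ne_zero_of_one_lt_re hs
  have hz1 : riemannZeta s = (s - 1)⁻¹ * riemannZeta₁ s := riemannZeta_eq_inv_sub_mul hs1
  have hz2 := deriv_riemannZeta_eq_neg_inv_sub_sq_mul_add hs1
  have hZ : riemannZeta₁ s ≠ 0 := by
    intro h
    rw [h, mul_zero] at hz1
    exact hz hz1
  have hkey : s * (∫ t in Ioi (1 : ℝ), (Chebyshev.psi t : ℂ) * (t : ℂ) ^ (-s - 1)) =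
      -deriv riemannZeta s / riemannZeta s := by
    rw [← hL, ← hL2]
  rw [hz1, hz2] at hkey
  set I := ∫ t in Ioi (1 : ℝ), (Chebyshev.psi t : ℂ) * (t : ℂ) ^ (-s - 1) with hI
  have : s * riemannZeta₁ s * (I - 1 / (s - 1)) =
      riemannZeta₁ s * (s * I) - s * riemannZeta₁ s / (s - 1) := by
    field_simp
  rw [this, hkey]
  field_simp
  ring

end Pool.Agent.H424.RB
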