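import Pool.Agent.H424.RB.Lan0

/-!
# The Laplace transform of `J(e^T)` (proof by helper761, job 595)
-/

set_option autoImplicit false

namespace Pool.Agent.H424.RB

open MeasureTheory Filter Topology Set

/-- the integrand of `Jp` -/
noncomputable def lan1r (t : ℝ) : ℝ := (Chebyshev.psi t - t) / t ^ 2

theorem lan1_meas : Measurable lan1r := by
  unfold lan1r
  exact ((Chebyshev.psi_mono.measurable).sub measurable_id).div (measurable_id.pow_const 2)

theorem lan1_int : IntegrableOn lan1r (Ioi 1) := by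
  have h12 : IntegrableOn lan1r (Ioc 1 2) := by
    refine Measure.integrableOn_of_bounded (M := Chebyshev.psi 2 + 2) measure_Ioc_lt_top.ne
      lan1_meas.aestronglyMeasurable ?_
    rw [ae_restrict_iff' measurableSet_Ioc]
    refine Eventually.of_forall fun t ht => ?_
    obtain ⟨h1, h2⟩ := ht
    unfold lan1r
    rw [Real.norm_eq_abs, abs_div]
    have hp0 := Chebyshev.psi_nonneg t
    have hp1 := Chebyshev.psi_mono h2
    have hn : |Chebyshev.psi t - t| ≤ Chebyshev.psi 2 + 2 := by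
      rw [abs_le]
      constructor <;> linarith
    have hd : (1 : ℝ) ≤ |t ^ 2| := by
      rw [abs_of_nonneg (by positivity)]
      nlinarith
    calc |Chebyshev.psi t - t| / |t ^ 2| ≤ |Chebyshev.psi t - t| / 1 := by gcongr
      _ ≤ Chebyshev.psi 2 + 2 := by rw [div_one]; exact hn
  have h2 : IntegrableOn lan1r (Ioi 2) := by
    obtain ⟨C, hC, hb⟩ := psi_pnt 2
    have hg : IntegrableOn (fun t : ℝ => t⁻¹ / Real.log t ^ 2) (Ioi 2) := by
      refine integrableOn_Ioi_deriv_of_nonneg' (g := fun t => -(Real.log t)⁻¹) (l := 0) ?_ ?_ ?_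
      · intro x hx
        have hx2 : (2 : ℝ) ≤ x := hx
        have hl : Real.log x ≠ 0 := (Real.log_pos (by linarith)).ne'
        have := ((Real.hasDerivAt_log (show x ≠ 0 by linarith)).inv hl).neg
        rw [neg_div, neg_neg] at this
        exact this
      · intro x hx
        have hx2 : (2 : ℝ) < x := hx
        positivity
      · have := (tendsto_inv_atTop_zero.comp Real.tendsto_log_atTop).neg
        simpa using this
    refine (hg.const_mul C).mono' lan1_meas.aestronglyMeasurable ?_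
    rw [ae_restrict_iff' measurableSet_Ioi]
    refine Eventually.of_forall fun t ht => ?_
    have ht2 : (2 : ℝ) < t := ht
    have hl : 0 < Real.log t := Real.log_pos (by linarith)
    unfold lan1r
    rw [Real.norm_eq_abs, abs_div, abs_of_nonneg (show (0 : ℝ) ≤ t ^ 2 by positivity),
      div_le_iff₀ (by positivity)]
    refine (hb t ht2.le).trans (le_of_eq ?_)
    field_simp
  have : Ioi (1 : ℝ) = Ioc 1 2 ∪ Ioi 2 := (Ioc_union_Ioi_eq_Ioi (by norm_num)).symm
  rw [this]
  exact h12.union h2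

theorem lan1_jp_eq (y : ℝ) : Jp y = ∫ t in Ioi y, lan1r t := rfl

theorem lan1_bound (y : ℝ) (hy : 1 ≤ y) : |Jp y| ≤ ∫ t in Ioi (1 : ℝ), |lan1r t| := by
  rw [lan1_jp_eq, ← Real.norm_eq_abs]
  refine (norm_integral_le_integral_norm _).trans ?_
  refine setIntegral_mono_set lan1_int.norm (Eventually.of_forall fun t => norm_nonneg _) ?_
  exact (Ioi_subset_Ioi hy).eventuallyLE

theorem lan1_ind_meas : Measurable (Function.uncurry fun (T t : ℝ) =>
    (Ioi (Real.exp T)).indicator lan1r t) := by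
  have h : (Function.uncurry fun (T t : ℝ) => (Ioi (Real.exp T)).indicator lan1r t) =
      {p : ℝ × ℝ | Real.exp p.1 < p.2}.indicator (fun p => lan1r p.2) := by
    ext p
    simp only [Function.uncurry, indicator, mem_Ioi, mem_ofPred_eq]
  rw [h]
  exact (lan1_meas.comp measurable_snd).indicator
    (measurableSet_lt (Real.measurable_exp.comp measurable_fst) measurable_snd)

theorem lan1_jp_meas : Measurable fun T : ℝ => Jp (Real.exp T) := by
  have h : (fun T : ℝ => Jp (Real.exp T)) =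
      fun T => ∫ t, (Ioi (Real.exp T)).indicator lan1r t := by
    ext T
    rw [integral_indicator measurableSet_Ioi]
    rfl
  rw [h]
  exact (lan1_ind_meas.stronglyMeasurable.integral_prod_right (ν := volume)).measurable

/-- `∫_1^∞ r(t) t^{-s} dt` -/
noncomputable def lan1G (s : ℂ) : ℂ := ∫ t in Ioi (1 : ℝ), (lan1r t : ℂ) * (t : ℂ) ^ (-s)

theorem lan1_F_eq (s : ℂ) :
    (∫ t in Ioi (1 : ℝ), ((Chebyshev.psi t - t : ℝ) : ℂ) * (t : ℂ) ^ (-(s + 1) - 1)) = lan1G s := by
  unfold lan1G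
  refine setIntegral_congr_fun measurableSet_Ioi fun t ht => ?_
  have ht1 : (1 : ℝ) < t := ht
  have ht0 : (t : ℂ) ≠ 0 := by
    exact_mod_cast (show t ≠ 0 by linarith)
  have e : -(s + 1) - 1 = -s - (2 : ℕ) := by push_cast; ring
  rw [e, Complex.cpow_sub _ _ ht0, Complex.cpow_natCast]
  unfold lan1r
  push_cast
  ring

theorem lan1_cpow_norm {s : ℂ} (hs : 0 ≤ s.re) {t : ℝ} (ht : 1 < t) : ‖(t : ℂ) ^ (-s)‖ ≤ 1 := by
  rw [Complex.norm_cpow_eq_rpow_re_of_pos (by linarith)]
  exact Real.rpow_le_one_of_one_le_of_nonpos ht.le (by simpa using hs)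

theorem lan1_cpow_meas (s : ℂ) : Measurable fun t : ℝ => (t : ℂ) ^ (-s) :=
  Complex.measurable_ofReal.pow_const _

theorem lan1_G_meas (s : ℂ) : Measurable fun t : ℝ => (lan1r t : ℂ) * (t : ℂ) ^ (-s) :=
  (Complex.measurable_ofReal.comp lan1_meas).mul (lan1_cpow_meas s)

theorem lan1_G_bound {s : ℂ} (hs : 0 ≤ s.re) {t : ℝ} (ht : 1 < t) :
    ‖(lan1r t : ℂ) * (t : ℂ) ^ (-s)‖ ≤ ‖lan1r t‖ := by
  rw [norm_mul, Complex.norm_real]
  exact mul_le_of_le_one_right (norm_nonneg _) (lan1_cpow_norm hs ht)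

theorem lan1_G_int {s : ℂ} (hs : 0 ≤ s.re) :
    IntegrableOn (fun t : ℝ => (lan1r t : ℂ) * (t : ℂ) ^ (-s)) (Ioi 1) := by
  refine lan1_int.norm.mono' (lan1_G_meas s).aestronglyMeasurable ?_
  rw [ae_restrict_iff' measurableSet_Ioi]
  exact Eventually.of_forall fun t ht => lan1_G_bound hs ht

theorem lan1_jp_one : (Jp 1 : ℂ) = -(1 + deriv riemannZeta₁ 1) := by
  have h0 : ∀ n : ℕ, (0 : ℝ) < 1 / ((n : ℝ) + 1) := fun n => Nat.one_div_pos_of_nat
  have hseq : Tendsto (fun n : ℕ => (((1 / ((n : ℝ) + 1) : ℝ)) : ℂ)) atTop (𝓝 0) := by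
    have h := (tendsto_one_div_add_atTop_nhds_zero_nat (𝕜 := ℝ))
    have h2 := (Complex.continuous_ofReal.tendsto (0 : ℝ)).comp h
    rw [Complex.ofReal_zero] at h2
    exact h2
  have hG : Tendsto (fun n : ℕ => lan1G ((1 / ((n : ℝ) + 1) : ℝ) : ℂ)) atTop (𝓝 (Jp 1 : ℂ)) := by
    have hJ : (Jp 1 : ℂ) = ∫ t in Ioi (1 : ℝ), (lan1r t : ℂ) := by
      rw [lan1_jp_eq]
      exact (integral_ofReal (𝕜 := ℂ)).symm
    rw [hJ]
    unfold lan1G
    refine tendsto_integral_of_dominated_convergence (fun t => ‖lan1r t‖)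
      (fun n => (lan1_G_meas _).aestronglyMeasurable) lan1_int.norm (fun n => ?_) ?_
    · rw [ae_restrict_iff' measurableSet_Ioi]
      refine Eventually.of_forall fun t ht => lan1_G_bound ?_ ht
      rw [Complex.ofReal_re]
      exact (h0 n).le
    · rw [ae_restrict_iff' measurableSet_Ioi]
      refine Eventually.of_forall fun t ht => ?_
      have ht1 : (1 : ℝ) < t := ht
      have ht0 : (t : ℂ) ≠ 0 := by
        exact_mod_cast (show t ≠ 0 by linarith)
      have h1 : Tendsto (fun n : ℕ => (t : ℂ) ^ (-(((1 / ((n : ℝ) + 1) : ℝ)) : ℂ))) atTop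
          (𝓝 ((t : ℂ) ^ (-(0 : ℂ)))) :=
        Tendsto.const_cpow hseq.neg (Or.inl ht0)
      have h2 := h1.const_mul (lan1r t : ℂ)
      simpa using h2
  have hs1 : Tendsto (fun n : ℕ => (((1 / ((n : ℝ) + 1) : ℝ)) : ℂ) + 1) atTop (𝓝 1) := by
    have := hseq.add_const 1
    simpa using this
  have hZ : Tendsto (fun n : ℕ => riemannZeta₁ ((((1 / ((n : ℝ) + 1) : ℝ)) : ℂ) + 1)) atTop
      (𝓝 (riemannZeta₁ 1)) :=
    (differentiable_riemannZeta₁.continuous.tendsto 1).comp hs1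
  have hZ' : Tendsto (fun n : ℕ => deriv riemannZeta₁ ((((1 / ((n : ℝ) + 1) : ℝ)) : ℂ) + 1)) atTop
      (𝓝 (deriv riemannZeta₁ 1)) := by
    have hc : Continuous (deriv riemannZeta₁) :=
      (differentiable_riemannZeta₁.contDiff (n := 1)).continuous_deriv le_rfl
    exact (hc.tendsto 1).comp hs1
  have hL := ((hs1.mul hZ).mul hG)
  have hR := (hZ.add hZ').neg
  have heq : ∀ n : ℕ, ((((1 / ((n : ℝ) + 1) : ℝ)) : ℂ) + 1) *
      riemannZeta₁ ((((1 / ((n : ℝ) + 1) : ℝ)) : ℂ) + 1) * lan1G ((1 / ((n : ℝ) + 1) : ℝ) : ℂ) =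
      -(riemannZeta₁ ((((1 / ((n : ℝ) + 1) : ℝ)) : ℂ) + 1) +
        deriv riemannZeta₁ ((((1 / ((n : ℝ) + 1) : ℝ)) : ℂ) + 1)) := by
    intro n
    have := psi_transform ((((1 / ((n : ℝ) + 1) : ℝ)) : ℂ) + 1) (by
      rw [Complex.add_re, Complex.ofReal_re, Complex.one_re]
      have := h0 n
      linarith)
    rw [lan1_F_eq] at this
    exact this
  have := tendsto_nhds_unique (hL.congr heq) hR
  rw [riemannZeta₁_one] at this
  simpa using this

/-- The Fubini step. -/
theorem lan1_fubini {s : ℂ} (hs : 0 < s.re) :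
    s * (∫ T in Ioi (0 : ℝ), Complex.exp (-(s * T)) * ((Jp (Real.exp T) : ℝ) : ℂ)) =
      Jp 1 - lan1G s := by
  have hs0 : s ≠ 0 := by
    intro h
    rw [h] at hs
    simp at hs
  let f : ℝ → ℝ → ℂ := fun T t =>
    Complex.exp (-(s * T)) * (((Ioi (Real.exp T)).indicator lan1r t : ℝ) : ℂ)
  have hexpm : Measurable fun T : ℝ => Complex.exp (-(s * T)) :=
    Complex.measurable_exp.comp ((measurable_const.mul Complex.measurable_ofReal).neg)
  have hexpn : ∀ T : ℝ, ‖Complex.exp (-(s * T))‖ = Real.exp (-s.re * T) := by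
    intro T
    rw [Complex.norm_exp]
    simp
  have hexpi : IntegrableOn (fun T : ℝ => Real.exp (-s.re * T)) (Ioi 0) :=
    integrableOn_exp_mul_Ioi (by linarith) 0
  have hfm : Measurable (Function.uncurry f) := by
    have : Function.uncurry f = fun p : ℝ × ℝ => Complex.exp (-(s * p.1)) *
        ((Function.uncurry (fun (T t : ℝ) => (Ioi (Real.exp T)).indicator lan1r t) p : ℝ) : ℂ) := by
      ext p
      rfl
    rw [this]
    exact (hexpm.comp measurable_fst).mul (Complex.measurable_ofReal.comp lan1_ind_meas)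
  have hfi : Integrable (Function.uncurry f)
      ((volume.restrict (Ioi (0 : ℝ))).prod (volume.restrict (Ioi (1 : ℝ)))) := by
    have hb := Integrable.mul_prod (μ := volume.restrict (Ioi (0 : ℝ)))
      (ν := volume.restrict (Ioi (1 : ℝ))) hexpi lan1_int.norm
    refine hb.mono' hfm.aestronglyMeasurable (Eventually.of_forall fun p => ?_)
    show ‖Complex.exp (-(s * p.1)) * (((Ioi (Real.exp p.1)).indicator lan1r p.2 : ℝ) : ℂ)‖ ≤ _
    rw [norm_mul, hexpn, Complex.norm_real]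
    refine mul_le_mul_of_nonneg_left ?_ (Real.exp_pos _).le
    exact norm_indicator_le_norm_self _ _
  have hsw := integral_integral_swap hfi
  have hl : ∫ T in Ioi (0 : ℝ), ∫ t in Ioi (1 : ℝ), f T t =
      ∫ T in Ioi (0 : ℝ), Complex.exp (-(s * T)) * ((Jp (Real.exp T) : ℝ) : ℂ) := by
    refine setIntegral_congr_fun measurableSet_Ioi fun T hT => ?_
    have hT0 : (0 : ℝ) < T := hT
    have hT1 : 1 ≤ Real.exp T := (Real.one_lt_exp_iff.2 hT0).le
    show ∫ t in Ioi (1 : ℝ), Complex.exp (-(s * T)) *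
      (((Ioi (Real.exp T)).indicator lan1r t : ℝ) : ℂ) = _
    rw [integral_const_mul]
    congr 1
    have h1 : ∫ t in Ioi (1 : ℝ), (((Ioi (Real.exp T)).indicator lan1r t : ℝ) : ℂ) =
        ((∫ t in Ioi (1 : ℝ), (Ioi (Real.exp T)).indicator lan1r t : ℝ) : ℂ) :=
      integral_ofReal (𝕜 := ℂ)
    rw [h1, lan1_jp_eq, setIntegral_indicator measurableSet_Ioi, Ioi_inter_Ioi,
      sup_eq_right.2 hT1]
  have hr : ∫ t in Ioi (1 : ℝ), ∫ T in Ioi (0 : ℝ), f T t =
      ∫ t in Ioi (1 : ℝ), ((lan1r t : ℂ) - (lan1r t : ℂ) * (t : ℂ) ^ (-s)) / s := by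
    refine setIntegral_congr_fun measurableSet_Ioi fun t ht => ?_
    have ht1 : (1 : ℝ) < t := ht
    have ht0 : (0 : ℝ) < t := by linarith
    have htc : (t : ℂ) ≠ 0 := by exact_mod_cast ht0.ne'
    have e1 : ∀ T : ℝ, f T t = (Iio (Real.log t)).indicator
        (fun T : ℝ => (lan1r t : ℂ) * Complex.exp (-s * T)) T := by
      intro T
      show Complex.exp (-(s * T)) * (((Ioi (Real.exp T)).indicator lan1r t : ℝ) : ℂ) = _
      by_cases h : Real.exp T < t
      · have h' : T < Real.log t := by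
          rwa [Real.lt_log_iff_exp_lt ht0]
        rw [indicator_of_mem (show t ∈ Ioi (Real.exp T) from h),
          indicator_of_mem (show T ∈ Iio (Real.log t) from h'), mul_comm, neg_mul]
      · have h' : ¬ T < Real.log t := by
          rwa [Real.lt_log_iff_exp_lt ht0]
        rw [indicator_of_notMem (show t ∉ Ioi (Real.exp T) from h),
          indicator_of_notMem (show T ∉ Iio (Real.log t) from h')]
        simp
    show ∫ T in Ioi (0 : ℝ), f T t = _
    simp only [e1]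
    rw [setIntegral_indicator measurableSet_Iio, Ioi_inter_Iio, integral_const_mul,
      ← integral_Ioc_eq_integral_Ioo,
      ← intervalIntegral.integral_of_le (Real.log_nonneg ht1.le),
      integral_exp_mul_complex (neg_ne_zero.2 hs0)]
    have e2 : (t : ℂ) ^ (-s) = Complex.exp (-s * (Real.log t : ℝ)) := by
      rw [Complex.cpow_def_of_ne_zero htc, Complex.ofReal_log ht0.le, mul_comm]
    rw [e2]
    simp only [Complex.ofReal_zero, mul_zero, Complex.exp_zero]
    field_simp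
    ring
  rw [hl, hr] at hsw
  have hsub : ∫ t in Ioi (1 : ℝ), ((lan1r t : ℂ) - (lan1r t : ℂ) * (t : ℂ) ^ (-s)) =
      (∫ t in Ioi (1 : ℝ), (lan1r t : ℂ)) - ∫ t in Ioi (1 : ℝ), (lan1r t : ℂ) * (t : ℂ) ^ (-s) :=
    integral_sub (Integrable.ofReal (𝕜 := ℂ) lan1_int) (lan1_G_int hs.le)
  rw [hsw, integral_div, hsub]
  have hJ : (Jp 1 : ℂ) = ∫ t in Ioi (1 : ℝ), (lan1r t : ℂ) := by
    rw [lan1_jp_eq]
    exact (integral_ofReal (𝕜 := ℂ)).symm
  rw [hJ]
  unfold lan1G
  field_simp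

/-- TARGET -/
theorem jp_laplace :
    (∃ B : ℝ, ∀ y : ℝ, 1 ≤ y → |Jp y| ≤ B) ∧
    (Measurable fun T : ℝ => Jp (Real.exp T)) ∧
    ((Jp 1 : ℂ) = -(1 + deriv riemannZeta₁ 1)) ∧
    ∀ s : ℂ, 0 < s.re →
      (s + 1) * riemannZeta₁ (s + 1) *
        (s * (∫ T in Ioi (0 : ℝ), Complex.exp (-(s * T)) * ((Jp (Real.exp T) : ℝ) : ℂ)) - Jp 1) =
      riemannZeta₁ (s + 1) + deriv riemannZeta₁ (s + 1) := by
  refine ⟨⟨_, lan1_bound⟩, lan1_jp_meas, lan1_jp_one, fun s hs => ?_⟩
  rw [lan1_fubini hs]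
  have h := psi_transform (s + 1) (by
    rw [Complex.add_re, Complex.one_re]
    linarith)
  rw [lan1_F_eq] at h
  linear_combination (-1) * h

end Pool.Agent.H424.RB
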