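import Pool.Agent.H424.RB.Base


/-!
# Job RB-MERT: an exact form of Mertens' third theorem

`Pr y = ∑_{p ≤ y} -log(1 - 1/p)`, `Kt y = ∫_{t>y} (θ(t) - t)(1 + log t)/(t² log² t) dt`, `θ = Chebyshev.theta`,
`γ = Real.eulerMascheroniConstant`.

Plain-words proof of the target.  Put `k(t) = (θ(t) - t)(1 + log t)/(t² log² t)`; by `theta_pnt` with `A = 1`,
`|k(t)| ≤ C (1 + log t)/(t log³ t) ≤ C'/(t log² t)` for `t ≥ 2`, so `k` is integrable on `(2, ∞)` and
`Kt(y) → 0` as `y → ∞`.  Put `E(y) = (θ(y) - y)/(y log y)`; `E(y) → 0` by `theta_pnt`.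
(1) Abel summation (`sum_mul_eq_sub_sub_integral_mul` and relatives in Mathlib; or the formulas for `θ` in
    `Mathlib/NumberTheory/Chebyshev.lean` as a model), with `f(t) = 1/(t log t)`, `f'(t) = -(1 + log t)/(t log t)²`:
    for `2 ≤ a ≤ y`, `∑_{a < p ≤ y} 1/p = θ(y) f(y) - θ(a) f(a) + ∫_a^y θ(t) (1 + log t)/(t² log² t) dt`.
    Also (fundamental theorem; `(log log t - 1/log t)' = (1 + log t)/(t log² t)`)
    `∫_a^y t (1 + log t)/(t² log² t) dt = log log y - 1/log y - log log a + 1/log a`, and `y f(y) = 1/log y`.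
    Subtracting: `∑_{a < p ≤ y} 1/p - (log log y - log log a) = E(y) - E(a) + ∫_a^y k = E(y) - E(a) + Kt(a) - Kt(y)`.
(2) So `S(y) := ∑_{p ≤ y} 1/p - log log y - E(y) + Kt(y)` is constant on `[2, ∞)`.
(3) `-log(1-1/p) - 1/p ≥ 0` and `≤ 1/(2p(p-1))` for `p ≥ 2` (`-log(1-x) - x = ∑_{k≥2} x^k/k ≤ (x²/2)/(1-x)`), so for
    `2 ≤ y ≤ z`: `0 ≤ ∑_{y < p ≤ z} (-log(1-1/p) - 1/p) ≤ ∑_{n > ⌊y⌋} 1/(2n(n-1)) = 1/(2⌊y⌋) ≤ 1/y` (telescoping;
    `⌊y⌋ ≥ y/2`).
(4) By (2) and (3), for `2 ≤ y ≤ z`, `(Pr z - log log z - E z + Kt z) - (Pr y - log log y - E y + Kt y) ∈ [0, 1/y]`.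
    Let `z → ∞`: by `Pr_mertens` and `E z → 0`, `Kt z → 0` the first bracket tends to `γ`.  So
    `γ - Pr y + log log y + E y - Kt y ∈ [0, 1/y]`, which is the claim.
-/

set_option autoImplicit false

namespace Pool.Agent.H424.RB

open MeasureTheory Filter Topology Set

/-- `∑_{p ≤ N} (-log(1-1/p) - 1/p)` -/
noncomputable def Rn (N : ℕ) : ℝ :=
  ∑ p ∈ (Finset.Ioc 0 N).filter Nat.Prime, (-Real.log (1 - 1 / (p : ℝ)) - 1 / (p : ℝ))

lemma Rn_term (n : ℕ) (hn : 2 ≤ n) : 0 ≤ -Real.log (1 - 1 / (n : ℝ)) - 1 / (n : ℝ) ∧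
    -Real.log (1 - 1 / (n : ℝ)) - 1 / (n : ℝ) ≤ 1 / ((n : ℝ) - 1) - 1 / (n : ℝ) := by
  have h2 : (2 : ℝ) ≤ n := by exact_mod_cast hn
  have hx : 1 / (n : ℝ) ≤ 1 / 2 := one_div_le_one_div_of_le (by norm_num) h2
  have hx0 : 0 < 1 / (n : ℝ) := by positivity
  have hpos : 0 < 1 - 1 / (n : ℝ) := by linarith
  constructor
  · have := Real.log_le_sub_one_of_pos hpos
    linarith
  · have h1 := Real.log_le_sub_one_of_pos (inv_pos.mpr hpos)
    rw [Real.log_inv] at h1
    have h3 : (1 - 1 / (n : ℝ))⁻¹ - 1 = 1 / ((n : ℝ) - 1) := by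
      have : (n : ℝ) - 1 ≠ 0 := by linarith
      have : (n : ℝ) ≠ 0 := by linarith
      field_simp
      ring
    linarith

lemma Rn_succ (N : ℕ) : Rn (N + 1) = Rn N +
    (if Nat.Prime (N + 1) then (-Real.log (1 - 1 / ((N + 1 : ℕ) : ℝ)) - 1 / ((N + 1 : ℕ) : ℝ)) else 0) := by
  unfold Rn
  rw [Finset.sum_filter, Finset.sum_filter, Finset.sum_Ioc_succ_top (Nat.zero_le _)]

lemma Rn_bound (M : ℕ) (hM : 1 ≤ M) (N : ℕ) (h : M ≤ N) :
    0 ≤ Rn N - Rn M ∧ Rn N - Rn M ≤ 1 / (M : ℝ) - 1 / (N : ℝ) := by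
  induction N, h using Nat.le_induction with
  | base => simp
  | succ N hN ih =>
    rw [Rn_succ]
    have hN1 : 2 ≤ N + 1 := by omega
    have ht := Rn_term (N + 1) hN1
    have hNpos : (1 : ℝ) ≤ N := by exact_mod_cast (by omega : 1 ≤ N)
    have hcast : ((N + 1 : ℕ) : ℝ) - 1 = N := by push_cast; ring
    rw [hcast] at ht
    split_ifs with hp
    · constructor <;> linarith [ih.1, ih.2, ht.1, ht.2]
    · have : 1 / ((N + 1 : ℕ) : ℝ) ≤ 1 / (N : ℝ) := one_div_le_one_div_of_le (by linarith) (by push_cast; linarith)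
      constructor <;> linarith [ih.1, ih.2]

/-- `∑_{p ≤ y} 1/p` -/
noncomputable def Sp (y : ℝ) : ℝ := ∑ p ∈ (Finset.Ioc 0 ⌊y⌋₊).filter Nat.Prime, 1 / (p : ℝ)

lemma Pr_eq (y : ℝ) : Pr y = Sp y + Rn ⌊y⌋₊ := by
  unfold Pr Sp Rn
  rw [← Finset.sum_add_distrib]
  refine Finset.sum_congr rfl fun p _ => ?_
  ring

lemma log_pos' {t : ℝ} (ht : 2 ≤ t) : 0 < Real.log t := Real.log_pos (by linarith)

lemma hasDeriv_f {t : ℝ} (ht : 2 ≤ t) :
    HasDerivAt (fun t : ℝ => (t * Real.log t)⁻¹) (-((1 + Real.log t) / (t ^ 2 * Real.log t ^ 2))) t := by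
  have hl := log_pos' ht
  have h0 : t ≠ 0 := by linarith
  have h1 : HasDerivAt (fun t : ℝ => t * Real.log t) (1 * Real.log t + t * t⁻¹) t :=
    (hasDerivAt_id t).mul (Real.hasDerivAt_log h0)
  have h2 := h1.inv (by positivity)
  have e : -((1 + Real.log t) / (t ^ 2 * Real.log t ^ 2)) = -(1 * Real.log t + t * t⁻¹) / (t * Real.log t) ^ 2 := by
    field_simp
    ring
  rw [e]
  exact h2

lemma hasDeriv_g {t : ℝ} (ht : 2 ≤ t) :
    HasDerivAt (fun t : ℝ => Real.log (Real.log t) - (Real.log t)⁻¹)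
      (t * (1 + Real.log t) / (t ^ 2 * Real.log t ^ 2)) t := by
  have hl := log_pos' ht
  have h0 : t ≠ 0 := by linarith
  have h1 := (Real.hasDerivAt_log h0).log hl.ne'
  have h2 := (Real.hasDerivAt_log h0).inv hl.ne'
  have h3 := h1.sub h2
  have e : t * (1 + Real.log t) / (t ^ 2 * Real.log t ^ 2) = t⁻¹ / Real.log t - -t⁻¹ / Real.log t ^ 2 := by
    field_simp
    ring
  rw [e]
  exact h3

lemma cont_k {a b : ℝ} (ha : 2 ≤ a) :
    ContinuousOn (fun t : ℝ => (1 + Real.log t) / (t ^ 2 * Real.log t ^ 2)) (Icc a b) := by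
  intro t ht
  have h2 : 2 ≤ t := le_trans ha ht.1
  have hl := log_pos' h2
  have h0 : t ≠ 0 := by linarith
  have h1 : t ^ 2 * Real.log t ^ 2 ≠ 0 := by positivity
  apply ContinuousAt.continuousWithinAt
  fun_prop (disch := assumption)

lemma int_theta {y : ℝ} :
    IntegrableOn (fun t : ℝ => Chebyshev.theta t * ((1 + Real.log t) / (t ^ 2 * Real.log t ^ 2))) (Icc 2 y) := by
  have h1 : (fun t : ℝ => Chebyshev.theta t * ((1 + Real.log t) / (t ^ 2 * Real.log t ^ 2))) =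
      (fun t : ℝ => ((1 + Real.log t) / (t ^ 2 * Real.log t ^ 2)) * ∑ k ∈ Finset.Icc 0 ⌊t⌋₊,
        (if Nat.Prime k then Real.log k else 0)) := by
    funext t
    rw [Chebyshev.theta_eq_sum_Icc, Finset.sum_filter, mul_comm]
  rw [h1]
  exact integrableOn_mul_sum_Icc _ (by norm_num) ((cont_k le_rfl).integrableOn_Icc)

lemma Sp_abel {y : ℝ} (hy : 2 ≤ y) : Sp y = Chebyshev.theta y * (y * Real.log y)⁻¹ +
    ∫ t in (2:ℝ)..y, Chebyshev.theta t * ((1 + Real.log t) / (t ^ 2 * Real.log t ^ 2)) := by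
  let a : ℕ → ℝ := fun n => if Nat.Prime n then Real.log n else 0
  have e1 : Sp y = ∑ n ∈ Finset.Icc 0 ⌊y⌋₊, ((n : ℝ) * Real.log n)⁻¹ * a n := by
    unfold Sp
    rw [Finset.sum_filter, ← Finset.add_sum_Ioc_eq_sum_Icc (Nat.zero_le _)]
    simp only [a]
    rw [if_neg Nat.not_prime_zero, mul_zero, zero_add]
    refine Finset.sum_congr rfl fun n hn => ?_
    split_ifs with hp
    · have : 0 < Real.log n := Real.log_pos (by exact_mod_cast hp.one_lt)
      have h0 : (0:ℝ) < n := by exact_mod_cast hp.pos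
      field_simp
    · simp
  rw [e1, sum_mul_eq_sub_integral_mul₁ a (f := fun t : ℝ => (t * Real.log t)⁻¹)
    (by simp [a, Nat.not_prime_zero]) (by simp [a, Nat.not_prime_one]),
    ← intervalIntegral.integral_of_le hy]
  · have hth : ∀ t : ℝ, ∑ k ∈ Finset.Icc 0 ⌊t⌋₊, a k = Chebyshev.theta t := by
      intro t
      rw [Chebyshev.theta_eq_sum_Icc, Finset.sum_filter]
    simp only [hth]
    have hi : ∫ t in (2:ℝ)..y, deriv (fun t : ℝ => (t * Real.log t)⁻¹) t * Chebyshev.theta t =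
        ∫ t in (2:ℝ)..y, -(Chebyshev.theta t * ((1 + Real.log t) / (t ^ 2 * Real.log t ^ 2))) := by
      refine intervalIntegral.integral_congr fun t ht => ?_
      rw [uIcc_of_le hy] at ht
      have := (hasDeriv_f ht.1).deriv
      show deriv (fun t : ℝ => (t * Real.log t)⁻¹) t * Chebyshev.theta t = _
      rw [this]
      ring
    rw [hi, intervalIntegral.integral_neg]
    ring
  · intro t ht
    exact (hasDeriv_f ht.1).differentiableAt
  · refine (((cont_k (a := 2) (b := y) le_rfl).neg).congr ?_).integrableOn_Icc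
    intro t ht
    exact (hasDeriv_f ht.1).deriv

lemma int_kt {y : ℝ} : IntegrableOn kt (Icc 2 y) := by
  have h1 : kt = fun t : ℝ => Chebyshev.theta t * ((1 + Real.log t) / (t ^ 2 * Real.log t ^ 2)) -
      t * ((1 + Real.log t) / (t ^ 2 * Real.log t ^ 2)) := by
    funext t
    unfold kt
    ring
  rw [h1]
  exact int_theta.sub ((continuousOn_id.mul (cont_k le_rfl)).integrableOn_Icc)

lemma Sp_kt {y : ℝ} (hy : 2 ≤ y) : Sp y = (Chebyshev.theta y - y) / (y * Real.log y) + Real.log (Real.log y) +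
    (∫ t in (2:ℝ)..y, kt t) + ((Real.log 2)⁻¹ - Real.log (Real.log 2)) := by
  have hl := log_pos' hy
  rw [Sp_abel hy]
  have hII : IntervalIntegrable (fun t : ℝ => Chebyshev.theta t * ((1 + Real.log t) / (t ^ 2 * Real.log t ^ 2)))
      volume 2 y := by
    rw [intervalIntegrable_iff_integrableOn_Icc_of_le hy]
    exact int_theta
  have hIJ : IntervalIntegrable (fun t : ℝ => t * (1 + Real.log t) / (t ^ 2 * Real.log t ^ 2))
      volume 2 y := by
    rw [intervalIntegrable_iff_integrableOn_Icc_of_le hy]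
    refine ((continuousOn_id.mul (cont_k (a := 2) (b := y) le_rfl)).congr ?_).integrableOn_Icc
    intro t _
    simp only [id, Pi.mul_apply]
    ring
  have h1 : ∫ t in (2:ℝ)..y, kt t = (∫ t in (2:ℝ)..y, Chebyshev.theta t * ((1 + Real.log t) / (t ^ 2 * Real.log t ^ 2))) -
      ∫ t in (2:ℝ)..y, t * (1 + Real.log t) / (t ^ 2 * Real.log t ^ 2) := by
    rw [← intervalIntegral.integral_sub hII hIJ]
    refine intervalIntegral.integral_congr fun t _ => ?_
    unfold kt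
    ring
  have h2 : ∫ t in (2:ℝ)..y, t * (1 + Real.log t) / (t ^ 2 * Real.log t ^ 2) =
      (Real.log (Real.log y) - (Real.log y)⁻¹) - (Real.log (Real.log 2) - (Real.log 2)⁻¹) := by
    refine intervalIntegral.integral_eq_sub_of_hasDerivAt
      (f := fun t : ℝ => Real.log (Real.log t) - (Real.log t)⁻¹) (fun t ht => ?_) hIJ
    rw [uIcc_of_le hy] at ht
    exact hasDeriv_g ht.1
  rw [h1, h2]
  have h3 : (Chebyshev.theta y - y) / (y * Real.log y) = Chebyshev.theta y * (y * Real.log y)⁻¹ - (Real.log y)⁻¹ := by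
    have : y ≠ 0 := by linarith
    field_simp
  rw [h3]
  ring

lemma kt_bound : ∃ C : ℝ, 0 < C ∧ ∀ t : ℝ, 2 ≤ t → |kt t| ≤ C * (t⁻¹ / Real.log t ^ 2) := by
  obtain ⟨C, hC, h⟩ := theta_pnt 1
  refine ⟨C * ((Real.log 2)⁻¹ + 1), by have := Real.log_pos (show (1:ℝ) < 2 by norm_num); positivity, fun t ht => ?_⟩
  have hl := log_pos' ht
  have hl2 : 0 < Real.log 2 := Real.log_pos (by norm_num)
  have hll : Real.log 2 ≤ Real.log t := Real.log_le_log (by norm_num) ht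
  have ht0 : 0 < t := by linarith
  have h1 := h t ht
  rw [pow_one] at h1
  unfold kt
  rw [abs_div, abs_mul, abs_of_pos (show 0 < 1 + Real.log t by linarith),
    abs_of_pos (show 0 < t ^ 2 * Real.log t ^ 2 by positivity)]
  have h2 : (1 + Real.log t) ≤ ((Real.log 2)⁻¹ + 1) * Real.log t := by
    have : 1 ≤ (Real.log 2)⁻¹ * Real.log t := by
      rw [inv_mul_eq_div, le_div_iff₀ hl2]; linarith
    linarith
  calc |Chebyshev.theta t - t| * (1 + Real.log t) / (t ^ 2 * Real.log t ^ 2)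
      ≤ (C * t / Real.log t) * (((Real.log 2)⁻¹ + 1) * Real.log t) / (t ^ 2 * Real.log t ^ 2) := by
        gcongr
    _ = C * ((Real.log 2)⁻¹ + 1) * (t⁻¹ / Real.log t ^ 2) := by
        field_simp

lemma int_dom : IntegrableOn (fun t : ℝ => t⁻¹ / Real.log t ^ 2) (Ioi 2) := by
  have hd : ∀ x ∈ Ici (2:ℝ), HasDerivAt (fun t : ℝ => -(Real.log t)⁻¹) (x⁻¹ / Real.log x ^ 2) x := by
    intro x hx
    have hl := log_pos' (show (2:ℝ) ≤ x from hx)
    have h0 : x ≠ 0 := by have : (2:ℝ) ≤ x := hx; linarith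
    have h2 := ((Real.hasDerivAt_log h0).inv hl.ne').neg
    have e : x⁻¹ / Real.log x ^ 2 = -(-x⁻¹ / Real.log x ^ 2) := by ring
    rw [e]
    exact h2
  refine integrableOn_Ioi_deriv_of_nonneg' hd (fun x hx => ?_) (l := 0) ?_
  · have hx' : (2:ℝ) < x := hx
    have hl := log_pos' hx'.le
    have : 0 < x := by linarith
    positivity
  · have := (tendsto_inv_atTop_zero.comp Real.tendsto_log_atTop).neg
    simpa using this

lemma int_kt_Ioi : IntegrableOn kt (Ioi 2) := by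
  obtain ⟨C, hC, h⟩ := kt_bound
  refine Integrable.mono' (int_dom.const_mul C) ?_ ?_
  · refine Measurable.aestronglyMeasurable ?_
    unfold kt
    have := Chebyshev.theta_mono.measurable
    fun_prop
  · filter_upwards [ae_restrict_mem measurableSet_Ioi] with t ht
    rw [Real.norm_eq_abs]
    exact h t (le_of_lt ht)

lemma Kt_sub {y : ℝ} (hy : 2 ≤ y) : ∫ t in (2:ℝ)..y, kt t = Kt 2 - Kt y := by
  unfold Kt
  rw [intervalIntegral.integral_Ioi_sub_Ioi int_kt_Ioi hy]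

lemma Kt_tendsto : Tendsto Kt atTop (𝓝 0) := by
  have h1 := intervalIntegral_tendsto_integral_Ioi 2 int_kt_Ioi tendsto_id
  have h2 : Tendsto (fun y : ℝ => Kt 2 - ∫ t in (2:ℝ)..y, kt t) atTop (𝓝 (Kt 2 - Kt 2)) :=
    tendsto_const_nhds.sub h1
  rw [sub_self] at h2
  refine h2.congr' ?_
  filter_upwards [eventually_ge_atTop (2:ℝ)] with y hy
  rw [Kt_sub hy]
  ring

lemma E_tendsto : Tendsto (fun y : ℝ => (Chebyshev.theta y - y) / (y * Real.log y)) atTop (𝓝 0) := by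
  obtain ⟨C, hC, h⟩ := theta_pnt 1
  have h0 : Tendsto (fun y : ℝ => C * (Real.log y)⁻¹ * (Real.log y)⁻¹) atTop (𝓝 0) := by
    have h1 := tendsto_inv_atTop_zero.comp Real.tendsto_log_atTop
    have := (h1.const_mul C).mul h1
    simpa using this
  refine squeeze_zero_norm' ?_ h0
  filter_upwards [eventually_ge_atTop (2:ℝ)] with y hy
  have hl := log_pos' hy
  have hy0 : 0 < y := by linarith
  have h1 := h y hy
  rw [pow_one] at h1
  rw [Real.norm_eq_abs, abs_div, abs_of_pos (show 0 < y * Real.log y by positivity),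
    div_le_iff₀ (by positivity)]
  refine h1.trans (le_of_eq ?_)
  field_simp

lemma D_eq {y : ℝ} (hy : 2 ≤ y) :
    Real.log (Real.log y) + (Chebyshev.theta y - y) / (y * Real.log y) - Kt y - Pr y =
      -(Kt 2 + ((Real.log 2)⁻¹ - Real.log (Real.log 2))) - Rn ⌊y⌋₊ := by
  rw [Pr_eq, Sp_kt hy, Kt_sub hy]
  ring

lemma Rn_tendsto : Tendsto (fun y : ℝ => Rn ⌊y⌋₊) atTop
    (𝓝 (Real.eulerMascheroniConstant - (Kt 2 + ((Real.log 2)⁻¹ - Real.log (Real.log 2))))) := by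
  have h1 := ((Pr_mertens.sub E_tendsto).add Kt_tendsto).sub_const
    (Kt 2 + ((Real.log 2)⁻¹ - Real.log (Real.log 2)))
  rw [sub_zero, add_zero] at h1
  refine h1.congr' ?_
  filter_upwards [eventually_ge_atTop (2:ℝ)] with y hy
  have := D_eq hy
  linarith

/-- TARGET -/
theorem mertens_exact : IntegrableOn kt (Ioi 2) ∧ ∀ y : ℝ, 2 ≤ y →
    0 ≤ Real.eulerMascheroniConstant + Real.log (Real.log y) + (Chebyshev.theta y - y) / (y * Real.log y)
      - Kt y - Pr y ∧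
    Real.eulerMascheroniConstant + Real.log (Real.log y) + (Chebyshev.theta y - y) / (y * Real.log y)
      - Kt y - Pr y ≤ 2 / y := by
  refine ⟨int_kt_Ioi, fun y hy => ?_⟩
  have hD := D_eq hy
  have hM : 1 ≤ ⌊y⌋₊ := by
    rw [Nat.one_le_floor_iff]; linarith
  have hlow : Rn ⌊y⌋₊ ≤ Real.eulerMascheroniConstant - (Kt 2 + ((Real.log 2)⁻¹ - Real.log (Real.log 2))) := by
    refine ge_of_tendsto Rn_tendsto ?_
    filter_upwards [eventually_ge_atTop y] with z hz
    have := (Rn_bound _ hM _ (Nat.floor_le_floor hz)).1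
    linarith
  have hhigh : Real.eulerMascheroniConstant - (Kt 2 + ((Real.log 2)⁻¹ - Real.log (Real.log 2))) ≤
      Rn ⌊y⌋₊ + 1 / (⌊y⌋₊ : ℝ) := by
    refine le_of_tendsto Rn_tendsto ?_
    filter_upwards [eventually_ge_atTop y] with z hz
    have h1 := (Rn_bound _ hM _ (Nat.floor_le_floor hz)).2
    have h2 : 0 ≤ 1 / (⌊z⌋₊ : ℝ) := by positivity
    linarith
  have hfl : 1 / (⌊y⌋₊ : ℝ) ≤ 2 / y := by
    have h1 := Nat.lt_floor_add_one y
    have h2 : (1:ℝ) ≤ (⌊y⌋₊ : ℝ) := by exact_mod_cast hM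
    rw [div_le_div_iff₀ (by linarith) (by linarith)]
    linarith
  constructor
  · linarith
  · linarith

end Pool.Agent.H424.RB
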