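import Pool.Agent.H424.RB.KLev


/-!
# Job RB-PEAK: local maxima of `y^η K(y)`

`kt t = (θ(t) - t)(1 + log t)/(t² log² t)`, `Kt y = ∫_{t>y} kt`, `θ = Chebyshev.theta`.

Plain-words proof of the target.
Let `φ(y) = y^η Kt(y)`; `Kt` is continuous on `[2, ∞)` (integral of the integrable function `kt` over `(y, ∞)`),
`Kt(a) - Kt(b) = ∫_a^b kt` for `2 ≤ a ≤ b`.  Given `Y` (assume `Y ≥ 4`): `φ` is bounded above on `[4, Y]` by some `B ≥ 1`
(continuity, compactness).  By `h2` there is `y1 ≥ Y` with `y1^(η/2) > B` and `φ(y1) ≥ y1^η y1^(-η/2) = y1^(η/2) > B`.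
By `h1` there is `Z ≥ y1` with `Kt(Z) ≤ 0`.  Let `y2` be a point of `[4, Z]` at which `φ` is maximal.  Then
`φ(y2) ≥ φ(y1) > B ≥ 1`, so `y2 > Y` (else `φ(y2) ≤ B`), `Kt(y2) ≥ y2^(-η) > 0`, and `y2 ≠ Z` as `φ(Z) ≤ 0`.
 * Right side: let `θ(y2) < y2`, for contradiction.  On `[y2, ⌊y2⌋ + 1)` `θ` is constant (`Chebyshev.theta_eq_theta_coe_floor`),
   so `kt < 0` there, so `Kt(y2 + s) > Kt(y2)` for small `s > 0` and `φ(y2 + s) > φ(y2)`, contradicting maximality
   (`y2 + s ≤ Z` for small `s`).  So `θ(y2) ≥ y2`.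
 * Left side: let `D = θ(y2) - log y2 - y2`; suppose `D > η Kt(y2) y2 log y2 > 0`, for contradiction.  For `t ∈ (y2 - 1, y2)`:
   `θ(t) ≥ θ(y2) - log y2` (at most one integer in `(t, y2]`), so `θ(t) - t ≥ D`, and
   `kt t ≥ D (1 + log t)/(t² log² t) ≥ D/(t² log t) ≥ D/(y2² log y2)`.  So for small `s > 0`
   `Kt(y2 - s) - Kt(y2) ≥ s D/(y2² log y2)`.  By maximality `Kt(y2 - s) ≤ (y2/(y2 - s))^η Kt(y2) = (1 - s/y2)^(-η) Kt(y2)`.
   So `s D/(y2² log y2) ≤ Kt(y2) ((1 - s/y2)^(-η) - 1)` for all small `s > 0`.  Divide by `s` and let `s → 0`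
   (derivative of `(1 - s/y2)^(-η)` at `0` is `η/y2`): `D/(y2² log y2) ≤ η Kt(y2)/y2`, i.e. `D ≤ η Kt(y2) y2 log y2`,
   contradiction.
-/

set_option autoImplicit false

namespace Pool.Agent.H424.RB

open MeasureTheory Filter Topology Set

theorem kt_intOn {a b : ℝ} (ha : 2 ≤ a) : IntegrableOn kt (Ioc a b) :=
  int_kt_Ioi.mono_set (fun _ ht => lt_of_le_of_lt ha ht.1)

theorem Kt_split {a b : ℝ} (ha : 2 ≤ a) (hab : a ≤ b) : Kt a = (∫ t in Ioc a b, kt t) + Kt b := by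
  unfold Kt
  rw [← Ioc_union_Ioi_eq_Ioi hab]
  refine setIntegral_union ?_ measurableSet_Ioi (kt_intOn ha) ?_
  · rw [Set.disjoint_left]
    intro x hx hx'
    exact absurd hx.2 (not_le.mpr hx')
  · exact int_kt_Ioi.mono_set (Ioi_subset_Ioi (ha.trans hab))

theorem Kt_cont {b : ℝ} : ContinuousOn Kt (Icc 2 b) := by
  have h : ContinuousOn (fun x => Kt 2 - ∫ t in Ioc 2 x, kt t) (Icc 2 b) := by
    refine continuousOn_const.sub (intervalIntegral.continuousOn_primitive ?_)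
    rw [integrableOn_Icc_iff_integrableOn_Ioc]
    exact kt_intOn le_rfl
  refine h.congr fun x hx => ?_
  have := Kt_split (le_refl (2:ℝ)) hx.1
  simp only
  linarith

/-- the jump of `θ` over an interval with at most one integer -/
theorem theta_jump {s t : ℝ} (hs : 1 ≤ s) (hst : s ≤ t) (h1 : t < s + 1) :
    Chebyshev.theta t - Real.log t ≤ Chebyshev.theta s := by
  have hs0 : 0 ≤ s := by linarith
  have hfl : ⌊t⌋₊ ≤ ⌊s⌋₊ + 1 := by
    have h2 : t < (⌊s⌋₊ : ℝ) + 1 + 1 := by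
      have := Nat.lt_floor_add_one s
      linarith
    have h3 : ⌊t⌋₊ < ⌊s⌋₊ + 2 := by
      rw [Nat.floor_lt (by linarith)]
      push_cast
      linarith
    omega
  have hge : ⌊s⌋₊ ≤ ⌊t⌋₊ := Nat.floor_mono hst
  have hlogt : 0 ≤ Real.log t := Real.log_nonneg (by linarith)
  rcases Nat.lt_or_ge ⌊s⌋₊ ⌊t⌋₊ with h | h
  · have heq : ⌊t⌋₊ = ⌊s⌋₊ + 1 := by omega
    have hle : (⌊t⌋₊ : ℝ) ≤ t := Nat.floor_le (by linarith)
    have hpos : (0:ℝ) < (⌊t⌋₊ : ℝ) := by
      rw [heq]; positivity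
    have hlog : Real.log (⌊t⌋₊ : ℝ) ≤ Real.log t := Real.log_le_log hpos hle
    have key : Chebyshev.theta t ≤ Chebyshev.theta s + Real.log (⌊t⌋₊ : ℝ) := by
      unfold Chebyshev.theta
      rw [heq]
      rw [← Finset.insert_Ioc_right_eq_Ioc_add_one (Nat.zero_le _), Finset.filter_insert]
      split_ifs with hp
      · rw [Finset.sum_insert]
        · push_cast; linarith
        · simp
      · have : 0 ≤ Real.log ((⌊s⌋₊ + 1 : ℕ) : ℝ) := Real.log_natCast_nonneg _
        linarith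
    linarith
  · have heq : ⌊t⌋₊ = ⌊s⌋₊ := by omega
    have : Chebyshev.theta t = Chebyshev.theta s := by
      rw [Chebyshev.theta_eq_theta_coe_floor t, heq, ← Chebyshev.theta_eq_theta_coe_floor s]
    linarith

/-- right side of the peak -/
theorem peak_right {η y Z : ℝ} (hη : 0 < η) (hy : 4 ≤ y) (hZ : y < Z) (hK : 0 < Kt y)
    (hmax : ∀ z ∈ Icc 4 Z, z ^ η * Kt z ≤ y ^ η * Kt y) : 0 ≤ Chebyshev.theta y - y := by
  by_contra hcon
  push Not at hcon
  have hfl : y < (⌊y⌋₊ : ℝ) + 1 := Nat.lt_floor_add_one y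
  obtain ⟨z, hz1, hz2⟩ := exists_between (lt_min hfl hZ)
  have hz3 : z < (⌊y⌋₊ : ℝ) + 1 := lt_of_lt_of_le hz2 (min_le_left _ _)
  have hz4 : z < Z := lt_of_lt_of_le hz2 (min_le_right _ _)
  have hneg : (∫ t in Ioc y z, kt t) ≤ 0 := by
    refine setIntegral_nonpos measurableSet_Ioc fun t ht => ?_
    have htfl : ⌊t⌋₊ = ⌊y⌋₊ := by
      rw [Nat.floor_eq_iff (by linarith [ht.1])]
      exact ⟨(Nat.floor_le (by linarith)).trans ht.1.le, lt_of_le_of_lt ht.2 hz3⟩
    have hth : Chebyshev.theta t = Chebyshev.theta y := by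
      rw [Chebyshev.theta_eq_theta_coe_floor t, htfl, ← Chebyshev.theta_eq_theta_coe_floor y]
    unfold kt
    refine div_nonpos_of_nonpos_of_nonneg (mul_nonpos_of_nonpos_of_nonneg ?_ ?_) (by positivity)
    · rw [hth]; linarith [ht.1]
    · have := Real.log_nonneg (show (1:ℝ) ≤ t by linarith [ht.1])
      linarith
  have hsp := Kt_split (show (2:ℝ) ≤ y by linarith) hz1.le
  have hKz : Kt y ≤ Kt z := by linarith
  have h1 := hmax z ⟨by linarith, hz4.le⟩
  have h2 : y ^ η < z ^ η := Real.rpow_lt_rpow (by linarith) hz1 hη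
  have h3 : 0 < y ^ η := Real.rpow_pos_of_pos (by linarith) _
  nlinarith [mul_le_mul_of_nonneg_left hKz (h3.le.trans h2.le), mul_lt_mul_of_pos_right h2 hK]

/-- left side of the peak -/
theorem peak_left {η y Z : ℝ} (hη : 0 < η) (hy : 4 < y) (hZ : y < Z) (hK : 0 < Kt y)
    (hmax : ∀ z ∈ Icc 4 Z, z ^ η * Kt z ≤ y ^ η * Kt y) :
    Chebyshev.theta y - y ≤ Real.log y + η * Kt y * y * Real.log y := by
  by_contra hcon
  push Not at hcon
  have hy0 : 0 < y := by linarith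
  have hlogy : 0 < Real.log y := Real.log_pos (by linarith)
  set D : ℝ := Chebyshev.theta y - Real.log y - y with hD
  have hD1 : η * Kt y * y * Real.log y < D := by rw [hD]; linarith
  have hD0 : 0 < D := lt_trans (by positivity) hD1
  set c : ℝ := D / (y ^ 2 * Real.log y) with hc
  have hc0 : 0 < c := by positivity
  have hcc : η * Kt y / y < c := by
    rw [hc, div_lt_div_iff₀ hy0 (by positivity)]
    nlinarith
  -- the lower bound for `Kt (y - s)`
  have hlow : ∀ s : ℝ, 0 < s → s < 1 → 4 < y - s → Kt y + s * c ≤ Kt (y - s) := by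
    intro s hs0 hs1 hs4
    have hsp := Kt_split (show (2:ℝ) ≤ y - s by linarith) (show y - s ≤ y by linarith)
    have hint : s * c ≤ ∫ t in Ioc (y - s) y, kt t := by
      have hconst : (∫ _t in Ioc (y - s) y, c) = s * c := by
        rw [setIntegral_const, Real.volume_real_Ioc_of_le (by linarith)]
        simp
      rw [← hconst]
      refine setIntegral_mono_on ?_ (kt_intOn (by linarith)) measurableSet_Ioc fun t ht => ?_
      · exact integrableOn_const (by simp)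
      · have ht0 : 0 < t := by linarith [ht.1]
        have hlogt : 0 < Real.log t := Real.log_pos (by linarith [ht.1])
        have hlt : Real.log t ≤ Real.log y := Real.log_le_log ht0 ht.2
        have hj := theta_jump (show (1:ℝ) ≤ t by linarith [ht.1]) ht.2 (by linarith [ht.1])
        have hDt : D ≤ Chebyshev.theta t - t := by rw [hD]; linarith [ht.2]
        unfold kt
        rw [hc, div_le_div_iff₀ (by positivity) (by positivity)]
        have hsq : t ^ 2 ≤ y ^ 2 := by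
          have := ht.2
          nlinarith
        have e1 : D * (t ^ 2 * Real.log t ^ 2) = D * (t ^ 2 * Real.log t) * Real.log t := by ring
        have e2 : (Chebyshev.theta t - t) * (1 + Real.log t) * (y ^ 2 * Real.log y)
            = (Chebyshev.theta t - t) * (y ^ 2 * Real.log y) * (1 + Real.log t) := by ring
        rw [e1, e2]
        have hA : D * (t ^ 2 * Real.log t) ≤ (Chebyshev.theta t - t) * (y ^ 2 * Real.log y) := by
          refine mul_le_mul hDt ?_ (by positivity) (by linarith)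
          exact mul_le_mul hsq hlt hlogt.le (by positivity)
        refine mul_le_mul hA (by linarith) hlogt.le ?_
        exact mul_nonneg (by linarith) (by positivity)
    linarith
  -- the function `(y - s)^η (Kt y + s c)`
  have hder : HasDerivAt (fun s : ℝ => (y - s) ^ η * (Kt y + s * c))
      ((-1) * η * (y - 0) ^ (η - 1) * (Kt y + 0 * c) + (y - 0) ^ η * (1 * c)) 0 := by
    have h1 : HasDerivAt (fun s : ℝ => y - s) (-1) 0 := by
      simpa using (hasDerivAt_id (0:ℝ)).const_sub y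
    have h2 : HasDerivAt (fun s : ℝ => (y - s) ^ η) ((-1) * η * (y - 0) ^ (η - 1)) 0 :=
      h1.rpow_const (Or.inl (by simpa using hy0.ne'))
    have h3 : HasDerivAt (fun s : ℝ => Kt y + s * c) (1 * c) 0 :=
      ((hasDerivAt_id (0:ℝ)).mul_const c).const_add (Kt y)
    exact h2.mul h3
  have hslope := hder.tendsto_slope_zero_right
  have hle : (-1) * η * (y - 0) ^ (η - 1) * (Kt y + 0 * c) + (y - 0) ^ η * (1 * c) ≤ 0 := by
    refine le_of_tendsto hslope ?_
    have hev : Ioo (0:ℝ) (min 1 (y - 4)) ∈ 𝓝[>] (0:ℝ) :=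
      Ioo_mem_nhdsGT (lt_min one_pos (by linarith))
    filter_upwards [hev] with s hs
    have hs1 : s < 1 := lt_of_lt_of_le hs.2 (min_le_left _ _)
    have hs4 : s < y - 4 := lt_of_lt_of_le hs.2 (min_le_right _ _)
    have hl := hlow s hs.1 hs1 (by linarith)
    have hm := hmax (y - s) ⟨by linarith, by linarith [hs.1]⟩
    have hp : 0 < (y - s) ^ η := Real.rpow_pos_of_pos (by linarith) _
    rw [smul_eq_mul]
    refine mul_nonpos_of_nonneg_of_nonpos (inv_nonneg.mpr hs.1.le) ?_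
    have hm2 := mul_le_mul_of_nonneg_left hl hp.le
    simp only [zero_add, sub_zero, zero_mul, add_zero]
    linarith
  simp only [sub_zero, zero_mul, add_zero, one_mul] at hle
  have hy1 : y ^ (η - 1) = y ^ η / y := by
    rw [Real.rpow_sub_one hy0.ne']
  rw [hy1] at hle
  have hp : 0 < y ^ η := Real.rpow_pos_of_pos hy0 _
  have : y ^ η * (c - η * Kt y / y) ≤ 0 := by
    have e : y ^ η * (c - η * Kt y / y) = -1 * η * (y ^ η / y) * Kt y + y ^ η * c := by
      field_simp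
      ring
    rw [e]; exact hle
  nlinarith [mul_pos hp (sub_pos.mpr hcc)]

/-- TARGET -/
theorem peak {η : ℝ} (hη : 0 < η) (h1 : ∀ Y : ℝ, ∃ y : ℝ, Y ≤ y ∧ Kt y ≤ 0)
    (h2 : ∀ Y : ℝ, ∃ y : ℝ, Y ≤ y ∧ y ^ (-(η / 2)) ≤ Kt y) :
    ∀ Y : ℝ, ∃ y2 : ℝ, Y ≤ y2 ∧ y2 ^ (-η) ≤ Kt y2 ∧ 0 ≤ Chebyshev.theta y2 - y2 ∧
      Chebyshev.theta y2 - y2 ≤ Real.log y2 + η * Kt y2 * y2 * Real.log y2 := by
  intro Y0
  set Y : ℝ := max Y0 4 with hY
  have hY4 : 4 ≤ Y := le_max_right _ _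
  have hcont : ∀ b : ℝ, ContinuousOn (fun y : ℝ => y ^ η * Kt y) (Icc 4 b) := by
    intro b
    refine ContinuousOn.mul ?_ (Kt_cont.mono (Icc_subset_Icc_left (by norm_num)))
    exact (Real.continuous_rpow_const hη.le).continuousOn
  obtain ⟨B0, hB0⟩ := (isCompact_Icc (a := (4:ℝ)) (b := Y)).bddAbove_image (hcont Y)
  set B : ℝ := max B0 1 with hB
  have hB1 : 1 ≤ B := le_max_right _ _
  have hBd : ∀ z ∈ Icc 4 Y, z ^ η * Kt z ≤ B := fun z hz =>
    (hB0 (mem_image_of_mem _ hz)).trans (le_max_left _ _)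
  obtain ⟨y1, hy1a, hy1b⟩ := h2 (max Y ((B + 1) ^ (2 / η)))
  have hy1Y : Y ≤ y1 := (le_max_left _ _).trans hy1a
  have hy10 : 0 < y1 := by linarith
  have hy1B : B < y1 ^ (η / 2) := by
    have h3 : ((B + 1) ^ (2 / η)) ^ (η / 2) ≤ y1 ^ (η / 2) :=
      Real.rpow_le_rpow (by positivity) ((le_max_right _ _).trans hy1a) (by positivity)
    rw [← Real.rpow_mul (by linarith), show 2 / η * (η / 2) = 1 by field_simp, Real.rpow_one] at h3
    linarith
  have hφ1 : B < y1 ^ η * Kt y1 := by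
    have h4 : y1 ^ η * y1 ^ (-(η / 2)) = y1 ^ (η / 2) := by
      rw [← Real.rpow_add hy10]; congr 1; ring
    have h5 := mul_le_mul_of_nonneg_left hy1b (Real.rpow_pos_of_pos hy10 η).le
    rw [h4] at h5
    linarith
  obtain ⟨Z, hZ1, hZ2⟩ := h1 y1
  obtain ⟨y2, hy2m, hy2max⟩ := (isCompact_Icc (a := (4:ℝ)) (b := Z)).exists_isMaxOn
    ⟨4, ⟨le_rfl, by linarith⟩⟩ (hcont Z)
  have hmax : ∀ z ∈ Icc 4 Z, z ^ η * Kt z ≤ y2 ^ η * Kt y2 := fun z hz => hy2max hz
  have hφ2 : B < y2 ^ η * Kt y2 := lt_of_lt_of_le hφ1 (hmax y1 ⟨by linarith, hZ1⟩)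
  have hy2Y : Y < y2 := by
    by_contra hcon
    push Not at hcon
    exact absurd (hBd y2 ⟨hy2m.1, hcon⟩) (not_le.mpr hφ2)
  have hy20 : 0 < y2 := by linarith
  have hp : 0 < y2 ^ η := Real.rpow_pos_of_pos hy20 _
  have hK2 : y2 ^ (-η) ≤ Kt y2 := by
    rw [Real.rpow_neg hy20.le, inv_le_iff_one_le_mul₀' hp]
    linarith
  have hK0 : 0 < Kt y2 := lt_of_lt_of_le (Real.rpow_pos_of_pos hy20 _) hK2
  have hy2Z : y2 < Z := by
    refine lt_of_le_of_ne hy2m.2 fun h => ?_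
    rw [h] at hK0
    linarith
  exact ⟨y2, (le_max_left _ _).trans hy2Y.le, hK2,
    peak_right hη (by linarith) hy2Z hK0 hmax, peak_left hη (by linarith) hy2Z hK0 hmax⟩

end Pool.Agent.H424.RB
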