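import Pool.Agent.H424.RB.Peak


/-!
# Job RB-PEAK2: long intervals on which `mar` is negative

`Pr y = ∑_{p ≤ y} -log(1 - 1/p)`, `mar y = Pr y - γ - log log θ(y)`, `kt t = (θ(t) - t)(1 + log t)/(t² log² t)`,
`Kt y = ∫_{t>y} kt`, `θ = Chebyshev.theta`.

Plain-words proof of the target.  Take `y2 ≥ Y` from `peak`, `y2` as large as we want; write `K = Kt y2 ≥ y2^(-η)`,
`L = log y2`, `h = y2^(1-η)`, `a = K L`.  By `theta_pnt` with `A = 3`, `0 < K ≤ C/L³` for large `y2`
(`|kt t| ≤ C' /(t log⁴ t)`), so `800 K L² ≤ 1` for large `y2`.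
Let `y2 ≤ t ≤ y2 + h` (so `t ≤ 2 y2`).  `θ(t) - θ(y2) = ∑_{y2 < p ≤ t} log p ≤ (h + 1) log(2 y2)`.  So
`|θ(t) - t| ≤ |θ(y2) - y2| + (θ(t) - θ(y2)) + (t - y2) ≤ (L + η K y2 L) + (h + 1) log (2 y2) + h ≤ 10 a y2`
for large `y2`, because `L/y2 ≤ y2^(-η) L ≤ a`, `h/y2 = y2^(-η) ≤ K`, `log (2 y2) ≤ 2L`, `η ≤ 1`.
Then `|kt t| ≤ 10 a y2 (1 + log t)/(t² log² t) ≤ 20 a y2/(y2² L) = 20 K/y2`, so for `y ∈ [y2, y2 + h]`
`|Kt y - Kt y2| ≤ h · 20 K/y2 = 20 K y2^(-η) ≤ K/8` for large `y2`; and `((θ(y) - y)/y)² ≤ 100 a² = 100 K² L² ≤ K/8`.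
By `mar_le_K`, `mar y ≤ -Kt y + ((θ(y) - y)/y)² ≤ -(7/8) K + K/8 ≤ -K/2 ≤ -(y2^(-η)/2)`.
-/

set_option autoImplicit false

namespace Pool.Agent.H424.RB

open MeasureTheory Filter Topology Set

theorem theta_inc {x t : ℝ} (hx : 1 ≤ x) (hxt : x ≤ t) :
    Chebyshev.theta t - Chebyshev.theta x ≤ (t - x + 1) * Real.log t := by
  have ht : 1 ≤ t := hx.trans hxt
  have hfl : ⌊x⌋₊ ≤ ⌊t⌋₊ := Nat.floor_le_floor hxt
  have hlt : 0 ≤ Real.log t := Real.log_nonneg ht
  have h1 : Chebyshev.theta t - Chebyshev.theta x =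
      ∑ p ∈ (Finset.Ioc ⌊x⌋₊ ⌊t⌋₊).filter Nat.Prime, Real.log (p : ℝ) := by
    unfold Chebyshev.theta
    rw [sub_eq_iff_eq_add, ← Finset.sum_union]
    · congr 1
      rw [← Finset.filter_union, Finset.union_comm,
        Finset.Ioc_union_Ioc_eq_Ioc (Nat.zero_le _) hfl]
    · apply Finset.disjoint_filter_filter
      rw [Finset.disjoint_left]
      intro a ha hb
      rw [Finset.mem_Ioc] at ha hb
      omega
  rw [h1]
  have h2 : ∑ p ∈ (Finset.Ioc ⌊x⌋₊ ⌊t⌋₊).filter Nat.Prime, Real.log (p : ℝ) ≤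
      ((Finset.Ioc ⌊x⌋₊ ⌊t⌋₊).filter Nat.Prime).card • Real.log t := by
    apply Finset.sum_le_card_nsmul
    intro p hp
    rw [Finset.mem_filter, Finset.mem_Ioc] at hp
    have hp0 : (0 : ℝ) < p := by exact_mod_cast hp.2.pos
    apply Real.log_le_log hp0
    exact (Nat.le_floor_iff (by linarith)).1 hp.1.2
  refine h2.trans ?_
  rw [nsmul_eq_mul]
  apply mul_le_mul_of_nonneg_right _ hlt
  have h3 : ((Finset.Ioc ⌊x⌋₊ ⌊t⌋₊).filter Nat.Prime).card ≤ ⌊t⌋₊ - ⌊x⌋₊ := by
    refine (Finset.card_filter_le _ _).trans ?_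
    rw [Nat.card_Ioc]
  have h4 : (((Finset.Ioc ⌊x⌋₊ ⌊t⌋₊).filter Nat.Prime).card : ℝ) ≤ ((⌊t⌋₊ - ⌊x⌋₊ : ℕ) : ℝ) := by
    exact_mod_cast h3
  refine h4.trans ?_
  rw [Nat.cast_sub hfl]
  have h5 : (⌊t⌋₊ : ℝ) ≤ t := Nat.floor_le (by linarith)
  have h6 : x < (⌊x⌋₊ : ℝ) + 1 := Nat.lt_floor_add_one x
  linarith

theorem theta_mono' {x t : ℝ} (hxt : x ≤ t) : Chebyshev.theta x ≤ Chebyshev.theta t :=
  Chebyshev.theta_mono hxt

theorem Kt_small : ∃ C : ℝ, 0 < C ∧ ∀ y : ℝ, 3 ≤ y → Kt y ≤ C / Real.log y ^ 3 := by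
  obtain ⟨C, hC, h⟩ := theta_pnt 3
  refine ⟨C, hC, fun y hy => ?_⟩
  have hlog : ∀ t : ℝ, 3 ≤ t → 1 ≤ Real.log t := by
    intro t ht
    rw [Real.le_log_iff_exp_le (by linarith)]
    have := Real.exp_one_lt_d9
    linarith
  have hd : ∀ t ∈ Ici y, HasDerivAt (fun t : ℝ => -(2 * C / 3) * (Real.log t ^ 3)⁻¹)
      (2 * C / (t * Real.log t ^ 4)) t := by
    intro t ht
    have ht3 : 3 ≤ t := hy.trans ht
    have ht0 : t ≠ 0 := by linarith
    have hl := hlog t ht3
    have hl0 : Real.log t ≠ 0 := by linarith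
    have h1 := (((Real.hasDerivAt_log ht0).pow 3).inv (pow_ne_zero 3 hl0)).const_mul (-(2 * C / 3))
    refine (h1.congr_deriv ?_)
    simp only [Pi.pow_apply]
    field_simp
    norm_num
  have hnn : ∀ t ∈ Ioi y, 0 ≤ 2 * C / (t * Real.log t ^ 4) := by
    intro t ht
    have ht3 : 3 ≤ t := hy.trans (le_of_lt ht)
    have := hlog t ht3
    positivity
  have hlim : Tendsto (fun t : ℝ => -(2 * C / 3) * (Real.log t ^ 3)⁻¹) atTop (𝓝 0) := by
    have h1 : Tendsto (fun t : ℝ => (Real.log t ^ 3)⁻¹) atTop (𝓝 0) :=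
      tendsto_inv_atTop_zero.comp ((tendsto_pow_atTop (by norm_num)).comp Real.tendsto_log_atTop)
    simpa using h1.const_mul (-(2 * C / 3))
  have hint := integral_Ioi_of_hasDerivAt_of_nonneg' hd hnn hlim
  have hintg := integrableOn_Ioi_deriv_of_nonneg' hd hnn hlim
  have hle : Kt y ≤ ∫ t in Ioi y, 2 * C / (t * Real.log t ^ 4) := by
    unfold Kt
    apply setIntegral_mono_on (int_kt_Ioi.mono_set (Ioi_subset_Ioi (by linarith))) hintg
      measurableSet_Ioi
    intro t ht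
    have ht3 : 3 ≤ t := hy.trans (le_of_lt ht)
    have hl := hlog t ht3
    have h1 := h t (by linarith)
    have h2 : Chebyshev.theta t - t ≤ C * t / Real.log t ^ 3 := (le_abs_self _).trans h1
    unfold kt
    have ht0 : 0 < t := by linarith
    have hl0 : 0 < Real.log t := by linarith
    rw [div_le_div_iff₀ (by positivity) (by positivity)]
    have h3 : (Chebyshev.theta t - t) * Real.log t ^ 3 ≤ C * t := by
      rwa [le_div_iff₀ (by positivity)] at h2
    have h4 : (Chebyshev.theta t - t) * (1 + Real.log t) * (t * Real.log t ^ 4) =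
      ((Chebyshev.theta t - t) * Real.log t ^ 3) * ((1 + Real.log t) * t * Real.log t) := by ring
    rw [h4]
    refine (mul_le_mul_of_nonneg_right h3 (by positivity)).trans ?_
    have h5 : C * t * ((1 + Real.log t) * t * Real.log t) ≤
        C * t * ((2 * Real.log t) * t * Real.log t) := by
      gcongr
      linarith
    refine h5.trans (le_of_eq ?_)
    ring
  refine hle.trans ?_
  rw [hint]
  have hl := hlog y hy
  have : 0 - -(2 * C / 3) * (Real.log y ^ 3)⁻¹ = (2 / 3 : ℝ) * (C / Real.log y ^ 3) := by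
    field_simp; norm_num
  rw [this]
  have h6 : 0 ≤ C / Real.log y ^ 3 := by positivity
  linarith

set_option maxHeartbeats 1000000 in
/-- TARGET -/
theorem peak_interval {η : ℝ} (hη : 0 < η) (hη1 : η ≤ 1 / 2) (h1 : ∀ Y : ℝ, ∃ y : ℝ, Y ≤ y ∧ Kt y ≤ 0)
    (h2 : ∀ Y : ℝ, ∃ y : ℝ, Y ≤ y ∧ y ^ (-(η / 2)) ≤ Kt y) :
    ∀ Y : ℝ, ∃ y2 : ℝ, Y ≤ y2 ∧ ∀ y : ℝ, y2 ≤ y → y ≤ y2 + y2 ^ (1 - η) → mar y ≤ -(y2 ^ (-η) / 2) := by
  intro Y
  obtain ⟨Y1, hY1⟩ := mar_le_K
  obtain ⟨C, hC, hK⟩ := Kt_small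
  have hrp : ∀ᶠ x : ℝ in atTop, x ^ (-η) < 1 / 160 :=
    (tendsto_rpow_neg_atTop hη).eventually (gt_mem_nhds (by norm_num))
  obtain ⟨Y2, hY2⟩ := eventually_atTop.1 hrp
  obtain ⟨x, hxY, hKx, hth0, hth1⟩ := peak hη h1 h2
    (max (max Y Y1) (max (max 3 (Real.exp (800 * C))) Y2))
  have hx1 : Y ≤ x := (le_max_left _ _).trans ((le_max_left _ _).trans hxY)
  have hx2 : Y1 ≤ x := (le_max_right _ _).trans ((le_max_left _ _).trans hxY)
  have hx3 : 3 ≤ x :=
    (le_max_left _ _).trans ((le_max_left _ _).trans ((le_max_right _ _).trans hxY))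
  have hx4 : Real.exp (800 * C) ≤ x :=
    (le_max_right _ _).trans ((le_max_left _ _).trans ((le_max_right _ _).trans hxY))
  have hx5 : Y2 ≤ x := (le_max_right _ _).trans ((le_max_right _ _).trans hxY)
  have hx0 : 0 < x := by linarith
  have hlog : ∀ t : ℝ, 3 ≤ t → 1 ≤ Real.log t := by
    intro t ht
    rw [Real.le_log_iff_exp_le (by linarith)]
    have := Real.exp_one_lt_d9
    linarith
  set L := Real.log x with hLdef
  set K := Kt x with hKdef
  have hL1 : 1 ≤ L := hlog x hx3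
  have hLC : 800 * C ≤ L := (Real.le_log_iff_exp_le hx0).2 hx4
  have hq0 : 0 < x ^ (-η) := Real.rpow_pos_of_pos hx0 _
  have hq1 : x ^ (-η) < 1 / 160 := hY2 x hx5
  have hKpos : 0 < K := hq0.trans_le hKx
  have hKL : 800 * K * L ^ 2 ≤ 1 := by
    have h3 := hK x hx3
    have h4 : K * L ^ 3 ≤ C := by
      rwa [← hLdef, le_div_iff₀ (by positivity)] at h3
    have h5 : 800 * K * L ^ 2 * L ≤ 1 * L := by nlinarith
    exact le_of_mul_le_mul_right h5 (by linarith)
  -- the length of the interval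
  have hh : x ^ (1 - η) = x * x ^ (-η) := by
    rw [sub_eq_add_neg, Real.rpow_add hx0, Real.rpow_one]
  set q := x ^ (-η) with hqdef
  have hh1 : 1 ≤ x * q := by
    rw [← hh]
    exact Real.one_le_rpow (by linarith) (by linarith)
  have hxK : x * q ≤ x * K := mul_le_mul_of_nonneg_left hKx hx0.le
  have hKx1 : 1 ≤ x * K := hh1.trans hxK
  have hLK : L ≤ x * K * L := by nlinarith
  have hbd : ∀ t, x ≤ t → t ≤ x + x * q → |Chebyshev.theta t - t| ≤ 10 * (K * L) * x := by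
    intro t ht1 ht2
    have hinc := theta_inc (by linarith : (1:ℝ) ≤ x) ht1
    have hmono := Chebyshev.theta_mono ht1
    have ht2x : t ≤ 2 * x := by
      have : x * q ≤ x * 1 := mul_le_mul_of_nonneg_left (by linarith) hx0.le
      linarith
    have hlt : Real.log t ≤ 2 * L := by
      have h6 : Real.log t ≤ Real.log (x * x) := by
        apply Real.log_le_log (by linarith)
        nlinarith
      rw [Real.log_mul hx0.ne' hx0.ne'] at h6
      linarith
    have h7 : (t - x + 1) * Real.log t ≤ (2 * (x * q)) * (2 * L) := by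
      apply mul_le_mul _ hlt (Real.log_nonneg (by linarith)) (by positivity)
      linarith
    have h8 : (2 * (x * q)) * (2 * L) ≤ (2 * (x * K)) * (2 * L) := by
      apply mul_le_mul_of_nonneg_right _ (by linarith)
      linarith
    have h9 : x * q ≤ x * K * L := by nlinarith
    have h10 : η * K * x * L ≤ 1 / 2 * (x * K * L) := by
      have : 0 ≤ x * K * L := by positivity
      nlinarith
    have h11 : 0 ≤ x * K * L := by positivity
    rw [abs_le]
    constructor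
    · nlinarith
    · nlinarith
  refine ⟨x, hx1, fun y hy1 hy2 => ?_⟩
  rw [hh] at hy2
  have hy3 : 3 ≤ y := hx3.trans hy1
  have hy0 : 0 < y := by linarith
  have hkt : ∀ t ∈ Set.uIoc x y, ‖kt t‖ ≤ 20 * K / x := by
    intro t ht
    rw [uIoc_of_le hy1] at ht
    have ht1 : x ≤ t := ht.1.le
    have ht2 : t ≤ x + x * q := ht.2.trans hy2
    have h3 := hbd t ht1 ht2
    have ht0 : 0 < t := by linarith
    have hlt : L ≤ Real.log t := Real.log_le_log hx0 ht1
    have hlt1 : 1 ≤ Real.log t := hL1.trans hlt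
    have hlt0 : 0 < Real.log t := by linarith
    unfold kt
    rw [Real.norm_eq_abs, abs_div, abs_mul, abs_of_pos (by positivity : 0 < t ^ 2 * Real.log t ^ 2),
      abs_of_pos (by linarith : 0 < 1 + Real.log t), div_le_div_iff₀ (by positivity) hx0]
    have h4 : |Chebyshev.theta t - t| * (1 + Real.log t) ≤
        (10 * (K * L) * x) * (2 * Real.log t) := by
      apply mul_le_mul h3 (by linarith) (by linarith) (by positivity)
    have h5 : |Chebyshev.theta t - t| * (1 + Real.log t) * x ≤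
        (10 * (K * L) * x) * (2 * Real.log t) * x := mul_le_mul_of_nonneg_right h4 hx0.le
    refine h5.trans ?_
    have h6 : x ^ 2 ≤ t ^ 2 := pow_le_pow_left₀ hx0.le ht1 2
    calc (10 * (K * L) * x) * (2 * Real.log t) * x = (20 * K) * (x ^ 2 * (L * Real.log t)) := by ring
      _ ≤ (20 * K) * (t ^ 2 * (Real.log t * Real.log t)) := by
          apply mul_le_mul_of_nonneg_left _ (by positivity)
          apply mul_le_mul h6 _ (by positivity) (by positivity)
          exact mul_le_mul_of_nonneg_right hlt hlt0.le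
      _ = 20 * K * (t ^ 2 * Real.log t ^ 2) := by ring
  have hdiff : Kt x - Kt y = ∫ t in x..y, kt t := by
    unfold Kt
    exact intervalIntegral.integral_Ioi_sub_Ioi
      (int_kt_Ioi.mono_set (Ioi_subset_Ioi (by linarith))) hy1
  have hdiff2 : |Kt x - Kt y| ≤ K / 8 := by
    rw [hdiff, ← Real.norm_eq_abs]
    refine (intervalIntegral.norm_integral_le_of_norm_le_const hkt).trans ?_
    rw [abs_of_nonneg (by linarith)]
    have h7 : 20 * K / x * (y - x) ≤ 20 * K / x * (x * q) := by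
      apply mul_le_mul_of_nonneg_left (by linarith) (by positivity)
    refine h7.trans ?_
    have h8 : 20 * K / x * (x * q) = 20 * K * q := by field_simp
    rw [h8]
    have h12 : 20 * K * q ≤ 20 * K * (1 / 160) :=
      mul_le_mul_of_nonneg_left hq1.le (by positivity)
    linarith
  have hsq : ((Chebyshev.theta y - y) / y) ^ 2 ≤ K / 8 := by
    have h3 := hbd y hy1 hy2
    have h4 : |(Chebyshev.theta y - y) / y| ≤ 10 * (K * L) := by
      rw [abs_div, abs_of_pos hy0, div_le_iff₀ hy0]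
      refine h3.trans ?_
      apply mul_le_mul_of_nonneg_left hy1 (by positivity)
    rw [← sq_abs]
    have h5 : |(Chebyshev.theta y - y) / y| ^ 2 ≤ (10 * (K * L)) ^ 2 :=
      pow_le_pow_left₀ (abs_nonneg _) h4 2
    refine h5.trans ?_
    have h13 := mul_le_mul_of_nonneg_left hKL hKpos.le
    have h14 : (10 * (K * L)) ^ 2 = K * (800 * K * L ^ 2) / 8 := by ring
    rw [h14]
    linarith
  have hm := hY1 y (hx2.trans hy1)
  have h9 := (abs_le.1 hdiff2).2
  have h10 : K = Kt x := hKdef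
  rw [← h10] at h9
  linarith

end Pool.Agent.H424.RB
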