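import Pool.Agent.H424.RB.Peak2
import Pool.Agent.H295R3.Hoheisel

/-! Large values of `mar` of both signs at many primes. -/

set_option autoImplicit false

namespace Pool.Agent.H424.RB

open MeasureTheory Filter Topology Set

/-- a prime number theorem lower bound in a short interval, from a bound for `θ(t) - t` -/
theorem primes_right {y h w : ℝ} (hy : 2 ≤ y) (hh0 : 0 < h) (hhy : h ≤ y)
    (hw : ∀ t : ℝ, y ≤ t → t ≤ 2 * y → |Chebyshev.theta t - t| ≤ w) (hwh : 4 * w ≤ h) :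
    h / (2 * Real.log (2 * y)) ≤ (((Finset.Ioc ⌊y⌋₊ ⌊y + h⌋₊).filter Nat.Prime).card : ℝ) := by
  have hl : 0 < Real.log (2 * y) := Real.log_pos (by linarith)
  have h1 := abs_le.1 (hw y le_rfl (by linarith))
  have h3 := abs_le.1 (hw (y + h) (by linarith) (by linarith))
  have h4 := theta_sub_le (a := y) (b := y + h) (by linarith) (by linarith) (by linarith)
  have h5 : Real.log (y + h) ≤ Real.log (2 * y) := Real.log_le_log (by linarith) (by linarith)
  rw [div_le_iff₀ (by positivity)]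
  have h6 : (((Finset.Ioc ⌊y⌋₊ ⌊y + h⌋₊).filter Nat.Prime).card : ℝ) * Real.log (y + h) ≤
      (((Finset.Ioc ⌊y⌋₊ ⌊y + h⌋₊).filter Nat.Prime).card : ℝ) * Real.log (2 * y) := by gcongr
  nlinarith

/-- primes in `(y, y + y^(1-η)]`, Hoheisel -/
theorem hoheisel_real : ∃ δ0 c : ℝ, 0 < δ0 ∧ 0 < c ∧ ∀ η : ℝ, η < δ0 → 0 ≤ η → ∀ᶠ y : ℝ in atTop,
    c * y ^ (1 - η) / Real.log y ≤ (((Finset.Ioc ⌊y⌋₊ ⌊y + y ^ (1 - η)⌋₊).filter Nat.Prime).card : ℝ) := by
  obtain ⟨δ, c, hδ, hδ1, hc, X0, hX0, h⟩ := Pool.Agent.H295R3.D.hoheisel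
  refine ⟨δ, c / 2, hδ, by positivity, fun η hη hη0 => ?_⟩
  filter_upwards [eventually_ge_atTop (X0 + 2 : ℝ), ev_rpow 2 (show 1 - δ < 1 - η by linarith),
    ev_rpow 2 (show (0 : ℝ) < 1 - η by linarith)] with y h1 h2 h3
  rw [Real.rpow_zero, mul_one] at h3
  have hy0 : 0 < y := by have : (0 : ℝ) ≤ X0 := Nat.cast_nonneg _; linarith
  have hy2 : 2 ≤ y := by have : (0 : ℝ) ≤ X0 := Nat.cast_nonneg _; linarith
  set X : ℕ := ⌊y⌋₊ with hX
  set Y : ℕ := ⌊y ^ (1 - η)⌋₊ with hY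
  have hXy : (X : ℝ) ≤ y := Nat.floor_le hy0.le
  have hyX : y < X + 1 := Nat.lt_floor_add_one y
  have hp0 : 0 ≤ y ^ (1 - η) := by positivity
  have hYy : (Y : ℝ) ≤ y ^ (1 - η) := Nat.floor_le hp0
  have hyY : y ^ (1 - η) < Y + 1 := Nat.lt_floor_add_one _
  have hXX : X0 ≤ X := Nat.le_floor (by linarith)
  have hX2 : (2 : ℝ) ≤ X := by
    have : 2 ≤ X := Nat.le_floor (by exact_mod_cast hy2)
    exact_mod_cast this
  have hYX : Y ≤ X := by
    apply Nat.floor_mono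
    calc y ^ (1 - η) ≤ y ^ (1 : ℝ) := Real.rpow_le_rpow_of_exponent_le (by linarith) (by linarith)
      _ = y := Real.rpow_one y
  have hXY : (X : ℝ) ^ (1 - δ) ≤ Y := by
    have e1 : (X : ℝ) ^ (1 - δ) ≤ y ^ (1 - δ) := Real.rpow_le_rpow (by positivity) hXy (by linarith)
    linarith
  have h4 := h X Y hXX hXY hYX
  have h5 : ((Finset.Ioc X (X + Y)).filter Nat.Prime).card ≤
      ((Finset.Ioc ⌊y⌋₊ ⌊y + y ^ (1 - η)⌋₊).filter Nat.Prime).card := by
    refine Finset.card_le_card (Finset.filter_subset_filter _ (Finset.Ioc_subset_Ioc_right ?_))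
    refine Nat.le_floor ?_
    push_cast
    linarith
  have h6 : (((Finset.Ioc X (X + Y)).filter Nat.Prime).card : ℝ) ≤
      (((Finset.Ioc ⌊y⌋₊ ⌊y + y ^ (1 - η)⌋₊).filter Nat.Prime).card : ℝ) := by exact_mod_cast h5
  refine le_trans ?_ (h4.trans h6)
  have hlX : 0 < Real.log X := Real.log_pos (by linarith)
  have hly : 0 < Real.log y := Real.log_pos (by linarith)
  have hll : Real.log X ≤ Real.log y := Real.log_le_log (by linarith) hXy
  have h7 : y ^ (1 - η) / 2 ≤ Y := by linarith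
  calc c / 2 * y ^ (1 - η) / Real.log y = c * (y ^ (1 - η) / 2) / Real.log y := by ring
    _ ≤ c * Y / Real.log X := by gcongr

/-- the number of the primes `p ≤ X` with `P p` -/
noncomputable def primeCount (P : ℝ → Prop) (X : ℕ) : ℕ := by
  classical
  exact ((Finset.Icc 1 X).filter fun p : ℕ => p.Prime ∧ P p).card

theorem le_primeCount {P : ℝ → Prop} {y h : ℝ} (hy : 0 ≤ y) (hP : ∀ t : ℝ, y < t → t ≤ y + h → P t) :
    ((Finset.Ioc ⌊y⌋₊ ⌊y + h⌋₊).filter Nat.Prime).card ≤ primeCount P ⌊y + h⌋₊ := by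
  classical
  unfold primeCount
  refine Finset.card_le_card fun p hp => ?_
  rw [Finset.mem_filter, Finset.mem_Ioc] at hp
  rw [Finset.mem_filter, Finset.mem_Icc]
  refine ⟨⟨by omega, hp.1.2⟩, hp.2, hP p ?_ ?_⟩
  · exact (Nat.floor_lt hy).1 hp.1.1
  · exact (Nat.le_floor_iff' hp.2.ne_zero).1 hp.1.2

/-- many primes in a long interval: from a lower bound for the count to `X^(1-δ)` -/
theorem count_final {P : ℝ → Prop} {δ η c : ℝ} (hc : 0 < c) (hηδ : η < δ) (hη0 : 0 ≤ η) (hδ1 : δ ≤ 1)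
    (h : ∀ Y : ℝ, ∃ y : ℝ, Y ≤ y ∧ (∀ t : ℝ, y < t → t ≤ y + y ^ (1 - η) → P t) ∧
      c * y ^ (1 - η) / Real.log y ≤ (((Finset.Ioc ⌊y⌋₊ ⌊y + y ^ (1 - η)⌋₊).filter Nat.Prime).card : ℝ)) :
    ∃ᶠ X : ℕ in atTop, (X : ℝ) ^ (1 - δ) < primeCount P X := by
  rw [frequently_atTop]
  intro X0
  have e1 := ev_log_rpow (3 / c) (show 1 - δ < 1 - η by linarith)
  obtain ⟨Y1, hY1⟩ := eventually_atTop.1 e1
  obtain ⟨y, hy, hP, hcount⟩ := h (max (max Y1 (X0 + 1)) 2)
  have hy1 : Y1 ≤ y := ((le_max_left _ _).trans (le_max_left _ _)).trans hy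
  have hy2 : (X0 + 1 : ℝ) ≤ y := ((le_max_right _ _).trans (le_max_left _ _)).trans hy
  have hy3 : 2 ≤ y := (le_max_right _ _).trans hy
  have hy0 : 0 < y := by linarith
  have hly : 0 < Real.log y := Real.log_pos (by linarith)
  have hp0 : 0 < y ^ (1 - η) := Real.rpow_pos_of_pos hy0 _
  have hpy : y ^ (1 - η) ≤ y := by
    calc y ^ (1 - η) ≤ y ^ (1 : ℝ) := Real.rpow_le_rpow_of_exponent_le (by linarith) (by linarith)
      _ = y := Real.rpow_one y
  refine ⟨⌊y + y ^ (1 - η)⌋₊, ?_, ?_⟩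
  · refine Nat.le_floor ?_
    linarith
  · have h2 := hY1 y hy1
    have h3 : ((⌊y + y ^ (1 - η)⌋₊ : ℕ) : ℝ) ≤ 2 * y := by
      have := Nat.floor_le (show 0 ≤ y + y ^ (1 - η) by positivity)
      linarith
    have h4 : ((⌊y + y ^ (1 - η)⌋₊ : ℕ) : ℝ) ^ (1 - δ) ≤ 2 * y ^ (1 - δ) := by
      calc ((⌊y + y ^ (1 - η)⌋₊ : ℕ) : ℝ) ^ (1 - δ) ≤ (2 * y) ^ (1 - δ) :=
            Real.rpow_le_rpow (Nat.cast_nonneg _) h3 (by linarith)
        _ = 2 ^ (1 - δ) * y ^ (1 - δ) := Real.mul_rpow (by norm_num) hy0.le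
        _ ≤ 2 * y ^ (1 - δ) := by
          gcongr
          calc (2 : ℝ) ^ (1 - δ) ≤ 2 ^ (1 : ℝ) :=
                Real.rpow_le_rpow_of_exponent_le (by norm_num) (by linarith)
            _ = 2 := Real.rpow_one 2
    have h5 : 3 * y ^ (1 - δ) ≤ c * y ^ (1 - η) / Real.log y := by
      rw [le_div_iff₀ hly]
      have : c * (3 / c * Real.log y * y ^ (1 - δ)) ≤ c * y ^ (1 - η) := by gcongr
      have e : c * (3 / c * Real.log y * y ^ (1 - δ)) = 3 * y ^ (1 - δ) * Real.log y := by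
        field_simp
      linarith
    have h6 : (((Finset.Ioc ⌊y⌋₊ ⌊y + y ^ (1 - η)⌋₊).filter Nat.Prime).card : ℝ) ≤
        primeCount P ⌊y + y ^ (1 - η)⌋₊ := by exact_mod_cast le_primeCount hy0.le hP
    have h7 : (0 : ℝ) < y ^ (1 - δ) := Real.rpow_pos_of_pos hy0 _
    linarith

/-- the supremum of the real parts of the zeros: either it is less than `1`, or there are zeros near the line `1` -/
theorem zero_dich {θ : ℝ} {ρ : ℂ} (hρ : riemannZeta ρ = 0) (hθ : θ < ρ.re) :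
    (∃ Θ : ℝ, θ < Θ ∧ Θ < 1 ∧ (∀ s : ℂ, Θ < s.re → riemannZeta s ≠ 0) ∧
      ∀ η : ℝ, 0 < η → ∃ s : ℂ, riemannZeta s = 0 ∧ Θ - η < s.re) ∨
    ∀ η : ℝ, 0 < η → ∃ s : ℂ, riemannZeta s = 0 ∧ 1 - η < s.re := by
  set S : Set ℝ := {x | ∃ s : ℂ, riemannZeta s = 0 ∧ s.re = x} with hS
  have hbdd : BddAbove S := ⟨1, by
    rintro x ⟨s, hs, rfl⟩
    by_contra h
    exact riemannZeta_ne_zero_of_one_le_re (not_le.1 h).le hs⟩
  have hne : S.Nonempty := ⟨ρ.re, ρ, hρ, rfl⟩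
  have hle : sSup S ≤ 1 := csSup_le hne (by
    rintro x ⟨s, hs, rfl⟩
    by_contra h
    exact riemannZeta_ne_zero_of_one_le_re (not_le.1 h).le hs)
  have hap : ∀ η : ℝ, 0 < η → ∃ s : ℂ, riemannZeta s = 0 ∧ sSup S - η < s.re := by
    intro η hη
    obtain ⟨x, ⟨s, hs, rfl⟩, hx⟩ := exists_lt_of_lt_csSup hne (show sSup S - η < sSup S by linarith)
    exact ⟨s, hs, hx⟩
  rcases lt_or_eq_of_le hle with h | h
  · left
    refine ⟨sSup S, hθ.trans_le (le_csSup hbdd ⟨ρ, hρ, rfl⟩), h, fun s hs h0 => ?_, hap⟩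
    have := le_csSup hbdd ⟨s, h0, rfl⟩
    linarith
  · right
    rwa [h] at hap

/-- local behaviour in the case `Θ < 1` -/
theorem local_free {Θ η : ℝ} (h0 : 1 / 2 ≤ Θ) (h1 : Θ < 1) (hη : 0 < η) (hη1 : 8 * η ≤ 1 - Θ)
    (hz : ∀ s : ℂ, Θ < s.re → riemannZeta s ≠ 0) :
    ∀ᶠ y : ℝ in atTop, (∀ t : ℝ, y ≤ t → t ≤ y + y ^ (1 - 4 * η) →
        |Kt t - Kt y| ≤ y ^ (Θ - η - 1) / 4 ∧ ((Chebyshev.theta t - t) / t) ^ 2 ≤ y ^ (Θ - η - 1) / 4) ∧
      1 / 4 * y ^ (1 - 4 * η) / Real.log y ≤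
        (((Finset.Ioc ⌊y⌋₊ ⌊y + y ^ (1 - 4 * η)⌋₊).filter Nat.Prime).card : ℝ) := by
  obtain ⟨C, hC, hC1⟩ := theta_free h0 hz (show Θ < Θ + η by linarith) (by linarith)
  filter_upwards [eventually_ge_atTop (3 : ℝ), Real.tendsto_log_atTop.eventually_ge_atTop 1,
    ev_rpow (16 * C) (show Θ - 3 * η - 1 < Θ - η - 1 by linarith),
    ev_rpow (16 * C ^ 2) (show 2 * Θ + 2 * η - 2 < Θ - η - 1 by linarith),
    ev_rpow (8 * C) (show Θ + η < 1 - 4 * η by linarith)] with y hy3 hly e1 e2 e3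
  have hy0 : 0 < y := by linarith
  have hp0 : 0 < y ^ (1 - 4 * η) := Real.rpow_pos_of_pos hy0 _
  have hpy : y ^ (1 - 4 * η) ≤ y := by
    calc y ^ (1 - 4 * η) ≤ y ^ (1 : ℝ) := Real.rpow_le_rpow_of_exponent_le (by linarith) (by linarith)
      _ = y := Real.rpow_one y
  set w : ℝ := 2 * C * y ^ (Θ + η) with hwdef
  have hw : ∀ t : ℝ, y ≤ t → t ≤ 2 * y → |Chebyshev.theta t - t| ≤ w := by
    intro t ht1 ht2
    calc |Chebyshev.theta t - t| ≤ C * t ^ (Θ + η) := hC1 t (by linarith)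
      _ ≤ C * (2 * y) ^ (Θ + η) := by gcongr; linarith
      _ = C * (2 ^ (Θ + η) * y ^ (Θ + η)) := by rw [Real.mul_rpow (by norm_num) hy0.le]
      _ ≤ C * (2 * y ^ (Θ + η)) := by
        gcongr
        calc (2 : ℝ) ^ (Θ + η) ≤ 2 ^ (1 : ℝ) := Real.rpow_le_rpow_of_exponent_le (by norm_num) (by linarith)
          _ = 2 := Real.rpow_one 2
      _ = w := by rw [hwdef]; ring
  have hw0 : 0 ≤ w := by positivity
  refine ⟨fun t ht1 ht2 => ⟨?_, ?_⟩, ?_⟩
  · have h2 := Kt_slow (y := y) (z := t) (w := w) (by linarith) ht1 hly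
      (fun u hu1 hu2 => hw u hu1 (by linarith))
    rw [abs_sub_comm]
    refine h2.trans ?_
    have e4 : y ^ (1 - 4 * η) * (2 * w / y ^ 2) = 4 * C * y ^ (Θ - 3 * η - 1) := by
      rw [hwdef]
      have : y ^ (Θ - 3 * η - 1) = y ^ (1 - 4 * η) * y ^ (Θ + η) / y ^ 2 := by
        rw [← Real.rpow_add hy0, ← Real.rpow_natCast y 2, ← Real.rpow_sub hy0]
        congr 1
        push_cast
        ring
      rw [this]
      ring
    calc (t - y) * (2 * w / y ^ 2) ≤ y ^ (1 - 4 * η) * (2 * w / y ^ 2) := by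
          gcongr
          linarith
      _ = 4 * C * y ^ (Θ - 3 * η - 1) := e4
      _ ≤ y ^ (Θ - η - 1) / 4 := by linarith
  · have h2 := hw t ht1 (by linarith)
    have ht0 : 0 < t := by linarith
    have h3 : |(Chebyshev.theta t - t) / t| ≤ w / y := by
      rw [abs_div, abs_of_pos ht0]
      gcongr
    calc ((Chebyshev.theta t - t) / t) ^ 2 = |(Chebyshev.theta t - t) / t| ^ 2 := (sq_abs _).symm
      _ ≤ (w / y) ^ 2 := by gcongr
      _ = 4 * C ^ 2 * y ^ (2 * Θ + 2 * η - 2) := by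
        rw [hwdef]
        have : y ^ (2 * Θ + 2 * η - 2) = (y ^ (Θ + η) / y) ^ 2 := by
          rw [div_pow, ← Real.rpow_natCast (y ^ (Θ + η)) 2, ← Real.rpow_mul hy0.le, ← Real.rpow_natCast y 2,
            ← Real.rpow_sub hy0]
          congr 1
          push_cast
          ring
        rw [this]
        ring
      _ ≤ y ^ (Θ - η - 1) / 4 := by linarith
  · have h2 := primes_right (y := y) (h := y ^ (1 - 4 * η)) (w := w) (by linarith) hp0 hpy hw (by
      rw [hwdef]; linarith)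
    refine le_trans ?_ h2
    have hl2 : Real.log (2 * y) ≤ 2 * Real.log y := by
      rw [Real.log_mul (by norm_num) hy0.ne']
      have : Real.log 2 ≤ Real.log y := Real.log_le_log (by norm_num) (by linarith)
      linarith
    have hl20 : 0 < Real.log (2 * y) := Real.log_pos (by linarith)
    rw [div_le_div_iff₀ (by linarith) (by linarith)]
    nlinarith

/-- `Kt` varies slowly, trivial bound -/
theorem local_triv {η : ℝ} (hη : 0 < η) (hη1 : 2 * η ≤ 1) :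
    ∀ᶠ y : ℝ in atTop, ∀ t : ℝ, y ≤ t → t ≤ y + y ^ (1 - 2 * η) → |Kt t - Kt y| ≤ y ^ (-η) / 4 := by
  have hlog4 : Real.log 4 ≤ 2 := by
    have : Real.log 4 = 2 * Real.log 2 := by
      rw [show (4 : ℝ) = 2 ^ 2 by norm_num, Real.log_pow]
      norm_num
    have := Real.log_two_lt_d9
    linarith
  filter_upwards [eventually_ge_atTop (3 : ℝ), Real.tendsto_log_atTop.eventually_ge_atTop 1,
    ev_rpow 32 (show -(2 * η) < -η by linarith)] with y hy3 hly e1 t ht1 ht2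
  have hy0 : 0 < y := by linarith
  have hp0 : 0 < y ^ (1 - 2 * η) := Real.rpow_pos_of_pos hy0 _
  have hpy : y ^ (1 - 2 * η) ≤ y := by
    calc y ^ (1 - 2 * η) ≤ y ^ (1 : ℝ) := Real.rpow_le_rpow_of_exponent_le (by linarith) (by linarith)
      _ = y := Real.rpow_one y
  have h2 := Kt_slow (y := y) (z := t) (w := 4 * y) (by linarith) ht1 hly
    (fun u hu1 hu2 => ?_)
  · rw [abs_sub_comm]
    refine h2.trans ?_
    calc (t - y) * (2 * (4 * y) / y ^ 2) ≤ y ^ (1 - 2 * η) * (2 * (4 * y) / y ^ 2) := by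
          gcongr
          linarith
      _ = 8 * y ^ (-(2 * η)) := by
        have : y ^ (-(2 * η)) = y ^ (1 - 2 * η) / y := by
          rw [← Real.rpow_sub_one hy0.ne']
          congr 1
          ring
        rw [this]
        field_simp
        ring
      _ ≤ y ^ (-η) / 4 := by linarith
  · have hu0 : 0 ≤ u := by linarith
    have h3 := Chebyshev.theta_le_log4_mul_x hu0
    have h4 := Chebyshev.theta_nonneg u
    rw [abs_le]
    constructor
    · nlinarith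
    · nlinarith

/-- `mar` is large and negative at many primes -/
theorem many_neg {θ : ℝ} (hθ : 1 / 2 ≤ θ) {ρ : ℂ} (hρ : riemannZeta ρ = 0) (hθρ : θ < ρ.re) {δ : ℝ} (hδ : 0 < δ)
    (hδ1 : δ ≤ 1) :
    ∃ᶠ X : ℕ in atTop, (X : ℝ) ^ (1 - δ) < primeCount (fun p => mar p ≤ -(p ^ (θ - 1))) X := by
  obtain ⟨Y0, hY0⟩ := mar_le_K
  have hρ1 : ρ.re < 1 := by
    by_contra h
    exact riemannZeta_ne_zero_of_one_le_re (not_lt.1 h) hρ
  rcases zero_dich hρ hθρ with ⟨Θ, hΘ1, hΘ2, hz, hap⟩ | hap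
  · set η : ℝ := min (min (δ / 8) ((1 - Θ) / 8)) ((Θ - θ) / 2) with hη
    have hη0 : 0 < η := by
      rw [hη]
      refine lt_min (lt_min ?_ ?_) ?_ <;> linarith
    have hη1 : η ≤ δ / 8 := (min_le_left _ _).trans (min_le_left _ _)
    have hη2 : η ≤ (1 - Θ) / 8 := (min_le_left _ _).trans (min_le_right _ _)
    have hη3 : η ≤ (Θ - θ) / 2 := min_le_right _ _
    obtain ⟨s, hs0, hs1⟩ := hap η hη0
    have hpos := Kt_pos (b := Θ - η) (by linarith) hs0 hs1
    have hloc := local_free (show 1 / 2 ≤ Θ by linarith) hΘ2 hη0 (by linarith) hz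
    have hev := (hloc.and (ev_rpow 2 (show θ - 1 < Θ - η - 1 by linarith))).and (eventually_ge_atTop (max Y0 1))
    obtain ⟨Y1, hY1⟩ := eventually_atTop.1 hev
    refine count_final (η := 4 * η) (c := 1 / 4) (by norm_num) (by linarith) (by linarith) hδ1 fun Y => ?_
    obtain ⟨y, hy1, hy2⟩ := hpos (max Y Y1)
    obtain ⟨⟨⟨h3, h4⟩, h5⟩, h6⟩ := hY1 y ((le_max_right _ _).trans hy1)
    refine ⟨y, (le_max_left _ _).trans hy1, fun t ht1 ht2 => ?_, h4⟩
    obtain ⟨h7, h8⟩ := h3 t ht1.le ht2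
    have hyY0 : Y0 ≤ y := (le_max_left _ _).trans h6
    have hy11 : 1 ≤ y := (le_max_right _ _).trans h6
    have h9 := hY0 t (by linarith)
    have h10 := (abs_le.1 h7).1
    have h11 : t ^ (θ - 1) ≤ y ^ (θ - 1) := Real.rpow_le_rpow_of_nonpos (by linarith) ht1.le (by linarith)
    have e : Θ - η - 1 = Θ - η - 1 := rfl
    show mar t ≤ -(t ^ (θ - 1))
    linarith
  · obtain ⟨δ0, c, hδ0, hc, hH⟩ := hoheisel_real
    set η : ℝ := min (min (δ / 2) (δ0 / 2)) ((1 - θ) / 4) with hη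
    have hη0 : 0 < η := by
      rw [hη]
      refine lt_min (lt_min ?_ ?_) ?_ <;> linarith
    have hη1 : η ≤ δ / 2 := (min_le_left _ _).trans (min_le_left _ _)
    have hη2 : η ≤ δ0 / 2 := (min_le_left _ _).trans (min_le_right _ _)
    have hη3 : η ≤ (1 - θ) / 4 := min_le_right _ _
    have h1 : ∀ Y : ℝ, ∃ y : ℝ, Y ≤ y ∧ Kt y ≤ 0 := by
      intro Y
      obtain ⟨y, hy1, hy2⟩ := Kt_neg (b := 1 / 4) (by norm_num) hρ (by linarith) (max Y 0)
      refine ⟨y, (le_max_left _ _).trans hy1, hy2.le.trans ?_⟩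
      have : 0 ≤ y ^ ((1 : ℝ) / 4 - 1) := Real.rpow_nonneg ((le_max_right _ _).trans hy1) _
      linarith
    have h2 : ∀ Y : ℝ, ∃ y : ℝ, Y ≤ y ∧ y ^ (-(η / 2)) ≤ Kt y := by
      intro Y
      obtain ⟨s, hs0, hs1⟩ := hap (η / 2) (by linarith)
      obtain ⟨y, hy1, hy2⟩ := Kt_pos (b := 1 - η / 2) (by linarith) hs0 hs1 Y
      refine ⟨y, hy1, ?_⟩
      have e : (1 : ℝ) - η / 2 - 1 = -(η / 2) := by ring
      rw [e] at hy2
      exact hy2.le
    have hpk := peak_interval hη0 (by linarith) h1 h2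
    have hev := (((hH η (by linarith) hη0.le).and (ev_rpow 2 (show θ - 1 < -η by linarith)))).and
      (eventually_ge_atTop (1 : ℝ))
    obtain ⟨Y1, hY1⟩ := eventually_atTop.1 hev
    refine count_final (η := η) (c := c) hc (by linarith) hη0.le hδ1 fun Y => ?_
    obtain ⟨y, hy1, hy2⟩ := hpk (max Y Y1)
    obtain ⟨⟨h3, h4⟩, h5⟩ := hY1 y ((le_max_right _ _).trans hy1)
    refine ⟨y, (le_max_left _ _).trans hy1, fun t ht1 ht2 => ?_, h3⟩
    have h6 := hy2 t ht1.le ht2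
    have h11 : t ^ (θ - 1) ≤ y ^ (θ - 1) := Real.rpow_le_rpow_of_nonpos (by linarith) ht1.le (by linarith)
    show mar t ≤ -(t ^ (θ - 1))
    linarith

/-- `mar` is large and positive at many primes -/
theorem many_pos {θ : ℝ} (hθ : 1 / 2 ≤ θ) {ρ : ℂ} (hρ : riemannZeta ρ = 0) (hθρ : θ < ρ.re) {δ : ℝ} (hδ : 0 < δ)
    (hδ1 : δ ≤ 1) :
    ∃ᶠ X : ℕ in atTop, (X : ℝ) ^ (1 - δ) < primeCount (fun p => p ^ (θ - 1) ≤ mar p) X := by
  obtain ⟨Y0, hY04, hY0⟩ := mar_ge_K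
  have hρ1 : ρ.re < 1 := by
    by_contra h
    exact riemannZeta_ne_zero_of_one_le_re (not_lt.1 h) hρ
  rcases zero_dich hρ hθρ with ⟨Θ, hΘ1, hΘ2, hz, hap⟩ | hap
  · set η : ℝ := min (min (δ / 8) ((1 - Θ) / 8)) ((Θ - θ) / 2) with hη
    have hη0 : 0 < η := by
      rw [hη]
      refine lt_min (lt_min ?_ ?_) ?_ <;> linarith
    have hη1 : η ≤ δ / 8 := (min_le_left _ _).trans (min_le_left _ _)
    have hη2 : η ≤ (1 - Θ) / 8 := (min_le_left _ _).trans (min_le_right _ _)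
    have hη3 : η ≤ (Θ - θ) / 2 := min_le_right _ _
    obtain ⟨s, hs0, hs1⟩ := hap η hη0
    have hneg := Kt_neg (b := Θ - η) (by linarith) hs0 hs1
    have hloc := local_free (show 1 / 2 ≤ Θ by linarith) hΘ2 hη0 (by linarith) hz
    have hev := ((hloc.and (ev_rpow 4 (show θ - 1 < Θ - η - 1 by linarith))).and
      (ev_rpow 8 (show (-1 : ℝ) < Θ - η - 1 by linarith))).and (eventually_ge_atTop (max Y0 1))
    obtain ⟨Y1, hY1⟩ := eventually_atTop.1 hev
    refine count_final (η := 4 * η) (c := 1 / 4) (by norm_num) (by linarith) (by linarith) hδ1 fun Y => ?_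
    obtain ⟨y, hy1, hy2⟩ := hneg (max Y Y1)
    obtain ⟨⟨⟨⟨h3, h4⟩, h5⟩, h5'⟩, h6⟩ := hY1 y ((le_max_right _ _).trans hy1)
    refine ⟨y, (le_max_left _ _).trans hy1, fun t ht1 ht2 => ?_, h4⟩
    obtain ⟨h7, h8⟩ := h3 t ht1.le ht2
    have hyY0 : Y0 ≤ y := (le_max_left _ _).trans h6
    have hy11 : 1 ≤ y := (le_max_right _ _).trans h6
    have h9 := hY0 t (by linarith)
    have h10 := (abs_le.1 h7).2
    have h11 : t ^ (θ - 1) ≤ y ^ (θ - 1) := Real.rpow_le_rpow_of_nonpos (by linarith) ht1.le (by linarith)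
    have h12 : 2 / t ≤ 2 * y ^ (-1 : ℝ) := by
      rw [Real.rpow_neg_one, ← div_eq_mul_inv]
      have : 0 < y := by linarith
      gcongr
    have hP : 0 ≤ y ^ (Θ - η - 1) := Real.rpow_nonneg (by linarith) _
    show t ^ (θ - 1) ≤ mar t
    linarith
  · obtain ⟨δ0, c, hδ0, hc, hH⟩ := hoheisel_real
    set η : ℝ := min (min (δ / 4) (δ0 / 4)) ((1 - θ) / 4) with hη
    have hη0 : 0 < η := by
      rw [hη]
      refine lt_min (lt_min ?_ ?_) ?_ <;> linarith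
    have hη1 : η ≤ δ / 4 := (min_le_left _ _).trans (min_le_left _ _)
    have hη2 : η ≤ δ0 / 4 := (min_le_left _ _).trans (min_le_right _ _)
    have hη3 : η ≤ (1 - θ) / 4 := min_le_right _ _
    obtain ⟨s, hs0, hs1⟩ := hap η hη0
    have hneg := Kt_neg (b := 1 - η) (by linarith) hs0 hs1
    have hev := ((((hH (2 * η) (by linarith) (by linarith)).and (ev_rpow 4 (show θ - 1 < -η by linarith)))).and
      ((local_triv hη0 (by linarith)).and (ev_rpow 8 (show (-1 : ℝ) < -η by linarith)))).and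
      (eventually_ge_atTop (max Y0 1))
    obtain ⟨Y1, hY1⟩ := eventually_atTop.1 hev
    refine count_final (η := 2 * η) (c := c) hc (by linarith) (by linarith) hδ1 fun Y => ?_
    obtain ⟨y, hy1, hy2⟩ := hneg (max Y Y1)
    obtain ⟨⟨⟨h3, h4⟩, h5, h5'⟩, h6⟩ := hY1 y ((le_max_right _ _).trans hy1)
    refine ⟨y, (le_max_left _ _).trans hy1, fun t ht1 ht2 => ?_, h3⟩
    have h7 := h5 t ht1.le ht2
    have hyY0 : Y0 ≤ y := (le_max_left _ _).trans h6
    have hy11 : 1 ≤ y := (le_max_right _ _).trans h6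
    have h9 := hY0 t (by linarith)
    have h10 := (abs_le.1 h7).2
    have h11 : t ^ (θ - 1) ≤ y ^ (θ - 1) := Real.rpow_le_rpow_of_nonpos (by linarith) ht1.le (by linarith)
    have h12 : 2 / t ≤ 2 * y ^ (-1 : ℝ) := by
      rw [Real.rpow_neg_one, ← div_eq_mul_inv]
      have : 0 < y := by linarith
      gcongr
    have e : (1 : ℝ) - η - 1 = -η := by ring
    rw [e] at hy2
    have hP : 0 ≤ y ^ (-η) := Real.rpow_nonneg (by linarith) _
    show t ^ (θ - 1) ≤ mar t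
    linarith

end Pool.Agent.H424.RB
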